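import Mathlib

set_option autoImplicit false
open MeasureTheory ProbabilityTheory Filter Topology

namespace Pool.Agent.H563R3.EA

/-- The sites of the lattice `ℤ^d`. -/
abbrev Site (d : ℕ) := Fin d → ℤ

/-- The nearest neighbour edges of `ℤ^d`: the pair `(v, i)` stands for the edge `{v, v + e_i}`. -/
abbrev Edge (d : ℕ) := Site d × Fin d

variable {d : ℕ}

/-- The endpoint `v + e_i` of the edge `(v, i)`. -/
def tgt (e : Edge d) : Site d := e.1 + Pi.single e.2 1

/-- The site `v` is an endpoint of the edge `e`. -/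
def Touches (e : Edge d) (v : Site d) : Prop := v = e.1 ∨ v = tgt e

variable {Ω : Type} {mΩ : MeasurableSpace Ω}

/-- `N e t` is the number of rings of the clock of the edge `e` during `(0, t]`; the clocks are
independent Poisson processes of rate one, and their increments after time `s` are independent of
the information `F s` available at time `s`. -/
structure PoissonClocks (P : Measure Ω) (F : Filtration ℝ mΩ) (N : Edge d → ℝ → Ω → ℕ) : Prop where
  /-- almost surely all paths start at zero, are nondecreasing and right continuous -/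
  paths : ∀ᵐ ω ∂P, ∀ e, N e 0 ω = 0 ∧ (∀ s t, 0 ≤ s → s ≤ t → N e s ω ≤ N e t ω) ∧
    (∀ t, 0 ≤ t → ∀ᶠ s in 𝓝[>] t, N e s ω = N e t ω)
  /-- adaptedness -/
  adapted : ∀ e t, 0 ≤ t → Measurable[F t] (N e t)
  /-- the numbers of rings during `(s, t]` are independent Poisson variables of mean `t - s` -/
  law : ∀ s t, 0 ≤ s → s < t → P.map (fun ω e => N e t ω - N e s ω) =
    Measure.infinitePi (fun _ : Edge d => poissonMeasure (Real.toNNReal (t - s)))
  /-- they are independent of the information at time `s` -/
  indep : ∀ s t, 0 ≤ s → s < t →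
    Indep (F s) (MeasurableSpace.comap (fun ω (e : Edge d) => N e t ω - N e s ω) inferInstance) P

/-- The clock of the edge `e` rings at time `t`. -/
def Rings (N : Edge d → ℝ → Ω → ℕ) (e : Edge d) (t : ℝ) (ω : Ω) : Prop :=
  0 < t ∧ ∀ s, 0 ≤ s → s < t → N e s ω < N e t ω

/-- The edge averaging process `f t ω v`, `t ≥ 0`, driven by the clocks `N`. -/
structure EdgeAveraging (P : Measure Ω) (F : Filtration ℝ mΩ) (N : Edge d → ℝ → Ω → ℕ)
    (f : ℝ → Ω → Site d → ℝ) : Prop where
  /-- the opinions at time `t` depend on the information at time `t` only -/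
  adapted : ∀ t v, 0 ≤ t → Measurable[F t] (fun ω => f t ω v)
  /-- bounded opinions -/
  bounded : ∃ M : ℝ, ∀ᵐ ω ∂P, ∀ t v, 0 ≤ t → |f t ω v| ≤ M
  /-- an opinion does not change as long as no adjacent clock rings -/
  keep : ∀ᵐ ω ∂P, ∀ v s t, 0 ≤ s → s ≤ t → (∀ e, Touches e v → N e t ω = N e s ω) →
    f t ω v = f s ω v
  /-- when a clock rings, both endpoints take the average of their values just before the ring -/
  average : ∀ᵐ ω ∂P, ∀ e t, Rings N e t ω → ∀ a b : ℝ,
    Tendsto (fun s => f s ω e.1) (𝓝[<] t) (𝓝 a) →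
    Tendsto (fun s => f s ω (tgt e)) (𝓝[<] t) (𝓝 b) →
    f t ω e.1 = (a + b) / 2 ∧ f t ω (tgt e) = (a + b) / 2

/-- The law of the initial profile is invariant under the translations of `ℤ^d`. -/
def Stationary (P : Measure Ω) (g : Ω → Site d → ℝ) : Prop :=
  ∀ x : Site d, P.map (fun ω v => g ω (v + x)) = P.map g

end Pool.Agent.H563R3.EA
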