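import Mathlib

set_option autoImplicit false
open Filter Topology

namespace Pool.Agent.H563R3.EA

/-- Abel summation. -/
theorem cesaro_identity (b : ℕ → ℝ) (n : ℕ) :
    n * b n - ∑ k ∈ Finset.range n, b k =
      ∑ i ∈ Finset.range n, ((i : ℝ) + 1) * (b (i + 1) - b i) := by
  induction n with
  | zero => simp
  | succ n ih =>
    rw [Finset.sum_range_succ, Finset.sum_range_succ, ← ih]
    push_cast; ring

/-- A Tauberian lemma. -/
theorem tauber (b : ℕ → ℝ) (L : ℝ)
    (h1 : Summable (fun k : ℕ => ((k : ℝ) + 1) * (b k - b (k + 1)) ^ 2))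
    (h2 : Tendsto (fun n : ℕ => (n : ℝ)⁻¹ * ∑ k ∈ Finset.range n, b k) atTop (𝓝 L)) :
    Tendsto b atTop (𝓝 L) := by
  set c : ℕ → ℝ := fun k => ((k : ℝ) + 1) * (b k - b (k + 1)) ^ 2 with hc
  have hc0 : ∀ k, 0 ≤ c k := fun k => by simp only [hc]; positivity
  have hdiff : Tendsto (fun n : ℕ => b n - (n : ℝ)⁻¹ * ∑ k ∈ Finset.range n, b k) atTop (𝓝 0) := by
    rw [Metric.tendsto_atTop]
    intro ε hε
    set η := ε / 4 with hη
    have hη0 : 0 < η := by positivity
    have ht := h1.hasSum.tendsto_sum_nat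
    obtain ⟨m, hm⟩ := (Metric.tendsto_atTop.1 ht) (η ^ 2) (by positivity)
    set A := ∑ i ∈ Finset.range m, ((i : ℝ) + 1) * |b (i + 1) - b i| with hA
    have hA0 : 0 ≤ A := Finset.sum_nonneg (fun i _ => by positivity)
    obtain ⟨n0, hn0⟩ := exists_nat_gt (A / η)
    refine ⟨max (max n0 1) m, fun n hn => ?_⟩
    have hn1 : 1 ≤ n := (le_max_right n0 1).trans ((le_max_left _ _).trans hn)
    have hnm : m ≤ n := (le_max_right _ _).trans hn
    have hnn0 : (n0 : ℝ) ≤ n := by
      exact_mod_cast (le_max_left n0 1).trans ((le_max_left _ _).trans hn)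
    have hnr : (0 : ℝ) < n := by exact_mod_cast hn1
    rw [Real.dist_eq, sub_zero]
    have e1 : b n - (n : ℝ)⁻¹ * ∑ k ∈ Finset.range n, b k =
        (n : ℝ)⁻¹ * ∑ i ∈ Finset.range n, ((i : ℝ) + 1) * (b (i + 1) - b i) := by
      rw [← cesaro_identity]; field_simp
    rw [e1, abs_mul, abs_of_pos (inv_pos.2 hnr)]
    have e2 : |∑ i ∈ Finset.range n, ((i : ℝ) + 1) * (b (i + 1) - b i)| ≤
        ∑ i ∈ Finset.range n, ((i : ℝ) + 1) * |b (i + 1) - b i| := by
      refine (Finset.abs_sum_le_sum_abs _ _).trans (le_of_eq ?_)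
      refine Finset.sum_congr rfl (fun i _ => ?_)
      rw [abs_mul, abs_of_nonneg (by positivity)]
    have e3 : ∑ i ∈ Finset.range n, ((i : ℝ) + 1) * |b (i + 1) - b i| =
        A + ∑ i ∈ Finset.Ico m n, ((i : ℝ) + 1) * |b (i + 1) - b i| := by
      rw [hA, Finset.sum_range_add_sum_Ico _ hnm]
    have e4 : ∑ i ∈ Finset.Ico m n, ((i : ℝ) + 1) * |b (i + 1) - b i| ≤
        ∑ i ∈ Finset.Ico m n, (η + n / (4 * η) * c i) := by
      refine Finset.sum_le_sum (fun i hi => ?_)
      have hin : (i : ℝ) + 1 ≤ n := by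
        have := (Finset.mem_Ico.1 hi).2
        exact_mod_cast this
      set x := |b (i + 1) - b i| with hx
      have hx2 : (b i - b (i + 1)) ^ 2 = x ^ 2 := by rw [hx, sq_abs]; ring
      have hi0 : (0 : ℝ) ≤ i := Nat.cast_nonneg i
      have hx0 : 0 ≤ x := abs_nonneg _
      have h3 : ((i : ℝ) + 1) * x ≤ η + (((i : ℝ) + 1) * x) ^ 2 / (4 * η) := by
        have h4 : 0 ≤ (2 * η - ((i : ℝ) + 1) * x) ^ 2 := sq_nonneg _
        have h5 : (((i : ℝ) + 1) * x) ^ 2 / (4 * η) =
          ((((i : ℝ) + 1) * x) ^ 2) / (4 * η) := rfl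
        rw [← sub_nonneg]
        have h6 : η + (((i : ℝ) + 1) * x) ^ 2 / (4 * η) - ((i : ℝ) + 1) * x =
            (2 * η - ((i : ℝ) + 1) * x) ^ 2 / (4 * η) := by field_simp; ring
        rw [h6]; positivity
      refine h3.trans (add_le_add le_rfl ?_)
      simp only [hc, hx2]
      rw [div_mul_eq_mul_div]
      apply div_le_div_of_nonneg_right _ (by positivity)
      have h7 : (((i : ℝ) + 1) * x) ^ 2 = ((i : ℝ) + 1) * (((i : ℝ) + 1) * x ^ 2) := by ring
      rw [h7]
      exact mul_le_mul_of_nonneg_right hin (by positivity)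
    have e5 : ∑ i ∈ Finset.Ico m n, (η + n / (4 * η) * c i) ≤ n * η + n / (4 * η) * η ^ 2 := by
      rw [Finset.sum_add_distrib, Finset.sum_const, nsmul_eq_mul, ← Finset.mul_sum]
      have h3 : ((Finset.Ico m n).card : ℝ) ≤ n := by
        rw [Nat.card_Ico]; exact_mod_cast Nat.sub_le n m
      have h4 : ∑ i ∈ Finset.Ico m n, c i ≤ η ^ 2 := by
        have h5 : ∑ i ∈ Finset.range n, c i ≤ ∑' i, c i := h1.sum_le_tsum _ (fun i _ => hc0 i)
        have h6 := Finset.sum_range_add_sum_Ico c hnm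
        have h7 := hm m le_rfl
        rw [Real.dist_eq] at h7
        have h8 := (abs_lt.1 h7).1
        linarith
      gcongr
    have e6 : ∑ i ∈ Finset.range n, ((i : ℝ) + 1) * |b (i + 1) - b i| ≤
        A + (n * η + n / (4 * η) * η ^ 2) := by
      rw [e3]; linarith
    have e7 : n / (4 * η) * η ^ 2 = n * (η / 4) := by field_simp
    have e8 : A < n * η := by
      rw [div_lt_iff₀ hη0] at hn0
      nlinarith
    calc (n : ℝ)⁻¹ * |∑ i ∈ Finset.range n, ((i : ℝ) + 1) * (b (i + 1) - b i)|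
        ≤ (n : ℝ)⁻¹ * (A + (n * η + n / (4 * η) * η ^ 2)) := by
          apply mul_le_mul_of_nonneg_left (e2.trans e6) (by positivity)
      _ < (n : ℝ)⁻¹ * (n * η + (n * η + n * (η / 4))) := by
          apply mul_lt_mul_of_pos_left _ (inv_pos.2 hnr)
          rw [e7]; linarith
      _ = η + η + η / 4 := by
          rw [← mul_add, ← mul_add, inv_mul_cancel_left₀ hnr.ne']; ring
      _ < ε := by rw [hη]; linarith
  have h3 := hdiff.add h2
  simpa using h3

/-- Poisson averages of a convergent sequence. -/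
theorem poisson_avg (b : ℕ → ℝ) (L M : ℝ) (hb : Tendsto b atTop (𝓝 L)) (hM : ∀ n, |b n| ≤ M)
    (y : ℝ → ℝ) (hy : ∀ x, 0 ≤ x →
      HasSum (fun n : ℕ => Real.exp (-x) * (x ^ n / n.factorial * b n)) (y x)) :
    Tendsto y atTop (𝓝 L) := by
  have hLM : |L| ≤ M := le_of_tendsto' hb.abs hM
  rw [Metric.tendsto_atTop]
  intro ε hε
  obtain ⟨m, hm⟩ := (Metric.tendsto_atTop.1 hb) (ε / 2) (by positivity)
  have hlim : Tendsto (fun x : ℝ => ∑ n ∈ Finset.range m, Real.exp (-x) * (x ^ n / n.factorial) *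
      (2 * M)) atTop (𝓝 0) := by
    have h1 : Tendsto (fun x : ℝ => ∑ n ∈ Finset.range m, Real.exp (-x) * (x ^ n / n.factorial) *
      (2 * M)) atTop (𝓝 (∑ n ∈ Finset.range m, (0 : ℝ))) := by
      refine tendsto_finsetSum _ (fun n _ => ?_)
      have h2 := (Real.tendsto_pow_mul_exp_neg_atTop_nhds_zero n).mul_const
        (((n.factorial : ℝ))⁻¹ * (2 * M))
      rw [zero_mul] at h2
      refine h2.congr (fun x => ?_)
      rw [div_eq_mul_inv]; ring
    simpa using h1
  obtain ⟨x0, hx0⟩ := (Metric.tendsto_atTop.1 hlim) (ε / 2) (by positivity)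
  refine ⟨max x0 0, fun x hx => ?_⟩
  have hx1 : x0 ≤ x := (le_max_left _ _).trans hx
  have hx2 : 0 ≤ x := (le_max_right _ _).trans hx
  rw [Real.dist_eq]
  have hw0 : ∀ n : ℕ, 0 ≤ Real.exp (-x) * (x ^ n / n.factorial) := fun n => by positivity
  have hw : HasSum (fun n : ℕ => Real.exp (-x) * (x ^ n / n.factorial)) 1 := by
    have h1 : HasSum (fun n : ℕ => x ^ n / (n.factorial : ℝ)) (Real.exp x) := by
      rw [Real.exp_eq_exp_ℝ]
      exact NormedSpace.expSeries_div_hasSum_exp x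
    have h2 := h1.mul_left (Real.exp (-x))
    rwa [← Real.exp_add, neg_add_cancel, Real.exp_zero] at h2
  have h1 : HasSum (fun n : ℕ => Real.exp (-x) * (x ^ n / n.factorial) * (b n - L)) (y x - L) := by
    have h2 := (hy x hx2).sub (hw.mul_right L)
    rw [one_mul] at h2
    refine h2.congr_fun (fun n => ?_)
    ring
  have hbL : ∀ n, |b n - L| ≤ 2 * M := fun n => by
    have h3 := abs_sub (b n) L
    have h4 := hM n
    linarith
  have hpt : ∀ n : ℕ, |Real.exp (-x) * (x ^ n / n.factorial) * (b n - L)| ≤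
      (if n < m then Real.exp (-x) * (x ^ n / n.factorial) * (2 * M) else 0) +
      Real.exp (-x) * (x ^ n / n.factorial) * (ε / 2) := by
    intro n
    rw [abs_mul, abs_of_nonneg (hw0 n)]
    split_ifs with hn
    · have h3 := mul_le_mul_of_nonneg_left (hbL n) (hw0 n)
      have h4 : 0 ≤ Real.exp (-x) * (x ^ n / n.factorial) * (ε / 2) :=
        mul_nonneg (hw0 n) (by positivity)
      linarith
    · have h3 := hm n (not_lt.1 hn)
      rw [Real.dist_eq] at h3
      have h4 := mul_le_mul_of_nonneg_left h3.le (hw0 n)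
      linarith
  have hs1 : HasSum (fun n : ℕ => (if n < m then Real.exp (-x) * (x ^ n / n.factorial) * (2 * M)
      else 0)) (∑ n ∈ Finset.range m, Real.exp (-x) * (x ^ n / n.factorial) * (2 * M)) := by
    have h3 : HasSum (fun n : ℕ => (if n < m then Real.exp (-x) * (x ^ n / n.factorial) * (2 * M)
        else 0)) (∑ n ∈ Finset.range m, (if n < m then Real.exp (-x) * (x ^ n / n.factorial) * (2 * M)
        else 0)) :=
      hasSum_sum_of_ne_finset_zero (fun n hn => by rw [if_neg]; simpa using hn)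
    have h4 : ∑ n ∈ Finset.range m, (if n < m then Real.exp (-x) * (x ^ n / n.factorial) * (2 * M)
        else 0) = ∑ n ∈ Finset.range m, Real.exp (-x) * (x ^ n / n.factorial) * (2 * M) :=
      Finset.sum_congr rfl (fun n hn => by rw [if_pos (Finset.mem_range.1 hn)])
    rwa [h4] at h3
  have hs2 : HasSum (fun n : ℕ => Real.exp (-x) * (x ^ n / n.factorial) * (ε / 2)) (ε / 2) := by
    have := hw.mul_right (ε / 2)
    rwa [one_mul] at this
  have hs3 := hs1.add hs2
  have habs : Summable (fun n : ℕ => |Real.exp (-x) * (x ^ n / n.factorial) * (b n - L)|) :=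
    Summable.of_nonneg_of_le (fun n => abs_nonneg _) hpt hs3.summable
  have h5 : |y x - L| ≤ ∑' n : ℕ, |Real.exp (-x) * (x ^ n / n.factorial) * (b n - L)| := by
    rw [← h1.tsum_eq]
    exact norm_tsum_le_tsum_norm (f := fun n : ℕ =>
      Real.exp (-x) * (x ^ n / n.factorial) * (b n - L)) habs
  have h6 := habs.tsum_le_tsum hpt hs3.summable
  rw [hs3.tsum_eq] at h6
  have h7 := hx0 x hx1
  rw [Real.dist_eq, sub_zero] at h7
  have h8 := (abs_lt.1 h7).2
  linarith

end Pool.Agent.H563R3.EA
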