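import Mathlib

set_option autoImplicit false
set_option linter.unusedSectionVars false
set_option linter.unusedVariables false
open MeasureTheory ProbabilityTheory Filter Topology
open scoped ENNReal InnerProductSpace

namespace Pool.Agent.H563R3.EA

section hilbert

variable {E : Type*} [NormedAddCommGroup E] [InnerProductSpace ℝ E]

/-- The discrete square function estimate. -/
theorem square_function (T : E →L[ℝ] E) (hsym : ∀ x y, ⟪T x, y⟫_ℝ = ⟪x, T y⟫_ℝ)
    (hpos : ∀ x, 0 ≤ ⟪T x, x⟫_ℝ) (hpos2 : ∀ x, 0 ≤ ⟪T x - T (T x), x⟫_ℝ) (x : E) (n : ℕ) :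
    ∑ k ∈ Finset.range n, ((k : ℝ) + 1) * ‖(T ^ k) x - (T ^ (k + 1)) x‖ ^ 2 ≤ ‖x‖ ^ 2 := by
  have hs : ∀ k, (T ^ (k + 1)) x = T ((T ^ k) x) := fun k => by rw [pow_succ']; rfl
  -- main quantities for y
  have k1 : ∀ y, ⟪y - T y, y⟫_ℝ = ‖y - T y‖ ^ 2 + ⟪T y - T (T y), y⟫_ℝ := by
    intro y
    rw [← real_inner_self_eq_norm_sq]
    simp only [inner_sub_left, inner_sub_right]
    rw [hsym (T y) y, hsym y y, real_inner_comm (T y) y]
    ring
  have k2 : ∀ y, 0 ≤ ⟪y - T y, y⟫_ℝ := fun y => by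
    rw [k1]; have := hpos2 y; positivity
  have k3 : ∀ y, ⟪y - T y, y⟫_ℝ - ⟪T y - T (T y), T y⟫_ℝ =
      ‖y - T y‖ ^ 2 + ⟪T (y - T y), y - T y⟫_ℝ := by
    intro y
    rw [← real_inner_self_eq_norm_sq]
    simp only [inner_sub_left, inner_sub_right, map_sub]
    rw [hsym (T y) y, hsym y y, real_inner_comm (T y) y]
    ring
  have k4 : ∀ y, ‖y‖ ^ 2 - ‖T y‖ ^ 2 = ⟪y - T y, y⟫_ℝ + ⟪T y - T (T y), y⟫_ℝ := by
    intro y
    rw [← real_inner_self_eq_norm_sq, ← real_inner_self_eq_norm_sq]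
    simp only [inner_sub_left]
    rw [hsym (T y) y]
    ring
  have key : ∀ n, ∑ k ∈ Finset.range n, ((k : ℝ) + 1) * ‖(T ^ k) x - (T ^ (k + 1)) x‖ ^ 2 ≤
      ‖x‖ ^ 2 - ‖(T ^ n) x‖ ^ 2 - n * ⟪(T ^ n) x - (T ^ (n + 1)) x, (T ^ n) x⟫_ℝ := by
    intro n
    induction n with
    | zero => simp
    | succ n ih =>
      rw [Finset.sum_range_succ]
      set y := (T ^ n) x with hy
      have e1 : (T ^ (n + 1)) x = T y := hs n
      have e2 : (T ^ (n + 1 + 1)) x = T (T y) := by rw [hs (n + 1), e1]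
      rw [e1] at ih ⊢
      rw [e2]
      have h1 := k3 y
      have h2 := hpos (y - T y)
      have h3 := k4 y
      have h4 := hpos2 y
      have h5 : (0 : ℝ) ≤ n := Nat.cast_nonneg n
      have hc : ((n + 1 : ℕ) : ℝ) = n + 1 := by push_cast; ring
      rw [hc]
      have h6 : 0 ≤ ((n : ℝ) + 1) * ⟪T (y - T y), y - T y⟫_ℝ := mul_nonneg (by linarith) h2
      nlinarith
  have h1 := key n
  have h2 := k2 ((T ^ n) x)
  rw [← hs n] at h2
  have h5 : (0 : ℝ) ≤ n := Nat.cast_nonneg n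
  have h6 : 0 ≤ (n : ℝ) * ⟪(T ^ n) x - (T ^ (n + 1)) x, (T ^ n) x⟫_ℝ := mul_nonneg h5 h2
  have h7 : 0 ≤ ‖(T ^ n) x‖ ^ 2 := sq_nonneg _
  linarith

end hilbert

section averages

variable {S J : Type} [Fintype J]

/-- Average over the maps `τ j`. -/
noncomputable def TT (τ : J → S → S) : (S → ℝ) →ₗ[ℝ] (S → ℝ) where
  toFun F := fun x => (Fintype.card J : ℝ)⁻¹ * ∑ j, F (τ j x)
  map_add' F G := by
    funext x
    simp only [Pi.add_apply, Finset.sum_add_distrib, mul_add]
  map_smul' c F := by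
    funext x
    simp only [Pi.smul_apply, smul_eq_mul, RingHom.id_apply, ← Finset.mul_sum]
    ring

theorem TT_apply (τ : J → S → S) (F : S → ℝ) (x : S) :
    TT τ F x = (Fintype.card J : ℝ)⁻¹ * ∑ j, F (τ j x) := rfl

theorem TT_mono (τ : J → S → S) {F G : S → ℝ} (h : ∀ x, F x ≤ G x) (x : S) :
    TT τ F x ≤ TT τ G x := by
  rw [TT_apply, TT_apply]
  exact mul_le_mul_of_nonneg_left (Finset.sum_le_sum (fun j _ => h _)) (by positivity)

theorem TT_pow_succ (τ : J → S → S) (n : ℕ) (F : S → ℝ) :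
    (TT τ ^ (n + 1)) F = TT τ ((TT τ ^ n) F) := by rw [pow_succ']; rfl

theorem TT_pow_mono (τ : J → S → S) (n : ℕ) {F G : S → ℝ} (h : ∀ x, F x ≤ G x) (x : S) :
    (TT τ ^ n) F x ≤ (TT τ ^ n) G x := by
  induction n generalizing x with
  | zero => simpa using h x
  | succ n ih => rw [TT_pow_succ, TT_pow_succ]; exact TT_mono τ ih x

theorem TT_const [Nonempty J] (τ : J → S → S) (c : ℝ) : TT τ (fun _ => c) = fun _ => c := by
  funext x
  rw [TT_apply, Finset.sum_const, Finset.card_univ, nsmul_eq_mul, ← mul_assoc,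
    inv_mul_cancel₀ (by exact_mod_cast Fintype.card_ne_zero), one_mul]

theorem TT_pow_const [Nonempty J] (τ : J → S → S) (c : ℝ) (n : ℕ) :
    (TT τ ^ n) (fun _ => c) = fun _ => c := by
  induction n with
  | zero => rfl
  | succ n ih => rw [TT_pow_succ, ih, TT_const]

theorem TT_pow_bound [Nonempty J] (τ : J → S → S) (F : S → ℝ) (M : ℝ) (h : ∀ x, |F x| ≤ M) (n : ℕ)
    (x : S) : |(TT τ ^ n) F x| ≤ M := by
  have h1 := TT_pow_mono τ n (F := F) (G := fun _ => M) (fun x => (abs_le.1 (h x)).2) x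
  have h2 := TT_pow_mono τ n (F := fun _ => -M) (G := F) (fun x => (abs_le.1 (h x)).1) x
  rw [TT_pow_const] at h1 h2
  exact abs_le.2 ⟨h2, h1⟩

variable [MeasurableSpace S]

theorem TT_meas {τ : J → S → S} (hτ : ∀ j, Measurable (τ j)) {F : S → ℝ} (hF : Measurable F) :
    Measurable (TT τ F) := by
  have : TT τ F = fun x => (Fintype.card J : ℝ)⁻¹ * ∑ j, F (τ j x) := rfl
  rw [this]
  exact (Finset.measurable_sum _ (fun j _ => hF.comp (hτ j))).const_mul _

theorem TT_pow_meas {τ : J → S → S} (hτ : ∀ j, Measurable (τ j)) {F : S → ℝ} (hF : Measurable F)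
    (n : ℕ) : Measurable ((TT τ ^ n) F) := by
  induction n with
  | zero => exact hF
  | succ n ih => rw [TT_pow_succ]; exact TT_meas hτ ih

variable {μ : Measure S} [IsProbabilityMeasure μ]

theorem TT_integrable {τ : J → S → S} (hτ : ∀ j, MeasurePreserving (τ j) μ μ) {F : S → ℝ}
    (hF : Integrable F μ) : Integrable (TT τ F) μ := by
  have : TT τ F = fun x => (Fintype.card J : ℝ)⁻¹ * ∑ j, F (τ j x) := rfl
  rw [this]
  exact (integrable_finsetSum _ (fun j _ => (hτ j).integrable_comp_of_integrable hF)).const_mul _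

theorem TT_integral [Nonempty J] {τ : J → S → S} (hτ : ∀ j, MeasurePreserving (τ j) μ μ)
    {F : S → ℝ} (hF : Integrable F μ) : ∫ x, TT τ F x ∂μ = ∫ x, F x ∂μ := by
  simp only [TT_apply]
  have hj : ∀ j, Integrable (fun x => F (τ j x)) μ := fun j =>
    (hτ j).integrable_comp_of_integrable hF
  rw [integral_const_mul, integral_finsetSum _ (fun j _ => hj j)]
  have h1 : ∀ j, ∫ x, F (τ j x) ∂μ = ∫ x, F x ∂μ := by
    intro j
    conv_rhs => rw [← (hτ j).map_eq]
    rw [integral_map (hτ j).aemeasurable (by rw [(hτ j).map_eq]; exact hF.aestronglyMeasurable)]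
  simp only [h1]
  rw [Finset.sum_const, Finset.card_univ, nsmul_eq_mul, ← mul_assoc,
    inv_mul_cancel₀ (by exact_mod_cast Fintype.card_ne_zero), one_mul]

/-- Maximal partial sums. -/
noncomputable def Mx (τ : J → S → S) (f : S → ℝ) : ℕ → S → ℝ
  | 0 => fun _ => 0
  | n + 1 => fun x => max 0 (f x + TT τ (Mx τ f n) x)

theorem Mx_mono (τ : J → S → S) (f : S → ℝ) (n : ℕ) : ∀ x, Mx τ f n x ≤ Mx τ f (n + 1) x := by
  induction n with
  | zero => intro x; exact le_max_left _ _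
  | succ n ih =>
    intro x
    exact max_le_max le_rfl (add_le_add le_rfl (TT_mono τ ih x))

theorem Mx_nonneg (τ : J → S → S) (f : S → ℝ) (n : ℕ) (x : S) : 0 ≤ Mx τ f n x := by
  cases n with
  | zero => exact le_rfl
  | succ n => exact le_max_left _ _

theorem Mx_integrable {τ : J → S → S} (hτ : ∀ j, MeasurePreserving (τ j) μ μ) {f : S → ℝ}
    (hf : Integrable f μ) (n : ℕ) : Integrable (Mx τ f n) μ := by
  induction n with
  | zero => exact integrable_zero _ _ _
  | succ n ih => exact (integrable_zero S ℝ μ).sup (hf.add (TT_integrable hτ ih))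

theorem Mx_meas {τ : J → S → S} (hτ : ∀ j, Measurable (τ j)) {f : S → ℝ} (hf : Measurable f)
    (n : ℕ) : Measurable (Mx τ f n) := by
  induction n with
  | zero => exact measurable_const
  | succ n ih => exact measurable_const.max (hf.add (TT_meas hτ ih))

theorem Mx_sum (τ : J → S → S) (f : S → ℝ) (n : ℕ) :
    ∀ x, ∑ j ∈ Finset.range n, (TT τ ^ j) f x ≤ Mx τ f n x := by
  induction n with
  | zero => intro x; simp [Mx]
  | succ n ih =>
    intro x
    have h1 : ∑ j ∈ Finset.range (n + 1), (TT τ ^ j) f x =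
        f x + TT τ (fun y => ∑ j ∈ Finset.range n, (TT τ ^ j) f y) x := by
      rw [Finset.sum_range_succ']
      have h2 : (fun y => ∑ j ∈ Finset.range n, (TT τ ^ j) f y) =
          ∑ j ∈ Finset.range n, (TT τ ^ j) f := by
        funext y; rw [Finset.sum_apply]
      rw [h2, map_sum, Finset.sum_apply]
      simp only [TT_pow_succ, pow_zero]
      rw [add_comm]
      rfl
    rw [h1]
    exact (add_le_add le_rfl (TT_mono τ ih x)).trans (le_max_right _ _)

/-- The maximal ergodic inequality. -/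
theorem maximal [Nonempty J] {τ : J → S → S} (hτ : ∀ j, MeasurePreserving (τ j) μ μ) (F : S → ℝ)
    (hFm : Measurable F) (hF : Integrable F μ) (hF0 : ∀ x, 0 ≤ F x) (δ : ℝ) (hδ : 0 < δ) :
    μ {x | ∃ n : ℕ, n * δ < ∑ j ∈ Finset.range n, (TT τ ^ j) F x} ≤
      ENNReal.ofReal ((∫ x, F x ∂μ) / δ) := by
  set f : S → ℝ := fun x => F x - δ with hf
  have hfm : Measurable f := hFm.sub_const δ
  have hfi : Integrable f μ := hF.sub (integrable_const _)
  have hτm : ∀ j, Measurable (τ j) := fun j => (hτ j).measurable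
  have hsub : {x | ∃ n : ℕ, n * δ < ∑ j ∈ Finset.range n, (TT τ ^ j) F x} ⊆
      ⋃ n, {x | 0 < Mx τ f n x} := by
    rintro x ⟨n, hn⟩
    refine Set.mem_iUnion.2 ⟨n, lt_of_lt_of_le ?_ (Mx_sum τ f n x)⟩
    have h1 : ∀ j, (TT τ ^ j) f x = (TT τ ^ j) F x - δ := by
      intro j
      have : f = F - (fun _ => δ) := rfl
      rw [this, map_sub, TT_pow_const]
      rfl
    simp only [h1]
    rw [Finset.sum_sub_distrib, Finset.sum_const, Finset.card_range, nsmul_eq_mul]
    linarith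
  have hmono : Monotone (fun n => {x | 0 < Mx τ f n x}) :=
    monotone_nat_of_le_succ (fun n x hx => lt_of_lt_of_le hx (Mx_mono τ f n x))
  have hbound : ∀ n, μ {x | 0 < Mx τ f n x} ≤ ENNReal.ofReal ((∫ x, F x ∂μ) / δ) := by
    intro n
    rcases n with _ | n
    · have : {x : S | 0 < Mx τ f 0 x} = ∅ := by
        ext x; simp [Mx]
      rw [this]; simp
    set A : Set S := {x | 0 < Mx τ f (n + 1) x} with hA
    have hAm : MeasurableSet A := measurableSet_lt measurable_const (Mx_meas hτm hfm (n + 1))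
    have hi1 := Mx_integrable hτ hfi (n + 1)
    have hi2 := TT_integrable hτ hi1
    have h1 : ∀ x, Mx τ f (n + 1) x - TT τ (Mx τ f (n + 1)) x ≤ A.indicator f x := by
      intro x
      have h2 : TT τ (Mx τ f n) x ≤ TT τ (Mx τ f (n + 1)) x := TT_mono τ (Mx_mono τ f n) x
      by_cases hx : x ∈ A
      · rw [Set.indicator_of_mem hx]
        have h3 : Mx τ f (n + 1) x = f x + TT τ (Mx τ f n) x := by
          have h4 : 0 < max 0 (f x + TT τ (Mx τ f n) x) := hx
          show max 0 (f x + TT τ (Mx τ f n) x) = _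
          rcases max_choice 0 (f x + TT τ (Mx τ f n) x) with h5 | h5
          · rw [h5] at h4; exact absurd h4 (lt_irrefl _)
          · exact h5
        linarith
      · rw [Set.indicator_of_notMem hx]
        have h3 : Mx τ f (n + 1) x ≤ 0 := not_lt.1 hx
        have h4 : 0 ≤ TT τ (Mx τ f (n + 1)) x := by
          have := TT_mono τ (F := fun _ => 0) (G := Mx τ f (n + 1)) (Mx_nonneg τ f (n + 1)) x
          rwa [TT_const] at this
        linarith
    have h2 : 0 ≤ ∫ x, A.indicator f x ∂μ := by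
      have h3 : ∫ x, (Mx τ f (n + 1) x - TT τ (Mx τ f (n + 1)) x) ∂μ = 0 := by
        rw [integral_sub hi1 hi2, TT_integral hτ hi1, sub_self]
      rw [← h3]
      exact integral_mono (hi1.sub hi2) (hfi.indicator hAm) h1
    rw [integral_indicator hAm] at h2
    have h4 : ∫ x in A, f x ∂μ = ∫ x in A, F x ∂μ - δ * μ.real A := by
      simp only [hf]
      rw [integral_sub hF.integrableOn (integrableOn_const (measure_ne_top μ A)), setIntegral_const,
        smul_eq_mul, mul_comm]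
    have h5 : ∫ x in A, F x ∂μ ≤ ∫ x, F x ∂μ :=
      setIntegral_le_integral hF (Eventually.of_forall hF0)
    have h6 : μ.real A ≤ (∫ x, F x ∂μ) / δ := by
      rw [le_div_iff₀ hδ]; linarith
    calc μ A = ENNReal.ofReal (μ.real A) := (ofReal_measureReal).symm
      _ ≤ _ := ENNReal.ofReal_le_ofReal h6
  calc μ {x | ∃ n : ℕ, n * δ < ∑ j ∈ Finset.range n, (TT τ ^ j) F x}
      ≤ μ (⋃ n, {x | 0 < Mx τ f n x}) := measure_mono hsub
    _ = ⨆ n, μ {x | 0 < Mx τ f n x} := hmono.measure_iUnion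
    _ ≤ _ := iSup_le hbound

/-- Sums of a bounded sequence and of its shift. -/
theorem shift_sum (b : ℕ → ℝ) (M : ℝ) (hb : ∀ j, |b j| ≤ M) (n k : ℕ) :
    |∑ j ∈ Finset.range n, b j - ∑ j ∈ Finset.range n, b (j + k)| ≤ 2 * k * M := by
  have h1 : ∑ j ∈ Finset.range n, b (j + k) = ∑ j ∈ Finset.range (n + k), b j -
      ∑ j ∈ Finset.range k, b j := by
    rw [add_comm n k, Finset.sum_range_add]
    simp only [add_comm k, add_sub_cancel_left]
  have h2 : ∑ j ∈ Finset.range (n + k), b j = ∑ j ∈ Finset.range n, b j +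
      ∑ j ∈ Finset.range k, b (n + j) := Finset.sum_range_add _ _ _
  rw [h1, h2]
  have h3 : ∀ c : ℕ → ℝ, (∀ j, |c j| ≤ M) → |∑ j ∈ Finset.range k, c j| ≤ k * M := by
    intro c hc
    calc |∑ j ∈ Finset.range k, c j| ≤ ∑ j ∈ Finset.range k, |c j| := Finset.abs_sum_le_sum_abs _ _
      _ ≤ ∑ j ∈ Finset.range k, M := Finset.sum_le_sum (fun j _ => hc j)
      _ = k * M := by rw [Finset.sum_const, Finset.card_range, nsmul_eq_mul]
  have h4 := h3 b hb
  have h5 := h3 (fun j => b (n + j)) (fun j => hb _)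
  have e : ∑ j ∈ Finset.range n, b j - (∑ j ∈ Finset.range n, b j +
      ∑ j ∈ Finset.range k, b (n + j) - ∑ j ∈ Finset.range k, b j) =
      ∑ j ∈ Finset.range k, b j - ∑ j ∈ Finset.range k, b (n + j) := by ring
  rw [e]
  calc |∑ j ∈ Finset.range k, b j - ∑ j ∈ Finset.range k, b (n + j)|
      ≤ |∑ j ∈ Finset.range k, b j| + |∑ j ∈ Finset.range k, b (n + j)| := abs_sub _ _
    _ ≤ 2 * k * M := by linarith

/-- Cesàro averages. -/
noncomputable def AN (τ : J → S → S) (φ : S → ℝ) (n : ℕ) (x : S) : ℝ :=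
  (n : ℝ)⁻¹ * ∑ k ∈ Finset.range n, (TT τ ^ k) φ x

/-- The pointwise ergodic theorem. -/
theorem pointwise [Nonempty J] {τ : J → S → S} (hτ : ∀ j, MeasurePreserving (τ j) μ μ) (φ h : S → ℝ)
    (M : ℝ) (hφm : Measurable φ) (hφ : ∀ x, |φ x| ≤ M) (hhm : Measurable h) (hh : Integrable h μ)
    (hinv : ∀ᵐ x ∂μ, ∀ j : ℕ, (TT τ ^ j) h x = h x)
    (hL : Tendsto (fun N => ∫ x, |AN τ φ N x - h x| ∂μ) atTop (𝓝 0)) :
    ∀ᵐ x ∂μ, Tendsto (fun n => AN τ φ n x) atTop (𝓝 (h x)) := by
  have hM : 0 ≤ M := by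
    obtain ⟨x⟩ := μ.nonempty_of_neZero
    exact (abs_nonneg _).trans (hφ x)
  have hτm : ∀ j, Measurable (τ j) := fun j => (hτ j).measurable
  have hb : ∀ j x, |(TT τ ^ j) φ x| ≤ M := fun j x => TT_pow_bound τ φ M hφ j x
  have hANm : ∀ N, Measurable (AN τ φ N) := fun N =>
    (Finset.measurable_sum _ (fun k _ => TT_pow_meas hτm hφm k)).const_mul _
  have hANi : ∀ N, Integrable (AN τ φ N) μ := by
    intro N
    have : AN τ φ N = fun x => (N : ℝ)⁻¹ * ∑ k ∈ Finset.range N, (TT τ ^ k) φ x := rfl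
    rw [this]
    refine (integrable_finsetSum _ (fun k _ => ?_)).const_mul _
    exact Integrable.of_bound (TT_pow_meas hτm hφm k).aestronglyMeasurable M
      (Eventually.of_forall (fun x => by rw [Real.norm_eq_abs]; exact hb k x))
  set F : ℕ → S → ℝ := fun N x => |AN τ φ N x - h x| with hF
  have hFm : ∀ N, Measurable (F N) := fun N => ((hANm N).sub hhm).abs
  have hFi : ∀ N, Integrable (F N) μ := fun N => ((hANi N).sub hh).abs
  set Bad : ℕ → ℝ → Set S := fun N δ =>
    {x | ∃ n : ℕ, n * δ < ∑ j ∈ Finset.range n, (TT τ ^ j) (F N) x} with hBad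
  -- key estimate
  have key : ∀ᵐ x ∂μ, ∀ N : ℕ, 0 < N → ∀ δ : ℝ, x ∉ Bad N δ → ∀ n : ℕ, 0 < n →
      |AN τ φ n x - h x| ≤ δ + 2 * N * M / n := by
    filter_upwards [hinv] with x hx N hN δ hBx n hn
    have hNr : (0 : ℝ) < N := by exact_mod_cast hN
    have hnr : (0 : ℝ) < n := by exact_mod_cast hn
    set b : ℕ → ℝ := fun j => (TT τ ^ j) φ x with hbdef
    have e1 : ∀ j, (TT τ ^ j) (fun y => AN τ φ N y - h y) x =
        (N : ℝ)⁻¹ * ∑ k ∈ Finset.range N, b (j + k) - h x := by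
      intro j
      have e2 : (fun y => AN τ φ N y - h y) =
          (N : ℝ)⁻¹ • (∑ k ∈ Finset.range N, (TT τ ^ k) φ) - h := by
        funext y
        simp [AN, Finset.sum_apply]
      rw [e2, map_sub, map_smul, map_sum]
      simp only [Pi.sub_apply, Pi.smul_apply, Finset.sum_apply, smul_eq_mul, hx j]
      congr 2
      refine Finset.sum_congr rfl (fun k _ => ?_)
      rw [← Module.End.mul_apply, ← pow_add]
    have e3 : |∑ j ∈ Finset.range n, (TT τ ^ j) (fun y => AN τ φ N y - h y) x| ≤ n * δ := by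
      have h1 : ∑ j ∈ Finset.range n, (TT τ ^ j) (F N) x ≤ n * δ := by
        by_contra hcon
        push Not at hcon
        exact hBx ⟨n, hcon⟩
      refine le_trans ?_ h1
      refine (Finset.abs_sum_le_sum_abs _ _).trans (Finset.sum_le_sum (fun j _ => ?_))
      rw [abs_le]
      constructor
      · have h2 := TT_pow_mono τ j (F := fun y => -(F N y)) (G := fun y => AN τ φ N y - h y)
          (fun y => neg_abs_le _) x
        have h3 : (fun y => -(F N y)) = -(F N) := rfl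
        rw [h3, map_neg] at h2
        exact h2
      · exact TT_pow_mono τ j (fun y => le_abs_self _) x
    have e4 : |∑ j ∈ Finset.range n, b j - (N : ℝ)⁻¹ *
        ∑ k ∈ Finset.range N, ∑ j ∈ Finset.range n, b (j + k)| ≤ 2 * N * M := by
      have h1 : ∑ j ∈ Finset.range n, b j - (N : ℝ)⁻¹ *
          ∑ k ∈ Finset.range N, ∑ j ∈ Finset.range n, b (j + k) =
          (N : ℝ)⁻¹ * ∑ k ∈ Finset.range N, (∑ j ∈ Finset.range n, b j -
            ∑ j ∈ Finset.range n, b (j + k)) := by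
        rw [Finset.sum_sub_distrib, Finset.sum_const, Finset.card_range, nsmul_eq_mul]
        field_simp
      rw [h1, abs_mul, abs_of_pos (inv_pos.2 hNr)]
      have h2 : |∑ k ∈ Finset.range N, (∑ j ∈ Finset.range n, b j -
            ∑ j ∈ Finset.range n, b (j + k))| ≤ N * (2 * N * M) := by
        calc |∑ k ∈ Finset.range N, (∑ j ∈ Finset.range n, b j - ∑ j ∈ Finset.range n, b (j + k))|
            ≤ ∑ k ∈ Finset.range N, |∑ j ∈ Finset.range n, b j - ∑ j ∈ Finset.range n, b (j + k)| :=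
              Finset.abs_sum_le_sum_abs _ _
          _ ≤ ∑ k ∈ Finset.range N, (2 * N * M) := by
              refine Finset.sum_le_sum (fun k hk => ?_)
              refine (shift_sum b M (fun j => hb j x) n k).trans ?_
              have : (k : ℝ) ≤ N := by exact_mod_cast (Finset.mem_range.1 hk).le
              gcongr
          _ = N * (2 * N * M) := by rw [Finset.sum_const, Finset.card_range, nsmul_eq_mul]
      calc (N : ℝ)⁻¹ * |∑ k ∈ Finset.range N, (∑ j ∈ Finset.range n, b j -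
            ∑ j ∈ Finset.range n, b (j + k))| ≤ (N : ℝ)⁻¹ * (N * (2 * N * M)) := by gcongr
        _ = 2 * N * M := by rw [← mul_assoc, inv_mul_cancel₀ hNr.ne', one_mul]
    have e5 : ∑ j ∈ Finset.range n, (TT τ ^ j) (fun y => AN τ φ N y - h y) x =
        (N : ℝ)⁻¹ * ∑ k ∈ Finset.range N, ∑ j ∈ Finset.range n, b (j + k) - n * h x := by
      simp only [e1]
      rw [Finset.sum_sub_distrib, ← Finset.mul_sum, Finset.sum_comm, Finset.sum_const,
        Finset.card_range, nsmul_eq_mul]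
    rw [e5] at e3
    have e6 : |∑ j ∈ Finset.range n, b j - n * h x| ≤ n * δ + 2 * N * M := by
      have := abs_add_le (∑ j ∈ Finset.range n, b j - (N : ℝ)⁻¹ *
        ∑ k ∈ Finset.range N, ∑ j ∈ Finset.range n, b (j + k))
        ((N : ℝ)⁻¹ * ∑ k ∈ Finset.range N, ∑ j ∈ Finset.range n, b (j + k) - n * h x)
      rw [sub_add_sub_cancel] at this
      linarith
    have e7 : AN τ φ n x - h x = (n : ℝ)⁻¹ * (∑ j ∈ Finset.range n, b j - n * h x) := by
      unfold AN
      field_simp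
      rfl
    rw [e7, abs_mul, abs_of_pos (inv_pos.2 hnr)]
    calc (n : ℝ)⁻¹ * |∑ j ∈ Finset.range n, b j - n * h x|
        ≤ (n : ℝ)⁻¹ * (n * δ + 2 * N * M) := by gcongr
      _ = δ + 2 * N * M / n := by field_simp
  -- choice of N
  have hchoose : ∀ m : ℕ, ∃ N : ℕ, 0 < N ∧ ∫ x, F N x ∂μ ≤ (1 / 2) ^ m * (1 / 2) ^ m := by
    intro m
    have h1 : ∀ᶠ N in atTop, ∫ x, F N x ∂μ < (1 / 2) ^ m * (1 / 2) ^ m :=
      hL.eventually (gt_mem_nhds (by positivity))
    obtain ⟨N, hN1, hN2⟩ := (h1.and (eventually_gt_atTop 0)).exists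
    exact ⟨N, hN2, hN1.le⟩
  choose N hN0 hN using hchoose
  have hmeas : ∀ m, μ (Bad (N m) ((1 / 2) ^ m)) ≤ ENNReal.ofReal ((1 / 2) ^ m) := by
    intro m
    refine (maximal hτ (F (N m)) (hFm _) (hFi _) (fun x => abs_nonneg _) ((1 / 2) ^ m)
      (by positivity)).trans ?_
    apply ENNReal.ofReal_le_ofReal
    rw [div_le_iff₀ (by positivity)]
    exact hN m
  have hsum : ∑' m, μ (Bad (N m) ((1 / 2) ^ m)) ≠ ∞ := by
    have h1 : ∑' m, μ (Bad (N m) ((1 / 2) ^ m)) ≤ ∑' m : ℕ, ENNReal.ofReal ((1 / 2) ^ m) :=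
      ENNReal.tsum_le_tsum hmeas
    refine ne_top_of_le_ne_top ?_ h1
    exact (summable_geometric_of_lt_one (by norm_num) (by norm_num)).tsum_ofReal_ne_top
  filter_upwards [key, ae_eventually_notMem hsum] with x hk hev
  rw [Metric.tendsto_atTop]
  intro ε hε
  have hp : Tendsto (fun m : ℕ => (1 / 2 : ℝ) ^ m) atTop (𝓝 0) :=
    tendsto_pow_atTop_nhds_zero_of_lt_one (by norm_num) (by norm_num)
  obtain ⟨m, hm1, hm2⟩ := (hev.and (hp.eventually (gt_mem_nhds (half_pos hε)))).exists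
  obtain ⟨n0, hn0⟩ := exists_nat_gt (2 * N m * M / (ε / 2))
  refine ⟨max n0 1, fun n hn => ?_⟩
  have hn1 : 0 < n := lt_of_lt_of_le one_pos ((le_max_right _ _).trans hn)
  have hnr : (0 : ℝ) < n := by exact_mod_cast hn1
  have hn2 : (n0 : ℝ) ≤ n := by exact_mod_cast (le_max_left _ _).trans hn
  rw [Real.dist_eq]
  have h1 := hk (N m) (hN0 m) _ hm1 n hn1
  have h2 : 2 * N m * M / n < ε / 2 := by
    rw [div_lt_iff₀ hnr]
    rw [div_lt_iff₀ (by positivity)] at hn0
    nlinarith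
  linarith

end averages

end Pool.Agent.H563R3.EA
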