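import Mathlib

set_option autoImplicit false
set_option linter.unusedSectionVars false
set_option linter.deprecated false
open MeasureTheory Filter Topology
open scoped BoundedContinuousFunction

namespace Pool.Agent.H563R3.EA

section gen

variable {ι : Type} [TopologicalSpace ι] [DiscreteTopology ι]

/-- Composition with a map, as a bounded operator on bounded functions. -/
noncomputable def cmp (g : ι → ι) : (ι →ᵇ ℝ) →L[ℝ] (ι →ᵇ ℝ) :=
  LinearMap.mkContinuous
    { toFun := fun φ => φ.compContinuous ⟨g, continuous_of_discreteTopology⟩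
      map_add' := fun φ ψ => by ext x; rfl
      map_smul' := fun c φ => by ext x; rfl } 1
    (fun φ => by
      rw [one_mul]
      exact (BoundedContinuousFunction.norm_le (norm_nonneg φ)).2
        (fun x => φ.norm_coe_le_norm _))

@[simp] theorem cmp_apply (g : ι → ι) (φ : ι →ᵇ ℝ) (x : ι) : cmp g φ x = φ (g x) := rfl

theorem norm_cmp_le (g : ι → ι) : ‖cmp g‖ ≤ 1 := LinearMap.mkContinuous_norm_le _ (by norm_num) _

/-- Evaluation. -/
noncomputable def evl (x : ι) : (ι →ᵇ ℝ) →L[ℝ] ℝ := BoundedContinuousFunction.evalCLM ℝ x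

@[simp] theorem evl_apply (x : ι) (φ : ι →ᵇ ℝ) : evl x φ = φ x := rfl

end gen

section half

variable {X : Type} [NormedAddCommGroup X] [NormedSpace ℝ X]

/-- Norm of a combination of contractions. -/
theorem norm_half_sum_le {J : Type} [Fintype J] (c : ℝ) (hc : 0 ≤ c) (f : J → (X →L[ℝ] X)) (m : ℝ)
    (h : ∀ j, ‖f j‖ ≤ m) : ‖c • ∑ j, f j‖ ≤ c * (Fintype.card J * m) := by
  rw [norm_smul, Real.norm_of_nonneg hc]
  apply mul_le_mul_of_nonneg_left _ hc
  calc ‖∑ j, f j‖ ≤ ∑ j : J, m := norm_sum_le_of_le _ (fun j _ => h j)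
    _ = Fintype.card J * m := by rw [Finset.sum_const, Finset.card_univ, nsmul_eq_mul]

theorem half_identity {J : Type} [Fintype J] (c : ℝ) (f g : J → (X →L[ℝ] X)) (k : ℝ)
    (h : ∀ j, f j + k • 1 = g j) :
    c • ∑ j, f j + (c * (Fintype.card J * k)) • (1 : X →L[ℝ] X) = c • ∑ j, g j := by
  simp_rw [← h]
  rw [Finset.sum_add_distrib, smul_add, Finset.sum_const, Finset.card_univ,
    ← Nat.cast_smul_eq_nsmul ℝ, smul_smul, smul_smul, mul_assoc]

end half

section uniq

variable {X : Type} [NormedAddCommGroup X] [NormedSpace ℝ X] [CompleteSpace X]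

/-- The exponential group. -/
noncomputable def sg (K : X →L[ℝ] X) (t : ℝ) : X →L[ℝ] X := NormedSpace.exp (t • K)

theorem sg_zero (K : X →L[ℝ] X) : sg K 0 = 1 := by simp [sg, NormedSpace.exp_zero]

theorem sg_hasDerivAt (K : X →L[ℝ] X) (t : ℝ) : HasDerivAt (sg K) (sg K t * K) t :=
  hasDerivAt_exp_smul_const K t

theorem sg_hasDerivAt' (K : X →L[ℝ] X) (t : ℝ) : HasDerivAt (sg K) (K * sg K t) t :=
  hasDerivAt_exp_smul_const' K t

theorem sg_comm (K : X →L[ℝ] X) (t : ℝ) : sg K t * K = K * sg K t :=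
  (sg_hasDerivAt K t).unique (sg_hasDerivAt' K t)

theorem sg_continuous (K : X →L[ℝ] X) : Continuous (sg K) :=
  continuous_iff_continuousAt.2 (fun t => (sg_hasDerivAt K t).continuousAt)

theorem sg_add (K : X →L[ℝ] X) (s t : ℝ) : sg K (s + t) = sg K s * sg K t := by
  let _ : NormedAlgebra ℚ (X →L[ℝ] X) := NormedAlgebra.restrictScalars ℚ ℝ _
  unfold sg
  rw [add_smul]
  exact NormedSpace.exp_add_of_commute (((Commute.refl K).smul_left s).smul_right t)

theorem sg_neg_mul (K : X →L[ℝ] X) (t : ℝ) : sg K (-t) * sg K t = 1 := by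
  rw [← sg_add, neg_add_cancel, sg_zero]

theorem sg_mul_neg (K : X →L[ℝ] X) (t : ℝ) : sg K t * sg K (-t) = 1 := by
  rw [← sg_add, add_neg_cancel, sg_zero]

/-- A curve with a uniform first order expansion is given by the exponential. -/
theorem uniq (K : X →L[ℝ] X) (φ : ℝ → X) (C M : ℝ) (hM : ∀ t, 0 ≤ t → ‖φ t‖ ≤ M)
    (h : ∀ t s, 0 ≤ t → 0 < s → s ≤ 1 → ‖φ (t + s) - φ t - s • K (φ t)‖ ≤ C * s ^ 2)
    (T : ℝ) (hT : 0 ≤ T) : φ T = sg K T (φ 0) := by
  have hC : 0 ≤ C := by
    have := h 0 1 le_rfl one_pos le_rfl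
    have h2 := norm_nonneg (φ (0 + 1) - φ 0 - (1 : ℝ) • K (φ 0))
    nlinarith
  have hM0 : 0 ≤ M := (norm_nonneg _).trans (hM 0 le_rfl)
  -- Lipschitz
  have hlip : ∀ t s, 0 ≤ t → 0 ≤ s → s ≤ 1 → ‖φ (t + s) - φ t‖ ≤ (C + ‖K‖ * M) * s := by
    intro t s ht hs hs1
    rcases hs.eq_or_lt with rfl | hs0
    · simp
    have h1 := h t s ht hs0 hs1
    have h2 : ‖s • K (φ t)‖ ≤ s * (‖K‖ * M) := by
      rw [norm_smul, Real.norm_of_nonneg hs]
      gcongr
      exact (K.le_opNorm _).trans (by gcongr; exact hM t ht)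
    calc ‖φ (t + s) - φ t‖ = ‖(φ (t + s) - φ t - s • K (φ t)) + s • K (φ t)‖ := by congr 1; abel
      _ ≤ C * s ^ 2 + s * (‖K‖ * M) := (norm_add_le _ _).trans (add_le_add h1 h2)
      _ ≤ (C + ‖K‖ * M) * s := by
          have : C * s ^ 2 ≤ C * s := by
            apply mul_le_mul_of_nonneg_left _ hC
            nlinarith
          nlinarith
  have hcont : ContinuousOn φ (Set.Ici 0) := by
    intro t ht
    rw [Set.mem_Ici] at ht
    rw [Metric.continuousWithinAt_iff]
    intro ε hε
    refine ⟨min 1 (ε / (C + ‖K‖ * M + 1)), by positivity, ?_⟩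
    intro x hx hd
    rw [Set.mem_Ici] at hx
    rw [dist_eq_norm]
    rw [Real.dist_eq] at hd
    have hd1 : |x - t| < 1 := hd.trans_le (min_le_left _ _)
    have hd2 : |x - t| < ε / (C + ‖K‖ * M + 1) := hd.trans_le (min_le_right _ _)
    have hpos : 0 < C + ‖K‖ * M + 1 := by positivity
    have hb : ‖φ x - φ t‖ ≤ (C + ‖K‖ * M) * |x - t| := by
      rcases le_total t x with hle | hle
      · have := hlip t (x - t) ht (by linarith) (by rw [abs_of_nonneg (by linarith)] at hd1; exact hd1.le)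
        rw [add_sub_cancel] at this
        rwa [abs_of_nonneg (by linarith)]
      · have := hlip x (t - x) hx (by linarith) (by rw [abs_of_nonpos (by linarith)] at hd1; linarith)
        rw [add_sub_cancel] at this
        rw [norm_sub_rev, abs_of_nonpos (by linarith), neg_sub]; exact this
    rw [lt_div_iff₀ hpos] at hd2
    have := abs_nonneg (x - t)
    nlinarith
  -- right derivative
  have hder : ∀ t, 0 ≤ t → HasDerivWithinAt φ (K (φ t)) (Set.Ici t) t := by
    intro t ht
    rw [hasDerivWithinAt_iff_isLittleO, Asymptotics.isLittleO_iff]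
    intro ε hε
    have hmem : Set.Iio (t + min 1 (ε / (C + 1))) ∈ 𝓝[Set.Ici t] t :=
      mem_nhdsWithin_of_mem_nhds (Iio_mem_nhds (by
        have : 0 < min 1 (ε / (C + 1)) := by positivity
        linarith))
    filter_upwards [hmem, self_mem_nhdsWithin] with x hx hx2
    rw [Set.mem_Iio] at hx
    rw [Set.mem_Ici] at hx2
    rcases hx2.eq_or_lt with rfl | hlt
    · simp
    have hs0 : 0 < x - t := by linarith
    have hs1 : x - t ≤ 1 := by have := min_le_left 1 (ε / (C + 1)); linarith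
    have hs2 : x - t < ε / (C + 1) := by have := min_le_right 1 (ε / (C + 1)); linarith
    have h1 := h t (x - t) ht hs0 hs1
    rw [add_sub_cancel] at h1
    rw [lt_div_iff₀ (by positivity)] at hs2
    rw [Real.norm_of_nonneg hs0.le]
    refine h1.trans ?_
    nlinarith
  have hconst : ∀ x ∈ Set.Icc 0 T, (fun t => sg K (-t) (φ t)) x = (fun t => sg K (-t) (φ t)) 0 := by
    apply constant_of_has_deriv_right_zero
    · apply ContinuousOn.clm_apply
      · exact ((sg_continuous K).comp continuous_neg).continuousOn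
      · exact hcont.mono (fun x hx => hx.1)
    · intro t ht
      have h1 : HasDerivAt (fun t => sg K (-t)) (-(sg K (-t) * K)) t := by
        have := (sg_hasDerivAt K (-t)).scomp t (hasDerivAt_neg t)
        rw [neg_one_smul] at this
        exact this
      have h2 := h1.hasDerivWithinAt.clm_apply (s := Set.Ici t) (hder t ht.1)
      have e : (-(sg K (-t) * K)) (φ t) + (sg K (-t)) (K (φ t)) = 0 := by
        rw [ContinuousLinearMap.neg_apply, ContinuousLinearMap.mul_apply]; simp
      rwa [e] at h2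
  have h3 := hconst T ⟨hT, le_rfl⟩
  simp only [neg_zero, sg_zero, ContinuousLinearMap.one_apply] at h3
  have h4 : sg K T (sg K (-T) (φ T)) = φ T := by
    rw [← ContinuousLinearMap.mul_apply, sg_mul_neg, ContinuousLinearMap.one_apply]
  rw [← h3, h4]

/-- The primitive of the exponential group. -/
noncomputable def pr (K : X →L[ℝ] X) (t : ℝ) : X →L[ℝ] X := ∫ s in (0 : ℝ)..t, sg K s

theorem pr_hasDerivAt (K : X →L[ℝ] X) (t : ℝ) : HasDerivAt (pr K) (sg K t) t :=
  intervalIntegral.integral_hasDerivAt_right ((sg_continuous K).intervalIntegrable _ _)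
    ((sg_continuous K).stronglyMeasurableAtFilter _ _) (sg_continuous K).continuousAt

theorem pr_zero (K : X →L[ℝ] X) : pr K 0 = 0 := by simp [pr]

theorem pr_mul (K : X →L[ℝ] X) (t : ℝ) : pr K t * K = sg K t - 1 := by
  have h : ∀ t, HasDerivAt (fun t => pr K t * K - sg K t) 0 t := by
    intro t
    have := ((pr_hasDerivAt K t).mul_const K).sub (sg_hasDerivAt K t)
    rw [sub_self] at this
    exact this
  have hc := is_const_of_deriv_eq_zero (fun t => (h t).differentiableAt) (fun t => (h t).deriv) t 0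
  simp only [pr_zero, zero_mul, sg_zero, zero_sub] at hc
  rw [sub_eq_iff_eq_add] at hc
  rw [hc]; abel

/-- Commutation of the exponential. -/
theorem commute_sg (G K : X →L[ℝ] X) (h : G * K = K * G) (t : ℝ) : G * sg K t = sg K t * G := by
  let _ : NormedAlgebra ℚ (X →L[ℝ] X) := NormedAlgebra.restrictScalars ℚ ℝ _
  have h2 : SemiconjBy G (t • K) (t • K) := by
    show G * (t • K) = (t • K) * G
    rw [mul_smul_comm, smul_mul_assoc, h]
  exact (h2.exp_right).eq

theorem commute_pr (G K : X →L[ℝ] X) (h : G * K = K * G) (t : ℝ) : G * pr K t = pr K t * G := by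
  have h3 : ∀ t, HasDerivAt (fun t => pr K t * G - G * pr K t) 0 t := by
    intro t
    have := ((pr_hasDerivAt K t).mul_const G).sub ((pr_hasDerivAt K t).const_mul G)
    rw [commute_sg G K h t, sub_self] at this
    exact this
  have hc := is_const_of_deriv_eq_zero (fun t => (h3 t).differentiableAt)
    (fun t => (h3 t).deriv) t 0
  simp only [pr_zero, zero_mul, mul_zero, sub_zero] at hc
  exact (sub_eq_zero.1 hc).symm

theorem norm_exp_le (x : X →L[ℝ] X) : ‖NormedSpace.exp x‖ ≤ Real.exp ‖x‖ := by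
  rw [NormedSpace.exp_eq_tsum ℝ, Real.exp_eq_exp_ℝ, NormedSpace.exp_eq_tsum ℝ]
  have h1 : Summable (fun n : ℕ => ‖((n.factorial : ℝ)⁻¹) • x ^ n‖) :=
    NormedSpace.norm_expSeries_summable' (𝕂 := ℝ) x
  have h2 : Summable (fun n : ℕ => ((n.factorial : ℝ)⁻¹) • ‖x‖ ^ n) :=
    NormedSpace.expSeries_summable' (𝕂 := ℝ) ‖x‖
  refine (norm_tsum_le_tsum_norm h1).trans (h1.tsum_le_tsum (fun n => ?_) h2)
  rw [norm_smul, Real.norm_of_nonneg (by positivity), smul_eq_mul]
  apply mul_le_mul_of_nonneg_left _ (by positivity)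
  rcases n with _ | n
  · simp only [pow_zero]
    exact ContinuousLinearMap.norm_id_le
  · exact norm_pow_le' x (Nat.succ_pos n)

/-- Contraction property. -/
theorem norm_sg_le (K K' : X →L[ℝ] X) (n : ℝ) (hK : K + n • 1 = K') (hn : ‖K'‖ ≤ n) (t : ℝ)
    (ht : 0 ≤ t) : ‖sg K t‖ ≤ 1 := by
  let _ : NormedAlgebra ℚ (X →L[ℝ] X) := NormedAlgebra.restrictScalars ℚ ℝ _
  have hB : K = K' - n • 1 := by rw [← hK]; abel
  have h1 : sg K t = NormedSpace.exp (t • K') * NormedSpace.exp ((-(t * n)) • 1) := by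
    unfold sg
    rw [← NormedSpace.exp_add_of_commute]
    · congr 1
      rw [hB, smul_sub, smul_smul, sub_eq_add_neg, neg_smul]
    · exact (Commute.one_right _).smul_right _
  have h2 : NormedSpace.exp ((-(t * n)) • (1 : X →L[ℝ] X)) = Real.exp (-(t * n)) • 1 := by
    have := NormedSpace.algebraMap_exp_comm (𝕂 := ℝ) (𝔸 := X →L[ℝ] X) (-(t * n))
    rw [Algebra.algebraMap_eq_smul_one, Algebra.algebraMap_eq_smul_one, ← Real.exp_eq_exp_ℝ] at this
    exact this.symm
  rw [h1, h2, mul_smul_comm, mul_one, norm_smul, Real.norm_of_nonneg (Real.exp_pos _).le]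
  have h3 : ‖NormedSpace.exp (t • K')‖ ≤ Real.exp (t * n) := by
    have h4 : ‖NormedSpace.exp (t • K')‖ ≤ Real.exp ‖t • K'‖ := norm_exp_le _
    refine h4.trans ?_
    apply Real.exp_le_exp.2
    rw [norm_smul, Real.norm_of_nonneg ht]
    gcongr
  calc Real.exp (-(t * n)) * ‖NormedSpace.exp (t • K')‖ ≤ Real.exp (-(t * n)) * Real.exp (t * n) := by
        gcongr
    _ = 1 := by rw [← Real.exp_add]; simp

end uniq

end Pool.Agent.H563R3.EA
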