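import Mathlib
import Pool.Agent.H563R3.EAOp
import Pool.Agent.H563R3.EADefs

set_option autoImplicit false
set_option linter.unusedSectionVars false
set_option linter.deprecated false
open MeasureTheory Filter Topology
open scoped BoundedContinuousFunction

namespace Pool.Agent.H563R3.EA

/-- The `2 d` directions. -/
abbrev Dir (d : ℕ) := Fin d × Bool

variable {d : ℕ}

/-- Unit vectors. -/
def step (a : Dir d) : Site d := if a.2 = true then Pi.single a.1 1 else -Pi.single a.1 1

/-- Opposite direction. -/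
def opp : Dir d ≃ Dir d := (Equiv.refl (Fin d)).prodCongr Equiv.boolNot

theorem step_opp (a : Dir d) : step (opp a) = - step a := by
  obtain ⟨i, b⟩ := a
  cases b <;> simp [step, opp]

theorem step_ne_zero (a : Dir d) : step a ≠ 0 := by
  obtain ⟨i, b⟩ := a
  intro h
  have := congrFun h i
  cases b <;> simp [step] at this

/-- Bounded functions of two sites. -/
abbrev X2 (d : ℕ) := (Site d × Site d) →ᵇ ℝ
/-- Bounded functions of one site. -/
abbrev X1 (d : ℕ) := Site d →ᵇ ℝ

/-- Generator of one walk. -/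
noncomputable def opA (d : ℕ) : X1 d →L[ℝ] X1 d :=
  (1 / 2 : ℝ) • ∑ a : Dir d, (cmp (fun u => u + step a) - 1)

/-- Generator of two independent walks. -/
noncomputable def opB (d : ℕ) : X2 d →L[ℝ] X2 d :=
  (1 / 2 : ℝ) • ∑ a : Dir d, ((cmp (fun p => (p.1 + step a, p.2)) - 1) +
    (cmp (fun p => (p.1, p.2 + step a)) - 1))

/-- The map of the second coordinate. -/
def sw (a : Dir d) (p : Site d × Site d) : Site d := Equiv.swap p.1 (p.1 + step a) p.2

/-- The interaction. -/
noncomputable def opC (d : ℕ) : X2 d →L[ℝ] X2 d :=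
  (1 / 4 : ℝ) • ∑ a : Dir d, (cmp (fun p => (p.1 + step a, sw a p)) -
    cmp (fun p => (p.1 + step a, p.2)) - cmp (fun p => (p.1, sw a p)) + 1)

/-- The generator of the two point function. -/
noncomputable def opL (d : ℕ) : X2 d →L[ℝ] X2 d := opB d + opC d

theorem opA_apply (φ : X1 d) (u : Site d) :
    opA d φ u = (1 / 2) * ∑ a : Dir d, (φ (u + step a) - φ u) := by
  simp [opA, BoundedContinuousFunction.coe_sum, Finset.sum_apply]

theorem opB_apply (φ : X2 d) (u v : Site d) :
    opB d φ (u, v) = (1 / 2) * ∑ a : Dir d, ((φ (u + step a, v) - φ (u, v)) +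
      (φ (u, v + step a) - φ (u, v))) := by
  simp [opB, BoundedContinuousFunction.coe_sum, Finset.sum_apply]

theorem opC_apply (φ : X2 d) (u v : Site d) :
    opC d φ (u, v) = (1 / 4) * ∑ a : Dir d, (φ (u + step a, sw a (u, v)) -
      φ (u + step a, v) - φ (u, sw a (u, v)) + φ (u, v)) := by
  simp [opC, BoundedContinuousFunction.coe_sum, Finset.sum_apply]

/-- Indicator of the diagonal. -/
noncomputable def dg (d : ℕ) : X2 d :=
  BoundedContinuousFunction.ofNormedAddCommGroupDiscrete
    (fun p => if p.1 = p.2 then (1 : ℝ) else 0) 1 (fun p => by split_ifs <;> simp)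

/-- The functions `ρ_a`. -/
noncomputable def rho (a : Dir d) : X2 d :=
  BoundedContinuousFunction.ofNormedAddCommGroupDiscrete
    (fun p => (if p.1 = p.2 then (1 : ℝ) else 0) - (if p.2 = p.1 + step a then (1 : ℝ) else 0)) 2
    (fun p => by split_ifs <;> norm_num)

@[simp] theorem dg_apply (u v : Site d) : dg d (u, v) = if u = v then (1 : ℝ) else 0 := rfl

@[simp] theorem rho_apply (a : Dir d) (u v : Site d) :
    rho a (u, v) = (if u = v then (1 : ℝ) else 0) - (if v = u + step a then (1 : ℝ) else 0) := rfl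

theorem sum_rho : ∑ a : Dir d, rho a = - opB d (dg d) := by
  ext ⟨u, v⟩
  rw [BoundedContinuousFunction.coe_sum, Finset.sum_apply, BoundedContinuousFunction.neg_apply,
    opB_apply, Finset.sum_add_distrib]
  simp only [dg_apply, rho_apply]
  have h1 : ∑ a : Dir d, ((if u = v + step a then (1 : ℝ) else 0) - (if u = v then (1 : ℝ) else 0)) =
      ∑ a : Dir d, ((if v = u + step a then (1 : ℝ) else 0) - (if u = v then (1 : ℝ) else 0)) := by
    rw [← Equiv.sum_comp opp]
    refine Finset.sum_congr rfl (fun a _ => ?_)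
    rw [step_opp]
    have : (u = v + -step a) ↔ (v = u + step a) := by
      constructor
      · rintro rfl; abel
      · rintro rfl; abel
    simp only [this]
  have h2 : ∑ a : Dir d, ((if u + step a = v then (1 : ℝ) else 0) - (if u = v then (1 : ℝ) else 0)) =
      ∑ a : Dir d, ((if v = u + step a then (1 : ℝ) else 0) - (if u = v then (1 : ℝ) else 0)) := by
    refine Finset.sum_congr rfl (fun a _ => ?_)
    simp only [eq_comm (a := u + step a)]
  rw [h1, h2]
  have h3 : ∀ x : ℝ, -(1 / 2 * (x + x)) = -x := by intro x; ring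
  rw [h3, ← Finset.sum_neg_distrib]
  refine Finset.sum_congr rfl (fun a _ => ?_)
  ring

/-- The numbers `R_a(t)`. -/
noncomputable def RR (a : Dir d) (t : ℝ) : ℝ := pr (opB d) t (rho a) (0, 0)

/-- Invariance under a lattice symmetry. -/
theorem RR_symm (θ : Site d → Site d) (π : Dir d ≃ Dir d) (hinj : Function.Injective θ)
    (hadd : ∀ u v, θ (u + v) = θ u + θ v) (h0 : θ 0 = 0) (hs : ∀ a, θ (step a) = step (π a))
    (a : Dir d) (t : ℝ) : RR (π a) t = RR a t := by
  set Θ : Site d × Site d → Site d × Site d := fun p => (θ p.1, θ p.2) with hΘ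
  have hc : cmp Θ * opB d = opB d * cmp Θ := by
    ext φ ⟨u, v⟩
    show opB d φ (θ u, θ v) = opB d (cmp Θ φ) (u, v)
    rw [opB_apply, opB_apply]
    simp only [cmp_apply, hΘ]
    rw [← Equiv.sum_comp π]
    simp only [hadd, hs]
  have h1 := commute_pr (cmp Θ) (opB d) hc t
  have h2 : cmp Θ (rho (π a)) = rho a := by
    ext ⟨u, v⟩
    simp only [cmp_apply, hΘ, rho_apply]
    have e1 : (θ u = θ v) ↔ u = v := hinj.eq_iff
    have e2 : (θ v = θ u + step (π a)) ↔ v = u + step a := by
      rw [← hs, ← hadd]; exact hinj.eq_iff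
    simp only [e1, e2]
  unfold RR
  calc pr (opB d) t (rho (π a)) (0, 0) = cmp Θ (pr (opB d) t (rho (π a))) (0, 0) := by
        simp only [cmp_apply, hΘ, h0]
    _ = (cmp Θ * pr (opB d) t) (rho (π a)) (0, 0) := rfl
    _ = (pr (opB d) t * cmp Θ) (rho (π a)) (0, 0) := by rw [h1]
    _ = pr (opB d) t (cmp Θ (rho (π a))) (0, 0) := rfl
    _ = pr (opB d) t (rho a) (0, 0) := by rw [h2]

theorem RR_opp (a : Dir d) (t : ℝ) : RR (opp a) t = RR a t :=
  RR_symm (fun v => -v) opp neg_injective (fun u v => by abel) (by simp)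
    (fun a => (step_opp a).symm) a t

theorem RR_swap (i j : Fin d) (b : Bool) (t : ℝ) : RR (j, b) t = RR (i, b) t := by
  have := RR_symm (fun v : Site d => v ∘ (Equiv.swap i j))
    ((Equiv.swap i j).prodCongr (Equiv.refl Bool))
    (fun u v h => by
      funext k
      have := congrFun h (Equiv.swap i j k)
      simpa using this) (fun u v => by funext k; rfl) (by funext k; rfl)
    (fun a => by
      obtain ⟨k, c⟩ := a
      have h1 : (Pi.single k (1 : ℤ) : Site d) ∘ (Equiv.swap i j) =
          Pi.single (Equiv.swap i j k) 1 := by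
        funext l
        simp only [Function.comp, Pi.single_apply]
        have : (Equiv.swap i j l = k) ↔ (l = Equiv.swap i j k) := by
          constructor
          · rintro rfl; simp
          · rintro rfl; simp
        simp only [this]
      cases c
      · show (-(Pi.single k (1 : ℤ) : Site d)) ∘ (Equiv.swap i j) = -Pi.single (Equiv.swap i j k) 1
        rw [← h1]; rfl
      · exact h1) (i, b) t
  simpa using this

theorem RR_const (a b : Dir d) (t : ℝ) : RR a t = RR b t := by
  obtain ⟨i, c⟩ := a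
  obtain ⟨j, e⟩ := b
  rw [RR_swap j i c t]
  have h := RR_opp (j, e) t
  rcases Bool.eq_or_eq_not c e with h2 | h2
  · rw [h2]
  · rw [h2, ← h]; rfl

theorem norm_sgB_le (t : ℝ) (ht : 0 ≤ t) : ‖sg (opB d) t‖ ≤ 1 := by
  refine norm_sg_le (opB d) _ _ (half_identity (1 / 2 : ℝ)
    (fun a : Dir d => ((cmp (fun p : Site d × Site d => (p.1 + step a, p.2)) - 1) +
      (cmp (fun p : Site d × Site d => (p.1, p.2 + step a)) - 1)))
    (fun a => cmp (fun p : Site d × Site d => (p.1 + step a, p.2)) +
      cmp (fun p : Site d × Site d => (p.1, p.2 + step a))) 2 (fun a => ?_)) ?_ t ht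
  · rw [two_smul]; abel
  · refine norm_half_sum_le (1 / 2) (by norm_num) _ 2 (fun a => ?_)
    refine (norm_add_le _ _).trans ?_
    have h1 := norm_cmp_le (fun p : Site d × Site d => (p.1 + step a, p.2))
    have h2 := norm_cmp_le (fun p : Site d × Site d => (p.1, p.2 + step a))
    linarith

theorem norm_sgA_le (t : ℝ) (ht : 0 ≤ t) : ‖sg (opA d) t‖ ≤ 1 := by
  refine norm_sg_le (opA d) _ _ (half_identity (1 / 2 : ℝ)
    (fun a : Dir d => (cmp (fun u : Site d => u + step a) - 1))
    (fun a => cmp (fun u : Site d => u + step a)) 1 (fun a => ?_)) ?_ t ht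
  · rw [one_smul]; abel
  · exact norm_half_sum_le (1 / 2) (by norm_num) _ 1 (fun a => norm_cmp_le _)

/-- Translation invariant, symmetric functions. -/
def Nice (φ : X2 d) : Prop := (∀ x u v, φ (u + x, v + x) = φ (u, v)) ∧ ∀ u v, φ (u, v) = φ (v, u)

/-- The gradients. -/
def GG (φ : X2 d) (a : Dir d) : ℝ := φ (0, 0) - φ (step a, 0)

theorem opC_nice (φ : X2 d) (h : Nice φ) :
    opC d φ = (1 / 2 : ℝ) • ∑ a : Dir d, GG φ a • rho a := by
  ext ⟨u, v⟩
  have e0 : ((1 / 2 : ℝ) • ∑ a : Dir d, GG φ a • rho a) (u, v) =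
      (1 / 2) * ∑ a : Dir d, GG φ a * rho a (u, v) := by
    simp [BoundedContinuousFunction.coe_sum, Finset.sum_apply]
  rw [opC_apply, e0, Finset.mul_sum, Finset.mul_sum]
  refine Finset.sum_congr rfl (fun a _ => ?_)
  rw [rho_apply]
  have e1 : ∀ w : Site d, φ (w, w) = φ (0, 0) := by
    intro w
    have := h.1 w 0 0
    rwa [zero_add] at this
  have e2 : ∀ w : Site d, φ (w + step a, w) = φ (step a, 0) := by
    intro w
    have := h.1 w (step a) 0
    rwa [zero_add, add_comm (step a)] at this
  unfold GG sw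
  by_cases h1 : v = u
  · subst h1
    have h3 : ¬ (v = v + step a) := by
      intro hh
      exact step_ne_zero a (by simpa using hh)
    rw [Equiv.swap_apply_left, if_pos rfl, if_neg h3, e1 (v + step a), h.2 v (v + step a), e2 v,
      e1 v]
    ring
  · by_cases h2 : v = u + step a
    · subst h2
      rw [Equiv.swap_apply_right, if_neg (fun hh => h1 hh.symm), if_pos rfl, e1 (u + step a), e2 u,
        h.2 u (u + step a), e2 u, e1 u]
      ring
    · rw [Equiv.swap_apply_of_ne_of_ne h1 h2, if_neg (fun hh => h1 hh.symm), if_neg h2]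
      ring

theorem RR_bound [NeZero d] (a : Dir d) (t : ℝ) (ht : 0 ≤ t) : RR a t ≤ 1 := by
  have hsum : ∑ b : Dir d, RR b t = 1 - sg (opB d) t (dg d) (0, 0) := by
    have h1 : ∑ b : Dir d, RR b t = pr (opB d) t (∑ b : Dir d, rho b) (0, 0) := by
      rw [map_sum, BoundedContinuousFunction.coe_sum, Finset.sum_apply]; rfl
    rw [h1, sum_rho, map_neg]
    have h2 : pr (opB d) t (opB d (dg d)) = (pr (opB d) t * opB d) (dg d) := rfl
    rw [h2, pr_mul]
    show -(sg (opB d) t (dg d) - dg d) (0, 0) = _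
    rw [BoundedContinuousFunction.coe_sub]
    simp
  have hle : |sg (opB d) t (dg d) (0, 0)| ≤ 1 := by
    have h1 : ‖dg d‖ ≤ 1 := (BoundedContinuousFunction.norm_le (by norm_num)).2 (fun p => by
      obtain ⟨u, v⟩ := p
      rw [dg_apply]; split_ifs <;> simp)
    calc |sg (opB d) t (dg d) (0, 0)| = ‖sg (opB d) t (dg d) (0, 0)‖ := (Real.norm_eq_abs _).symm
      _ ≤ ‖sg (opB d) t (dg d)‖ := BoundedContinuousFunction.norm_coe_le_norm _ _
      _ ≤ ‖sg (opB d) t‖ * ‖dg d‖ := ContinuousLinearMap.le_opNorm _ _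
      _ ≤ 1 * 1 := mul_le_mul (norm_sgB_le t ht) h1 (norm_nonneg _) (by norm_num)
      _ = 1 := by norm_num
  have hconst : ∑ b : Dir d, RR b t = Fintype.card (Dir d) * RR a t := by
    rw [Finset.sum_congr rfl (fun b _ => RR_const b a t), Finset.sum_const, Finset.card_univ,
      nsmul_eq_mul]
  have hcard : (2 : ℝ) ≤ Fintype.card (Dir d) := by
    have hd : 0 < d := Nat.pos_of_ne_zero (NeZero.ne d)
    have : 2 ≤ Fintype.card (Dir d) := by
      rw [Fintype.card_prod, Fintype.card_fin, Fintype.card_bool]; omega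
    exact_mod_cast this
  rw [hconst] at hsum
  have h3 := (abs_le.1 hle).1
  by_contra hcon
  push Not at hcon
  nlinarith

/-- The main analytic estimate. -/
theorem main_bound [NeZero d] (φ0 : X2 d) (M : ℝ) (hM : ∀ s, 0 ≤ s → ‖sg (opL d) s φ0‖ ≤ M)
    (hnice : ∀ s, 0 ≤ s → Nice (sg (opL d) s φ0))
    (hG : ∀ s, 0 ≤ s → ∀ a, 0 ≤ GG (sg (opL d) s φ0) a) (T : ℝ) (hT : 0 ≤ T) :
    ∫ s in (0 : ℝ)..T, (sg (opL d) s φ0 (0, 0) - sg (opB d) s φ0 (0, 0)) ≤ 2 * M := by
  -- derivative facts
  set φ : ℝ → X2 d := fun s => sg (opL d) s φ0 with hφ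
  set E : X2 d →L[ℝ] ℝ := evl (0, 0) with hE
  have hL : ∀ s, HasDerivAt φ (opL d (φ s)) s := by
    intro s
    have := (sg_hasDerivAt' (opL d) s).clm_apply (hasDerivAt_const s φ0)
    simpa using this
  have hB : ∀ s, HasDerivAt (fun s => pr (opB d) s φ0) (sg (opB d) s φ0) s := by
    intro s
    have := (pr_hasDerivAt (opB d) s).clm_apply (hasDerivAt_const s φ0)
    simpa using this
  have hP : ∀ s, HasDerivAt (fun s => pr (opB d) (T - s)) (-(sg (opB d) (T - s))) s := by
    intro s
    have h1 : HasDerivAt (fun s : ℝ => T - s) (-1) s := (hasDerivAt_id s).const_sub T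
    have := (pr_hasDerivAt (opB d) (T - s)).scomp s h1
    rw [neg_one_smul] at this
    exact this
  have hφc : Continuous φ := continuous_iff_continuousAt.2 (fun s => (hL s).continuousAt)
  have hprc : Continuous (pr (opB d)) :=
    continuous_iff_continuousAt.2 (fun s => (pr_hasDerivAt (opB d) s).continuousAt)
  -- the derivative of the first function
  have hA : ∀ s, HasDerivAt (fun s => pr (opB d) (T - s) (φ s))
      (-φ s + pr (opB d) (T - s) (opC d (φ s))) s := by
    intro s
    have h1 := (hP s).clm_apply (hL s)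
    have h2 : (-(sg (opB d) (T - s))) (φ s) + pr (opB d) (T - s) (opL d (φ s)) =
        -φ s + pr (opB d) (T - s) (opC d (φ s)) := by
      have h3 : pr (opB d) (T - s) (opB d (φ s)) = sg (opB d) (T - s) (φ s) - φ s := by
        have h4 : pr (opB d) (T - s) (opB d (φ s)) = (pr (opB d) (T - s) * opB d) (φ s) := rfl
        rw [h4, pr_mul]; rfl
      have h5 : opL d (φ s) = opB d (φ s) + opC d (φ s) := rfl
      rw [h5, map_add, h3]
      show -(sg (opB d) (T - s) (φ s)) + _ = _
      abel
    rwa [h2] at h1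
  set Q : ℝ → ℝ := fun s => E (pr (opB d) (T - s) (φ s)) + E (pr (opB d) s φ0) + E (φ s) with hQ
  set Q' : ℝ → ℝ := fun s => E (-φ s + pr (opB d) (T - s) (opC d (φ s))) + E (sg (opB d) s φ0) +
    E (opL d (φ s)) with hQ'
  have hQd : ∀ s, HasDerivAt Q (Q' s) s := by
    intro s
    have h1 := (E.hasFDerivAt.comp_hasDerivAt s (hA s))
    have h2 := (E.hasFDerivAt.comp_hasDerivAt s (hB s))
    have h3 := (E.hasFDerivAt.comp_hasDerivAt s (hL s))
    exact (h1.add h2).add h3
  have hQc : Continuous Q' := by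
    have c1 : Continuous (fun s => pr (opB d) (T - s) (opC d (φ s))) :=
      (hprc.comp (continuous_const.sub continuous_id)).clm_apply ((opC d).continuous.comp hφc)
    have c2 : Continuous (fun s => sg (opB d) s φ0) := (sg_continuous _).clm_apply continuous_const
    exact ((E.continuous.comp (hφc.neg.add c1)).add (E.continuous.comp c2)).add
      (E.continuous.comp ((opL d).continuous.comp hφc))
  have hVc : Continuous (fun s => sg (opL d) s φ0 (0, 0) - sg (opB d) s φ0 (0, 0)) := by
    have c2 : Continuous (fun s => sg (opB d) s φ0) := (sg_continuous _).clm_apply continuous_const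
    exact (E.continuous.comp hφc).sub (E.continuous.comp c2)
  have hle : ∀ s ∈ Set.Icc 0 T, sg (opL d) s φ0 (0, 0) - sg (opB d) s φ0 (0, 0) ≤ - Q' s := by
    intro s hs
    have hn := hnice s hs.1
    have e1 : E (pr (opB d) (T - s) (opC d (φ s))) =
        (1 / 2) * ∑ a : Dir d, GG (φ s) a * RR a (T - s) := by
      rw [opC_nice (φ s) hn, map_smul, map_sum, map_smul, map_sum, smul_eq_mul]
      congr 1
      refine Finset.sum_congr rfl (fun a _ => ?_)
      rw [map_smul, map_smul, smul_eq_mul]; rfl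
    have e2 : ∑ a : Dir d, GG (φ s) a * RR a (T - s) ≤ ∑ a : Dir d, GG (φ s) a := by
      refine Finset.sum_le_sum (fun a _ => ?_)
      have h1 := hG s hs.1 a
      have h2 := RR_bound a (T - s) (by linarith [hs.2])
      calc GG (φ s) a * RR a (T - s) ≤ GG (φ s) a * 1 := mul_le_mul_of_nonneg_left h2 h1
        _ = _ := mul_one _
    have e3 : E (opL d (φ s)) = - ((1 / 2) * ∑ a : Dir d, GG (φ s) a) := by
      have h5 : opL d (φ s) = opB d (φ s) + opC d (φ s) := rfl
      rw [h5, map_add, opC_nice (φ s) hn]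
      have e4 : E (opB d (φ s)) = - ∑ a : Dir d, GG (φ s) a := by
        show opB d (φ s) (0, 0) = _
        rw [opB_apply, Finset.mul_sum, ← Finset.sum_neg_distrib]
        refine Finset.sum_congr rfl (fun a _ => ?_)
        unfold GG
        rw [hn.2 0 (0 + step a), zero_add]
        ring
      have e5 : E ((1 / 2 : ℝ) • ∑ a : Dir d, GG (φ s) a • rho a) =
          (1 / 2) * ∑ a : Dir d, GG (φ s) a := by
        rw [map_smul, map_sum, smul_eq_mul]
        congr 1
        refine Finset.sum_congr rfl (fun a _ => ?_)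
        rw [map_smul, smul_eq_mul]
        show GG (φ s) a * rho a (0, 0) = _
        rw [rho_apply, if_pos rfl, if_neg]
        · ring
        · intro hh
          rw [zero_add] at hh
          exact step_ne_zero a hh.symm
      rw [e4, e5]; ring
    show E (φ s) - E (sg (opB d) s φ0) ≤ -(E (-φ s + pr (opB d) (T - s) (opC d (φ s))) +
      E (sg (opB d) s φ0) + E (opL d (φ s)))
    rw [map_add, map_neg, e1, e3]
    linarith
  have hint := intervalIntegral.integral_eq_sub_of_hasDerivAt (fun s _ => hQd s)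
    (hQc.intervalIntegrable 0 T)
  have hmono := intervalIntegral.integral_mono_on (μ := volume) hT (hVc.intervalIntegrable 0 T)
    (hQc.neg.intervalIntegrable 0 T) hle
  have hneg : ∫ s in (0 : ℝ)..T, -Q' s = -(Q T - Q 0) := by
    rw [intervalIntegral.integral_neg, hint]
  have hQ0 : Q 0 = E (pr (opB d) T φ0) + E φ0 := by
    simp [hQ, hφ, pr_zero, sg_zero]
  have hQT : Q T = E (pr (opB d) T φ0) + E (φ T) := by
    simp [hQ, pr_zero]
  have hb : ∀ s, 0 ≤ s → |E (φ s)| ≤ M := by
    intro s hs
    calc |E (φ s)| = ‖φ s (0, 0)‖ := (Real.norm_eq_abs _).symm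
      _ ≤ ‖φ s‖ := BoundedContinuousFunction.norm_coe_le_norm _ _
      _ ≤ M := hM s hs
  have b1 := hb T hT
  have b2 := hb 0 le_rfl
  have e0 : φ 0 = φ0 := by simp [hφ, sg_zero]
  rw [e0] at b2
  refine hmono.trans ?_
  show ∫ s in (0 : ℝ)..T, -Q' s ≤ _
  rw [hneg, hQ0, hQT]
  have := (abs_le.1 b1).1
  have := (abs_le.1 b2).2
  linarith

end Pool.Agent.H563R3.EA
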