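import Mathlib
import Pool.Agent.H563R3.EALat

set_option autoImplicit false
set_option linter.unusedSectionVars false
open MeasureTheory ProbabilityTheory Filter Topology

namespace Pool.Agent.H563R3.EA

variable {d : ℕ} {Ω : Type} {mΩ : MeasurableSpace Ω}

/-- The edges at a site. -/
def ed (w : Site d) (a : Dir d) : Edge d := if a.2 = true then (w, a.1) else (w - Pi.single a.1 1, a.1)

theorem touches_iff (e : Edge d) (w : Site d) : Touches e w ↔ ∃ a, e = ed w a := by
  unfold Touches tgt ed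
  constructor
  · rintro (h | h)
    · exact ⟨(e.2, true), by simp [h]⟩
    · refine ⟨(e.2, false), ?_⟩
      rw [h]; simp
  · rintro ⟨⟨i, b⟩, rfl⟩
    cases b
    · right; simp
    · left; simp

theorem ed_injective (w : Site d) : Function.Injective (ed w) := by
  rintro ⟨i, b⟩ ⟨j, c⟩ h
  have hne : ∀ i : Fin d, w ≠ w - Pi.single i 1 := by
    intro i hh
    have h2 := congrFun hh i
    rw [Pi.sub_apply, Pi.single_eq_same] at h2
    omega
  cases b <;> cases c <;> simp only [ed, Prod.mk.injEq] at h ⊢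
  · simp at h; exact ⟨h.2, trivial⟩
  · simp at h
  · simp at h
    exact absurd h.1 (hne j)
  · simp at h; exact ⟨h, trivial⟩

/-- The transposition of the endpoints of an edge. -/
def tr (e : Edge d) : Equiv.Perm (Site d) := Equiv.swap e.1 (tgt e)

theorem tr_ed (w : Site d) (a : Dir d) : tr (ed w a) = Equiv.swap w (w + step a) := by
  obtain ⟨i, b⟩ := a
  cases b
  · have h1 : ed w (i, false) = (w - Pi.single i 1, i) := rfl
    have h2 : step (i, false) = -(Pi.single i 1 : Site d) := rfl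
    rw [h1, h2]
    show Equiv.swap (w - Pi.single i 1) (w - Pi.single i 1 + Pi.single i 1) = _
    rw [sub_add_cancel, Equiv.swap_comm, sub_eq_add_neg]
  · rfl

theorem tr_of_not_touches (e : Edge d) (w : Site d) (h : ¬ Touches e w) : tr e w = w := by
  unfold Touches at h
  push Not at h
  exact Equiv.swap_apply_of_ne_of_ne h.1 h.2

/-- The average over an edge. -/
noncomputable def Kav (e : Edge d) (η : Site d → ℝ) (u : Site d) : ℝ := (η u + η (tr e u)) / 2

/-- The pathwise properties. -/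
structure Good (N : Edge d → ℝ → Ω → ℕ) (f : ℝ → Ω → Site d → ℝ) (ω : Ω) : Prop where
  mono : ∀ e s t, 0 ≤ s → s ≤ t → N e s ω ≤ N e t ω
  right : ∀ e t, 0 ≤ t → ∀ᶠ s in 𝓝[>] t, N e s ω = N e t ω
  keep : ∀ v s t, 0 ≤ s → s ≤ t → (∀ e, Touches e v → N e t ω = N e s ω) → f t ω v = f s ω v
  average : ∀ e t, Rings N e t ω → ∀ a b : ℝ,
    Tendsto (fun s => f s ω e.1) (𝓝[<] t) (𝓝 a) →
    Tendsto (fun s => f s ω (tgt e)) (𝓝[<] t) (𝓝 b) →
    f t ω e.1 = (a + b) / 2 ∧ f t ω (tgt e) = (a + b) / 2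

theorem good_ae {P : Measure Ω} {F : Filtration ℝ mΩ} {N : Edge d → ℝ → Ω → ℕ}
    {f : ℝ → Ω → Site d → ℝ} (hN : PoissonClocks P F N) (hf : EdgeAveraging P F N f) :
    ∀ᵐ ω ∂P, Good N f ω := by
  filter_upwards [hN.paths, hf.keep, hf.average] with ω h1 h2 h3
  exact ⟨fun e => (h1 e).2.1, fun e => (h1 e).2.2, h2, h3⟩

/-- One ring. -/
theorem one_ring {N : Edge d → ℝ → Ω → ℕ} {f : ℝ → Ω → Site d → ℝ} {ω : Ω} (hg : Good N f ω)
    (e : Edge d) (s t : ℝ) (hs : 0 ≤ s) (hst : s < t) (h1 : N e t ω - N e s ω = 1)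
    (h2 : ∀ e', e' ≠ e → (Touches e' e.1 ∨ Touches e' (tgt e)) → N e' t ω - N e' s ω = 0) :
    f t ω e.1 = (f s ω e.1 + f s ω (tgt e)) / 2 ∧
    f t ω (tgt e) = (f s ω e.1 + f s ω (tgt e)) / 2 := by
  have hNt : N e t ω = N e s ω + 1 := by omega
  set A : Set ℝ := {r | s ≤ r ∧ N e s ω < N e r ω} with hA
  have hAt : t ∈ A := ⟨hst.le, by omega⟩
  have hAb : BddBelow A := ⟨s, fun r hr => hr.1⟩
  set ρ := sInf A with hρ
  have hsρ : s ≤ ρ := le_csInf ⟨t, hAt⟩ (fun r hr => hr.1)
  have hρt : ρ ≤ t := csInf_le hAb hAt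
  have hbelow : ∀ r, s ≤ r → r < ρ → N e r ω = N e s ω := by
    intro r hr1 hr2
    have h3 : r ∉ A := fun hr => absurd (csInf_le hAb hr) (not_le.2 hr2)
    have h4 : ¬ (N e s ω < N e r ω) := fun hh => h3 ⟨hr1, hh⟩
    have h5 := hg.mono e s r hs hr1
    omega
  have hρN : N e s ω < N e ρ ω := by
    by_contra hcon
    have hev := hg.right e ρ (hs.trans hsρ)
    rw [eventually_nhdsWithin_iff, Metric.eventually_nhds_iff] at hev
    obtain ⟨ε, hε, hev⟩ := hev
    obtain ⟨r, hrA, hr⟩ := exists_lt_of_csInf_lt ⟨t, hAt⟩ (show sInf A < ρ + ε by linarith)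
    have hρr : ρ ≤ r := csInf_le hAb hrA
    rcases hρr.eq_or_lt with h | h
    · rw [← h] at hrA; exact hcon hrA.2
    · have := hev (y := r) (by rw [Real.dist_eq, abs_of_pos (by linarith)]; linarith) h
      rw [← this] at hcon
      exact hcon hrA.2
  have hρs : s < ρ := by
    rcases hsρ.eq_or_lt with h | h
    · rw [← h] at hρN; exact absurd hρN (lt_irrefl _)
    · exact h
  have hρN2 : N e ρ ω = N e s ω + 1 := by
    have := hg.mono e ρ t (hs.trans hsρ) hρt
    omega
  have hρ0 : 0 < ρ := lt_of_le_of_lt hs hρs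
  have hring : Rings N e ρ ω := by
    refine ⟨hρ0, fun r hr0 hrρ => ?_⟩
    rcases le_total s r with h | h
    · rw [hbelow r h hrρ]; exact hρN
    · exact lt_of_le_of_lt (hg.mono e r s hr0 h) hρN
  -- other edges do not change
  have hother : ∀ e', e' ≠ e → (Touches e' e.1 ∨ Touches e' (tgt e)) → ∀ r, s ≤ r → r ≤ t →
      N e' r ω = N e' s ω := by
    intro e' hne ht r hr1 hr2
    have h3 := h2 e' hne ht
    have h4 := hg.mono e' s r hs hr1
    have h5 := hg.mono e' r t (hs.trans hr1) hr2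
    omega
  have hconst : ∀ w, (w = e.1 ∨ w = tgt e) → ∀ r, s ≤ r → r < ρ → f r ω w = f s ω w := by
    intro w hw r hr1 hr2
    refine hg.keep w s r hs hr1 (fun e' he' => ?_)
    by_cases hee : e' = e
    · rw [hee]; exact hbelow r hr1 hr2
    · refine hother e' hee ?_ r hr1 (hr2.le.trans hρt)
      rcases hw with rfl | rfl
      · exact Or.inl he'
      · exact Or.inr he'
  have hlim : ∀ w, (w = e.1 ∨ w = tgt e) → Tendsto (fun r => f r ω w) (𝓝[<] ρ) (𝓝 (f s ω w)) := by
    intro w hw
    refine tendsto_const_nhds.congr' ?_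
    filter_upwards [Ioo_mem_nhdsLT hρs] with r hr
    exact (hconst w hw r hr.1.le hr.2).symm
  have hav := hg.average e ρ hring _ _ (hlim e.1 (Or.inl rfl)) (hlim (tgt e) (Or.inr rfl))
  have hafter : ∀ w, (w = e.1 ∨ w = tgt e) → f t ω w = f ρ ω w := by
    intro w hw
    refine hg.keep w ρ t (hs.trans hsρ) hρt (fun e' he' => ?_)
    by_cases hee : e' = e
    · rw [hee]; omega
    · have hT : Touches e' e.1 ∨ Touches e' (tgt e) := by
        rcases hw with rfl | rfl
        · exact Or.inl he'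
        · exact Or.inr he'
      rw [hother e' hee hT t hst.le le_rfl, hother e' hee hT ρ hsρ hρt]
  exact ⟨(hafter _ (Or.inl rfl)).trans hav.1, (hafter _ (Or.inr rfl)).trans hav.2⟩

/-- The finite set of relevant edges. -/
def S1 (u : Site d) : Finset (Edge d) :=
  Finset.univ.image (ed u) ∪ Finset.univ.biUnion (fun a : Dir d => Finset.univ.image (ed (u + step a)))

theorem mem_S1_of_touches {e : Edge d} {u : Site d} (h : Touches e u) : e ∈ S1 u := by
  obtain ⟨a, rfl⟩ := (touches_iff e u).1 h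
  exact Finset.mem_union_left _ (Finset.mem_image_of_mem _ (Finset.mem_univ _))

theorem mem_S1_of_touches2 {e e' : Edge d} {u : Site d} (h : Touches e u)
    (h' : Touches e' e.1 ∨ Touches e' (tgt e)) : e' ∈ S1 u := by
  obtain ⟨a, rfl⟩ := (touches_iff e u).1 h
  have h2 : ((ed u a).1 = u ∨ (ed u a).1 = u + step a) ∧
      (tgt (ed u a) = u ∨ tgt (ed u a) = u + step a) := by
    obtain ⟨i, b⟩ := a
    cases b
    · constructor
      · right; simp [ed, step, sub_eq_add_neg]
      · left; simp [ed, tgt]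
    · constructor
      · left; simp [ed]
      · right; simp [ed, tgt, step]
  have h3 : Touches e' u ∨ Touches e' (u + step a) := by
    rcases h' with h' | h'
    · rcases h2.1 with h4 | h4 <;> rw [h4] at h'
      · exact Or.inl h'
      · exact Or.inr h'
    · rcases h2.2 with h4 | h4 <;> rw [h4] at h'
      · exact Or.inl h'
      · exact Or.inr h'
  rcases h3 with h3 | h3
  · exact mem_S1_of_touches h3
  · obtain ⟨b, rfl⟩ := (touches_iff e' _).1 h3
    refine Finset.mem_union_right _ (Finset.mem_biUnion.2 ⟨a, Finset.mem_univ _, ?_⟩)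
    exact Finset.mem_image_of_mem _ (Finset.mem_univ _)

/-- A bound for the number of relevant edges. -/
def nb (d : ℕ) : ℕ := Fintype.card (Dir d) + Fintype.card (Dir d) * Fintype.card (Dir d)

theorem card_S1_le (u : Site d) : (S1 u).card ≤ nb d := by
  unfold S1 nb
  refine (Finset.card_union_le _ _).trans (add_le_add ?_ ?_)
  · exact Finset.card_image_le
  · refine Finset.card_biUnion_le.trans ?_
    calc ∑ a : Dir d, (Finset.univ.image (ed (u + step a))).card
        ≤ ∑ a : Dir d, Fintype.card (Dir d) := Finset.sum_le_sum (fun a _ => Finset.card_image_le)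
      _ = _ := by rw [Finset.sum_const, Finset.card_univ, smul_eq_mul]

/-- No ring in a set containing the edges at `u`. -/
theorem no_ring {N : Edge d → ℝ → Ω → ℕ} {f : ℝ → Ω → Site d → ℝ} {ω : Ω} (hg : Good N f ω)
    (u : Site d) (s t : ℝ) (hs : 0 ≤ s) (hst : s ≤ t)
    (h : ∀ e, Touches e u → N e t ω - N e s ω = 0) : f t ω u = f s ω u := by
  refine hg.keep u s t hs hst (fun e he => ?_)
  have h1 := h e he
  have h2 := hg.mono e s t hs hst
  omega

/-- Exactly one ring in a set of edges containing `S1 u`. -/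
theorem ring_value {N : Edge d → ℝ → Ω → ℕ} {f : ℝ → Ω → Site d → ℝ} {ω : Ω} (hg : Good N f ω)
    (u : Site d) (S : Finset (Edge d)) (hS : S1 u ⊆ S) (s t : ℝ) (hs : 0 ≤ s) (hst : s < t)
    (e : Edge d) (h1 : N e t ω - N e s ω = 1) (h2 : ∀ e' ∈ S, e' ≠ e → N e' t ω - N e' s ω = 0) :
    f t ω u = Kav e (f s ω) u := by
  unfold Kav
  by_cases hT : Touches e u
  · have h3 := one_ring hg e s t hs hst h1 (fun e' hne ht =>
      h2 e' (hS (mem_S1_of_touches2 hT ht)) hne)
    rcases hT with h | h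
    · subst h
      rw [h3.1]
      unfold tr
      rw [Equiv.swap_apply_left]
    · subst h
      rw [h3.2]
      unfold tr
      rw [Equiv.swap_apply_right, add_comm]
  · rw [tr_of_not_touches e u hT]
    have h3 : f t ω u = f s ω u := by
      refine no_ring hg u s t hs hst.le (fun e' he' => ?_)
      refine h2 e' (hS (mem_S1_of_touches he')) ?_
      rintro rfl
      exact hT he'
    rw [h3]; ring

/-- Sums over relevant edges. -/
theorem sum_edges (u : Site d) (S : Finset (Edge d)) (hS : S1 u ⊆ S) (g : Edge d → ℝ)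
    (hg : ∀ e, ¬ Touches e u → g e = 0) : ∑ e ∈ S, g e = ∑ a : Dir d, g (ed u a) := by
  rw [← Finset.sum_image (s := Finset.univ) (g := ed u) (fun a _ b _ h => ed_injective u h)]
  symm
  apply Finset.sum_subset
  · intro e he
    obtain ⟨a, _, rfl⟩ := Finset.mem_image.1 he
    exact hS (mem_S1_of_touches ((touches_iff _ _).2 ⟨a, rfl⟩))
  · intro e _ he
    apply hg
    intro hT
    obtain ⟨a, rfl⟩ := (touches_iff _ _).1 hT
    exact he (Finset.mem_image_of_mem _ (Finset.mem_univ _))

end Pool.Agent.H563R3.EA
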