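import Mathlib
import Pool.Agent.H563R3.EAPath

set_option autoImplicit false
set_option linter.unusedSectionVars false
open MeasureTheory ProbabilityTheory Filter Topology

namespace Pool.Agent.H563R3.EA

variable {d : ℕ} {Ω : Type} {mΩ : MeasurableSpace Ω}

/-- The increments. -/
def incr (N : Edge d → ℝ → Ω → ℕ) (s t : ℝ) (ω : Ω) (e : Edge d) : ℕ := N e t ω - N e s ω

/-- No ring in `S`. -/
def Zev (S : Finset (Edge d)) : Set (Edge d → ℕ) := Set.pi (S : Set (Edge d)) (fun _ => {0})

/-- Exactly one ring in `S`, at the edge `e`. -/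
def Aev (S : Finset (Edge d)) (e : Edge d) : Set (Edge d → ℕ) :=
  Set.pi (S : Set (Edge d)) (fun e' => if e' = e then {1} else {0})

theorem measurable_Zev (S : Finset (Edge d)) : MeasurableSet (Zev S) :=
  MeasurableSet.pi (Finset.countable_toSet S) (fun _ _ => MeasurableSet.of_discrete)

theorem measurable_Aev (S : Finset (Edge d)) (e : Edge d) : MeasurableSet (Aev S e) :=
  MeasurableSet.pi (Finset.countable_toSet S) (fun _ _ => MeasurableSet.of_discrete)

theorem prob_Zev (S : Finset (Edge d)) (h : ℝ) (hh : 0 ≤ h) :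
    (Measure.infinitePi (fun _ : Edge d => poissonMeasure (Real.toNNReal h))).real (Zev S) =
      Real.exp (-h) ^ S.card := by
  unfold Zev
  rw [measureReal_def, Measure.infinitePi_pi _ (fun _ _ => MeasurableSet.of_discrete),
    ENNReal.toReal_prod, Finset.prod_const, ← measureReal_def, poissonMeasure_real_singleton]
  simp [Real.coe_toNNReal h hh]

theorem prob_Aev (S : Finset (Edge d)) (e : Edge d) (he : e ∈ S) (h : ℝ) (hh : 0 ≤ h) :
    (Measure.infinitePi (fun _ : Edge d => poissonMeasure (Real.toNNReal h))).real (Aev S e) =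
      h * Real.exp (-h) ^ S.card := by
  unfold Aev
  rw [measureReal_def, Measure.infinitePi_pi _ (fun _ _ => MeasurableSet.of_discrete),
    ENNReal.toReal_prod, ← Finset.mul_prod_erase S _ he, if_pos rfl]
  have h1 : ∀ e' ∈ S.erase e, (poissonMeasure (Real.toNNReal h)
      (if e' = e then {1} else {0})).toReal = Real.exp (-h) := by
    intro e' he'
    rw [if_neg (Finset.ne_of_mem_erase he'), ← measureReal_def, poissonMeasure_real_singleton]
    simp [Real.coe_toNNReal h hh]
  rw [Finset.prod_congr rfl h1, Finset.prod_const, ← measureReal_def,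
    poissonMeasure_real_singleton, Real.coe_toNNReal h hh]
  have h2 : S.card = (S.erase e).card + 1 := by
    rw [Finset.card_erase_of_mem he]
    have := Finset.card_pos.2 ⟨e, he⟩
    omega
  rw [h2, pow_succ]
  simp
  ring

theorem indicator_sum_le (S : Finset (Edge d)) (x : Edge d → ℕ) :
    (Zev S).indicator (1 : (Edge d → ℕ) → ℝ) x +
      ∑ e ∈ S, (Aev S e).indicator (1 : (Edge d → ℕ) → ℝ) x ≤ 1 := by
  classical
  by_cases h : ∃ e ∈ S, x ∈ Aev S e
  · obtain ⟨e, he, hx⟩ := h
    have hxe : x e = 1 := by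
      have := hx e (Finset.mem_coe.2 he)
      simpa using this
    have h1 : x ∉ Zev S := by
      intro hz
      have := hz e (Finset.mem_coe.2 he)
      simp at this
      omega
    have h2 : ∀ e' ∈ S, e' ≠ e → (Aev S e').indicator (1 : (Edge d → ℕ) → ℝ) x = 0 := by
      intro e' _ hne
      apply Set.indicator_of_notMem
      intro hx'
      have := hx' e (Finset.mem_coe.2 he)
      simp [hne.symm] at this
      omega
    rw [Finset.sum_eq_single_of_mem e he h2, Set.indicator_of_notMem h1, Set.indicator_of_mem hx]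
    simp
  · push Not at h
    rw [Finset.sum_eq_zero (fun e he => Set.indicator_of_notMem (h e he) _), add_zero]
    exact Set.indicator_le_self' (fun _ _ => by norm_num) x

theorem exp_bounds (n h : ℝ) (hn : 0 ≤ n) (hh : 0 ≤ h) :
    |Real.exp (-(n * h)) - 1 + n * h| ≤ (n * h) ^ 2 ∧
    |Real.exp (-(n * h)) - 1| ≤ n * h ∧
    1 - Real.exp (-(n * h)) * (1 + n * h) ≤ (n * h) ^ 2 := by
  set x := n * h with hx
  have hx0 : 0 ≤ x := mul_nonneg hn hh
  have h1 := Real.add_one_le_exp (-x)
  have h2 : Real.exp (-x) ≤ 1 := Real.exp_le_one_iff.2 (by linarith)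
  have h3 : Real.exp (-x) * (1 + x) ≤ 1 := by
    have h4 := Real.add_one_le_exp x
    calc Real.exp (-x) * (1 + x) ≤ Real.exp (-x) * Real.exp x := by
          gcongr; linarith
      _ = 1 := by rw [← Real.exp_add]; simp
  have h5 : Real.exp (-x) ≤ 1 - x + x ^ 2 := by
    have h6 : (1 - x + x ^ 2) * (1 + x) ≥ 1 := by nlinarith [pow_nonneg hx0 3]
    by_contra hcon
    push Not at hcon
    nlinarith
  refine ⟨?_, ?_, ?_⟩
  · rw [abs_le]; constructor <;> nlinarith
  · rw [abs_le]; constructor <;> linarith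
  · nlinarith

/-- The expansion lemma. -/
theorem expansion {P : Measure Ω} [IsProbabilityMeasure P] {F : Filtration ℝ mΩ}
    {N : Edge d → ℝ → Ω → ℕ} (hN : PoissonClocks P F N) (S : Finset (Edge d)) (t h : ℝ)
    (ht : 0 ≤ t) (hh : 0 < h) (W W0 : Ω → ℝ) (We : Edge d → Ω → ℝ) (B : ℝ)
    (hW : Measurable W) (hWb : ∀ ω, |W ω| ≤ B) (hW0 : Measurable[F t] W0) (hW0b : ∀ ω, |W0 ω| ≤ B)
    (hWe : ∀ e ∈ S, Measurable[F t] (We e)) (hWeb : ∀ e ∈ S, ∀ ω, |We e ω| ≤ B)
    (hz : ∀ᵐ ω ∂P, (∀ e ∈ S, N e (t + h) ω - N e t ω = 0) → W ω = W0 ω)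
    (hone : ∀ᵐ ω ∂P, ∀ e ∈ S, N e (t + h) ω - N e t ω = 1 →
      (∀ e' ∈ S, e' ≠ e → N e' (t + h) ω - N e' t ω = 0) → W ω = We e ω) :
    |∫ ω, W ω ∂P - ∫ ω, W0 ω ∂P - h * ∑ e ∈ S, (∫ ω, We e ω ∂P - ∫ ω, W0 ω ∂P)| ≤
      3 * B * (S.card * h) ^ 2 := by
  classical
  have hFm := F.le t
  set I := incr N t (t + h) with hI
  have hIm : Measurable I := by
    rw [measurable_pi_iff]
    intro e
    have h1 : Measurable (N e (t + h)) := (hN.adapted e (t + h) (by linarith)).mono (F.le _) le_rfl
    have h2 : Measurable (N e t) := (hN.adapted e t ht).mono (F.le _) le_rfl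
    exact (Measurable.of_discrete (f := fun q : ℕ × ℕ => q.1 - q.2)).comp (h1.prodMk h2)
  have hlaw : P.map I = Measure.infinitePi (fun _ : Edge d => poissonMeasure (Real.toNNReal h)) := by
    have := hN.law t (t + h) ht (by linarith)
    rw [add_sub_cancel_left] at this
    exact this
  have hind := hN.indep t (t + h) ht (by linarith)
  -- independence for events
  have hmul : ∀ (X : Ω → ℝ) (E : Set (Edge d → ℕ)), Measurable[F t] X → MeasurableSet E →
      ∫ ω, X ω * (E.indicator (1 : (Edge d → ℕ) → ℝ) (I ω)) ∂P = (∫ ω, X ω ∂P) * P.real (I ⁻¹' E) := by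
    intro X E hX hE
    have hXI : IndepFun X I P := by
      rw [IndepFun_iff_Indep]
      exact indep_of_indep_of_le_left hind hX.comap_le
    have hEm : Measurable (E.indicator (1 : (Edge d → ℕ) → ℝ)) := measurable_one.indicator hE
    have h1 := (hXI.comp measurable_id hEm).integral_fun_mul_eq_mul_integral
      (hX.mono hFm le_rfl).aestronglyMeasurable (hEm.comp hIm).aestronglyMeasurable
    have h2 : ∫ ω, (E.indicator (1 : (Edge d → ℕ) → ℝ) ∘ I) ω ∂P = P.real (I ⁻¹' E) := by
      have : (E.indicator (1 : (Edge d → ℕ) → ℝ) ∘ I) = (I ⁻¹' E).indicator 1 := by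
        funext ω; simp [Set.indicator]
      rw [this, integral_indicator_one (hIm hE)]
    rw [h2] at h1
    exact h1
  have hpz : P.real (I ⁻¹' Zev S) = Real.exp (-(S.card * h)) := by
    rw [← map_measureReal_apply hIm (measurable_Zev S), hlaw, prob_Zev S h hh.le,
      ← Real.exp_nat_mul]
    congr 1; ring
  have hpa : ∀ e ∈ S, P.real (I ⁻¹' Aev S e) = h * Real.exp (-(S.card * h)) := by
    intro e he
    rw [← map_measureReal_apply hIm (measurable_Aev S e), hlaw, prob_Aev S e he h hh.le,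
      ← Real.exp_nat_mul]
    congr 2; ring
  -- decomposition
  set z : Ω → ℝ := fun ω => (Zev S).indicator (1 : (Edge d → ℕ) → ℝ) (I ω) with hzdef
  set al : Edge d → Ω → ℝ := fun e ω => (Aev S e).indicator (1 : (Edge d → ℕ) → ℝ) (I ω) with hal
  set r : Ω → ℝ := fun ω => 1 - (z ω + ∑ e ∈ S, al e ω) with hr
  have hr0 : ∀ ω, 0 ≤ r ω := fun ω => by
    have := indicator_sum_le S (I ω)
    simp only [hr, hzdef, hal]; linarith
  have hzm : Measurable z := (measurable_one.indicator (measurable_Zev S)).comp hIm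
  have ham : ∀ e, Measurable (al e) := fun e =>
    (measurable_one.indicator (measurable_Aev S e)).comp hIm
  have hrm : Measurable r := measurable_const.sub (hzm.add (Finset.measurable_sum _ (fun e _ => ham e)))
  have hz01 : ∀ ω, |z ω| ≤ 1 := fun ω => by
    simp only [hzdef, Set.indicator]; split_ifs <;> simp
  have ha01 : ∀ e ω, |al e ω| ≤ 1 := fun e ω => by
    simp only [hal, Set.indicator]; split_ifs <;> simp
  have hB : 0 ≤ B := by
    obtain ⟨ω⟩ := P.nonempty_of_neZero
    exact (abs_nonneg _).trans (hWb ω)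
  have hW0m : Measurable W0 := hW0.mono hFm le_rfl
  have hWem : ∀ e ∈ S, Measurable (We e) := fun e he => (hWe e he).mono hFm le_rfl
  have hae : ∀ᵐ ω ∂P, W ω = W0 ω * z ω + ∑ e ∈ S, We e ω * al e ω + W ω * r ω := by
    filter_upwards [hz, hone] with ω h1 h2
    have e1 : W ω * z ω = W0 ω * z ω := by
      by_cases hx : I ω ∈ Zev S
      · rw [h1 (fun e he => by
          have h3 : I ω e = 0 := by simpa using hx e (Finset.mem_coe.2 he)
          exact h3)]
      · have : z ω = 0 := Set.indicator_of_notMem hx _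
        rw [this, mul_zero, mul_zero]
    have e2 : ∀ e ∈ S, W ω * al e ω = We e ω * al e ω := by
      intro e he
      by_cases hx : I ω ∈ Aev S e
      · have h3 : I ω e = 1 := by simpa using hx e (Finset.mem_coe.2 he)
        rw [h2 e he h3 (fun e' he' hne => by
          have h4 : I ω e' = 0 := by simpa [hne] using hx e' (Finset.mem_coe.2 he')
          exact h4)]
      · have : al e ω = 0 := Set.indicator_of_notMem hx _
        rw [this, mul_zero, mul_zero]
    have e3 : ∑ e ∈ S, We e ω * al e ω = W ω * ∑ e ∈ S, al e ω := by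
      rw [Finset.mul_sum]
      exact Finset.sum_congr rfl (fun e he => (e2 e he).symm)
    rw [e3, ← e1]
    simp only [hr]
    ring
  have i1 : Integrable (fun ω => W0 ω * z ω) P :=
    Integrable.of_bound (hW0m.mul hzm).aestronglyMeasurable B (Eventually.of_forall (fun ω => by
      rw [norm_mul, Real.norm_eq_abs, Real.norm_eq_abs]
      calc |W0 ω| * |z ω| ≤ B * 1 := mul_le_mul (hW0b ω) (hz01 ω) (abs_nonneg _) hB
        _ = B := mul_one B))
  have i2 : ∀ e ∈ S, Integrable (fun ω => We e ω * al e ω) P := fun e he =>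
    Integrable.of_bound ((hWem e he).mul (ham e)).aestronglyMeasurable B
      (Eventually.of_forall (fun ω => by
        rw [norm_mul, Real.norm_eq_abs, Real.norm_eq_abs]
        calc |We e ω| * |al e ω| ≤ B * 1 := mul_le_mul (hWeb e he ω) (ha01 e ω) (abs_nonneg _) hB
          _ = B := mul_one B))
  have hr1 : ∀ ω, r ω ≤ 1 := fun ω => by
    have h1 : 0 ≤ z ω := Set.indicator_nonneg (fun _ _ => by simp) _
    have h2 : 0 ≤ ∑ e ∈ S, al e ω :=
      Finset.sum_nonneg (fun e _ => Set.indicator_nonneg (fun _ _ => by simp) _)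
    simp only [hr]; linarith
  have i3 : Integrable (fun ω => W ω * r ω) P :=
    Integrable.of_bound (hW.mul hrm).aestronglyMeasurable B (Eventually.of_forall (fun ω => by
      rw [norm_mul, Real.norm_eq_abs, Real.norm_eq_abs, abs_of_nonneg (hr0 ω)]
      calc |W ω| * r ω ≤ B * 1 := mul_le_mul (hWb ω) (hr1 ω) (hr0 ω) hB
        _ = B := mul_one B))
  have ir : Integrable r P := Integrable.of_bound hrm.aestronglyMeasurable 1
    (Eventually.of_forall (fun ω => by rw [Real.norm_eq_abs, abs_of_nonneg (hr0 ω)]; exact hr1 ω))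
  have iz : Integrable z P := Integrable.of_bound hzm.aestronglyMeasurable 1
    (Eventually.of_forall (fun ω => by rw [Real.norm_eq_abs]; exact hz01 ω))
  have ia : ∀ e ∈ S, Integrable (al e) P := fun e _ =>
    Integrable.of_bound (ham e).aestronglyMeasurable 1
      (Eventually.of_forall (fun ω => by rw [Real.norm_eq_abs]; exact ha01 e ω))
  set n : ℝ := (S.card : ℝ) with hn
  have hn0 : 0 ≤ n := Nat.cast_nonneg _
  set E := Real.exp (-(n * h)) with hE
  have q1 : ∫ ω, W0 ω * z ω ∂P = (∫ ω, W0 ω ∂P) * E := by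
    rw [hmul W0 _ hW0 (measurable_Zev S), hpz]
  have q2 : ∀ e ∈ S, ∫ ω, We e ω * al e ω ∂P = (∫ ω, We e ω ∂P) * (h * E) := by
    intro e he
    rw [hmul (We e) _ (hWe e he) (measurable_Aev S e), hpa e he]
  have q3 : ∫ ω, r ω ∂P = 1 - E * (1 + n * h) := by
    have e1 : ∫ ω, z ω ∂P = E := by
      have := hmul (fun _ => (1 : ℝ)) _ measurable_const (measurable_Zev S)
      simp only [one_mul, integral_const, probReal_univ, smul_eq_mul, mul_one] at this
      rw [hpz] at this
      exact this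
    have e2 : ∀ e ∈ S, ∫ ω, al e ω ∂P = h * E := by
      intro e he
      have := hmul (fun _ => (1 : ℝ)) _ measurable_const (measurable_Aev S e)
      simp only [one_mul, integral_const, probReal_univ, smul_eq_mul, mul_one] at this
      rw [hpa e he] at this
      exact this
    have e3 : ∫ ω, ∑ e ∈ S, al e ω ∂P = n * (h * E) := by
      rw [integral_finsetSum S ia, Finset.sum_congr rfl e2, Finset.sum_const, nsmul_eq_mul]
    have e4 : Integrable (fun ω => ∑ e ∈ S, al e ω) P := integrable_finsetSum S ia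
    have e5 : Integrable (fun ω => z ω + ∑ e ∈ S, al e ω) P := iz.add e4
    simp only [hr]
    rw [integral_sub (integrable_const _) e5, integral_add iz e4, e1, e3]
    simp
    ring
  have q4 : ∫ ω, W ω ∂P = (∫ ω, W0 ω ∂P) * E + ∑ e ∈ S, (∫ ω, We e ω ∂P) * (h * E) +
      ∫ ω, W ω * r ω ∂P := by
    have e4 : Integrable (fun ω => ∑ e ∈ S, We e ω * al e ω) P := integrable_finsetSum S i2
    have e5 : Integrable (fun ω => W0 ω * z ω + ∑ e ∈ S, We e ω * al e ω) P := i1.add e4
    rw [integral_congr_ae hae, integral_add e5 i3, integral_add i1 e4, q1,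
      integral_finsetSum S i2, Finset.sum_congr rfl q2]
  have q5 : |∫ ω, W ω * r ω ∂P| ≤ B * (n * h) ^ 2 := by
    calc |∫ ω, W ω * r ω ∂P| ≤ ∫ ω, |W ω * r ω| ∂P := abs_integral_le_integral_abs
      _ ≤ ∫ ω, B * r ω ∂P := by
          refine integral_mono i3.abs (ir.const_mul B) (fun ω => ?_)
          show |W ω * r ω| ≤ B * r ω
          rw [abs_mul, abs_of_nonneg (hr0 ω)]
          exact mul_le_mul_of_nonneg_right (hWb ω) (hr0 ω)
      _ = B * (1 - E * (1 + n * h)) := by rw [integral_const_mul, q3]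
      _ ≤ _ := mul_le_mul_of_nonneg_left (exp_bounds n h hn0 hh.le).2.2 hB
  have hw0 : |∫ ω, W0 ω ∂P| ≤ B := by
    have := norm_integral_le_of_norm_le_const (μ := P) (f := W0) (C := B)
      (Eventually.of_forall (fun ω => by rw [Real.norm_eq_abs]; exact hW0b ω))
    simpa using this
  have hwe : ∀ e ∈ S, |∫ ω, We e ω ∂P| ≤ B := by
    intro e he
    have := norm_integral_le_of_norm_le_const (μ := P) (f := We e) (C := B)
      (Eventually.of_forall (fun ω => by rw [Real.norm_eq_abs]; exact hWeb e he ω))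
    simpa using this
  set w0 := ∫ ω, W0 ω ∂P with hw0d
  set R := ∫ ω, W ω * r ω ∂P with hRd
  have hfin : ∫ ω, W ω ∂P - w0 - h * ∑ e ∈ S, (∫ ω, We e ω ∂P - w0) =
      (E - 1 + n * h) * w0 + (h * (E - 1)) * ∑ e ∈ S, ∫ ω, We e ω ∂P + R := by
    rw [q4, Finset.sum_sub_distrib, Finset.sum_const, nsmul_eq_mul, ← Finset.sum_mul]
    ring
  rw [hfin]
  have b1 : |(E - 1 + n * h) * w0| ≤ (n * h) ^ 2 * B := by
    rw [abs_mul]
    exact mul_le_mul (exp_bounds n h hn0 hh.le).1 hw0 (abs_nonneg _) (sq_nonneg _)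
  have b2 : |(h * (E - 1)) * ∑ e ∈ S, ∫ ω, We e ω ∂P| ≤ (h * (n * h)) * (n * B) := by
    rw [abs_mul, abs_mul, abs_of_pos hh]
    apply mul_le_mul _ _ (abs_nonneg _) (by positivity)
    · exact mul_le_mul_of_nonneg_left (exp_bounds n h hn0 hh.le).2.1 hh.le
    · calc |∑ e ∈ S, ∫ ω, We e ω ∂P| ≤ ∑ e ∈ S, |∫ ω, We e ω ∂P| := Finset.abs_sum_le_sum_abs _ _
        _ ≤ ∑ e ∈ S, B := Finset.sum_le_sum hwe
        _ = n * B := by rw [Finset.sum_const, nsmul_eq_mul]
  calc |(E - 1 + n * h) * w0 + (h * (E - 1)) * ∑ e ∈ S, ∫ ω, We e ω ∂P + R|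
      ≤ |(E - 1 + n * h) * w0| + |(h * (E - 1)) * ∑ e ∈ S, ∫ ω, We e ω ∂P| + |R| := by
        refine (abs_add_le _ _).trans ?_
        gcongr
        exact abs_add_le _ _
    _ ≤ (n * h) ^ 2 * B + (h * (n * h)) * (n * B) + B * (n * h) ^ 2 := by
        gcongr
    _ = 3 * B * (n * h) ^ 2 := by ring

end Pool.Agent.H563R3.EA
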