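import Mathlib
import Pool.Agent.H563R3.EAPois

set_option autoImplicit false
set_option linter.unusedSectionVars false
open MeasureTheory ProbabilityTheory Filter Topology
open scoped BoundedContinuousFunction

namespace Pool.Agent.H563R3.EA

variable {d : ℕ} {Ω : Type} {mΩ : MeasurableSpace Ω}

/-- A process bounded by `M` everywhere. -/
structure Proc (P : Measure Ω) (F : Filtration ℝ mΩ) (N : Edge d → ℝ → Ω → ℕ)
    (f : ℝ → Ω → Site d → ℝ) (M : ℝ) : Prop where
  clocks : PoissonClocks P F N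
  adapted : ∀ t v, 0 ≤ t → Measurable[F t] (fun ω => f t ω v)
  bdd : ∀ t ω v, 0 ≤ t → |f t ω v| ≤ M
  good : ∀ᵐ ω ∂P, Good N f ω

variable {P : Measure Ω} [IsProbabilityMeasure P] {F : Filtration ℝ mΩ}
  {N : Edge d → ℝ → Ω → ℕ} {f : ℝ → Ω → Site d → ℝ} {M : ℝ}

theorem Proc.meas (h : Proc P F N f M) (t : ℝ) (v : Site d) (ht : 0 ≤ t) :
    Measurable (fun ω => f t ω v) := (h.adapted t v ht).mono (F.le t) le_rfl

theorem Proc.M_nonneg (h : Proc P F N f M) : 0 ≤ M := by
  obtain ⟨ω⟩ := P.nonempty_of_neZero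
  exact (abs_nonneg _).trans (h.bdd 0 ω 0 le_rfl)

theorem Proc.Kav_le (h : Proc P F N f M) (t : ℝ) (ht : 0 ≤ t) (e : Edge d) (ω : Ω) (u : Site d) :
    |Kav e (f t ω) u| ≤ M := by
  unfold Kav
  have h1 := abs_le.1 (h.bdd t ω u ht)
  have h2 := abs_le.1 (h.bdd t ω (tr e u) ht)
  rw [abs_le]
  constructor <;> linarith [h1.1, h1.2, h2.1, h2.2]

theorem Proc.Kav_meas (h : Proc P F N f M) (t : ℝ) (ht : 0 ≤ t) (e : Edge d) (u : Site d) :
    Measurable[F t] (fun ω => Kav e (f t ω) u) := by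
  unfold Kav
  exact ((h.adapted t u ht).add (h.adapted t (tr e u) ht)).div_const 2

theorem Proc.mul_le (h : Proc P F N f M) {x y : ℝ} (hx : |x| ≤ M) (hy : |y| ≤ M) :
    |x * y| ≤ M ^ 2 := by
  rw [abs_mul, sq]
  exact mul_le_mul hx hy (abs_nonneg _) h.M_nonneg

theorem Proc.int2 (h : Proc P F N f M) (t : ℝ) (ht : 0 ≤ t) (u v : Site d) :
    Integrable (fun ω => f t ω u * f t ω v) P :=
  Integrable.of_bound ((h.meas t u ht).mul (h.meas t v ht)).aestronglyMeasurable (M ^ 2)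
    (Eventually.of_forall (fun ω => by
      rw [Real.norm_eq_abs]; exact h.mul_le (h.bdd t ω u ht) (h.bdd t ω v ht)))

theorem abs_int_le {g : Ω → ℝ} {C : ℝ} (h : ∀ ω, |g ω| ≤ C) : |∫ ω, g ω ∂P| ≤ C := by
  have := norm_integral_le_of_norm_le_const (μ := P) (f := g) (C := C)
    (Eventually.of_forall (fun ω => by rw [Real.norm_eq_abs]; exact h ω))
  simpa using this

/-- The two point function at time `t`. -/
noncomputable def phi (P : Measure Ω) [IsProbabilityMeasure P] (f : ℝ → Ω → Site d → ℝ) (M : ℝ)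
    (h : ∀ t ω v, 0 ≤ t → |f t ω v| ≤ M) (t : ℝ) : X2 d :=
  BoundedContinuousFunction.ofNormedAddCommGroupDiscrete
    (fun p => ∫ ω, f (max t 0) ω p.1 * f (max t 0) ω p.2 ∂P) (M ^ 2) (fun p => by
      rw [Real.norm_eq_abs]
      refine abs_int_le (fun ω => ?_)
      rw [abs_mul, sq]
      have h1 := h (max t 0) ω p.1 (le_max_right _ _)
      have h2 := h (max t 0) ω p.2 (le_max_right _ _)
      exact mul_le_mul h1 h2 (abs_nonneg _) ((abs_nonneg _).trans h1))

theorem phi_apply (h : Proc P F N f M) (t : ℝ) (ht : 0 ≤ t) (u v : Site d) :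
    phi P f M h.bdd t (u, v) = ∫ ω, f t ω u * f t ω v ∂P := by
  show ∫ ω, f (max t 0) ω u * f (max t 0) ω v ∂P = _
  rw [max_eq_left ht]

theorem phi_norm (h : Proc P F N f M) (t : ℝ) : ‖phi P f M h.bdd t‖ ≤ M ^ 2 :=
  (BoundedContinuousFunction.norm_le (sq_nonneg M)).2 (fun p => by
      show ‖∫ ω, f (max t 0) ω p.1 * f (max t 0) ω p.2 ∂P‖ ≤ _
      rw [Real.norm_eq_abs]
      refine abs_int_le (fun ω => ?_)
      exact h.mul_le (h.bdd _ ω _ (le_max_right _ _)) (h.bdd _ ω _ (le_max_right _ _)))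

theorem phi_expansion (h : Proc P F N f M) (t s : ℝ) (ht : 0 ≤ t) (hs : 0 < s) (_hs1 : s ≤ 1) :
    ‖phi P f M h.bdd (t + s) - phi P f M h.bdd t - s • opL d (phi P f M h.bdd t)‖ ≤
      (3 * M ^ 2 * (2 * nb d) ^ 2) * s ^ 2 := by
  classical
  refine (BoundedContinuousFunction.norm_le (by positivity)).2 ?_
  rintro ⟨u, v⟩
  set φ := phi P f M h.bdd t with hφ
  show ‖phi P f M h.bdd (t + s) (u, v) - φ (u, v) - s * opL d φ (u, v)‖ ≤ _
  rw [Real.norm_eq_abs]
  set S := S1 u ∪ S1 v with hS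
  have hSu : S1 u ⊆ S := Finset.subset_union_left
  have hSv : S1 v ⊆ S := Finset.subset_union_right
  have hts : 0 ≤ t + s := by linarith
  have hexp := expansion h.clocks S t s ht hs (fun ω => f (t + s) ω u * f (t + s) ω v)
    (fun ω => f t ω u * f t ω v) (fun e ω => Kav e (f t ω) u * Kav e (f t ω) v) (M ^ 2)
    ((h.meas _ _ hts).mul (h.meas _ _ hts)) (fun ω => h.mul_le (h.bdd _ ω _ hts) (h.bdd _ ω _ hts))
    ((h.adapted _ _ ht).mul (h.adapted _ _ ht)) (fun ω => h.mul_le (h.bdd _ ω _ ht) (h.bdd _ ω _ ht))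
    (fun e _ => (h.Kav_meas t ht e u).mul (h.Kav_meas t ht e v))
    (fun e _ ω => h.mul_le (h.Kav_le t ht e ω u) (h.Kav_le t ht e ω v))
    (by
      filter_upwards [h.good] with ω hg hz
      rw [no_ring hg u t (t + s) ht (by linarith) (fun e he => hz e (hSu (mem_S1_of_touches he))),
        no_ring hg v t (t + s) ht (by linarith) (fun e he => hz e (hSv (mem_S1_of_touches he)))])
    (by
      filter_upwards [h.good] with ω hg e he h1 h2
      rw [ring_value hg u S hSu t (t + s) ht (by linarith) e h1 h2,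
        ring_value hg v S hSv t (t + s) ht (by linarith) e h1 h2])
  have e1 : ∫ ω, f (t + s) ω u * f (t + s) ω v ∂P = phi P f M h.bdd (t + s) (u, v) :=
    (phi_apply h (t + s) hts u v).symm
  have e2 : ∀ u v, ∫ ω, f t ω u * f t ω v ∂P = φ (u, v) := fun u v => (phi_apply h t ht u v).symm
  have e3 : ∀ e : Edge d, ∫ ω, Kav e (f t ω) u * Kav e (f t ω) v ∂P =
      (1 / 4) * (φ (u, v) + φ (u, tr e v) + (φ (tr e u, v) + φ (tr e u, tr e v))) := by
    intro e
    have e4 : ∀ ω, Kav e (f t ω) u * Kav e (f t ω) v = (1 / 4) * ((f t ω u * f t ω v +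
        f t ω u * f t ω (tr e v)) + (f t ω (tr e u) * f t ω v + f t ω (tr e u) * f t ω (tr e v))) := by
      intro ω; unfold Kav; ring
    simp only [e4]
    have j1 : Integrable (fun ω => f t ω u * f t ω v + f t ω u * f t ω (tr e v)) P :=
      (h.int2 t ht u v).add (h.int2 t ht u (tr e v))
    have j2 : Integrable (fun ω => f t ω (tr e u) * f t ω v + f t ω (tr e u) * f t ω (tr e v)) P :=
      (h.int2 t ht (tr e u) v).add (h.int2 t ht (tr e u) (tr e v))
    rw [integral_const_mul, integral_add j1 j2, integral_add (h.int2 t ht u v)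
      (h.int2 t ht u (tr e v)), integral_add (h.int2 t ht (tr e u) v) (h.int2 t ht (tr e u) (tr e v)),
      e2, e2, e2, e2]
  have e5 : ∑ e ∈ S, (∫ ω, Kav e (f t ω) u * Kav e (f t ω) v ∂P - ∫ ω, f t ω u * f t ω v ∂P) =
      opL d φ (u, v) := by
    have e6 : ∀ e : Edge d, (∫ ω, Kav e (f t ω) u * Kav e (f t ω) v ∂P -
        ∫ ω, f t ω u * f t ω v ∂P) = (1 / 2) * (φ (tr e u, v) - φ (u, v)) +
        (1 / 2) * (φ (u, tr e v) - φ (u, v)) +
        (1 / 4) * (φ (tr e u, tr e v) - φ (tr e u, v) - φ (u, tr e v) + φ (u, v)) := by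
      intro e
      rw [e3, e2]; ring
    rw [Finset.sum_congr rfl (fun e _ => e6 e), Finset.sum_add_distrib, Finset.sum_add_distrib,
      sum_edges u S hSu _ (fun e he => by rw [tr_of_not_touches e u he]; ring),
      sum_edges v S hSv _ (fun e he => by rw [tr_of_not_touches e v he]; ring),
      sum_edges u S hSu _ (fun e he => by rw [tr_of_not_touches e u he]; ring)]
    show _ = opB d φ (u, v) + opC d φ (u, v)
    rw [opB_apply, opC_apply, Finset.sum_add_distrib, mul_add, Finset.mul_sum, Finset.mul_sum,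
      Finset.mul_sum]
    congr 1
    · congr 1
      · refine Finset.sum_congr rfl (fun a _ => ?_)
        rw [tr_ed, Equiv.swap_apply_left]
      · refine Finset.sum_congr rfl (fun a _ => ?_)
        rw [tr_ed, Equiv.swap_apply_left]
    · refine Finset.sum_congr rfl (fun a _ => ?_)
      rw [tr_ed, Equiv.swap_apply_left]
      rfl
  rw [e1, e5, e2] at hexp
  refine hexp.trans ?_
  have hcard : (S.card : ℝ) ≤ 2 * nb d := by
    have h1 := Finset.card_union_le (S1 u) (S1 v)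
    have h2 := card_S1_le u
    have h3 := card_S1_le v
    have : S.card ≤ 2 * nb d := by rw [hS]; omega
    exact_mod_cast this
  have h0 : (0 : ℝ) ≤ S.card := Nat.cast_nonneg _
  calc 3 * M ^ 2 * (S.card * s) ^ 2 ≤ 3 * M ^ 2 * (2 * nb d * s) ^ 2 := by gcongr
    _ = _ := by ring

theorem phi_eq (h : Proc P F N f M) (T : ℝ) (hT : 0 ≤ T) :
    phi P f M h.bdd T = sg (opL d) T (phi P f M h.bdd 0) :=
  uniq (opL d) _ _ (M ^ 2) (fun t _ => phi_norm h t) (fun t s ht hs hs1 => phi_expansion h t s ht hs hs1)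
    T hT

/-- The function `u ↦ E[f_t(u) X]`. -/
noncomputable def chi (P : Measure Ω) [IsProbabilityMeasure P] (f : ℝ → Ω → Site d → ℝ) (M : ℝ)
    (h : ∀ t ω v, 0 ≤ t → |f t ω v| ≤ M) (X : Ω → ℝ) (B : ℝ) (hX : ∀ ω, |X ω| ≤ B) (t : ℝ) : X1 d :=
  BoundedContinuousFunction.ofNormedAddCommGroupDiscrete
    (fun u => ∫ ω, f (max t 0) ω u * X ω ∂P) (M * B) (fun u => by
      rw [Real.norm_eq_abs]
      refine abs_int_le (fun ω => ?_)
      rw [abs_mul]
      have h1 := h (max t 0) ω u (le_max_right _ _)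
      exact mul_le_mul h1 (hX ω) (abs_nonneg _) ((abs_nonneg _).trans h1))

theorem chi_apply (h : Proc P F N f M) (X : Ω → ℝ) (B : ℝ) (hX : ∀ ω, |X ω| ≤ B) (t : ℝ)
    (ht : 0 ≤ t) (u : Site d) :
    chi P f M h.bdd X B hX t u = ∫ ω, f t ω u * X ω ∂P := by
  show ∫ ω, f (max t 0) ω u * X ω ∂P = _
  rw [max_eq_left ht]

theorem chi_expansion (h : Proc P F N f M) (X : Ω → ℝ) (B : ℝ) (hX : ∀ ω, |X ω| ≤ B)
    (hXm : Measurable[F 0] X) (t s : ℝ) (ht : 0 ≤ t) (hs : 0 < s) (_hs1 : s ≤ 1) :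
    ‖chi P f M h.bdd X B hX (t + s) - chi P f M h.bdd X B hX t -
      s • opA d (chi P f M h.bdd X B hX t)‖ ≤ (3 * (M * B) * (nb d) ^ 2) * s ^ 2 := by
  classical
  have hM := h.M_nonneg
  have hB : 0 ≤ B := by
    obtain ⟨ω⟩ := P.nonempty_of_neZero
    exact (abs_nonneg _).trans (hX ω)
  refine (BoundedContinuousFunction.norm_le (by positivity)).2 ?_
  intro u
  set χ := chi P f M h.bdd X B hX t with hχ
  show ‖chi P f M h.bdd X B hX (t + s) u - χ u - s * opA d χ u‖ ≤ _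
  rw [Real.norm_eq_abs]
  have hts : 0 ≤ t + s := by linarith
  have hXt : Measurable[F t] X := hXm.mono (F.mono ht) le_rfl
  have hXM : Measurable X := hXm.mono (F.le 0) le_rfl
  have hml : ∀ {x : ℝ} (ω : Ω), |x| ≤ M → |x * X ω| ≤ M * B := by
    intro x ω hx
    rw [abs_mul]
    exact mul_le_mul hx (hX ω) (abs_nonneg _) hM
  have hint : ∀ u, Integrable (fun ω => f t ω u * X ω) P := fun u =>
    Integrable.of_bound ((h.meas t u ht).mul hXM).aestronglyMeasurable (M * B)
      (Eventually.of_forall (fun ω => by rw [Real.norm_eq_abs]; exact hml ω (h.bdd t ω u ht)))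
  have hexp := expansion h.clocks (S1 u) t s ht hs (fun ω => f (t + s) ω u * X ω)
    (fun ω => f t ω u * X ω) (fun e ω => Kav e (f t ω) u * X ω) (M * B)
    ((h.meas _ _ hts).mul hXM) (fun ω => hml ω (h.bdd _ ω _ hts))
    ((h.adapted _ _ ht).mul hXt) (fun ω => hml ω (h.bdd _ ω _ ht))
    (fun e _ => (h.Kav_meas t ht e u).mul hXt)
    (fun e _ ω => hml ω (h.Kav_le t ht e ω u))
    (by
      filter_upwards [h.good] with ω hg hz
      rw [no_ring hg u t (t + s) ht (by linarith) (fun e he => hz e (mem_S1_of_touches he))])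
    (by
      filter_upwards [h.good] with ω hg e he h1 h2
      rw [ring_value hg u (S1 u) le_rfl t (t + s) ht (by linarith) e h1 h2])
  have e1 : ∫ ω, f (t + s) ω u * X ω ∂P = chi P f M h.bdd X B hX (t + s) u :=
    (chi_apply h X B hX (t + s) hts u).symm
  have e2 : ∀ u, ∫ ω, f t ω u * X ω ∂P = χ u := fun u => (chi_apply h X B hX t ht u).symm
  have e3 : ∀ e : Edge d, ∫ ω, Kav e (f t ω) u * X ω ∂P = (1 / 2) * (χ u + χ (tr e u)) := by
    intro e
    have e4 : ∀ ω, Kav e (f t ω) u * X ω = (1 / 2) * (f t ω u * X ω + f t ω (tr e u) * X ω) := by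
      intro ω; unfold Kav; ring
    simp only [e4]
    rw [integral_const_mul, integral_add (hint u) (hint (tr e u)), e2, e2]
  have e5 : ∑ e ∈ S1 u, (∫ ω, Kav e (f t ω) u * X ω ∂P - ∫ ω, f t ω u * X ω ∂P) =
      opA d χ u := by
    have e6 : ∀ e : Edge d, (∫ ω, Kav e (f t ω) u * X ω ∂P - ∫ ω, f t ω u * X ω ∂P) =
        (1 / 2) * (χ (tr e u) - χ u) := by
      intro e
      rw [e3, e2]; ring
    rw [Finset.sum_congr rfl (fun e _ => e6 e),
      sum_edges u (S1 u) le_rfl _ (fun e he => by rw [tr_of_not_touches e u he]; ring), opA_apply,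
      Finset.mul_sum]
    refine Finset.sum_congr rfl (fun a _ => ?_)
    rw [tr_ed, Equiv.swap_apply_left]
  rw [e1, e5, e2] at hexp
  refine hexp.trans ?_
  have hcard : ((S1 u).card : ℝ) ≤ nb d := by exact_mod_cast card_S1_le u
  have h0 : (0 : ℝ) ≤ (S1 u).card := Nat.cast_nonneg _
  calc 3 * (M * B) * ((S1 u).card * s) ^ 2 ≤ 3 * (M * B) * (nb d * s) ^ 2 := by gcongr
    _ = _ := by ring

theorem chi_eq (h : Proc P F N f M) (X : Ω → ℝ) (B : ℝ) (hX : ∀ ω, |X ω| ≤ B)
    (hXm : Measurable[F 0] X) (T : ℝ) (hT : 0 ≤ T) :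
    chi P f M h.bdd X B hX T = sg (opA d) T (chi P f M h.bdd X B hX 0) := by
  have hM := h.M_nonneg
  have hB : 0 ≤ B := by
    obtain ⟨ω⟩ := P.nonempty_of_neZero
    exact (abs_nonneg _).trans (hX ω)
  refine uniq (opA d) _ _ (M * B) (fun t ht => ?_)
    (fun t s ht hs hs1 => chi_expansion h X B hX hXm t s ht hs hs1) T hT
  refine (BoundedContinuousFunction.norm_le (by positivity)).2 (fun u => ?_)
  rw [chi_apply h X B hX t ht u, Real.norm_eq_abs]
  refine abs_int_le (fun ω => ?_)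
  rw [abs_mul]
  exact mul_le_mul (h.bdd t ω u ht) (hX ω) (abs_nonneg _) hM

end Pool.Agent.H563R3.EA
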