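import Mathlib
import Pool.Agent.H563R3.EAGen

set_option autoImplicit false
set_option linter.unusedSectionVars false
set_option linter.deprecated false
set_option linter.unusedVariables false
open MeasureTheory ProbabilityTheory Filter Topology
open scoped BoundedContinuousFunction

namespace Pool.Agent.H563R3.EA

section reg

variable {ι : Type} [TopologicalSpace ι] [DiscreteTopology ι]

/-- Operators preserving coordinatewise measurability. -/
def RegM (K : (ι →ᵇ ℝ) →L[ℝ] (ι →ᵇ ℝ)) : Prop :=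
  ∀ (Ω : Type) (_ : MeasurableSpace Ω) (ξ : Ω → (ι →ᵇ ℝ)), (∀ x, Measurable (fun ω => ξ ω x)) →
    ∀ x, Measurable (fun ω => K (ξ ω) x)

/-- Operators commuting with coordinatewise expectations. -/
def RegI (K : (ι →ᵇ ℝ) →L[ℝ] (ι →ᵇ ℝ)) : Prop :=
  ∀ (Ω : Type) (_ : MeasurableSpace Ω) (P : Measure Ω) (_ : IsProbabilityMeasure P)
    (ξ : Ω → (ι →ᵇ ℝ)) (C : ℝ), (∀ ω, ‖ξ ω‖ ≤ C) → (∀ x, Measurable (fun ω => ξ ω x)) →
    ∀ (X : Ω → ℝ) (B : ℝ), (∀ ω, |X ω| ≤ B) → Measurable X → ∀ m : ι →ᵇ ℝ,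
    (∀ x, m x = ∫ ω, ξ ω x * X ω ∂P) → ∀ x, K m x = ∫ ω, K (ξ ω) x * X ω ∂P

/-- Both properties. -/
def Reg (K : (ι →ᵇ ℝ) →L[ℝ] (ι →ᵇ ℝ)) : Prop := RegM K ∧ RegI K

theorem int_bdd {Ω : Type} [MeasurableSpace Ω] {P : Measure Ω} [IsProbabilityMeasure P]
    {K : (ι →ᵇ ℝ) →L[ℝ] (ι →ᵇ ℝ)} (hK : RegM K) {ξ : Ω → (ι →ᵇ ℝ)} {C : ℝ} (hC : ∀ ω, ‖ξ ω‖ ≤ C)
    (hm : ∀ x, Measurable (fun ω => ξ ω x)) {X : Ω → ℝ} {B : ℝ} (hX : ∀ ω, |X ω| ≤ B)
    (hXm : Measurable X) (x : ι) :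
    Integrable (fun ω => K (ξ ω) x * X ω) P ∧ ∀ ω, ‖K (ξ ω) x * X ω‖ ≤ ‖K‖ * C * B := by
  have h1 : ∀ ω, ‖K (ξ ω) x * X ω‖ ≤ ‖K‖ * C * B := by
    intro ω
    rw [norm_mul]
    have h2 : ‖K (ξ ω) x‖ ≤ ‖K‖ * C :=
      (BoundedContinuousFunction.norm_coe_le_norm _ _).trans
        ((K.le_opNorm _).trans (mul_le_mul_of_nonneg_left (hC ω) (norm_nonneg _)))
    have h3 : ‖X ω‖ ≤ B := by rw [Real.norm_eq_abs]; exact hX ω
    exact mul_le_mul h2 h3 (norm_nonneg _) ((norm_nonneg _).trans h2)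
  exact ⟨Integrable.of_bound ((hK Ω _ ξ hm x).mul hXm).aestronglyMeasurable _
    (Eventually.of_forall h1), h1⟩

theorem reg_cmp (g : ι → ι) : Reg (cmp g) :=
  ⟨fun Ω _ ξ h x => h (g x), fun Ω _ P _ ξ C hC hm X B hX hXm m hmm x => hmm (g x)⟩

theorem reg_one : Reg (1 : (ι →ᵇ ℝ) →L[ℝ] (ι →ᵇ ℝ)) :=
  ⟨fun Ω _ ξ h x => h x, fun Ω _ P _ ξ C hC hm X B hX hXm m hmm x => hmm x⟩

theorem reg_zero : Reg (0 : (ι →ᵇ ℝ) →L[ℝ] (ι →ᵇ ℝ)) :=
  ⟨fun Ω _ ξ h x => measurable_const, fun Ω _ P _ ξ C hC hm X B hX hXm m hmm x => by simp⟩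

theorem reg_add {K L : (ι →ᵇ ℝ) →L[ℝ] (ι →ᵇ ℝ)} (hK : Reg K) (hL : Reg L) : Reg (K + L) := by
  refine ⟨fun Ω _ ξ h x => (hK.1 Ω _ ξ h x).add (hL.1 Ω _ ξ h x), ?_⟩
  intro Ω _ P _ ξ C hC hm X B hX hXm m hmm x
  have h1 := hK.2 Ω _ P inferInstance ξ C hC hm X B hX hXm m hmm x
  have h2 := hL.2 Ω _ P inferInstance ξ C hC hm X B hX hXm m hmm x
  have i1 := (int_bdd (P := P) hK.1 hC hm hX hXm x).1
  have i2 := (int_bdd (P := P) hL.1 hC hm hX hXm x).1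
  show K m x + L m x = ∫ ω, (K (ξ ω) x + L (ξ ω) x) * X ω ∂P
  simp only [add_mul]
  rw [integral_add i1 i2, h1, h2]

theorem reg_smul {K : (ι →ᵇ ℝ) →L[ℝ] (ι →ᵇ ℝ)} (hK : Reg K) (c : ℝ) : Reg (c • K) := by
  refine ⟨fun Ω _ ξ h x => (hK.1 Ω _ ξ h x).const_mul c, ?_⟩
  intro Ω _ P _ ξ C hC hm X B hX hXm m hmm x
  have h1 := hK.2 Ω _ P inferInstance ξ C hC hm X B hX hXm m hmm x
  show c * K m x = ∫ ω, (c * K (ξ ω) x) * X ω ∂P
  simp only [mul_assoc]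
  rw [integral_const_mul, h1]

theorem reg_sub {K L : (ι →ᵇ ℝ) →L[ℝ] (ι →ᵇ ℝ)} (hK : Reg K) (hL : Reg L) : Reg (K - L) := by
  have : K - L = K + (-1 : ℝ) • L := by
    ext φ x
    show K φ x - L φ x = K φ x + (-1) * L φ x
    ring
  rw [this]
  exact reg_add hK (reg_smul hL _)

theorem reg_sum {J : Type} (s : Finset J) (K : J → ((ι →ᵇ ℝ) →L[ℝ] (ι →ᵇ ℝ)))
    (h : ∀ j, Reg (K j)) : Reg (∑ j ∈ s, K j) := by
  classical
  induction s using Finset.induction_on with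
  | empty => rw [Finset.sum_empty]; exact reg_zero
  | insert a s ha ih => rw [Finset.sum_insert ha]; exact reg_add (h a) ih

theorem reg_mul {K L : (ι →ᵇ ℝ) →L[ℝ] (ι →ᵇ ℝ)} (hK : Reg K) (hL : Reg L) : Reg (K * L) := by
  refine ⟨fun Ω _ ξ h x => hK.1 Ω _ (fun ω => L (ξ ω)) (fun y => hL.1 Ω _ ξ h y) x, ?_⟩
  intro Ω _ P _ ξ C hC hm X B hX hXm m hmm x
  have h2 := hL.2 Ω _ P inferInstance ξ C hC hm X B hX hXm m hmm
  exact hK.2 Ω _ P inferInstance (fun ω => L (ξ ω)) (‖L‖ * C)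
    (fun ω => (L.le_opNorm _).trans (mul_le_mul_of_nonneg_left (hC ω) (norm_nonneg _)))
    (fun y => hL.1 Ω _ ξ hm y) X B hX hXm (L m) h2 x

theorem reg_pow {K : (ι →ᵇ ℝ) →L[ℝ] (ι →ᵇ ℝ)} (hK : Reg K) (n : ℕ) : Reg (K ^ n) := by
  induction n with
  | zero => rw [pow_zero]; exact reg_one
  | succ n ih => rw [pow_succ]; exact reg_mul ih hK

/-- The exponential series, evaluated. -/
theorem hasSum_sg (K : (ι →ᵇ ℝ) →L[ℝ] (ι →ᵇ ℝ)) (t : ℝ) (φ : ι →ᵇ ℝ) (x : ι) :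
    HasSum (fun n : ℕ => (((n.factorial : ℝ)⁻¹) • (t • K) ^ n) φ x) (sg K t φ x) := by
  have h1 : HasSum (fun n : ℕ => ((n.factorial : ℝ)⁻¹) • (t • K) ^ n) (sg K t) :=
    NormedSpace.exp_series_hasSum_exp' (𝕂 := ℝ) (t • K)
  have h2 := h1.mapL (ContinuousLinearMap.apply ℝ (ι →ᵇ ℝ) φ)
  exact h2.mapL (evl x)

theorem reg_sg {K : (ι →ᵇ ℝ) →L[ℝ] (ι →ᵇ ℝ)} (hK : Reg K) (t : ℝ) : Reg (sg K t) := by
  have hn : ∀ n : ℕ, Reg (((n.factorial : ℝ)⁻¹) • (t • K) ^ n) := fun n =>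
    reg_smul (reg_pow (reg_smul hK t) n) _
  refine ⟨?_, ?_⟩
  · intro Ω _ ξ h x
    refine measurable_of_tendsto_metrizable (f := fun n ω => ∑ i ∈ Finset.range n,
      ((((i.factorial : ℝ)⁻¹) • (t • K) ^ i) (ξ ω)) x)
      (fun n => Finset.measurable_sum _ (fun i _ => (hn i).1 Ω _ ξ h x)) ?_
    rw [tendsto_pi_nhds]
    intro ω
    exact (hasSum_sg K t (ξ ω) x).tendsto_sum_nat
  · intro Ω _ P _ ξ C hC hm X B hX hXm m hmm x
    have hB : 0 ≤ B := by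
      obtain ⟨ω⟩ := P.nonempty_of_neZero
      exact (abs_nonneg _).trans (hX ω)
    have hC0 : 0 ≤ C := by
      obtain ⟨ω⟩ := P.nonempty_of_neZero
      exact (norm_nonneg _).trans (hC ω)
    have h1 := hasSum_sg K t m x
    have hint : ∀ n : ℕ, Integrable (fun ω => ((((n.factorial : ℝ)⁻¹) • (t • K) ^ n) (ξ ω)) x * X ω) P :=
      fun n => (int_bdd (P := P) (hn n).1 hC hm hX hXm x).1
    have hsum : Summable (fun n : ℕ =>
        ∫ ω, ‖((((n.factorial : ℝ)⁻¹) • (t • K) ^ n) (ξ ω)) x * X ω‖ ∂P) := by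
      have h2 : Summable (fun n : ℕ => ‖((n.factorial : ℝ)⁻¹) • (t • K) ^ n‖ * (C * B)) :=
        (NormedSpace.norm_expSeries_summable' (𝕂 := ℝ) (t • K)).mul_right _
      refine Summable.of_nonneg_of_le (fun n => integral_nonneg (fun ω => norm_nonneg _))
        (fun n => ?_) h2
      have h3 := (int_bdd (P := P) (hn n).1 hC hm hX hXm x).2
      calc ∫ ω, ‖((((n.factorial : ℝ)⁻¹) • (t • K) ^ n) (ξ ω)) x * X ω‖ ∂P
          ≤ ∫ _ω : Ω, ‖((n.factorial : ℝ)⁻¹) • (t • K) ^ n‖ * C * B ∂P :=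
            integral_mono (hint n).norm (integrable_const _) h3
        _ = _ := by simp; ring
    have h4 := hasSum_integral_of_summable_integral_norm hint hsum
    have h5 : ∀ n : ℕ, ∫ ω, ((((n.factorial : ℝ)⁻¹) • (t • K) ^ n) (ξ ω)) x * X ω ∂P =
        (((n.factorial : ℝ)⁻¹) • (t • K) ^ n) m x := fun n =>
      ((hn n).2 Ω _ P inferInstance ξ C hC hm X B hX hXm m hmm x).symm
    simp only [h5] at h4
    have h6 : ∫ ω, sg K t (ξ ω) x * X ω ∂P =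
        ∫ ω, ∑' n : ℕ, ((((n.factorial : ℝ)⁻¹) • (t • K) ^ n) (ξ ω)) x * X ω ∂P := by
      refine integral_congr_ae (Eventually.of_forall (fun ω => ?_))
      exact (((hasSum_sg K t (ξ ω) x).mul_right (X ω)).tsum_eq).symm
    rw [h6]
    exact h1.unique h4

end reg

section uniq2

variable {X : Type} [NormedAddCommGroup X] [NormedSpace ℝ X] [CompleteSpace X]

theorem uniq2 (K : X →L[ℝ] X) (κ : ℝ → X) (h : ∀ t, HasDerivAt κ (K (κ t)) t) (T : ℝ) :
    κ T = sg K T (κ 0) := by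
  have h1 : ∀ t, HasDerivAt (fun t => sg K (-t)) (-(sg K (-t) * K)) t := by
    intro t
    have := (sg_hasDerivAt K (-t)).scomp t (hasDerivAt_neg t)
    rw [neg_one_smul] at this
    exact this
  have h2 : ∀ t, HasDerivAt (fun t => sg K (-t) (κ t)) 0 t := by
    intro t
    have h3 := (h1 t).clm_apply (h t)
    have e : (-(sg K (-t) * K)) (κ t) + (sg K (-t)) (K (κ t)) = 0 := by
      show -(sg K (-t) (K (κ t))) + sg K (-t) (K (κ t)) = 0
      simp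
    rwa [e] at h3
  have hc := is_const_of_deriv_eq_zero (fun t => (h2 t).differentiableAt)
    (fun t => (h2 t).deriv) T 0
  simp only [neg_zero, sg_zero] at hc
  have h4 : sg K T (sg K (-T) (κ T)) = κ T := by
    have : (sg K T * sg K (-T)) (κ T) = κ T := by rw [sg_mul_neg]; rfl
    exact this
  rw [← h4, hc]
  rfl

theorem bil_deriv {X Y : Type} [NormedAddCommGroup X] [NormedSpace ℝ X] [NormedAddCommGroup Y]
    [NormedSpace ℝ Y] (b : X →L[ℝ] X →L[ℝ] Y) (y : ℝ → X) (y' : X) (t : ℝ) (h : HasDerivAt y y' t) :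
    HasDerivAt (fun t => b (y t) (y t)) (b y' (y t) + b (y t) y') t := by
  have h1 : HasDerivAt (fun t => b (y t)) (b y') t := b.hasFDerivAt.comp_hasDerivAt t h
  exact h1.clm_apply h

end uniq2

variable {d : ℕ} {Ω : Type} {mΩ : MeasurableSpace Ω}

theorem reg_opA : Reg (opA d) :=
  reg_smul (reg_sum _ _ (fun a => reg_sub (reg_cmp _) reg_one)) _

theorem reg_opB : Reg (opB d) :=
  reg_smul (reg_sum _ _ (fun a => reg_add (reg_sub (reg_cmp _) reg_one)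
    (reg_sub (reg_cmp _) reg_one))) _

/-- Tensor product. -/
noncomputable def tens : X1 d →L[ℝ] X1 d →L[ℝ] X2 d :=
  LinearMap.mkContinuous₂ (LinearMap.mk₂ ℝ
    (fun η ζ : X1 d => (BoundedContinuousFunction.ofNormedAddCommGroupDiscrete
      (fun p : Site d × Site d => η p.1 * ζ p.2) (‖η‖ * ‖ζ‖) (fun p => by
        rw [norm_mul]
        exact mul_le_mul (η.norm_coe_le_norm _) (ζ.norm_coe_le_norm _) (norm_nonneg _)
          (norm_nonneg _)) : X2 d))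
    (fun η η' ζ => by ext p; show (η p.1 + η' p.1) * ζ p.2 = η p.1 * ζ p.2 + η' p.1 * ζ p.2; ring)
    (fun c η ζ => by ext p; show (c * η p.1) * ζ p.2 = c * (η p.1 * ζ p.2); ring)
    (fun η ζ ζ' => by ext p; show η p.1 * (ζ p.2 + ζ' p.2) = η p.1 * ζ p.2 + η p.1 * ζ' p.2; ring)
    (fun c η ζ => by ext p; show η p.1 * (c * ζ p.2) = c * (η p.1 * ζ p.2); ring)) 1
    (fun η ζ => by
      rw [one_mul]
      refine (BoundedContinuousFunction.norm_le (by positivity)).2 (fun p => ?_)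
      show ‖η p.1 * ζ p.2‖ ≤ _
      rw [norm_mul]
      exact mul_le_mul (η.norm_coe_le_norm _) (ζ.norm_coe_le_norm _) (norm_nonneg _)
          (norm_nonneg _))

@[simp] theorem tens_apply (η ζ : X1 d) (u v : Site d) : tens η ζ (u, v) = η u * ζ v := rfl

theorem sg_tens (η : X1 d) (T : ℝ) :
    tens (sg (opA d) T η) (sg (opA d) T η) = sg (opB d) T (tens η η) := by
  have hy : ∀ t, HasDerivAt (fun t => sg (opA d) t η) (opA d (sg (opA d) t η)) t := by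
    intro t
    have := (sg_hasDerivAt' (opA d) t).clm_apply (hasDerivAt_const t η)
    simpa using this
  have h := uniq2 (opB d) (fun t => tens (sg (opA d) t η) (sg (opA d) t η)) (fun t => by
    have h2 := bil_deriv tens (fun t => sg (opA d) t η) _ t (hy t)
    have e : tens (opA d (sg (opA d) t η)) (sg (opA d) t η) +
        tens (sg (opA d) t η) (opA d (sg (opA d) t η)) =
        opB d (tens (sg (opA d) t η) (sg (opA d) t η)) := by
      ext ⟨u, v⟩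
      rw [opB_apply]
      show opA d (sg (opA d) t η) u * (sg (opA d) t η) v +
        (sg (opA d) t η) u * opA d (sg (opA d) t η) v = _
      rw [opA_apply, opA_apply, Finset.sum_add_distrib, Finset.mul_sum, Finset.mul_sum,
        Finset.sum_mul, Finset.mul_sum, mul_add, Finset.mul_sum, Finset.mul_sum]
      congr 1
      · refine Finset.sum_congr rfl (fun a _ => ?_)
        simp only [tens_apply]; ring
      · refine Finset.sum_congr rfl (fun a _ => ?_)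
        simp only [tens_apply]; ring
    rwa [e] at h2) T
  simpa [sg_zero] using h

end Pool.Agent.H563R3.EA
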