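import Mathlib
import Pool.Agent.H563R3.EAInt

set_option autoImplicit false
set_option linter.unusedSectionVars false
set_option linter.unusedVariables false
open MeasureTheory ProbabilityTheory Filter Topology
open scoped BoundedContinuousFunction ENNReal

namespace Pool.Agent.H563R3.EA

variable {d : ℕ} {Ω : Type} {mΩ : MeasurableSpace Ω}
variable {P : Measure Ω} [IsProbabilityMeasure P] {F : Filtration ℝ mΩ}
  {N : Edge d → ℝ → Ω → ℕ} {f : ℝ → Ω → Site d → ℝ} {M : ℝ}

/-- The initial profile as a bounded function. -/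
noncomputable def ini (f : ℝ → Ω → Site d → ℝ) (M : ℝ) (h : ∀ t ω v, 0 ≤ t → |f t ω v| ≤ M) (ω : Ω) :
    X1 d :=
  BoundedContinuousFunction.ofNormedAddCommGroupDiscrete (fun v => f 0 ω v) M
    (fun v => by rw [Real.norm_eq_abs]; exact h 0 ω v le_rfl)

@[simp] theorem ini_apply (h : ∀ t ω v, 0 ≤ t → |f t ω v| ≤ M) (ω : Ω) (v : Site d) :
    ini f M h ω v = f 0 ω v := rfl

theorem ini_norm (h : Proc P F N f M) (ω : Ω) : ‖ini f M h.bdd ω‖ ≤ M :=
  (BoundedContinuousFunction.norm_le h.M_nonneg).2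
    (fun v => by rw [ini_apply, Real.norm_eq_abs]; exact h.bdd 0 ω v le_rfl)

/-- The smoothed initial profile. -/
noncomputable def YY (f : ℝ → Ω → Site d → ℝ) (M : ℝ) (h : ∀ t ω v, 0 ≤ t → |f t ω v| ≤ M)
    (t : ℝ) (ω : Ω) (v : Site d) : ℝ := sg (opA d) t (ini f M h ω) v

theorem YY_meas0 (h : Proc P F N f M) (t : ℝ) (v : Site d) :
    Measurable[F 0] (fun ω => YY f M h.bdd t ω v) :=
  (reg_sg reg_opA t).1 Ω (F 0) (ini f M h.bdd) (fun x => h.adapted 0 x le_rfl) v

theorem YY_meas (h : Proc P F N f M) (t : ℝ) (v : Site d) :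
    Measurable (fun ω => YY f M h.bdd t ω v) := (YY_meas0 h t v).mono (F.le 0) le_rfl

theorem YY_bdd (h : Proc P F N f M) (t : ℝ) (ht : 0 ≤ t) (ω : Ω) (v : Site d) :
    |YY f M h.bdd t ω v| ≤ M := by
  unfold YY
  rw [← Real.norm_eq_abs]
  refine (BoundedContinuousFunction.norm_coe_le_norm _ _).trans
    ((ContinuousLinearMap.le_opNorm _ _).trans ?_)
  calc ‖sg (opA d) t‖ * ‖ini f M h.bdd ω‖ ≤ 1 * M :=
        mul_le_mul (norm_sgA_le t ht) (ini_norm h ω) (norm_nonneg _) (by norm_num)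
    _ = M := one_mul M

/-- Conditional expectation property. -/
theorem cond (h : Proc P F N f M) (t : ℝ) (ht : 0 ≤ t) (u : Site d) (X : Ω → ℝ) (B : ℝ)
    (hX : ∀ ω, |X ω| ≤ B) (hXm : Measurable[F 0] X) :
    ∫ ω, f t ω u * X ω ∂P = ∫ ω, YY f M h.bdd t ω u * X ω ∂P := by
  have hXM : Measurable X := hXm.mono (F.le 0) le_rfl
  have h1 := chi_eq h X B hX hXm t ht
  have h2 := (reg_sg reg_opA t).2 Ω _ P inferInstance (ini f M h.bdd) M (ini_norm h)
    (fun x => h.meas 0 x le_rfl) X B hX hXM (chi P f M h.bdd X B hX 0)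
    (fun x => chi_apply h X B hX 0 le_rfl x) u
  rw [← chi_apply h X B hX t ht u, h1, h2]
  rfl

theorem YY2 (h : Proc P F N f M) (t : ℝ) (u v : Site d) :
    ∫ ω, YY f M h.bdd t ω u * YY f M h.bdd t ω v ∂P =
      sg (opB d) t (phi P f M h.bdd 0) (u, v) := by
  have h2 := (reg_sg reg_opB t).2 Ω _ P inferInstance
    (fun ω => tens (ini f M h.bdd ω) (ini f M h.bdd ω)) (M * M) (fun ω => by
      refine (BoundedContinuousFunction.norm_le (mul_nonneg h.M_nonneg h.M_nonneg)).2 ?_
      rintro ⟨a, b⟩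
      rw [tens_apply, norm_mul]
      exact mul_le_mul ((BoundedContinuousFunction.norm_coe_le_norm _ _).trans (ini_norm h ω))
        ((BoundedContinuousFunction.norm_coe_le_norm _ _).trans (ini_norm h ω)) (norm_nonneg _)
        h.M_nonneg)
    (fun x => (h.meas 0 x.1 le_rfl).mul (h.meas 0 x.2 le_rfl)) (fun _ => 1) 1 (fun _ => by simp)
    measurable_const (phi P f M h.bdd 0) (fun x => by
      obtain ⟨a, b⟩ := x
      rw [phi_apply h 0 le_rfl]
      refine integral_congr_ae (Eventually.of_forall (fun ω => ?_))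
      simp) (u, v)
  rw [h2]
  refine integral_congr_ae (Eventually.of_forall (fun ω => ?_))
  show YY f M h.bdd t ω u * YY f M h.bdd t ω v =
    sg (opB d) t (tens (ini f M h.bdd ω) (ini f M h.bdd ω)) (u, v) * 1
  rw [mul_one, ← sg_tens]
  rfl

/-- The variance. -/
noncomputable def VV (P : Measure Ω) [IsProbabilityMeasure P] (f : ℝ → Ω → Site d → ℝ) (M : ℝ)
    (h : ∀ t ω v, 0 ≤ t → |f t ω v| ≤ M) (t : ℝ) : ℝ :=
  sg (opL d) t (phi P f M h 0) (0, 0) - sg (opB d) t (phi P f M h 0) (0, 0)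

/-- The difference. -/
noncomputable def gg (f : ℝ → Ω → Site d → ℝ) (M : ℝ) (h : ∀ t ω v, 0 ≤ t → |f t ω v| ≤ M)
    (t : ℝ) (ω : Ω) (v : Site d) : ℝ := f t ω v - YY f M h t ω v

theorem gg_meas (h : Proc P F N f M) (t : ℝ) (ht : 0 ≤ t) (v : Site d) :
    Measurable (fun ω => gg f M h.bdd t ω v) := (h.meas t v ht).sub (YY_meas h t v)

theorem gg_bdd (h : Proc P F N f M) (t : ℝ) (ht : 0 ≤ t) (ω : Ω) (v : Site d) :
    |gg f M h.bdd t ω v| ≤ 2 * M := by
  unfold gg
  have h1 := h.bdd t ω v ht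
  have h2 := YY_bdd h t ht ω v
  calc |f t ω v - YY f M h.bdd t ω v| ≤ |f t ω v| + |YY f M h.bdd t ω v| := abs_sub _ _
    _ ≤ 2 * M := by linarith

theorem gg_sq (h : Proc P F N f M) (t : ℝ) (ht : 0 ≤ t) (v : Site d) :
    ∫ ω, (gg f M h.bdd t ω v) ^ 2 ∂P =
      sg (opL d) t (phi P f M h.bdd 0) (v, v) - sg (opB d) t (phi P f M h.bdd 0) (v, v) := by
  have hY := YY_bdd h t ht
  have hf := fun ω => h.bdd t ω v ht
  have e1 : ∀ ω, (gg f M h.bdd t ω v) ^ 2 = (f t ω v * f t ω v -
      2 * (f t ω v * YY f M h.bdd t ω v)) + YY f M h.bdd t ω v * YY f M h.bdd t ω v := by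
    intro ω; unfold gg; ring
  have i1 := h.int2 t ht v v
  have i2 : Integrable (fun ω => f t ω v * YY f M h.bdd t ω v) P :=
    Integrable.of_bound ((h.meas t v ht).mul (YY_meas h t v)).aestronglyMeasurable (M ^ 2)
      (Eventually.of_forall (fun ω => by rw [Real.norm_eq_abs]; exact h.mul_le (hf ω) (hY ω v)))
  have i3 : Integrable (fun ω => YY f M h.bdd t ω v * YY f M h.bdd t ω v) P :=
    Integrable.of_bound ((YY_meas h t v).mul (YY_meas h t v)).aestronglyMeasurable (M ^ 2)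
      (Eventually.of_forall (fun ω => by rw [Real.norm_eq_abs]; exact h.mul_le (hY ω v) (hY ω v)))
  have i4 : Integrable (fun ω => f t ω v * f t ω v - 2 * (f t ω v * YY f M h.bdd t ω v)) P :=
    i1.sub (i2.const_mul 2)
  simp only [e1]
  rw [integral_add i4 i3, integral_sub i1 (i2.const_mul 2), integral_const_mul,
    cond h t ht v _ M (fun ω => hY ω v) (YY_meas0 h t v), YY2 h t v v, ← phi_apply h t ht,
    phi_eq h t ht]
  ring

/-! ### Translations -/

/-- Simultaneous translation. -/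
def sh (x : Site d) (p : Site d × Site d) : Site d × Site d := (p.1 + x, p.2 + x)

theorem sw_sh (a : Dir d) (x u v : Site d) : sw a (u + x, v + x) = sw a (u, v) + x := by
  unfold sw
  show Equiv.swap (u + x) (u + x + step a) (v + x) = Equiv.swap u (u + step a) v + x
  have h1 : u + x + step a = u + step a + x := by abel
  rw [h1]
  by_cases h2 : v = u
  · subst h2; rw [Equiv.swap_apply_left, Equiv.swap_apply_left]
  · by_cases h3 : v = u + step a
    · subst h3; rw [Equiv.swap_apply_right, Equiv.swap_apply_right]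
    · rw [Equiv.swap_apply_of_ne_of_ne h2 h3, Equiv.swap_apply_of_ne_of_ne]
      · intro hh; exact h2 (add_right_cancel hh)
      · intro hh; exact h3 (add_right_cancel hh)

theorem sh_opB (x : Site d) : cmp (sh x) * opB d = opB d * cmp (sh x) := by
  ext φ ⟨u, v⟩
  show opB d φ (u + x, v + x) = opB d (cmp (sh x) φ) (u, v)
  rw [opB_apply, opB_apply]
  simp only [cmp_apply, sh, add_right_comm _ x]

theorem sh_opC (x : Site d) : cmp (sh x) * opC d = opC d * cmp (sh x) := by
  ext φ ⟨u, v⟩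
  show opC d φ (u + x, v + x) = opC d (cmp (sh x) φ) (u, v)
  rw [opC_apply, opC_apply]
  simp only [cmp_apply, sh, sw_sh, add_right_comm _ x]

theorem sh_opL (x : Site d) : cmp (sh x) * opL d = opL d * cmp (sh x) := by
  unfold opL
  rw [mul_add, add_mul, sh_opB, sh_opC]

theorem phi0_sh (h : Proc P F N f M) (hs : Stationary P (f 0)) (x : Site d) :
    cmp (sh x) (phi P f M h.bdd 0) = phi P f M h.bdd 0 := by
  ext ⟨u, v⟩
  show phi P f M h.bdd 0 (u + x, v + x) = _
  rw [phi_apply h 0 le_rfl, phi_apply h 0 le_rfl]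
  have hm : Measurable (f 0) := by
    rw [measurable_pi_iff]; exact fun v => h.meas 0 v le_rfl
  have hmx : Measurable (fun ω v => f 0 ω (v + x)) := by
    rw [measurable_pi_iff]; exact fun v => h.meas 0 (v + x) le_rfl
  have hg : Measurable (fun η : Site d → ℝ => η u * η v) := by fun_prop
  have e1 : ∫ ω, f 0 ω (u + x) * f 0 ω (v + x) ∂P =
      ∫ η, η u * η v ∂(P.map (fun ω v => f 0 ω (v + x))) := by
    rw [integral_map hmx.aemeasurable hg.aestronglyMeasurable]
  have e2 : ∫ ω, f 0 ω u * f 0 ω v ∂P = ∫ η, η u * η v ∂(P.map (f 0)) := by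
    rw [integral_map hm.aemeasurable hg.aestronglyMeasurable]
  rw [e1, e2, hs x]

theorem sgL_sh (h : Proc P F N f M) (hs : Stationary P (f 0)) (x : Site d) (t : ℝ) (u v : Site d) :
    sg (opL d) t (phi P f M h.bdd 0) (u + x, v + x) = sg (opL d) t (phi P f M h.bdd 0) (u, v) := by
  have h1 := commute_sg (cmp (sh x)) (opL d) (sh_opL x) t
  have h2 : (cmp (sh x) * sg (opL d) t) (phi P f M h.bdd 0) =
      (sg (opL d) t * cmp (sh x)) (phi P f M h.bdd 0) := by rw [h1]
  have h3 : (sg (opL d) t * cmp (sh x)) (phi P f M h.bdd 0) = sg (opL d) t (phi P f M h.bdd 0) := by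
    show sg (opL d) t (cmp (sh x) (phi P f M h.bdd 0)) = _
    rw [phi0_sh h hs x]
  rw [h3] at h2
  have h4 := DFunLike.congr_fun h2 (u, v)
  exact h4

theorem sgB_sh (h : Proc P F N f M) (hs : Stationary P (f 0)) (x : Site d) (t : ℝ) (u v : Site d) :
    sg (opB d) t (phi P f M h.bdd 0) (u + x, v + x) = sg (opB d) t (phi P f M h.bdd 0) (u, v) := by
  have h1 := commute_sg (cmp (sh x)) (opB d) (sh_opB x) t
  have h2 : (cmp (sh x) * sg (opB d) t) (phi P f M h.bdd 0) =
      (sg (opB d) t * cmp (sh x)) (phi P f M h.bdd 0) := by rw [h1]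
  have h3 : (sg (opB d) t * cmp (sh x)) (phi P f M h.bdd 0) = sg (opB d) t (phi P f M h.bdd 0) := by
    show sg (opB d) t (cmp (sh x) (phi P f M h.bdd 0)) = _
    rw [phi0_sh h hs x]
  rw [h3] at h2
  have h4 := DFunLike.congr_fun h2 (u, v)
  exact h4

theorem gg_sq' (h : Proc P F N f M) (hs : Stationary P (f 0)) (t : ℝ) (ht : 0 ≤ t) (v : Site d) :
    ∫ ω, (gg f M h.bdd t ω v) ^ 2 ∂P = VV P f M h.bdd t := by
  rw [gg_sq h t ht v]
  unfold VV
  have h1 := sgL_sh h hs v t 0 0
  have h2 := sgB_sh h hs v t 0 0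
  rw [zero_add] at h1 h2
  rw [h1, h2]

theorem VV_nonneg (h : Proc P F N f M) (hs : Stationary P (f 0)) (t : ℝ) (ht : 0 ≤ t) :
    0 ≤ VV P f M h.bdd t := by
  rw [← gg_sq' h hs t ht 0]
  exact integral_nonneg (fun ω => sq_nonneg _)

theorem VV_continuous (h : Proc P F N f M) : Continuous (VV P f M h.bdd) := by
  have c1 : Continuous (fun s => sg (opL d) s (phi P f M h.bdd 0)) :=
    (sg_continuous _).clm_apply continuous_const
  have c2 : Continuous (fun s => sg (opB d) s (phi P f M h.bdd 0)) :=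
    (sg_continuous _).clm_apply continuous_const
  exact ((evl (0, 0)).continuous.comp c1).sub ((evl (0, 0)).continuous.comp c2)

theorem VV_int [NeZero d] (h : Proc P F N f M) (hs : Stationary P (f 0)) (T : ℝ) (hT : 0 ≤ T) :
    ∫ s in (0 : ℝ)..T, VV P f M h.bdd s ≤ 2 * M ^ 2 := by
  refine main_bound (phi P f M h.bdd 0) (M ^ 2) (fun s hs' => ?_) (fun s hs' => ?_)
    (fun s hs' a => ?_) T hT
  · rw [← phi_eq h s hs']; exact phi_norm h s
  · refine ⟨fun x u v => sgL_sh h hs x s u v, fun u v => ?_⟩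
    rw [← phi_eq h s hs', phi_apply h s hs', phi_apply h s hs']
    simp only [mul_comm]
  · unfold GG
    have e1 : sg (opL d) s (phi P f M h.bdd 0) (0, 0) =
        (1 / 2) * (phi P f M h.bdd s (0, 0) + phi P f M h.bdd s (step a, step a)) := by
      have h1 := sgL_sh h hs (step a) s 0 0
      rw [zero_add] at h1
      rw [phi_eq h s hs', h1]; ring
    have e2 : sg (opL d) s (phi P f M h.bdd 0) (0, 0) - sg (opL d) s (phi P f M h.bdd 0) (step a, 0) =
        (1 / 2) * ∫ ω, (f s ω 0 - f s ω (step a)) ^ 2 ∂P := by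
      rw [e1, ← phi_eq h s hs', phi_apply h s hs', phi_apply h s hs', phi_apply h s hs']
      have e3 : ∀ ω, (f s ω 0 - f s ω (step a)) ^ 2 = (f s ω 0 * f s ω 0 +
          f s ω (step a) * f s ω (step a)) - 2 * (f s ω (step a) * f s ω 0) := by intro ω; ring
      simp only [e3]
      have j1 : Integrable (fun ω => f s ω 0 * f s ω 0 + f s ω (step a) * f s ω (step a)) P :=
        (h.int2 s hs' 0 0).add (h.int2 s hs' _ _)
      rw [integral_sub j1 ((h.int2 s hs' _ _).const_mul 2), integral_const_mul,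
        integral_add (h.int2 s hs' 0 0) (h.int2 s hs' _ _)]
      ring
    rw [e2]
    exact mul_nonneg (by norm_num) (integral_nonneg (fun ω => sq_nonneg _))

end Pool.Agent.H563R3.EA
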