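import Mathlib
import Pool.Agent.H563R3.EAVar

set_option autoImplicit false
set_option linter.unusedSectionVars false
set_option linter.unusedVariables false
set_option linter.deprecated false
open MeasureTheory ProbabilityTheory Filter Topology
open scoped BoundedContinuousFunction ENNReal

namespace Pool.Agent.H563R3.EA

/-- A good grid. -/
theorem exists_grid (V : ℝ → ℝ) (hc : Continuous V) (h0 : ∀ t, 0 ≤ t → 0 ≤ V t) (C : ℝ)
    (hC : ∀ T, 0 ≤ T → ∫ s in (0 : ℝ)..T, V s ≤ C) (δ : ℝ) (hδ : 0 < δ) :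
    ∃ θ, 0 < θ ∧ θ ≤ δ ∧ Summable (fun j : ℕ => V (θ + j * δ)) := by
  have h1 : ∀ j : ℕ, ∫⁻ θ in Set.Ioc 0 δ, ENNReal.ofReal (V (θ + j * δ)) =
      ENNReal.ofReal (∫ s in (j * δ)..((j + 1 : ℕ) * δ), V s) := by
    intro j
    have hcj : Continuous (fun θ => V (θ + j * δ)) := hc.comp (continuous_id.add continuous_const)
    have hi : IntegrableOn (fun θ => V (θ + j * δ)) (Set.Ioc 0 δ) :=
      (hcj.integrableOn_Icc (a := 0) (b := δ)).mono_set Set.Ioc_subset_Icc_self
    rw [← ofReal_integral_eq_lintegral_ofReal hi]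
    · congr 1
      rw [← intervalIntegral.integral_of_le hδ.le]
      rw [intervalIntegral.integral_comp_add_right (f := V)]
      congr 1
      · ring
      · push_cast; ring
    · rw [EventuallyLE, ae_restrict_iff' measurableSet_Ioc]
      refine Eventually.of_forall (fun θ hθ => ?_)
      exact h0 _ (by have := hθ.1; positivity)
  have h2 : ∑' j : ℕ, ∫⁻ θ in Set.Ioc 0 δ, ENNReal.ofReal (V (θ + j * δ)) ≤ ENNReal.ofReal C := by
    apply ENNReal.tsum_le_of_sum_range_le
    intro n
    simp only [h1]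
    rw [← ENNReal.ofReal_sum_of_nonneg]
    · apply ENNReal.ofReal_le_ofReal
      have h3 := intervalIntegral.sum_integral_adjacent_intervals (f := V) (μ := volume)
        (a := fun j : ℕ => (j : ℝ) * δ) (n := n) (fun k _ => hc.intervalIntegrable _ _)
      rw [h3]
      simp only [Nat.cast_zero, zero_mul]
      exact hC _ (by positivity)
    · intro j _
      apply intervalIntegral.integral_nonneg
      · push_cast; nlinarith
      · intro u hu
        exact h0 u (le_trans (by positivity) hu.1)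
  have hmj : ∀ j : ℕ, Measurable (fun θ => ENNReal.ofReal (V (θ + j * δ))) := fun j =>
    (hc.comp (continuous_id.add continuous_const)).measurable.ennreal_ofReal
  rw [← lintegral_tsum (fun j => (hmj j).aemeasurable)] at h2
  have h3 : ∫⁻ θ in Set.Ioc 0 δ, ∑' j : ℕ, ENNReal.ofReal (V (θ + j * δ)) ≠ ∞ :=
    ne_top_of_le_ne_top ENNReal.ofReal_ne_top h2
  have h4 : ∀ᵐ θ ∂(volume.restrict (Set.Ioc 0 δ)),
      ∑' j : ℕ, ENNReal.ofReal (V (θ + j * δ)) < ∞ := by
    refine ae_lt_top (Measurable.ennreal_tsum (fun j => ?_)) h3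
    exact (hc.comp (continuous_id.add continuous_const)).measurable.ennreal_ofReal
  have h5 : ∀ᵐ θ ∂(volume.restrict (Set.Ioc 0 δ)), θ ∈ Set.Ioc 0 δ :=
    ae_restrict_mem measurableSet_Ioc
  have hne : NeBot (ae (volume.restrict (Set.Ioc (0 : ℝ) δ))) := by
    rw [ae_neBot]
    intro hh
    have : volume.restrict (Set.Ioc (0 : ℝ) δ) Set.univ = 0 := by rw [hh]; simp
    rw [Measure.restrict_apply_univ, Real.volume_Ioc, sub_zero, ENNReal.ofReal_eq_zero] at this
    linarith
  obtain ⟨θ, hθ1, hθ2⟩ := (h4.and h5).exists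
  refine ⟨θ, hθ2.1, hθ2.2, ?_⟩
  have h6 : ∀ j : ℕ, 0 ≤ V (θ + j * δ) := fun j => h0 _ (by have := hθ2.1; positivity)
  have h7 := ENNReal.summable_toReal hθ1.ne
  refine h7.congr (fun j => ?_)
  rw [ENNReal.toReal_ofReal (h6 j)]

variable {d : ℕ} {Ω : Type} {mΩ : MeasurableSpace Ω}
variable {P : Measure Ω} [IsProbabilityMeasure P] {F : Filtration ℝ mΩ}
  {N : Edge d → ℝ → Ω → ℕ} {f : ℝ → Ω → Site d → ℝ} {M : ℝ}

/-- Lipschitz continuity of the smoothed profile. -/
theorem YY_lip (h : Proc P F N f M) (ω : Ω) (v : Site d) (s t : ℝ) (hs : 0 ≤ s) (ht : 0 ≤ t) :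
    |YY f M h.bdd t ω v - YY f M h.bdd s ω v| ≤ (‖opA d‖ * M) * |t - s| := by
  have hd : ∀ t, HasDerivAt (fun t => YY f M h.bdd t ω v)
      (opA d (sg (opA d) t (ini f M h.bdd ω)) v) t := by
    intro t
    have h1 := (sg_hasDerivAt' (opA d) t).clm_apply (hasDerivAt_const t (ini f M h.bdd ω))
    have h2 : HasDerivAt (fun t => sg (opA d) t (ini f M h.bdd ω))
        (opA d (sg (opA d) t (ini f M h.bdd ω))) t := by simpa using h1
    exact (evl v).hasFDerivAt.comp_hasDerivAt t h2
  have h3 := Convex.norm_image_sub_le_of_norm_hasDerivWithin_le (s := Set.Ici 0)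
    (f := fun t => YY f M h.bdd t ω v) (C := ‖opA d‖ * M) (fun x _ => (hd x).hasDerivWithinAt)
    (fun x hx => ?_) (convex_Ici 0) (Set.mem_Ici.2 hs) (Set.mem_Ici.2 ht)
  · simpa [Real.norm_eq_abs] using h3
  · refine (BoundedContinuousFunction.norm_coe_le_norm _ _).trans
      ((ContinuousLinearMap.le_opNorm _ _).trans ?_)
    apply mul_le_mul_of_nonneg_left _ (norm_nonneg _)
    refine (ContinuousLinearMap.le_opNorm _ _).trans ?_
    calc ‖sg (opA d) x‖ * ‖ini f M h.bdd ω‖ ≤ 1 * M :=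
          mul_le_mul (norm_sgA_le x hx) (ini_norm h ω) (norm_nonneg _) (by norm_num)
      _ = M := one_mul M

/-- Convergence along a good grid. -/
theorem grid_tendsto (h : Proc P F N f M) (hs : Stationary P (f 0)) (θ δ : ℝ) (hθ : 0 < θ)
    (hδ : 0 < δ) (hsum : Summable (fun j : ℕ => VV P f M h.bdd (θ + j * δ))) (v : Site d) :
    ∀ᵐ ω ∂P, Tendsto (fun j : ℕ => gg f M h.bdd (θ + j * δ) ω v) atTop (𝓝 0) := by
  have htj : ∀ j : ℕ, 0 ≤ θ + j * δ := fun j => by positivity
  have hm : ∀ j : ℕ, Measurable (fun ω => ENNReal.ofReal ((gg f M h.bdd (θ + j * δ) ω v) ^ 2)) :=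
    fun j => ((gg_meas h _ (htj j) v).pow_const 2).ennreal_ofReal
  have h1 : ∀ j : ℕ, ∫⁻ ω, ENNReal.ofReal ((gg f M h.bdd (θ + j * δ) ω v) ^ 2) ∂P =
      ENNReal.ofReal (VV P f M h.bdd (θ + j * δ)) := by
    intro j
    rw [← gg_sq' h hs _ (htj j) v, ofReal_integral_eq_lintegral_ofReal]
    · refine Integrable.of_bound ((gg_meas h _ (htj j) v).pow_const 2).aestronglyMeasurable
        ((2 * M) ^ 2) (Eventually.of_forall (fun ω => ?_))
      rw [Real.norm_eq_abs, abs_pow]
      exact pow_le_pow_left₀ (abs_nonneg _) (gg_bdd h _ (htj j) ω v) 2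
    · exact Eventually.of_forall (fun ω => sq_nonneg _)
  have h2 : ∫⁻ ω, ∑' j : ℕ, ENNReal.ofReal ((gg f M h.bdd (θ + j * δ) ω v) ^ 2) ∂P ≠ ∞ := by
    rw [lintegral_tsum (fun j => (hm j).aemeasurable)]
    simp only [h1]
    exact hsum.tsum_ofReal_ne_top
  filter_upwards [ae_lt_top (Measurable.ennreal_tsum hm) h2] with ω hω
  have h3 := ENNReal.summable_toReal hω.ne
  have h4 : Tendsto (fun j : ℕ => (gg f M h.bdd (θ + j * δ) ω v) ^ 2) atTop (𝓝 0) := by
    refine h3.tendsto_atTop_zero.congr (fun j => ?_)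
    rw [ENNReal.toReal_ofReal (sq_nonneg _)]
  have h5 := h4.sqrt
  rw [Real.sqrt_zero] at h5
  rw [tendsto_zero_iff_abs_tendsto_zero]
  refine h5.congr (fun j => ?_)
  rw [Real.sqrt_sq_eq_abs]
  rfl

/-- First passage estimate. -/
theorem first_passage (h : Proc P F N f M) (v : Site d) (ε δ θ K η : ℝ) (hδ : 0 < δ)
    (hθ : 0 < θ) (hθδ : θ ≤ δ) (hK : 0 ≤ K) (hη : 0 < η) (hL : (‖opA d‖ * M) * δ ≤ ε) :
    P {ω | ∃ j : ℕ, 3 * ε < |gg f M h.bdd (K + j * η) ω v|} *
      ENNReal.ofReal (Real.exp (-δ) ^ (Finset.univ.image (ed v)).card) ≤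
    P {ω | ∃ i : ℕ, K < θ + i * δ ∧ 2 * ε < |gg f M h.bdd (θ + i * δ) ω v|} := by
  classical
  set s : ℕ → ℝ := fun j => K + j * η with hs
  have hs0 : ∀ j, 0 ≤ s j := fun j => by simp only [hs]; positivity
  have hsK : ∀ j, K ≤ s j := fun j => by
    simp only [hs]; have : (0 : ℝ) ≤ j * η := by positivity
    linarith
  set S : Finset (Edge d) := Finset.univ.image (ed v) with hS
  set A : ℕ → Set Ω := fun j => {ω | 3 * ε < |gg f M h.bdd (s j) ω v|} with hA
  set τ : ℕ → Set Ω := fun j => A j ∩ ⋂ i ∈ Finset.range j, (A i)ᶜ with hτ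
  set U : ℕ → Set Ω := fun j => (incr N (s j) (s j + δ)) ⁻¹' (Zev S) with hU
  set H : Set Ω := {ω | ∃ i : ℕ, K < θ + i * δ ∧ 2 * ε < |gg f M h.bdd (θ + i * δ) ω v|} with hH
  have hggF : ∀ i j, i ≤ j → Measurable[F (s j)] (fun ω => gg f M h.bdd (s i) ω v) := by
    intro i j hij
    have hle : s i ≤ s j := by
      simp only [hs]
      have : (i : ℝ) ≤ j := by exact_mod_cast hij
      nlinarith
    have h1 : Measurable[F (s j)] (fun ω => f (s i) ω v) :=
      (h.adapted (s i) v (hs0 i)).mono (F.mono hle) le_rfl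
    have h2 : Measurable[F (s j)] (fun ω => YY f M h.bdd (s i) ω v) :=
      (YY_meas0 h (s i) v).mono (F.mono (hs0 j)) le_rfl
    exact h1.sub h2
  have hAF : ∀ i j, i ≤ j → MeasurableSet[F (s j)] (A i) := by
    intro i j hij
    have h1 : Measurable[F (s j)] (fun ω => |gg f M h.bdd (s i) ω v|) := by
      have := (hggF i j hij)
      exact measurable_norm.comp this
    exact h1 measurableSet_Ioi
  have hτF : ∀ j, MeasurableSet[F (s j)] (τ j) := by
    intro j
    refine MeasurableSet.inter (hAF j j le_rfl) ?_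
    refine Finset.measurableSet_biInter _ (fun i hi => ?_)
    exact (hAF i j (Finset.mem_range.1 hi).le).compl
  have hτm : ∀ j, MeasurableSet (τ j) := fun j => F.le _ _ (hτF j)
  have hincm : ∀ j, Measurable (incr N (s j) (s j + δ)) := by
    intro j
    rw [measurable_pi_iff]
    intro e
    have h1 : Measurable (N e (s j + δ)) :=
      (h.clocks.adapted e _ (by have := hs0 j; linarith)).mono (F.le _) le_rfl
    have h2 : Measurable (N e (s j)) := (h.clocks.adapted e _ (hs0 j)).mono (F.le _) le_rfl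
    exact (Measurable.of_discrete (f := fun q : ℕ × ℕ => q.1 - q.2)).comp (h1.prodMk h2)
  have hUm : ∀ j, MeasurableSet (U j) := fun j => hincm j (measurable_Zev S)
  have hUp : ∀ j, P (U j) = ENNReal.ofReal (Real.exp (-δ) ^ S.card) := by
    intro j
    have hlaw := h.clocks.law (s j) (s j + δ) (hs0 j) (by linarith)
    rw [add_sub_cancel_left] at hlaw
    have h1 : P (U j) = (P.map (incr N (s j) (s j + δ))) (Zev S) := by
      rw [Measure.map_apply (hincm j) (measurable_Zev S)]
    have h2 : P.map (incr N (s j) (s j + δ)) =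
      Measure.infinitePi (fun _ : Edge d => poissonMeasure (Real.toNNReal δ)) := hlaw
    rw [h1, h2, ← prob_Zev S δ hδ.le, ofReal_measureReal]
  have hind : ∀ j, P (τ j ∩ U j) = P (τ j) * P (U j) := by
    intro j
    have h1 := h.clocks.indep (s j) (s j + δ) (hs0 j) (by linarith)
    rw [Indep_iff] at h1
    exact h1 (τ j) (U j) (hτF j) ⟨Zev S, measurable_Zev S, rfl⟩
  have hdis : Pairwise (fun i j => Disjoint (τ i) (τ j)) := by
    have key : ∀ i j, i < j → Disjoint (τ i) (τ j) := by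
      intro i j hij
      rw [Set.disjoint_left]
      rintro ω ⟨h1, _⟩ ⟨_, h2⟩
      have := Set.mem_iInter₂.1 h2 i (Finset.mem_range.2 hij)
      exact this h1
    intro i j hij
    rcases lt_or_gt_of_ne hij with h1 | h1
    · exact key i j h1
    · exact (key j i h1).symm
  have hunion : {ω | ∃ j : ℕ, 3 * ε < |gg f M h.bdd (K + j * η) ω v|} = ⋃ j, τ j := by
    ext ω
    simp only [Set.mem_ofPred_eq, Set.mem_iUnion]
    constructor
    · intro hex
      refine ⟨Nat.find hex, Nat.find_spec hex, ?_⟩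
      refine Set.mem_iInter₂.2 (fun i hi => ?_)
      exact Nat.find_min hex (Finset.mem_range.1 hi)
    · rintro ⟨j, hj, _⟩
      exact ⟨j, hj⟩
  have hincl : (⋃ j, (τ j ∩ U j) : Set Ω) ≤ᵐ[P] H := by
    filter_upwards [h.good] with ω hg hω
    obtain ⟨j, ⟨hj, _⟩, hUj⟩ := Set.mem_iUnion.1 hω
    have hj' : 3 * ε < |gg f M h.bdd (s j) ω v| := hj
    -- the next grid point
    set q := (s j - θ) / δ with hq
    have hfl1 := Int.floor_le q
    have hfl2 := Int.lt_floor_add_one q
    have hq1 : -1 ≤ q := by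
      rw [hq, le_div_iff₀ hδ]
      have := hs0 j
      linarith
    have hfl3 : -1 ≤ ⌊q⌋ := by
      rw [Int.le_floor]
      exact_mod_cast hq1
    obtain ⟨i, hi⟩ : ∃ i : ℕ, (i : ℤ) = ⌊q⌋ + 1 := ⟨(⌊q⌋ + 1).toNat, by omega⟩
    have hir : (i : ℝ) = (⌊q⌋ : ℝ) + 1 := by exact_mod_cast hi
    have hqδ : q * δ = s j - θ := by rw [hq]; field_simp
    have hlow : s j < θ + i * δ := by
      have : q * δ < i * δ := by
        apply mul_lt_mul_of_pos_right _ hδ
        rw [hir]; exact hfl2
      linarith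
    have hup : θ + i * δ ≤ s j + δ := by
      have : (i : ℝ) * δ ≤ (q + 1) * δ := by
        apply mul_le_mul_of_nonneg_right _ hδ.le
        rw [hir]; linarith
      nlinarith
    refine ⟨i, lt_of_le_of_lt (hsK j) hlow, ?_⟩
    have hf : f (θ + i * δ) ω v = f (s j) ω v := by
      refine no_ring hg v (s j) (θ + i * δ) (hs0 j) hlow.le (fun e he => ?_)
      obtain ⟨a, rfl⟩ := (touches_iff e v).1 he
      have h1 : incr N (s j) (s j + δ) ω (ed v a) = 0 := by
        have := hUj (ed v a) (by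
          rw [hS]; exact Finset.mem_coe.2 (Finset.mem_image_of_mem _ (Finset.mem_univ _)))
        simpa using this
      have h2 : N (ed v a) (s j + δ) ω - N (ed v a) (s j) ω = 0 := h1
      have h3 := hg.mono (ed v a) (θ + i * δ) (s j + δ) (by have := hs0 j; linarith) hup
      omega
    have hY := YY_lip h ω v (s j) (θ + i * δ) (hs0 j) (by have := hs0 j; linarith)
    have hY2 : |YY f M h.bdd (θ + i * δ) ω v - YY f M h.bdd (s j) ω v| ≤ ε := by
      refine hY.trans (le_trans ?_ hL)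
      apply mul_le_mul_of_nonneg_left
      · rw [abs_of_nonneg (by linarith)]; linarith
      · have h1 : (0 : ℝ) ≤ ‖opA d‖ := ContinuousLinearMap.opNorm_nonneg _
        exact mul_nonneg h1 h.M_nonneg
    have e1 : gg f M h.bdd (s j) ω v = gg f M h.bdd (θ + i * δ) ω v +
        (YY f M h.bdd (θ + i * δ) ω v - YY f M h.bdd (s j) ω v) := by
      unfold gg; rw [hf]; ring
    have e2 : |gg f M h.bdd (s j) ω v| ≤ |gg f M h.bdd (θ + i * δ) ω v| + ε := by
      rw [e1]
      exact (abs_add_le _ _).trans (by linarith)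
    show 2 * ε < |gg f M h.bdd (θ + i * δ) ω v|
    linarith
  calc P {ω | ∃ j : ℕ, 3 * ε < |gg f M h.bdd (K + j * η) ω v|} *
        ENNReal.ofReal (Real.exp (-δ) ^ S.card)
      = ∑' j, P (τ j ∩ U j) := by
        rw [hunion, measure_iUnion hdis hτm, ← ENNReal.tsum_mul_right]
        congr 1
        funext j
        rw [hind, hUp]
    _ = P (⋃ j, (τ j ∩ U j)) := by
        rw [measure_iUnion]
        · intro i j hij
          exact (hdis hij).mono Set.inter_subset_left Set.inter_subset_left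
        · exact fun j => (hτm j).inter (hUm j)
    _ ≤ P H := measure_mono_ae hincl

end Pool.Agent.H563R3.EA
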