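import Mathlib
import Pool.Agent.H563R3.EAGrid

set_option autoImplicit false
set_option linter.unusedSectionVars false
set_option linter.unusedVariables false
open MeasureTheory ProbabilityTheory Filter Topology
open scoped BoundedContinuousFunction ENNReal

namespace Pool.Agent.H563R3.EA

variable {d : ℕ} {Ω : Type} {mΩ : MeasurableSpace Ω}
variable {P : Measure Ω} [IsProbabilityMeasure P] {F : Filtration ℝ mΩ}
  {N : Edge d → ℝ → Ω → ℕ} {f : ℝ → Ω → Site d → ℝ} {M : ℝ}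

/-- Right continuity. -/
theorem gg_right (h : Proc P F N f M) {ω : Ω} (hg : Good N f ω) (v : Site d) (t c : ℝ) (ht : 0 ≤ t)
    (hc : c < |gg f M h.bdd t ω v|) :
    ∃ η, 0 < η ∧ ∀ s, t < s → s < t + η → c < |gg f M h.bdd s ω v| := by
  have h1 : ∀ᶠ s in 𝓝[>] t, ∀ a : Dir d, N (ed v a) s ω = N (ed v a) t ω :=
    eventually_all.2 (fun a => hg.right (ed v a) t ht)
  rw [eventually_nhdsWithin_iff, Metric.eventually_nhds_iff] at h1
  obtain ⟨η1, hη1, h1⟩ := h1
  set L := ‖opA d‖ * M with hL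
  have hL0 : 0 ≤ L := mul_nonneg (ContinuousLinearMap.opNorm_nonneg _) h.M_nonneg
  set γ := |gg f M h.bdd t ω v| - c with hγ
  have hγ0 : 0 < γ := by rw [hγ]; linarith
  refine ⟨min η1 (γ / (L + 1)), by positivity, fun s hs1 hs2 => ?_⟩
  have h2 : s - t < η1 := by have := min_le_left η1 (γ / (L + 1)); linarith
  have h3 : s - t < γ / (L + 1) := by have := min_le_right η1 (γ / (L + 1)); linarith
  have hs0 : 0 ≤ s := ht.trans hs1.le
  have h4 : f s ω v = f t ω v := by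
    refine hg.keep v t s ht hs1.le (fun e he => ?_)
    obtain ⟨a, rfl⟩ := (touches_iff e v).1 he
    exact h1 (y := s) (by rw [Real.dist_eq, abs_of_pos (by linarith)]; exact h2) hs1 a
  have h5 := YY_lip h ω v t s ht hs0
  rw [abs_of_pos (show 0 < s - t by linarith)] at h5
  rw [lt_div_iff₀ (by positivity)] at h3
  have e1 : gg f M h.bdd t ω v = gg f M h.bdd s ω v +
      (YY f M h.bdd s ω v - YY f M h.bdd t ω v) := by
    unfold gg; rw [h4]; ring
  have e2 : |gg f M h.bdd t ω v| ≤ |gg f M h.bdd s ω v| + L * (s - t) := by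
    rw [e1]
    exact (abs_add_le _ _).trans (by linarith)
  have e3 : L * (s - t) < γ := by nlinarith
  rw [hγ] at e3
  linarith

theorem escape_bound (h : Proc P F N f M) (v : Site d) (ε δ θ K : ℝ) (hδ : 0 < δ)
    (hθ : 0 < θ) (hθδ : θ ≤ δ) (hK : 0 ≤ K) (hL : (‖opA d‖ * M) * δ ≤ ε) :
    P {ω | ∃ t, K ≤ t ∧ 3 * ε < |gg f M h.bdd t ω v|} *
      ENNReal.ofReal (Real.exp (-δ) ^ (Finset.univ.image (ed v)).card) ≤
    P {ω | ∃ i : ℕ, K < θ + i * δ ∧ 2 * ε < |gg f M h.bdd (θ + i * δ) ω v|} := by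
  classical
  set E : ℕ → Set Ω := fun n => {ω | ∃ j : ℕ, 3 * ε < |gg f M h.bdd (K + j * (1 / 2) ^ n) ω v|} with hE
  have hmono : Monotone E := by
    apply monotone_nat_of_le_succ
    rintro n ω ⟨j, hj⟩
    refine ⟨2 * j, ?_⟩
    have : K + ((2 * j : ℕ) : ℝ) * (1 / 2) ^ (n + 1) = K + j * (1 / 2) ^ n := by
      push_cast; rw [pow_succ]; ring
    rw [this]; exact hj
  have hsub : {ω | ∃ t, K ≤ t ∧ 3 * ε < |gg f M h.bdd t ω v|} ≤ᵐ[P] ⋃ n, E n := by
    filter_upwards [h.good] with ω hg hω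
    obtain ⟨t, hKt, ht⟩ := hω
    obtain ⟨η, hη, hη2⟩ := gg_right h hg v t (3 * ε) (hK.trans hKt) ht
    obtain ⟨n, hn⟩ := exists_pow_lt_of_lt_one hη (show (1 / 2 : ℝ) < 1 by norm_num)
    have hp : (0 : ℝ) < (1 / 2) ^ n := by positivity
    set q := (t - K) / (1 / 2) ^ n with hq
    have hq0 : 0 ≤ q := div_nonneg (by linarith) hp.le
    have hfl1 := Nat.floor_le hq0
    have hfl2 := Nat.lt_floor_add_one q
    have hqp : q * (1 / 2) ^ n = t - K := by rw [hq]; field_simp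
    refine Set.mem_iUnion.2 ⟨n, ⌊q⌋₊ + 1, ?_⟩
    apply hη2
    · have : q * (1 / 2) ^ n < ((⌊q⌋₊ + 1 : ℕ) : ℝ) * (1 / 2) ^ n := by
        apply mul_lt_mul_of_pos_right _ hp
        push_cast; exact hfl2
      linarith
    · have : ((⌊q⌋₊ + 1 : ℕ) : ℝ) * (1 / 2) ^ n ≤ (q + 1) * (1 / 2) ^ n := by
        apply mul_le_mul_of_nonneg_right _ hp.le
        push_cast; linarith
      nlinarith
  calc P {ω | ∃ t, K ≤ t ∧ 3 * ε < |gg f M h.bdd t ω v|} *
      ENNReal.ofReal (Real.exp (-δ) ^ (Finset.univ.image (ed v)).card)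
      ≤ P (⋃ n, E n) * ENNReal.ofReal (Real.exp (-δ) ^ (Finset.univ.image (ed v)).card) := by
        exact mul_le_mul_left (measure_mono_ae hsub) _
    _ = ⨆ n, P (E n) * ENNReal.ofReal (Real.exp (-δ) ^ (Finset.univ.image (ed v)).card) := by
        rw [hmono.measure_iUnion, ENNReal.iSup_mul]
    _ ≤ _ := iSup_le (fun n => first_passage h v ε δ θ K ((1 / 2) ^ n) hδ hθ hθδ hK (by positivity) hL)

theorem eventually_small [NeZero d] (h : Proc P F N f M) (hs : Stationary P (f 0)) (v : Site d)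
    (ε : ℝ) (hε : 0 < ε) :
    ∀ᵐ ω ∂P, ∃ K : ℕ, ∀ t, (K : ℝ) ≤ t → |gg f M h.bdd t ω v| ≤ 3 * ε := by
  classical
  set L := ‖opA d‖ * M with hL
  have hL0 : 0 ≤ L := mul_nonneg (ContinuousLinearMap.opNorm_nonneg _) h.M_nonneg
  set δ := ε / (L + 1) with hδd
  have hδ : 0 < δ := by positivity
  have hLδ : L * δ ≤ ε := by
    rw [hδd, ← mul_div_assoc, div_le_iff₀ (by positivity)]
    nlinarith
  obtain ⟨θ, hθ, hθδ, hsum⟩ := exists_grid (VV P f M h.bdd) (VV_continuous h)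
    (fun t ht => VV_nonneg h hs t ht) (2 * M ^ 2) (fun T hT => VV_int h hs T hT) δ hδ
  set q := ENNReal.ofReal (Real.exp (-δ) ^ (Finset.univ.image (ed v)).card) with hq
  have hq0 : q ≠ 0 := by
    rw [hq, ne_eq, ENNReal.ofReal_eq_zero, not_le]; positivity
  set D : ℕ → Set Ω := fun K => {ω | ∃ t, (K : ℝ) ≤ t ∧ 3 * ε < |gg f M h.bdd t ω v|} with hD
  set H : ℕ → Set Ω := fun K => {ω | ∃ i : ℕ, (K : ℝ) < θ + i * δ ∧
    2 * ε < |gg f M h.bdd (θ + i * δ) ω v|} with hH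
  have hb : ∀ K, P (D K) * q ≤ P (H K) := fun K =>
    escape_bound h v ε δ θ K hδ hθ hθδ (Nat.cast_nonneg K) hLδ
  have htj : ∀ j : ℕ, 0 ≤ θ + j * δ := fun j => by positivity
  have hHm : ∀ K, MeasurableSet (H K) := by
    intro K
    have : H K = ⋃ i : ℕ, ({ω | (K : ℝ) < θ + i * δ} ∩
        {ω | 2 * ε < |gg f M h.bdd (θ + i * δ) ω v|}) := by
      ext ω; simp [hH]
    rw [this]
    refine MeasurableSet.iUnion (fun i => MeasurableSet.inter (MeasurableSet.const _) ?_)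
    exact measurableSet_lt measurable_const (gg_meas h _ (htj i) v).abs
  have hHanti : Antitone H := by
    intro K K' hKK ω
    rintro ⟨i, hi1, hi2⟩
    refine ⟨i, lt_of_le_of_lt ?_ hi1, hi2⟩
    exact_mod_cast hKK
  have hHlim : Tendsto (fun K => P (H K)) atTop (𝓝 (P (⋂ K, H K))) :=
    tendsto_measure_iInter_atTop (fun K => (hHm K).nullMeasurableSet) hHanti
      ⟨0, measure_ne_top _ _⟩
  have hH0 : P (⋂ K, H K) = 0 := by
    rw [measure_eq_zero_iff_ae_notMem]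
    filter_upwards [grid_tendsto h hs θ δ hθ hδ hsum v] with ω hω hmem
    have h1 := (Metric.tendsto_atTop.1 hω) (2 * ε) (by positivity)
    obtain ⟨n0, hn0⟩ := h1
    obtain ⟨K, hK⟩ := exists_nat_gt (θ + n0 * δ)
    obtain ⟨i, hi1, hi2⟩ := Set.mem_iInter.1 hmem K
    have hin : n0 ≤ i := by
      by_contra hcon
      push Not at hcon
      have : (i : ℝ) ≤ n0 := by exact_mod_cast hcon.le
      nlinarith
    have h2 := hn0 i hin
    rw [Real.dist_eq, sub_zero] at h2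
    linarith
  rw [hH0] at hHlim
  have hD0 : P (⋂ K, D K) = 0 := by
    have h1 : ∀ K, P (⋂ K, D K) * q ≤ P (H K) := fun K =>
      (mul_le_mul_left (measure_mono (Set.iInter_subset D K)) q).trans (hb K)
    have h2 : P (⋂ K, D K) * q ≤ 0 := ge_of_tendsto' hHlim h1
    have h3 : P (⋂ K, D K) * q = 0 := le_antisymm h2 zero_le
    exact (mul_eq_zero.1 h3).resolve_right hq0
  have h4 := measure_eq_zero_iff_ae_notMem.1 hD0
  filter_upwards [h4] with ω hω
  by_contra hcon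
  push Not at hcon
  apply hω
  refine Set.mem_iInter.2 (fun K => ?_)
  obtain ⟨t, ht1, ht2⟩ := hcon K
  exact ⟨t, ht1, ht2⟩

/-- The difference between the process and the smoothed initial profile tends to zero. -/
theorem gg_tendsto [NeZero d] (h : Proc P F N f M) (hs : Stationary P (f 0)) (v : Site d) :
    ∀ᵐ ω ∂P, Tendsto (fun t : ℝ => gg f M h.bdd t ω v) atTop (𝓝 0) := by
  have h1 : ∀ᵐ ω ∂P, ∀ m : ℕ, ∃ K : ℕ, ∀ t, (K : ℝ) ≤ t →
      |gg f M h.bdd t ω v| ≤ 3 * (1 / ((m : ℝ) + 1)) :=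
    ae_all_iff.2 (fun m => eventually_small h hs v _ (by positivity))
  filter_upwards [h1] with ω hω
  rw [Metric.tendsto_atTop]
  intro ε hε
  obtain ⟨m, hm⟩ := exists_nat_gt (3 / ε)
  obtain ⟨K, hK⟩ := hω m
  refine ⟨K, fun t ht => ?_⟩
  rw [Real.dist_eq, sub_zero]
  refine lt_of_le_of_lt (hK t ht) ?_
  rw [div_lt_iff₀ hε] at hm
  rw [mul_one_div, div_lt_iff₀ (by positivity)]
  nlinarith

end Pool.Agent.H563R3.EA
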