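import Mathlib
import Pool.Agent.H563R3.EALat
import Pool.Agent.H563R3.EAErg
import Pool.Agent.H563R3.EADet

set_option autoImplicit false
set_option linter.unusedSectionVars false
set_option linter.unusedVariables false
open MeasureTheory ProbabilityTheory Filter Topology
open scoped ENNReal InnerProductSpace

namespace Pool.Agent.H563R3.EA

variable {d : ℕ}

/-- Shift of a configuration. -/
def sft (x : Site d) (η : Site d → ℝ) : Site d → ℝ := fun v => η (v + x)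

theorem sft_meas (x : Site d) : Measurable (sft x) := by
  rw [measurable_pi_iff]; intro v; exact measurable_pi_apply _

theorem sft_sft (x y : Site d) (η : Site d → ℝ) : sft x (sft y η) = sft (x + y) η := by
  funext v
  show η (v + x + y) = η (v + (x + y))
  rw [add_assoc]

theorem sft_zero (η : Site d → ℝ) : sft 0 η = η := by
  funext v
  show η (v + 0) = η v
  rw [add_zero]

/-- The maps of the lazy walk. -/
def tau (j : Dir d × Bool) : (Site d → ℝ) → (Site d → ℝ) := if j.2 = true then sft (step j.1) else id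

variable {μ : Measure (Site d → ℝ)} [IsProbabilityMeasure μ]

theorem tau_mp (hsh : ∀ x : Site d, MeasurePreserving (sft x) μ μ) (j : Dir d × Bool) :
    MeasurePreserving (tau j) μ μ := by
  unfold tau
  split_ifs
  · exact hsh _
  · exact MeasurePreserving.id μ

/-- Translation operators. -/
noncomputable def Ua (hsh : ∀ x : Site d, MeasurePreserving (sft x) μ μ) (a : Dir d) :
    Lp ℝ 2 μ →L[ℝ] Lp ℝ 2 μ :=
  (Lp.compMeasurePreservingₗᵢ ℝ (sft (step a)) (hsh (step a))).toContinuousLinearMap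

theorem Ua_coe (hsh : ∀ x : Site d, MeasurePreserving (sft x) μ μ) (a : Dir d) (g : Lp ℝ 2 μ) :
    Ua hsh a g =ᵐ[μ] g ∘ sft (step a) := Lp.coeFn_compMeasurePreserving g (hsh (step a))

theorem Ua_norm (hsh : ∀ x : Site d, MeasurePreserving (sft x) μ μ) (a : Dir d) (g : Lp ℝ 2 μ) :
    ‖Ua hsh a g‖ = ‖g‖ :=
  (Lp.compMeasurePreservingₗᵢ ℝ (sft (step a)) (hsh (step a))).norm_map g

theorem Ua_opp (hsh : ∀ x : Site d, MeasurePreserving (sft x) μ μ) (a : Dir d) (g : Lp ℝ 2 μ) :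
    Ua hsh a (Ua hsh (opp a) g) = g := by
  apply Lp.ext
  have h1 := Ua_coe hsh a (Ua hsh (opp a) g)
  have h2 := Ua_coe hsh (opp a) g
  have h3 := (hsh (step a)).quasiMeasurePreserving.ae_eq_comp h2
  filter_upwards [h1, h3] with η e1 e2
  rw [e1, e2]
  show g (sft (step (opp a)) (sft (step a) η)) = g η
  rw [sft_sft, step_opp, neg_add_cancel, sft_zero]

theorem Ua_inner (hsh : ∀ x : Site d, MeasurePreserving (sft x) μ μ) (a : Dir d) (g g' : Lp ℝ 2 μ) :
    ⟪Ua hsh a g, g'⟫_ℝ = ⟪g, Ua hsh (opp a) g'⟫_ℝ := by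
  conv_lhs => rw [← Ua_opp hsh a g']
  exact (Lp.compMeasurePreservingₗᵢ ℝ (sft (step a)) (hsh (step a))).inner_map_map g _

/-- The averaging operator. -/
noncomputable def Qop (hsh : ∀ x : Site d, MeasurePreserving (sft x) μ μ) :
    Lp ℝ 2 μ →L[ℝ] Lp ℝ 2 μ := (Fintype.card (Dir d) : ℝ)⁻¹ • ∑ a, Ua hsh a

/-- The lazy averaging operator. -/
noncomputable def Top (hsh : ∀ x : Site d, MeasurePreserving (sft x) μ μ) :
    Lp ℝ 2 μ →L[ℝ] Lp ℝ 2 μ := (1 / 2 : ℝ) • (1 + Qop hsh)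

theorem Qop_apply (hsh : ∀ x : Site d, MeasurePreserving (sft x) μ μ) (g : Lp ℝ 2 μ) :
    Qop hsh g = (Fintype.card (Dir d) : ℝ)⁻¹ • ∑ a, Ua hsh a g := by
  unfold Qop
  simp

theorem Top_apply (hsh : ∀ x : Site d, MeasurePreserving (sft x) μ μ) (g : Lp ℝ 2 μ) :
    Top hsh g = (1 / 2 : ℝ) • (g + Qop hsh g) := rfl

theorem card_pos [NeZero d] : (0 : ℝ) < Fintype.card (Dir d) := by
  have : 0 < Fintype.card (Dir d) := by
    rw [Fintype.card_prod, Fintype.card_fin, Fintype.card_bool]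
    have hd : 0 < d := Nat.pos_of_ne_zero (NeZero.ne d)
    omega
  exact_mod_cast this

theorem Qop_norm [NeZero d] (hsh : ∀ x : Site d, MeasurePreserving (sft x) μ μ) (g : Lp ℝ 2 μ) :
    ‖Qop hsh g‖ ≤ ‖g‖ := by
  rw [Qop_apply, norm_smul, Real.norm_of_nonneg (by positivity)]
  have h1 : ‖∑ a, Ua hsh a g‖ ≤ Fintype.card (Dir d) * ‖g‖ := by
    calc ‖∑ a, Ua hsh a g‖ ≤ ∑ a : Dir d, ‖g‖ :=
          norm_sum_le_of_le _ (fun a _ => (Ua_norm hsh a g).le)
      _ = _ := by rw [Finset.sum_const, Finset.card_univ, nsmul_eq_mul]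
  have hc := card_pos (d := d)
  calc (Fintype.card (Dir d) : ℝ)⁻¹ * ‖∑ a, Ua hsh a g‖
      ≤ (Fintype.card (Dir d) : ℝ)⁻¹ * (Fintype.card (Dir d) * ‖g‖) := by gcongr
    _ = ‖g‖ := by rw [inv_mul_cancel_left₀ hc.ne']

theorem Qop_sym (hsh : ∀ x : Site d, MeasurePreserving (sft x) μ μ) (g g' : Lp ℝ 2 μ) :
    ⟪Qop hsh g, g'⟫_ℝ = ⟪g, Qop hsh g'⟫_ℝ := by
  rw [Qop_apply, Qop_apply, inner_smul_left, inner_smul_right, sum_inner, inner_sum]
  simp only [conj_trivial, Ua_inner]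
  congr 1
  exact Equiv.sum_comp opp (fun a => ⟪g, Ua hsh a g'⟫_ℝ)

theorem Top_sym (hsh : ∀ x : Site d, MeasurePreserving (sft x) μ μ) (g g' : Lp ℝ 2 μ) :
    ⟪Top hsh g, g'⟫_ℝ = ⟪g, Top hsh g'⟫_ℝ := by
  rw [Top_apply, Top_apply, inner_smul_left, inner_smul_right, inner_add_left, inner_add_right,
    Qop_sym]
  simp

theorem Top_norm [NeZero d] (hsh : ∀ x : Site d, MeasurePreserving (sft x) μ μ) :
    ‖Top hsh‖ ≤ 1 := by
  refine ContinuousLinearMap.opNorm_le_bound _ (by norm_num) (fun g => ?_)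
  rw [Top_apply, norm_smul, Real.norm_of_nonneg (by norm_num), one_mul]
  have h1 := norm_add_le g (Qop hsh g)
  have h2 := Qop_norm hsh g
  linarith

theorem Top_pos [NeZero d] (hsh : ∀ x : Site d, MeasurePreserving (sft x) μ μ) (g : Lp ℝ 2 μ) :
    0 ≤ ⟪Top hsh g, g⟫_ℝ := by
  rw [Top_apply, inner_smul_left, inner_add_left, real_inner_self_eq_norm_sq]
  have h1 := abs_real_inner_le_norm (Qop hsh g) g
  have h2 := Qop_norm hsh g
  have h3 := (abs_le.1 h1).1
  have h4 : ‖Qop hsh g‖ * ‖g‖ ≤ ‖g‖ ^ 2 := by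
    rw [sq]; exact mul_le_mul_of_nonneg_right h2 (norm_nonneg _)
  apply mul_nonneg
  · simp
  · linarith

theorem Top_pos2 [NeZero d] (hsh : ∀ x : Site d, MeasurePreserving (sft x) μ μ) (g : Lp ℝ 2 μ) :
    0 ≤ ⟪Top hsh g - Top hsh (Top hsh g), g⟫_ℝ := by
  have e : Top hsh g - Top hsh (Top hsh g) = (1 / 4 : ℝ) • (g - Qop hsh (Qop hsh g)) := by
    simp only [Top_apply, map_smul, map_add]
    module
  rw [e, inner_smul_left, inner_sub_left, real_inner_self_eq_norm_sq, Qop_sym,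
    real_inner_self_eq_norm_sq]
  have h2 := Qop_norm hsh g
  have h3 : ‖Qop hsh g‖ ^ 2 ≤ ‖g‖ ^ 2 := pow_le_pow_left₀ (norm_nonneg _) h2 2
  apply mul_nonneg
  · simp
  · linarith

theorem coeFn_sum {ι : Type} (s : Finset ι) (g : ι → Lp ℝ 2 μ) :
    (⇑(∑ i ∈ s, g i) : (Site d → ℝ) → ℝ) =ᵐ[μ] fun η => ∑ i ∈ s, g i η := by
  classical
  induction s using Finset.induction_on with
  | empty =>
    simp only [Finset.sum_empty]
    exact Lp.coeFn_zero ℝ 2 μ
  | insert a s ha ih =>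
    rw [Finset.sum_insert ha]
    filter_upwards [Lp.coeFn_add (g a) (∑ i ∈ s, g i), ih] with η e1 e2
    rw [e1, Pi.add_apply, e2, Finset.sum_insert ha]

theorem TT_ae (hsh : ∀ x : Site d, MeasurePreserving (sft x) μ μ) {F G : (Site d → ℝ) → ℝ}
    (h : F =ᵐ[μ] G) : TT tau F =ᵐ[μ] TT tau G := by
  have h1 : ∀ᵐ η ∂μ, ∀ j : Dir d × Bool, F (tau j η) = G (tau j η) :=
    ae_all_iff.2 (fun j => (tau_mp hsh j).quasiMeasurePreserving.ae_eq_comp h)
  filter_upwards [h1] with η e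
  rw [TT_apply, TT_apply]
  simp only [e]

theorem sum_tau (g : (Site d → ℝ) → ℝ) (η : Site d → ℝ) :
    ∑ j : Dir d × Bool, g (tau j η) = ∑ a : Dir d, g (sft (step a) η) +
      Fintype.card (Dir d) * g η := by
  have h1 : ∑ j : Dir d × Bool, g (tau j η) = ∑ a : Dir d, (g (sft (step a) η) + g η) := by
    rw [Fintype.sum_prod_type]
    refine Finset.sum_congr rfl (fun a _ => ?_)
    rw [Fintype.sum_bool]
    rfl
  rw [h1, Finset.sum_add_distrib, Finset.sum_const, Finset.card_univ, nsmul_eq_mul]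

theorem Top_coe [NeZero d] (hsh : ∀ x : Site d, MeasurePreserving (sft x) μ μ) (g : Lp ℝ 2 μ) :
    Top hsh g =ᵐ[μ] TT tau g := by
  have h1 : ∀ᵐ η ∂μ, ∀ a : Dir d, Ua hsh a g η = g (sft (step a) η) :=
    ae_all_iff.2 (fun a => Ua_coe hsh a g)
  rw [Top_apply, Qop_apply]
  filter_upwards [Lp.coeFn_smul (1 / 2 : ℝ) (g + (Fintype.card (Dir d) : ℝ)⁻¹ • ∑ a, Ua hsh a g),
    Lp.coeFn_add g ((Fintype.card (Dir d) : ℝ)⁻¹ • ∑ a, Ua hsh a g),
    Lp.coeFn_smul ((Fintype.card (Dir d) : ℝ)⁻¹) (∑ a, Ua hsh a g),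
    coeFn_sum Finset.univ (fun a => Ua hsh a g), h1] with η e1 e2 e3 e4 e5
  have hc := card_pos (d := d)
  have hcard : (Fintype.card (Dir d × Bool) : ℝ) = 2 * Fintype.card (Dir d) := by
    rw [Fintype.card_prod (Dir d) Bool, Fintype.card_bool]; push_cast; ring
  rw [e1, Pi.smul_apply, e2, Pi.add_apply, e3, Pi.smul_apply, e4, TT_apply, sum_tau, hcard]
  simp only [e5, smul_eq_mul]
  field_simp
  ring

theorem Top_pow_coe [NeZero d] (hsh : ∀ x : Site d, MeasurePreserving (sft x) μ μ)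
    {g : Lp ℝ 2 μ} {F : (Site d → ℝ) → ℝ} (h : g =ᵐ[μ] F) (n : ℕ) :
    (Top hsh ^ n) g =ᵐ[μ] (TT tau ^ n) F := by
  induction n with
  | zero => exact h
  | succ n ih =>
    have e1 : (Top hsh ^ (n + 1)) g = Top hsh ((Top hsh ^ n) g) := by rw [pow_succ']; rfl
    rw [e1, TT_pow_succ]
    exact (Top_coe hsh _).trans (TT_ae hsh ih)

/-- `L^1` norm against `L^2` norm. -/
theorem int_abs_le (g : Lp ℝ 2 μ) : ∫ η, |g η| ∂μ ≤ ‖g‖ := by
  have h1 : ∫ η, |g η| ∂μ = (eLpNorm g 1 μ).toReal := by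
    rw [eLpNorm_one_eq_lintegral_enorm]
    simp only [← Real.norm_eq_abs]
    rw [integral_norm_eq_lintegral_enorm (Lp.aestronglyMeasurable g)]
  rw [h1, Lp.norm_def]
  apply ENNReal.toReal_mono (Lp.eLpNorm_ne_top g)
  exact eLpNorm_le_eLpNorm_of_exponent_le (by norm_num) (Lp.aestronglyMeasurable g)

theorem norm_sq_eq (g : Lp ℝ 2 μ) : ‖g‖ ^ 2 = ∫ η, (g η) ^ 2 ∂μ := by
  rw [← real_inner_self_eq_norm_sq, L2.inner_def]
  refine integral_congr_ae (Eventually.of_forall (fun η => ?_))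
  simp [sq]

/-- Convergence of the lazy walk averages. -/
theorem walk_converges [NeZero d] (hsh : ∀ x : Site d, MeasurePreserving (sft x) μ μ)
    (φ : (Site d → ℝ) → ℝ) (M : ℝ) (hφm : Measurable φ) (hφ : ∀ x, |φ x| ≤ M) :
    ∀ᵐ η ∂μ, ∃ L, Tendsto (fun n => (TT tau ^ n) φ η) atTop (𝓝 L) := by
  have hτ : ∀ j : Dir d × Bool, MeasurePreserving (tau j) μ μ := tau_mp hsh
  have hτm : ∀ j : Dir d × Bool, Measurable (tau (d := d) j) := fun j => (hτ j).measurable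
  have : Nonempty (Dir d × Bool) := ⟨((⟨0, Nat.pos_of_ne_zero (NeZero.ne d)⟩, true), true)⟩
  have hb : ∀ j x, |(TT tau ^ j) φ x| ≤ M := fun j x => TT_pow_bound tau φ M hφ j x
  have hmem : MemLp φ 2 μ := MemLp.of_bound hφm.aestronglyMeasurable M
    (Eventually.of_forall (fun x => by rw [Real.norm_eq_abs]; exact hφ x))
  set Φ : Lp ℝ 2 μ := hmem.toLp φ with hΦ
  have hΦc : Φ =ᵐ[μ] φ := hmem.coeFn_toLp
  have hpow : ∀ n, (Top hsh ^ n) Φ =ᵐ[μ] (TT tau ^ n) φ := fun n => Top_pow_coe hsh hΦc n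
  -- the limit
  have hmean := ContinuousLinearMap.tendsto_birkhoffAverage_orthogonalProjection (Top hsh)
    (Top_norm hsh) Φ
  set Hp := ((Top hsh).eqLocus (1 : Lp ℝ 2 μ →L[ℝ] Lp ℝ 2 μ)).orthogonalProjectionOnto Φ with hHp
  set H : Lp ℝ 2 μ := (Hp : Lp ℝ 2 μ) with hH
  have hHfix : Top hsh H = H := by
    have := Hp.2
    exact this
  set h : (Site d → ℝ) → ℝ := fun η => H η with hh
  have hhm : Measurable h := (Lp.stronglyMeasurable H).measurable
  have hhi : Integrable h μ := (Lp.memLp H).integrable (by norm_num)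
  have hinv1 : ∀ j : ℕ, (TT tau ^ j) h =ᵐ[μ] h := by
    intro j
    induction j with
    | zero => exact EventuallyEq.rfl
    | succ j ih =>
      rw [TT_pow_succ]
      have h1 := TT_ae hsh ih
      have h2 := Top_coe hsh H
      rw [hHfix] at h2
      exact h1.trans h2.symm
  have hinv : ∀ᵐ x ∂μ, ∀ j : ℕ, (TT tau ^ j) h x = h x := ae_all_iff.2 hinv1
  have hAN : ∀ N : ℕ, (fun η => AN tau φ N η) =ᵐ[μ] (birkhoffAverage ℝ (Top hsh) _root_.id N Φ :
      Lp ℝ 2 μ) := by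
    intro N
    have e1 : birkhoffAverage ℝ (Top hsh) _root_.id N Φ =
        ((N : ℝ)⁻¹) • ∑ k ∈ Finset.range N, (Top hsh ^ k) Φ := by
      unfold birkhoffAverage birkhoffSum
      congr 1
      refine Finset.sum_congr rfl (fun k _ => ?_)
      have e0 : ∀ k : ℕ, (Top hsh ^ k) Φ = (⇑(Top hsh))^[k] Φ := by
        intro k
        induction k with
        | zero => rfl
        | succ k ih => rw [pow_succ', Function.iterate_succ_apply', ← ih]; rfl
      rw [e0]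
      rfl
    rw [e1]
    have h1 : ∀ᵐ η ∂μ, ∀ k : ℕ, ((Top hsh ^ k) Φ : Lp ℝ 2 μ) η = (TT tau ^ k) φ η :=
      ae_all_iff.2 hpow
    filter_upwards [h1, Lp.coeFn_smul ((N : ℝ)⁻¹) (∑ k ∈ Finset.range N, (Top hsh ^ k) Φ),
      coeFn_sum (Finset.range N) (fun k => (Top hsh ^ k) Φ)] with η e2 e3 e4
    rw [e3, Pi.smul_apply, e4, smul_eq_mul]
    unfold AN
    simp only [e2]
  have hL : Tendsto (fun N => ∫ x, |AN tau φ N x - h x| ∂μ) atTop (𝓝 0) := by
    have h1 : Tendsto (fun N => ‖birkhoffAverage ℝ (Top hsh) _root_.id N Φ - H‖) atTop (𝓝 0) := by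
      have := (hmean.sub_const H).norm
      rw [sub_self, norm_zero] at this
      exact this
    refine squeeze_zero (fun N => integral_nonneg (fun x => abs_nonneg _)) (fun N => ?_) h1
    refine le_trans (le_of_eq ?_) (int_abs_le _)
    refine integral_congr_ae ?_
    filter_upwards [hAN N, Lp.coeFn_sub (birkhoffAverage ℝ (Top hsh) _root_.id N Φ) H] with x e1 e2
    rw [e2, Pi.sub_apply, ← e1]
  have hpt := pointwise hτ φ h M hφm hφ hhm hhi hinv hL
  -- square function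
  have hsq : ∀ k : ℕ, ∫ η, ((TT tau ^ k) φ η - (TT tau ^ (k + 1)) φ η) ^ 2 ∂μ =
      ‖(Top hsh ^ k) Φ - (Top hsh ^ (k + 1)) Φ‖ ^ 2 := by
    intro k
    rw [norm_sq_eq]
    refine integral_congr_ae ?_
    filter_upwards [hpow k, hpow (k + 1), Lp.coeFn_sub ((Top hsh ^ k) Φ) ((Top hsh ^ (k + 1)) Φ)]
      with η e1 e2 e3
    rw [e3, Pi.sub_apply, e1, e2]
  have hmk : ∀ k : ℕ, Measurable (fun η => ENNReal.ofReal (((k : ℝ) + 1) *
      ((TT tau ^ k) φ η - (TT tau ^ (k + 1)) φ η) ^ 2)) := fun k =>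
    ((((TT_pow_meas hτm hφm k).sub (TT_pow_meas hτm hφm (k + 1))).pow_const 2).const_mul
      _).ennreal_ofReal
  have hlk : ∀ k : ℕ, ∫⁻ η, ENNReal.ofReal (((k : ℝ) + 1) *
      ((TT tau ^ k) φ η - (TT tau ^ (k + 1)) φ η) ^ 2) ∂μ =
      ENNReal.ofReal (((k : ℝ) + 1) * ‖(Top hsh ^ k) Φ - (Top hsh ^ (k + 1)) Φ‖ ^ 2) := by
    intro k
    rw [← hsq k, ← integral_const_mul, ofReal_integral_eq_lintegral_ofReal]
    · refine Integrable.of_bound ((((TT_pow_meas hτm hφm k).sub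
        (TT_pow_meas hτm hφm (k + 1))).pow_const 2).const_mul _).aestronglyMeasurable
        (((k : ℝ) + 1) * (2 * M) ^ 2) (Eventually.of_forall (fun η => ?_))
      rw [Real.norm_eq_abs, abs_mul, abs_of_nonneg (by positivity : (0 : ℝ) ≤ (k : ℝ) + 1), abs_pow]
      have h1 : |(TT tau ^ k) φ η - (TT tau ^ (k + 1)) φ η| ≤ 2 * M := by
        have h2 := hb k η
        have h3 := hb (k + 1) η
        have h4 := abs_sub ((TT tau ^ k) φ η) ((TT tau ^ (k + 1)) φ η)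
        linarith
      gcongr
    · exact Eventually.of_forall (fun η => by positivity)
  have hfin : ∫⁻ η, ∑' k : ℕ, ENNReal.ofReal (((k : ℝ) + 1) *
      ((TT tau ^ k) φ η - (TT tau ^ (k + 1)) φ η) ^ 2) ∂μ ≠ ∞ := by
    rw [lintegral_tsum (fun k => (hmk k).aemeasurable)]
    simp only [hlk]
    refine ne_top_of_le_ne_top (ENNReal.ofReal_ne_top (r := ‖Φ‖ ^ 2)) ?_
    apply ENNReal.tsum_le_of_sum_range_le
    intro n
    rw [← ENNReal.ofReal_sum_of_nonneg (fun k _ => by positivity)]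
    exact ENNReal.ofReal_le_ofReal (square_function (Top hsh) (Top_sym hsh) (Top_pos hsh)
      (Top_pos2 hsh) Φ n)
  filter_upwards [hpt, ae_lt_top (by fun_prop) hfin] with η h1 h2
  refine ⟨h η, tauber _ _ ?_ h1⟩
  have h3 := ENNReal.summable_toReal h2.ne
  refine h3.congr (fun k => ?_)
  rw [ENNReal.toReal_ofReal (by positivity)]

end Pool.Agent.H563R3.EA
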