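import Mathlib
import Pool.Agent.H563R3.EALim
import Pool.Agent.H563R3.EAWalk

set_option autoImplicit false
set_option linter.unusedSectionVars false
set_option linter.unusedVariables false
open MeasureTheory ProbabilityTheory Filter Topology
open scoped BoundedContinuousFunction ENNReal

namespace Pool.Agent.H563R3.EA

theorem sg_shift {X : Type} [NormedAddCommGroup X] [NormedSpace ℝ X] [CompleteSpace X]
    (K T : X →L[ℝ] X) (n : ℝ) (h : K + n • 1 = n • T) (t : ℝ) :
    sg K t = Real.exp (-(t * n)) • sg T (t * n) := by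
  let _ : NormedAlgebra ℚ (X →L[ℝ] X) := NormedAlgebra.restrictScalars ℚ ℝ _
  have hB : K = n • T - n • 1 := by rw [← h]; abel
  have h1 : sg K t = NormedSpace.exp (t • (n • T)) * NormedSpace.exp ((-(t * n)) • 1) := by
    unfold sg
    rw [← NormedSpace.exp_add_of_commute]
    · congr 1
      rw [hB, smul_sub, smul_smul, smul_smul, sub_eq_add_neg, neg_smul]
    · exact (Commute.one_right _).smul_right _
  have h2 : NormedSpace.exp ((-(t * n)) • (1 : X →L[ℝ] X)) = Real.exp (-(t * n)) • 1 := by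
    have := NormedSpace.algebraMap_exp_comm (𝕂 := ℝ) (𝔸 := X →L[ℝ] X) (-(t * n))
    rw [Algebra.algebraMap_eq_smul_one, Algebra.algebraMap_eq_smul_one, ← Real.exp_eq_exp_ℝ] at this
    exact this.symm
  rw [h1, h2, mul_smul_comm, mul_one, smul_smul]
  rfl

theorem clm_smul_pow {X : Type} [NormedAddCommGroup X] [NormedSpace ℝ X]
    (x : ℝ) (T : X →L[ℝ] X) (n : ℕ) : (x • T) ^ n = x ^ n • T ^ n := smul_pow x T n

variable {d : ℕ}

/-- The lazy averaging operator on bounded functions. -/
noncomputable def opT (d : ℕ) : X1 d →L[ℝ] X1 d := 1 + (Fintype.card (Dir d) : ℝ)⁻¹ • opA d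

theorem opT_apply [NeZero d] (ψ : X1 d) (v : Site d) :
    opT d ψ v = (Fintype.card (Dir d × Bool) : ℝ)⁻¹ *
      (∑ a : Dir d, ψ (v + step a) + Fintype.card (Dir d) * ψ v) := by
  have hc := card_pos (d := d)
  have hcard : (Fintype.card (Dir d × Bool) : ℝ) = 2 * Fintype.card (Dir d) := by
    rw [Fintype.card_prod (Dir d) Bool, Fintype.card_bool]; push_cast; ring
  have e : opT d ψ v = ψ v + (Fintype.card (Dir d) : ℝ)⁻¹ * opA d ψ v := rfl
  rw [e, opA_apply, Finset.sum_sub_distrib, Finset.sum_const, Finset.card_univ, nsmul_eq_mul, hcard]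
  field_simp
  ring

/-- Clipped evaluation at the origin. -/
noncomputable def clip (M : ℝ) (ζ : Site d → ℝ) : ℝ := max (-M) (min M (ζ 0))

theorem clip_meas (M : ℝ) : Measurable (clip (d := d) M) :=
  measurable_const.max (measurable_const.min (measurable_pi_apply 0))

theorem clip_le (M : ℝ) (hM : 0 ≤ M) (ζ : Site d → ℝ) : |clip M ζ| ≤ M := by
  unfold clip
  rw [abs_le]
  exact ⟨le_max_left _ _, max_le (by linarith) (min_le_left _ _)⟩

theorem opT_pow [NeZero d] (η : X1 d) (M : ℝ) (hη : ∀ v, |η v| ≤ M) (n : ℕ) : ∀ v : Site d,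
    (opT d ^ n) η v = (TT tau ^ n) (clip M) (sft v η) := by
  induction n with
  | zero =>
    intro v
    show η v = max (-M) (min M (η (0 + v)))
    rw [zero_add, min_eq_right (abs_le.1 (hη v)).2, max_eq_right (abs_le.1 (hη v)).1]
  | succ n ih =>
    intro v
    have e : (opT d ^ (n + 1)) η = opT d ((opT d ^ n) η) := by rw [pow_succ']; rfl
    rw [e, opT_apply, TT_pow_succ, TT_apply, sum_tau]
    simp only [ih, sft_sft]
    simp only [add_comm v]

theorem sgA_series [NeZero d] (η : X1 d) (v : Site d) (x : ℝ) :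
    HasSum (fun n : ℕ => Real.exp (-x) * (x ^ n / n.factorial * (opT d ^ n) η v))
      (sg (opA d) (x / Fintype.card (Dir d)) η v) := by
  have hc := card_pos (d := d)
  have h1 : opA d + (Fintype.card (Dir d) : ℝ) • 1 = (Fintype.card (Dir d) : ℝ) • opT d := by
    ext φ u
    show opA d φ u + (Fintype.card (Dir d) : ℝ) * φ u = (Fintype.card (Dir d) : ℝ) *
      (φ u + (Fintype.card (Dir d) : ℝ)⁻¹ * opA d φ u)
    field_simp
    ring
  have h2 := sg_shift (opA d) (opT d) _ h1 (x / Fintype.card (Dir d))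
  rw [div_mul_cancel₀ _ hc.ne'] at h2
  rw [h2]
  have h3 := (hasSum_sg (opT d) x η v).mul_left (Real.exp (-x))
  refine h3.congr_fun (fun n => ?_)
  have h4 : (x • opT d) ^ n = x ^ n • opT d ^ n := clm_smul_pow x (opT d) n
  rw [h4]
  show Real.exp (-x) * (x ^ n / n.factorial * (opT d ^ n) η v) =
    Real.exp (-x) * ((n.factorial : ℝ)⁻¹ * (x ^ n * (opT d ^ n) η v))
  rw [div_eq_mul_inv]; ring

variable {Ω : Type} {mΩ : MeasurableSpace Ω}
variable {P : Measure Ω} [IsProbabilityMeasure P] {F : Filtration ℝ mΩ}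
  {N : Edge d → ℝ → Ω → ℕ} {f : ℝ → Ω → Site d → ℝ} {M : ℝ}

/-- The smoothed initial profile converges. -/
theorem YY_converges [NeZero d] (h : Proc P F N f M) (hs : Stationary P (f 0)) :
    ∀ᵐ ω ∂P, ∀ v : Site d, ∃ L, Tendsto (fun t : ℝ => YY f M h.bdd t ω v) atTop (𝓝 L) := by
  have hm : Measurable (f 0) := by
    rw [measurable_pi_iff]; exact fun v => h.meas 0 v le_rfl
  set μ := P.map (f 0) with hμ
  have : IsProbabilityMeasure μ := Measure.isProbabilityMeasure_map hm.aemeasurable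
  have hsh : ∀ x : Site d, MeasurePreserving (sft x) μ μ := by
    intro x
    refine ⟨sft_meas x, ?_⟩
    rw [hμ, Measure.map_map (sft_meas x) hm]
    exact hs x
  have hM := h.M_nonneg
  have h1 := walk_converges hsh (clip M) M (clip_meas M) (clip_le M hM)
  have h2 : ∀ᵐ η ∂μ, ∀ v : Site d, ∃ L, Tendsto (fun n => (TT tau ^ n) (clip M) (sft v η)) atTop
      (𝓝 L) := by
    rw [ae_all_iff]
    intro v
    exact (hsh v).quasiMeasurePreserving.ae h1
  have h3 : ∀ᵐ ω ∂P, ∀ v : Site d, ∃ L, Tendsto (fun n => (TT tau ^ n) (clip M) (sft v (f 0 ω)))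
      atTop (𝓝 L) := ae_of_ae_map hm.aemeasurable h2
  filter_upwards [h3] with ω hω v
  obtain ⟨L, hL⟩ := hω v
  have hbd : ∀ v, |ini f M h.bdd ω v| ≤ M := fun v => h.bdd 0 ω v le_rfl
  have hseq : ∀ n : ℕ, (opT d ^ n) (ini f M h.bdd ω) v = (TT tau ^ n) (clip M) (sft v (f 0 ω)) :=
    fun n => opT_pow (ini f M h.bdd ω) M hbd n v
  have hb : Tendsto (fun n => (opT d ^ n) (ini f M h.bdd ω) v) atTop (𝓝 L) :=
    hL.congr (fun n => (hseq n).symm)
  have : Nonempty (Dir d × Bool) := ⟨((⟨0, Nat.pos_of_ne_zero (NeZero.ne d)⟩, true), true)⟩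
  have hbM : ∀ n, |(opT d ^ n) (ini f M h.bdd ω) v| ≤ M := fun n => by
    rw [hseq]; exact TT_pow_bound tau (clip M) M (clip_le M hM) n _
  have h4 := poisson_avg _ L M hb hbM
    (fun x => sg (opA d) (x / Fintype.card (Dir d)) (ini f M h.bdd ω) v)
    (fun x _ => sgA_series (ini f M h.bdd ω) v x)
  have hc := card_pos (d := d)
  refine ⟨L, ?_⟩
  have h5 : Tendsto (fun t : ℝ => t * Fintype.card (Dir d)) atTop atTop :=
    tendsto_id.atTop_mul_const hc
  refine (h4.comp h5).congr (fun t => ?_)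
  show sg (opA d) (t * Fintype.card (Dir d) / Fintype.card (Dir d)) (ini f M h.bdd ω) v = _
  rw [mul_div_cancel_right₀ _ hc.ne']
  rfl

theorem proc_converges [NeZero d] (h : Proc P F N f M) (hs : Stationary P (f 0)) :
    ∀ᵐ ω ∂P, ∀ v : Site d, ∃ L, Tendsto (fun t : ℝ => f t ω v) atTop (𝓝 L) := by
  have h1 : ∀ᵐ ω ∂P, ∀ v : Site d, Tendsto (fun t : ℝ => gg f M h.bdd t ω v) atTop (𝓝 0) :=
    ae_all_iff.2 (fun v => gg_tendsto h hs v)
  filter_upwards [h1, YY_converges h hs] with ω e1 e2 v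
  obtain ⟨L, hL⟩ := e2 v
  refine ⟨L, ?_⟩
  have h3 := (e1 v).add hL
  rw [zero_add] at h3
  refine h3.congr (fun t => ?_)
  unfold gg; ring

/-- The main theorem. -/
theorem main_theorem [NeZero d] (hN : PoissonClocks P F N) (hf : EdgeAveraging P F N f)
    (hs : Stationary P (f 0)) :
    ∀ᵐ ω ∂P, ∀ v : Site d, ∃ L : ℝ, Tendsto (fun t : ℝ => f t ω v) atTop (𝓝 L) := by
  obtain ⟨M0, hM0⟩ := hf.bounded
  set M := |M0| with hM
  have hMM : M0 ≤ M := le_abs_self _
  have hM' : 0 ≤ M := abs_nonneg _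
  set f' : ℝ → Ω → Site d → ℝ := fun t ω v => max (-M) (min M (f t ω v)) with hf'
  have heq : ∀ᵐ ω ∂P, ∀ t v, 0 ≤ t → f' t ω v = f t ω v := by
    filter_upwards [hM0] with ω hω t v ht
    have h1 := (hω t v ht).trans hMM
    show max (-M) (min M (f t ω v)) = _
    rw [min_eq_right (abs_le.1 h1).2, max_eq_right (abs_le.1 h1).1]
  have hp : Proc P F N f' M := by
    refine ⟨hN, fun t v ht => ?_, fun t ω v ht => ?_, ?_⟩
    · exact measurable_const.max (measurable_const.min (hf.adapted t v ht))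
    · rw [abs_le]
      exact ⟨le_max_left _ _, max_le (by linarith) (min_le_left _ _)⟩
    · filter_upwards [heq, good_ae hN hf] with ω e hg
      refine ⟨hg.mono, hg.right, fun v s t hs hst hh => ?_, fun b t hr x y hx hy => ?_⟩
      · rw [e t v (hs.trans hst), e s v hs]
        exact hg.keep v s t hs hst hh
      · have ht : 0 < t := hr.1
        have hlim : ∀ w z, Tendsto (fun s => f' s ω w) (𝓝[<] t) (𝓝 z) →
            Tendsto (fun s => f s ω w) (𝓝[<] t) (𝓝 z) := by
          intro w z hz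
          refine hz.congr' ?_
          filter_upwards [Ioo_mem_nhdsLT ht] with s hs
          exact e s w hs.1.le
        have := hg.average b t hr x y (hlim _ _ hx) (hlim _ _ hy)
        rw [e t b.1 ht.le, e t (tgt b) ht.le]
        exact this
  have hs' : Stationary P (f' 0) := by
    intro x
    have e1 : P.map (fun ω v => f' 0 ω (v + x)) = P.map (fun ω v => f 0 ω (v + x)) := by
      apply Measure.map_congr
      filter_upwards [heq] with ω e
      funext v
      exact e 0 (v + x) le_rfl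
    have e2 : P.map (f' 0) = P.map (f 0) := by
      apply Measure.map_congr
      filter_upwards [heq] with ω e
      funext v
      exact e 0 v le_rfl
    rw [e1, e2]
    exact hs x
  filter_upwards [heq, proc_converges hp hs'] with ω e hc v
  obtain ⟨L, hL⟩ := hc v
  refine ⟨L, hL.congr' ?_⟩
  filter_upwards [eventually_ge_atTop 0] with t ht
  exact e t v ht

end Pool.Agent.H563R3.EA
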