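import Pool.Agent.Helper878.ERW.Main

set_option autoImplicit false
open MeasureTheory Filter Topology
open scoped ENNReal

namespace Pool.Agent.H563R3.ERW
open Pool.H878.ERW

/-- One step of the walk driven by `u`. -/
noncomputable def stp (w : ℤ → ℕ → ℝ) (u : ℤ × ℕ → ℝ) (s : ℤ × (ℤ → ℕ)) : ℤ × (ℤ → ℕ) :=
  (if u (s.1, s.2 s.1 + 1) < w s.1 (s.2 s.1 + 1) then s.1 + 1 else s.1 - 1,
    Function.update s.2 s.1 (s.2 s.1 + 1))

/-- The walk started in an arbitrary state. -/
noncomputable def run (w : ℤ → ℕ → ℝ) (u : ℤ × ℕ → ℝ) (s : ℤ × (ℤ → ℕ)) : ℕ → ℤ × (ℤ → ℕ)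
  | 0 => s
  | (n + 1) => stp w u (run w u s n)

theorem run_e1st (w : ℤ → ℕ → ℝ) (u : ℤ × ℕ → ℝ) (n : ℕ) :
    e1st w u n = run w u (0, fun _ => 0) n := by
  induction n with
  | zero => rfl
  | succ n ih =>
    show _ = stp w u (run w u (0, fun _ => 0) n)
    rw [← ih]; rfl

theorem run_add (w : ℤ → ℕ → ℝ) (u : ℤ × ℕ → ℝ) (s : ℤ × (ℤ → ℕ)) (m n : ℕ) :
    run w u s (m + n) = run w u (run w u s m) n := by
  induction n with
  | zero => rfl
  | succ n ih =>
    show stp w u (run w u s (m + n)) = stp w u (run w u (run w u s m) n)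
    rw [ih]

theorem stp_near (w : ℤ → ℕ → ℝ) (u : ℤ × ℕ → ℝ) (s : ℤ × (ℤ → ℕ)) :
    (stp w u s).1 = s.1 + 1 ∨ (stp w u s).1 = s.1 - 1 := by
  unfold stp
  dsimp only
  split_ifs
  · exact Or.inl rfl
  · exact Or.inr rfl

/-- Two walks, driven by the same numbers to the right of `x`, whose states agree to the right of
`x`, agree as long as they stay to the right of `x`. -/
theorem agree (w : ℤ → ℕ → ℝ) (u u' : ℤ × ℕ → ℝ) (x : ℤ) (s s' : ℤ × (ℤ → ℕ))
    (hu : ∀ y i, x ≤ y → u (y, i) = u' (y, i)) (h1 : s.1 = s'.1)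
    (h2 : ∀ y, x ≤ y → s.2 y = s'.2 y) (n : ℕ) (h : ∀ j < n, x ≤ (run w u s j).1) :
    (run w u s n).1 = (run w u' s' n).1 ∧
      ∀ y, x ≤ y → (run w u s n).2 y = (run w u' s' n).2 y := by
  induction n with
  | zero => exact ⟨h1, h2⟩
  | succ n ih =>
    obtain ⟨e1, e2⟩ := ih (fun j hj => h j (by omega))
    have hx := h n (by omega)
    have e3 := e2 _ hx
    show (stp w u (run w u s n)).1 = (stp w u' (run w u' s' n)).1 ∧
      ∀ y, x ≤ y → (stp w u (run w u s n)).2 y = (stp w u' (run w u' s' n)).2 y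
    unfold stp
    dsimp only
    rw [← e1, ← e3, hu _ _ hx]
    refine ⟨rfl, fun y hy => ?_⟩
    by_cases hyy : y = (run w u s n).1
    · rw [hyy, Function.update_self, Function.update_self]
    · rw [Function.update_of_ne hyy, Function.update_of_ne hyy]
      exact e2 y hy

/-- The walk only uses the numbers attached to the sites it has visited. -/
theorem local_left (w : ℤ → ℕ → ℝ) (u u' : ℤ × ℕ → ℝ) (x : ℤ) (s : ℤ × (ℤ → ℕ))
    (hu : ∀ y i, y < x → u (y, i) = u' (y, i)) (n : ℕ) (h : ∀ j < n, (run w u s j).1 < x) :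
    run w u s n = run w u' s n := by
  induction n with
  | zero => rfl
  | succ n ih =>
    have e := ih (fun j hj => h j (by omega))
    have hx := h n (by omega)
    show stp w u (run w u s n) = stp w u' (run w u' s n)
    rw [← e]
    unfold stp
    rw [hu _ _ hx]

/-- The walk started at `0` reaches `[x, ∞)`. -/
def Hit (w : ℤ → ℕ → ℝ) (x : ℤ) (u : ℤ × ℕ → ℝ) : Prop := ∃ n, x ≤ (e1st w u n).1

/-- A fresh walk started at `x` stays strictly to the right of `x` after time zero. -/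
def Esc (w : ℤ → ℕ → ℝ) (x : ℤ) (u : ℤ × ℕ → ℝ) : Prop :=
  ∀ n, 1 ≤ n → x + 1 ≤ (run w u (x, fun _ => 0) n).1

/-- The site `z` is visited infinitely often. -/
def Rec (w : ℤ → ℕ → ℝ) (z : ℤ) (u : ℤ × ℕ → ℝ) : Prop := ∃ᶠ n in atTop, (e1st w u n).1 = z

/-- The numbers lie on both sides of `1/2` infinitely often at each site. -/
def Good (u : ℤ × ℕ → ℝ) : Prop :=
  ∀ (z : ℤ) (I : ℕ), (∃ i, I ≤ i ∧ u (z, i) < 1 / 2) ∧ (∃ i, I ≤ i ∧ ¬ u (z, i) < 1 / 2)

theorem hit_congr (w : ℤ → ℕ → ℝ) (x : ℤ) (u u' : ℤ × ℕ → ℝ)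
    (hu : ∀ y i, y < x → u (y, i) = u' (y, i)) (h : Hit w x u) : Hit w x u' := by
  classical
  have hx : x ≤ (e1st w u (Nat.find h)).1 := Nat.find_spec h
  have hm : ∀ j < Nat.find h, (run w u (0, fun _ => 0) j).1 < x := by
    intro j hj
    have := Nat.find_min h hj
    rw [← run_e1st]
    omega
  refine ⟨Nat.find h, ?_⟩
  rw [run_e1st, ← local_left w u u' x _ hu _ hm, ← run_e1st]
  exact hx

theorem esc_congr (w : ℤ → ℕ → ℝ) (x : ℤ) (u u' : ℤ × ℕ → ℝ)
    (hu : ∀ y i, x ≤ y → u (y, i) = u' (y, i)) (h : Esc w x u) : Esc w x u' := by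
  intro n hn
  have h0 : ∀ j < n, x ≤ (run w u (x, fun _ => 0) j).1 := by
    intro j _
    rcases Nat.eq_zero_or_pos j with rfl | hj
    · exact le_rfl
    · have := h j hj
      omega
  rw [← (agree w u u' x _ (x, fun _ => 0) hu rfl (fun _ _ => rfl) n h0).1]
  exact h n hn

/-- After reaching `x` for the first time, the walk may escape. -/
theorem hit_esc (w : ℤ → ℕ → ℝ) (x : ℤ) (hx0 : 1 ≤ x) (u : ℤ × ℕ → ℝ) (h : Hit w x u)
    (he : Esc w x u) : ∃ N, ∀ n, N ≤ n → x + 1 ≤ (e1st w u n).1 := by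
  classical
  set T := Nat.find h with hT
  have hx : x ≤ (e1st w u T).1 := Nat.find_spec h
  have hm : ∀ j < T, (e1st w u j).1 < x := by
    intro j hj
    have := Nat.find_min h hj
    omega
  have hT0 : T ≠ 0 := by
    intro h0
    rw [h0] at hx
    have : (e1st w u 0).1 = 0 := rfl
    omega
  obtain ⟨T', hT'⟩ : ∃ T', T = T' + 1 := ⟨T - 1, by omega⟩
  have hpos : (e1st w u T).1 = x := by
    have h1 := hm T' (by omega)
    have h2 := stp_near w u (run w u (0, fun _ => 0) T')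
    have h3 : stp w u (run w u (0, fun _ => 0) T') = e1st w u T := by
      rw [run_e1st, hT']; rfl
    rw [h3, ← run_e1st] at h2
    omega
  have hcnt : ∀ y, x ≤ y → (e1st w u T).2 y = 0 := by
    intro y hy
    rw [e1st_snd, Finset.card_eq_zero, Finset.filter_eq_empty_iff]
    intro m hm1 hm2
    rw [Finset.mem_range] at hm1
    have := hm m hm1
    omega
  refine ⟨T + 1, fun n hn => ?_⟩
  obtain ⟨k, rfl⟩ : ∃ k, n = T + k := ⟨n - T, by omega⟩
  have hk : 1 ≤ k := by omega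
  rw [run_e1st, run_add, ← run_e1st]
  have h0 : ∀ j < k, x ≤ (run w u (x, fun _ => 0) j).1 := by
    intro j _
    rcases Nat.eq_zero_or_pos j with rfl | hj
    · exact le_rfl
    · have := he j hj
      omega
  rw [← (agree w u u x (x, fun _ => 0) (e1st w u T) (fun _ _ _ => rfl) hpos.symm
    (fun y hy => (hcnt y hy).symm) k h0).1]
  exact he k hk

theorem cnt_succ (w : ℤ → ℕ → ℝ) (u : ℤ × ℕ → ℝ) (z : ℤ) (n : ℕ) :
    (e1st w u (n + 1)).2 z = if (e1st w u n).1 = z then (e1st w u n).2 z + 1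
      else (e1st w u n).2 z := by
  show Function.update (e1st w u n).2 (e1st w u n).1 ((e1st w u n).2 (e1st w u n).1 + 1) z = _
  split_ifs with h
  · rw [h, Function.update_self]
  · rw [Function.update_of_ne (Ne.symm h)]

theorem cnt_mono (w : ℤ → ℕ → ℝ) (u : ℤ × ℕ → ℝ) (z : ℤ) :
    Monotone fun n => (e1st w u n).2 z := by
  refine monotone_nat_of_le_succ fun n => ?_
  rw [cnt_succ]
  split_ifs <;> omega

theorem cnt_unbounded (w : ℤ → ℕ → ℝ) (u : ℤ × ℕ → ℝ) (z : ℤ) (h : Rec w z u) (k : ℕ) :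
    ∃ m, k ≤ (e1st w u m).2 z := by
  induction k with
  | zero => exact ⟨0, Nat.zero_le _⟩
  | succ k ih =>
    obtain ⟨m, hm⟩ := ih
    obtain ⟨n, hn, hz⟩ := (frequently_atTop.1 h) m
    refine ⟨n + 1, ?_⟩
    rw [cnt_succ, if_pos hz]
    have := cnt_mono w u z hn
    dsimp only at this
    omega

/-- The `i`-th visit of a recurrent site takes place, and it takes place late if `i` is large. -/
theorem visit_time (w : ℤ → ℕ → ℝ) (u : ℤ × ℕ → ℝ) (z : ℤ) (h : Rec w z u) (N i : ℕ)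
    (hi : (e1st w u N).2 z < i) : ∃ n, N ≤ n ∧ (e1st w u n).1 = z ∧ (e1st w u n).2 z + 1 = i := by
  classical
  have hex : ∃ m, i ≤ (e1st w u m).2 z := cnt_unbounded w u z h i
  set m := Nat.find hex with hm
  have h1 : i ≤ (e1st w u m).2 z := Nat.find_spec hex
  have hNm : N < m := by
    by_contra hc
    have := cnt_mono w u z (not_lt.1 hc)
    dsimp only at this
    omega
  obtain ⟨n, hn⟩ : ∃ n, m = n + 1 := ⟨m - 1, by omega⟩
  have h2 : ¬ i ≤ (e1st w u n).2 z := Nat.find_min hex (by omega)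
  rw [hn, cnt_succ] at h1
  split_ifs at h1 with hz
  · exact ⟨n, by omega, hz, by omega⟩
  · exact absurd h1 h2

theorem rec_step (w : ℤ → ℕ → ℝ) (hw : ∀ z i, 5 < i → w z i = 1 / 2) (u : ℤ × ℕ → ℝ)
    (hu : Good u) (z : ℤ) (h : Rec w z u) : Rec w (z + 1) u ∧ Rec w (z - 1) u := by
  constructor
  · refine frequently_atTop.2 fun N => ?_
    obtain ⟨i, hi, hi2⟩ := (hu z ((e1st w u N).2 z + 6)).1
    obtain ⟨n, hn, hz, hc⟩ := visit_time w u z h N i (by omega)
    refine ⟨n + 1, by omega, ?_⟩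
    show (if u ((e1st w u n).1, (e1st w u n).2 (e1st w u n).1 + 1) <
      w (e1st w u n).1 ((e1st w u n).2 (e1st w u n).1 + 1) then (e1st w u n).1 + 1
      else (e1st w u n).1 - 1) = z + 1
    rw [hz, hc, hw z i (by omega), if_pos hi2]
  · refine frequently_atTop.2 fun N => ?_
    obtain ⟨i, hi, hi2⟩ := (hu z ((e1st w u N).2 z + 6)).2
    obtain ⟨n, hn, hz, hc⟩ := visit_time w u z h N i (by omega)
    refine ⟨n + 1, by omega, ?_⟩
    show (if u ((e1st w u n).1, (e1st w u n).2 (e1st w u n).1 + 1) <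
      w (e1st w u n).1 ((e1st w u n).2 (e1st w u n).1 + 1) then (e1st w u n).1 + 1
      else (e1st w u n).1 - 1) = z - 1
    rw [hz, hc, hw z i (by omega), if_neg hi2]

theorem rec_all (w : ℤ → ℕ → ℝ) (hw : ∀ z i, 5 < i → w z i = 1 / 2) (u : ℤ × ℕ → ℝ)
    (hu : Good u) (z : ℤ) (h : Rec w z u) (z' : ℤ) : Rec w z' u := by
  have key : ∀ k : ℤ, Rec w (z + k) u := by
    intro k
    induction k using Int.induction_on with
    | zero => simpa using h
    | succ i ih =>
      have := (rec_step w hw u hu _ ih).1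
      rwa [add_assoc] at this
    | pred i ih =>
      have := (rec_step w hw u hu _ ih).2
      rwa [add_sub_assoc] at this
  have := key (z' - z)
  rwa [add_sub_cancel] at this

/-- If the walk reaches `x` and escapes from there then no site is visited infinitely often. -/
theorem not_rec_of_esc (w : ℤ → ℕ → ℝ) (hw : ∀ z i, 5 < i → w z i = 1 / 2) (u : ℤ × ℕ → ℝ)
    (hu : Good u) (x : ℤ) (hx : 1 ≤ x) (h : Hit w x u) (he : Esc w x u) : ¬ Rec w 0 u := by
  intro hr
  obtain ⟨N, hN⟩ := hit_esc w x hx u h he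
  obtain ⟨n, hn, hz⟩ := (frequently_atTop.1 hr) N
  have := hN n hn
  omega

/-- If the walk does not reach `x` then no site is visited infinitely often. -/
theorem not_rec_of_not_hit (w : ℤ → ℕ → ℝ) (hw : ∀ z i, 5 < i → w z i = 1 / 2)
    (u : ℤ × ℕ → ℝ) (hu : Good u) (x : ℤ) (h : ¬ Hit w x u) : ¬ Rec w 0 u := by
  intro hr
  obtain ⟨n, hn⟩ := (rec_all w hw u hu 0 hr x).exists
  exact h ⟨n, hn.ge⟩

/-- If no site is visited infinitely often then the walk tends to infinity. -/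
theorem tendsto_of_not_rec (w : ℤ → ℕ → ℝ) (hw : ∀ z i, 5 < i → w z i = 1 / 2)
    (u : ℤ × ℕ → ℝ) (hu : Good u) (h : ¬ Rec w 0 u) :
    Tendsto (fun n => |(e1st w u n).1|) atTop atTop := by
  have h1 : ∀ z, ∀ᶠ n in atTop, (e1st w u n).1 ≠ z := by
    intro z
    have : ¬ Rec w z u := fun hz => h (rec_all w hw u hu z hz 0)
    exact not_frequently.1 this
  refine tendsto_atTop.2 fun M => ?_
  have h2 : ∀ᶠ n in atTop, ∀ z ∈ Finset.Icc (-M) M, (e1st w u n).1 ≠ z :=
    (Filter.eventually_all_finset _).2 fun z _ => h1 z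
  filter_upwards [h2] with n hn
  by_contra hc
  push Not at hc
  rw [abs_lt] at hc
  exact hn _ (Finset.mem_Icc.2 ⟨by omega, by omega⟩) rfl

end Pool.Agent.H563R3.ERW
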