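import Pool.Agent.H563R3.ERWLevy

set_option autoImplicit false
set_option linter.unusedVariables false
open MeasureTheory ProbabilityTheory Filter Topology
open scoped ENNReal

namespace Pool.Agent.H563R3.ERW
open Pool.H878.ERW

/-- Explicit version of `partE1`. -/
theorem partE1' {Ω : Type} [MeasurableSpace Ω] (μ : Measure Ω) [IsProbabilityMeasure μ]
    (e : Ω → ℤ → ℕ → ℝ) (he : Measurable e) (h01 : ∀ w x i, e w x i ∈ Set.Icc (0:ℝ) 1) :
    (∀ n, Measurable (fun z : Ω × (ℤ × ℕ → ℝ) => (e1st (e z.1) z.2 n).1)) ∧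
      IsERW (μ.prod e1nu) (fun w => e w.1) (fun n z => (e1st (e z.1) z.2 n).1) := by
  classical
  refine ⟨?_, ⟨?_⟩⟩
  · intro n
    apply measurable_to_countable'
    intro k
    have h : (fun z : Ω × (ℤ × ℕ → ℝ) => (e1st (e z.1) z.2 n).1) ⁻¹' {k} =
        ⋃ (q : Fin (n + 1) → ℤ) (_ : q (Fin.last n) = k),
          {z : Ω × (ℤ × ℕ → ℝ) | ∀ j ≤ n, (e1st (e z.1) z.2 j).1 =
            (fun j => if h : j < n + 1 then q ⟨j, h⟩ else 0) j} := by
      ext z
      simp only [Set.mem_preimage, Set.mem_singleton_iff, Set.mem_iUnion, Set.mem_ofPred_eq,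
        exists_prop]
      constructor
      · intro hz
        refine ⟨fun j => (e1st (e z.1) z.2 j).1, hz, ?_⟩
        intro j hj
        rw [dif_pos (by omega)]
      · rintro ⟨q, hq, h⟩
        rw [h n le_rfl, dif_pos (by omega), ← hq]
        rfl
    rw [h]
    exact MeasurableSet.iUnion fun q => MeasurableSet.iUnion fun _ => e1E_meas e he _ n
  · intro n p A hA
    have hset : MeasurableSet {z : Ω × (ℤ × ℕ → ℝ) | e z.1 ∈ A ∧
        ∀ j, j ≤ n → (e1st (e z.1) z.2 j).1 = p j} :=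
      ((he.comp measurable_fst) hA).inter (e1E_meas e he p n)
    have hA' : MeasurableSet {z : Ω × (ℤ × ℕ → ℝ) | e z.1 ∈ A} := (he.comp measurable_fst) hA
    show (μ.prod e1nu) {z : Ω × (ℤ × ℕ → ℝ) | e z.1 ∈ A ∧
        ∀ j, j ≤ n → (e1st (e z.1) z.2 j).1 = p j} = _
    rw [Measure.prod_apply hset]
    by_cases hp : p 0 = 0
    · rw [if_pos hp]
      have hstep : Measurable (fun ω : Ω => ∏ j ∈ Finset.range n,
          ENNReal.ofReal (stepProb (e ω) p j)) := by
        apply Finset.measurable_prod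
        intro j _
        apply ENNReal.measurable_ofReal.comp
        have hw : Measurable (fun ω => e ω (p j) (visits p j)) :=
          (measurable_pi_apply _).comp ((measurable_pi_apply _).comp he)
        unfold stepProb
        by_cases h1 : p (j + 1) = p j + 1
        · simp only [if_pos h1]; exact hw
        · by_cases h2 : p (j + 1) = p j - 1
          · simp only [if_neg h1, if_pos h2]; exact measurable_const.sub hw
          · simp only [if_neg h1, if_neg h2]; exact measurable_const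
      have hm : Measurable ({z : Ω × (ℤ × ℕ → ℝ) | e z.1 ∈ A}.indicator
          (fun z : Ω × (ℤ × ℕ → ℝ) => ∏ j ∈ Finset.range n,
            ENNReal.ofReal (stepProb (e z.1) p j))) :=
        (hstep.comp measurable_fst).indicator hA'
      have hR : ∫⁻ w in {w : Ω × (ℤ × ℕ → ℝ) | e w.1 ∈ A}, ∏ j ∈ Finset.range n,
          ENNReal.ofReal (stepProb (e w.1) p j) ∂(μ.prod e1nu) =
          ∫⁻ ω, ∫⁻ u, ({z : Ω × (ℤ × ℕ → ℝ) | e z.1 ∈ A}.indicator
          (fun z : Ω × (ℤ × ℕ → ℝ) => ∏ j ∈ Finset.range n,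
            ENNReal.ofReal (stepProb (e z.1) p j))) (ω, u) ∂e1nu ∂μ := by
        rw [← lintegral_indicator hA', lintegral_prod _ hm.aemeasurable]
      rw [hR]
      apply lintegral_congr
      intro ω
      by_cases hω : e ω ∈ A
      · have e1 : (Prod.mk ω ⁻¹' {z : Ω × (ℤ × ℕ → ℝ) | e z.1 ∈ A ∧
            ∀ j, j ≤ n → (e1st (e z.1) z.2 j).1 = p j}) =
            {u | ∀ j < n, u (p j, visits p j) ∈ e1B (e ω) p j} := by
          ext u
          simp only [Set.mem_preimage, Set.mem_ofPred_eq]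
          rw [e1event]
          simp [hω, hp]
        rw [e1, e1inner (h01 ω)]
        have e2 : ∀ u : ℤ × ℕ → ℝ, ({z : Ω × (ℤ × ℕ → ℝ) | e z.1 ∈ A}.indicator
            (fun z : Ω × (ℤ × ℕ → ℝ) => ∏ j ∈ Finset.range n,
              ENNReal.ofReal (stepProb (e z.1) p j)) (ω, u)) =
            ∏ j ∈ Finset.range n, ENNReal.ofReal (stepProb (e ω) p j) := by
          intro u
          rw [Set.indicator_of_mem]
          exact hω
        rw [lintegral_congr e2]
        simp
      · have e1 : (Prod.mk ω ⁻¹' {z : Ω × (ℤ × ℕ → ℝ) | e z.1 ∈ A ∧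
            ∀ j, j ≤ n → (e1st (e z.1) z.2 j).1 = p j}) = ∅ := by
          ext u
          simp [hω]
        have e2 : ∀ u : ℤ × ℕ → ℝ, ({z : Ω × (ℤ × ℕ → ℝ) | e z.1 ∈ A}.indicator
            (fun z : Ω × (ℤ × ℕ → ℝ) => ∏ j ∈ Finset.range n,
              ENNReal.ofReal (stepProb (e z.1) p j)) (ω, u)) = 0 := by
          intro u
          rw [Set.indicator_of_notMem]
          exact hω
        rw [e1, lintegral_congr e2]
        simp
    · rw [if_neg hp]
      have e1 : ∀ ω, e1nu (Prod.mk ω ⁻¹' {z : Ω × (ℤ × ℕ → ℝ) | e z.1 ∈ A ∧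
            ∀ j, j ≤ n → (e1st (e z.1) z.2 j).1 = p j}) = 0 := by
        intro ω
        have : (Prod.mk ω ⁻¹' {z : Ω × (ℤ × ℕ → ℝ) | e z.1 ∈ A ∧
            ∀ j, j ≤ n → (e1st (e z.1) z.2 j).1 = p j}) = ∅ := by
          ext u
          simp only [Set.mem_preimage, Set.mem_ofPred_eq, Set.mem_empty_iff_false, iff_false]
          rintro ⟨-, h⟩
          exact hp ((e1event _ _ _ _).mp h).1
        rw [this]; simp
      rw [lintegral_congr e1]
      simp


/-- A uniform lower bound for the probability that a fresh walk escapes. -/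
theorem esc_lower (w : ℤ → ℕ → ℝ) (h01 : ∀ x i, w x i ∈ Set.Icc (0:ℝ) 1) (c : ℝ) (K : ℕ)
    (h : ∀ m, c ≤ stay w (K + m) 0 (fun _ => 0)) (hc0 : 0 < c) :
    c ≤ (e1nu {u : Dr | ∀ n, 1 ≤ n → 1 ≤ (e1st w u n).1}).toReal := by
  obtain ⟨hX, hlaw⟩ := partE1' (Measure.dirac ()) (fun _ => w) measurable_const (fun _ => h01)
  have hmeas : ∀ n, MeasurableSet {u : Dr | ∀ j, 1 ≤ j → j ≤ n → 1 ≤ (e1st w u j).1} := by
    intro n
    have : {u : Dr | ∀ j, 1 ≤ j → j ≤ n → 1 ≤ (e1st w u j).1} =
        ⋂ j : ℕ, ⋂ _ : 1 ≤ j, ⋂ _ : j ≤ n, {u : Dr | 1 ≤ (e1st w u j).1} := by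
      ext w; simp
    rw [this]
    exact MeasurableSet.iInter fun j => MeasurableSet.iInter fun _ => MeasurableSet.iInter fun _ =>
      measurableSet_le measurable_const (pos_meas w j)
  have hlow : ∀ n, ENNReal.ofReal c ≤
      e1nu {u : Dr | ∀ j, 1 ≤ j → j ≤ n → 1 ≤ (e1st w u j).1} := by
    intro n
    have h1 := partE2 ((Measure.dirac ()).prod e1nu) (fun _ => w)
      (fun n z => (e1st w z.2 n).1) measurable_const hX (fun _ => h01) hlaw (K + n)
    rw [lintegral_const, measure_univ, mul_one] at h1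
    have h2 : ((Measure.dirac ()).prod e1nu : Measure (Unit × Dr)) =
        e1nu.map (fun u => ((), u)) := Measure.dirac_prod ()
    have hm2 : MeasurableSet {z : Unit × Dr | ∀ j, 1 ≤ j → j ≤ K + n → 1 ≤ (e1st w z.2 j).1} :=
      measurable_snd (hmeas (K + n))
    rw [h2, Measure.map_apply (measurable_prodMk_left) hm2] at h1
    refine (ENNReal.ofReal_le_ofReal (h n)).trans (h1.trans (measure_mono ?_))
    intro u hu j hj1 hj2
    exact hu j hj1 (by omega)
  have hset : {u : Dr | ∀ n, 1 ≤ n → 1 ≤ (e1st w u n).1} =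
      ⋂ n : ℕ, {u : Dr | ∀ j, 1 ≤ j → j ≤ n → 1 ≤ (e1st w u j).1} := by
    ext w
    simp only [Set.mem_ofPred_eq, Set.mem_iInter]
    exact ⟨fun h n j hj _ => h j hj, fun h n hn => h n n hn le_rfl⟩
  have hanti : Antitone fun n : ℕ => {u : Dr | ∀ j, 1 ≤ j → j ≤ n → 1 ≤ (e1st w u j).1} := by
    intro a b hab w hw j hj1 hj2
    exact hw j hj1 (hj2.trans hab)
  rw [hset]
  have hlim := tendsto_measure_iInter_atTop (μ := e1nu)
    (fun n => (hmeas n).nullMeasurableSet) hanti ⟨0, measure_ne_top _ _⟩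
  have h5 := ge_of_tendsto' hlim hlow
  rwa [ENNReal.ofReal_le_iff_le_toReal (measure_ne_top _ _)] at h5

attribute [local irreducible] DD NN LL cexp fz

theorem main' : ∃ (Ω : Type) (_ : MeasurableSpace Ω) (μ : Measure Ω) (_ : IsProbabilityMeasure μ)
    (env : Ω → ℤ → ℕ → ℝ) (X : ℕ → Ω → ℤ),
    Measurable env ∧ (∀ n, Measurable (X n)) ∧ (∀ w z i, env w z i ∈ Set.Icc (0:ℝ) 1) ∧
    IsERW μ env X ∧
    Ergodic (fun (e : ℤ → ℕ → ℝ) (z : ℤ) => e (z + 1)) (μ.map env) ∧
    (∃ M : ℕ, ∀ᵐ w ∂μ, ∀ z i, M < i → env w z i = 1 / 2) ∧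
    (∀ z, 0 < μ {w | ∀ i, 1 ≤ i → 0 < env w z i}) ∧
    (∀ z, 0 < μ {w | ∀ i, 1 ≤ i → env w z i < 1}) ∧
    (∫ w, (∑' i : ℕ, (2 * env w 0 (i + 1) - 1)) ∂μ = 1) ∧
    (∀ᵐ w ∂μ, Tendsto (fun n => |X n w|) atTop atTop) := by
  obtain ⟨Ω, mΩ, μ, hμ, T, r, hT, hm, hs, hlt, hsucc, hc, hu⟩ := partC
  obtain ⟨hcons, hint, hpos⟩ := partD μ T r hT.toMeasurePreserving hm hs hlt hsucc hc hu
  obtain ⟨p, hsum, hp0, hp⟩ := partB
  have hem : Measurable (fun w => ev (r w)) := ev_measurable r hm
  have h01 : ∀ w x i, ev (r w) x i ∈ Set.Icc (0:ℝ) 1 := fun w x i => om_mem _ _ _ _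
  obtain ⟨hX, hlaw⟩ := partE1' μ (fun w => ev (r w)) hem h01
  have hfst : (μ.prod e1nu).map Prod.fst = μ := by
    rw [Measure.map_fst_prod]; simp
  have hmf : MeasurePreserving (Prod.fst : Ω × Dr → Ω) (μ.prod e1nu) μ := ⟨measurable_fst, hfst⟩
  have hmeasD : ∀ x : ℤ, Measurable (fun w => DD (fun j => r w j x)) := by
    intro x
    have h0 : Measurable (fun w => (fun j => r w j x)) := measurable_pi_iff.2 fun j => hm j x
    exact Measurable.comp (g := fun s : ℕ → ℕ => DD s) (f := fun w => (fun j => r w j x))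
      DD_measurable h0
  -- the type at every site is neutral with positive probability
  have hneu : ∀ z : ℤ, 0 < μ {w | DD (fun j => r w j z) = 0} := by
    have hstep : ∀ z : ℤ, μ {w | DD (fun j => r w j (z + 1)) = 0} =
        μ {w | DD (fun j => r w j z) = 0} := by
      intro z
      have hms : MeasurableSet {w | DD (fun j => r w j z) = 0} :=
        (hmeasD z) (measurableSet_singleton 0)
      rw [← hT.toMeasurePreserving.measure_preimage hms.nullMeasurableSet]
      congr 1
      ext w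
      simp only [Set.mem_preimage, Set.mem_ofPred_eq, hs]
    intro z
    induction z using Int.induction_on with
    | zero => exact hpos
    | succ i ih => rw [hstep]; exact ih
    | pred i ih =>
      have := hstep (-(i:ℤ) - 1)
      rw [show -(i:ℤ) - 1 + 1 = -(i:ℤ) by ring] at this
      rw [← this]; exact ih
  refine ⟨Ω × Dr, inferInstance, μ.prod e1nu, inferInstance, fun w => ev (r w.1),
    fun n z => (e1st (ev (r z.1)) z.2 n).1,
    hem.comp measurable_fst, hX, fun w x i => h01 w.1 x i, hlaw, ?_, ?_, ?_, ?_, ?_, ?_⟩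
  · -- ergodicity
    have h1 : (μ.prod e1nu).map (fun w : Ω × Dr => ev (r w.1)) = μ.map (fun w => ev (r w)) := by
      have h2 : (fun w : Ω × Dr => ev (r w.1)) = (fun w => ev (r w)) ∘ Prod.fst := rfl
      rw [h2, ← Measure.map_map hem measurable_fst, hfst]
    rw [h1]
    refine ergodic_map μ T hT _ hem fun w => ?_
    funext z
    funext i
    simp only [ev_eq, hs]
  · exact ⟨5, Filter.Eventually.of_forall fun w z i hi => ck_bd _ (DD_val _) i hi⟩
  · intro z
    have h1 : (Prod.fst : Ω × Dr → Ω) ⁻¹' {w | DD (fun j => r w j z) = 0} ⊆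
        {w : Ω × Dr | ∀ i, 1 ≤ i → 0 < ev (r w.1) z i} := by
      intro w hw i _
      have hw' : DD (fun j => r w.1 j z) = 0 := hw
      rw [ev_eq, hw', ck_zero]; norm_num
    refine lt_of_lt_of_le ?_ (measure_mono h1)
    have h2 : MeasurableSet {w | DD (fun j => r w j z) = 0} :=
      (hmeasD z) (measurableSet_singleton 0)
    rw [hmf.measure_preimage h2.nullMeasurableSet]
    exact hneu z
  · intro z
    have h1 : (Prod.fst : Ω × Dr → Ω) ⁻¹' {w | DD (fun j => r w j z) = 0} ⊆
        {w : Ω × Dr | ∀ i, 1 ≤ i → ev (r w.1) z i < 1} := by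
      intro w hw i _
      have hw' : DD (fun j => r w.1 j z) = 0 := hw
      rw [ev_eq, hw', ck_zero]; norm_num
    refine lt_of_lt_of_le ?_ (measure_mono h1)
    have h2 : MeasurableSet {w | DD (fun j => r w j z) = 0} :=
      (hmeasD z) (measurableSet_singleton 0)
    rw [hmf.measure_preimage h2.nullMeasurableSet]
    exact hneu z
  · -- mean drift
    have h1 : (fun w : Ω × Dr => ∑' i : ℕ, (2 * ev (r w.1) 0 (i + 1) - 1)) =
        fun w : Ω × Dr => ((DD (fun j => r w.1 j 0) : ℤ) : ℝ) := by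
      funext w
      simp only [ev_eq]
      exact ck_sum _ (DD_val _)
    rw [h1]
    have hmr : Measurable (fun w => ((DD (fun j => r w j 0) : ℤ) : ℝ)) :=
      Measurable.comp (g := fun d : ℤ => (d : ℝ)) (f := fun w => DD (fun j => r w j 0))
        (measurable_of_countable _) (hmeasD 0)
    have h2 := integral_map (μ := μ.prod e1nu) (φ := Prod.fst) measurable_fst.aemeasurable
      (f := fun w => ((DD (fun j => r w j 0) : ℤ) : ℝ))
      (by rw [hfst]; exact hmr.aestronglyMeasurable)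
    rw [hfst] at h2
    rw [← h2]
    exact hint
  · -- transience
    obtain ⟨K, hK1, hK⟩ : ∃ K, 1 ≤ K ∧ ∀ m, ∑ N ∈ Finset.Icc K (K + m), p N ≤ 1 / 2 := by
      have h1 := tendsto_sum_nat_add p
      have h2 : ∀ᶠ i in atTop, ∑' k, p (k + i) < 1 / 2 :=
        h1.eventually (gt_mem_nhds (by norm_num))
      obtain ⟨K, hK1, hK2⟩ := (h2.and (eventually_ge_atTop 1)).exists
      refine ⟨K, hK2, fun m => ?_⟩
      have h3 : Summable fun k => p (k + K) := (summable_nat_add_iff K).2 hsum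
      have h4 : ∑ N ∈ Finset.Icc K (K + m), p N = ∑ k ∈ Finset.range (m + 1), p (k + K) := by
        rw [Finset.range_eq_Ico, Finset.sum_Ico_add' (fun k => p k) 0 (m + 1) K]
        congr 1
        ext x
        simp only [Finset.mem_Icc, Finset.mem_Ico]
        omega
      rw [h4]
      exact (h3.sum_le_tsum _ (fun i _ => hp0 _)).trans hK1.le
    set c : ℝ := (1 / 2) ^ K * (1 / 2) with hcdef
    have hc0 : 0 < c := by positivity
    have hstay : ∀ r' : ℕ → ℤ → ℕ, Cons r' → ∀ m, c ≤ stay (ev r') (K + m) 0 (fun _ => 0) := by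
      intro r' hr' m
      have h2 := partA (fun x => ca (DD fun j => r' j x)) (fun x => cb (DD fun j => r' j x))
        (fun y hy => ca_cb _ (DD_val _) hy) p hp0 K hK1
        (fun N hN => hp r' hr' N (hK1.trans hN)) m
      refine le_trans ?_ h2
      rw [hcdef]
      have := hK m
      have h5 : (0:ℝ) < (1 / 2) ^ K := by positivity
      nlinarith
    have hq : ∀ᵐ w ∂μ, ∀ᵐ u ∂e1nu,
        Tendsto (fun n => |(e1st (ev (r w)) u n).1|) atTop atTop := by
      filter_upwards [hcons] with w hw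
      refine quenched (ev (r w)) (fun z i hi => ck_bd _ (DD_val _) i hi) c hc0 (fun x => ?_)
      rw [esc_prob]
      have e : shw (ev (r w)) x = ev (fun j y => r w j (x + y)) := rfl
      rw [e]
      refine esc_lower _ (fun x i => om_mem _ _ _ _) c K (hstay _ ?_) hc0
      refine ⟨fun j y => hw.lt j (x + y), fun j y => ?_, fun j y => hw.compat j (x + y),
        fun y => hw.fin (x + y)⟩
      have := hw.succ j (x + y)
      rw [← add_assoc]
      exact this
    refine (Measure.ae_prod_iff_ae_ae ?_).2 hq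
    have : {z : Ω × Dr | Tendsto (fun n => |(e1st (ev (r z.1)) z.2 n).1|) atTop atTop} =
        ⋂ M : ℤ, ⋃ N : ℕ, ⋂ n : ℕ, ⋂ _ : N ≤ n, {z : Ω × Dr | M ≤ |(e1st (ev (r z.1)) z.2 n).1|} := by
      ext z
      simp only [Set.mem_ofPred_eq, Set.mem_iInter, Set.mem_iUnion]
      rw [tendsto_atTop]
      simp only [eventually_atTop]
    rw [this]
    refine MeasurableSet.iInter fun M => MeasurableSet.iUnion fun N => MeasurableSet.iInter fun n =>
      MeasurableSet.iInter fun _ => ?_
    have h3 : Measurable (fun z : Ω × Dr => |(e1st (ev (r z.1)) z.2 n).1|) :=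
      (measurable_of_countable (fun k : ℤ => |k|)).comp (hX n)
    exact measurableSet_le measurable_const h3


end Pool.Agent.H563R3.ERW
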