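import Pool.Agent.H563R3.ERWProb

set_option autoImplicit false
open MeasureTheory ProbabilityTheory Filter Topology
open scoped ENNReal

namespace Pool.Agent.H563R3.ERW
open Pool.H878.ERW

/-- The information to the left of `n`. -/
noncomputable def Fl : Filtration ℕ (MeasurableSpace.pi : MeasurableSpace Dr) where
  seq n := mS {p | p.1 < (n : ℤ)}
  mono' := fun m n h => mS_mono (fun p hp => lt_of_lt_of_le (show p.1 < (m : ℤ) from hp)
    (by exact_mod_cast h))
  le' := fun n => mS_le _

theorem iSup_Fl : ⨆ n, Fl n = (MeasurableSpace.pi : MeasurableSpace Dr) := by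
  refine le_antisymm (iSup_le fun n => Fl.le n) ?_
  show (⨆ p : ℤ × ℕ, MeasurableSpace.comap (fun u : Dr => u p) inferInstance) ≤ _
  refine iSup_le fun p => ?_
  have hp : p ∈ {q : ℤ × ℕ | q.1 < ((p.1.toNat + 1 : ℕ) : ℤ)} := by
    show p.1 < ((p.1.toNat + 1 : ℕ) : ℤ)
    have := Int.self_le_toNat p.1
    push_cast
    omega
  refine le_trans ?_ (le_iSup (fun n => Fl n) (p.1.toNat + 1))
  exact le_iSup₂ (f := fun q (_ : q ∈ {q : ℤ × ℕ | q.1 < ((p.1.toNat + 1 : ℕ) : ℤ)}) =>
    MeasurableSpace.comap (fun u : Dr => u q) inferInstance) p hp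

/-- The conditional probability of transience given the information to the left of a level which is
reached is at least the probability to escape from this level. -/
theorem cond_lower (w : ℤ → ℕ → ℝ) (hw : ∀ z i, 5 < i → w z i = 1 / 2) (c : ℝ)
    (hc : ∀ x : ℤ, c ≤ (e1nu {u : Dr | Esc w x u}).toReal) (n : ℕ) (hn : 1 ≤ n) :
    ∀ᵐ u ∂e1nu, Hit w n u →
      c ≤ (e1nu[Set.indicator {u : Dr | ¬ Rec w 0 u} (fun _ => (1 : ℝ)) | Fl n]) u := by
  set A : Set Dr := {u : Dr | ¬ Rec w 0 u} with hA
  set E : Set Dr := {u : Dr | Esc w n u} with hE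
  set H : Set Dr := {u : Dr | Hit w n u} with hH
  have hAm : MeasurableSet A := (rec_measSet w 0).compl
  have hEm : MeasurableSet E := esc_measSet w n
  have hHm : MeasurableSet[Fl n] H := hit_meas w n
  have iA : Integrable (A.indicator (fun _ => (1 : ℝ))) e1nu :=
    (integrable_const (1 : ℝ)).indicator hAm
  have iE : Integrable (E.indicator (fun _ => (1 : ℝ))) e1nu :=
    (integrable_const (1 : ℝ)).indicator hEm
  have h1 : H.indicator (E.indicator (fun _ => (1 : ℝ))) ≤ᵐ[e1nu]
      A.indicator (fun _ => (1 : ℝ)) := by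
    filter_upwards [good_ae] with u hu
    by_cases hu1 : u ∈ H
    · rw [Set.indicator_of_mem hu1]
      by_cases hu2 : u ∈ E
      · have : u ∈ A := not_rec_of_esc w hw u hu n (by exact_mod_cast hn) hu1 hu2
        rw [Set.indicator_of_mem hu2, Set.indicator_of_mem this]
      · rw [Set.indicator_of_notMem hu2]
        exact Set.indicator_nonneg (fun _ _ => zero_le_one) u
    · rw [Set.indicator_of_notMem hu1]
      exact Set.indicator_nonneg (fun _ _ => zero_le_one) u
  have h2 := condExp_mono (m := Fl n) (iE.indicator (Fl.le n _ hHm)) iA h1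
  have h3 := condExp_indicator (m := Fl n) iE hHm
  have hind : Indep (mS {p | (n : ℤ) ≤ p.1}) (Fl n) e1nu := by
    refine indep_mS ?_
    rw [Set.disjoint_left]
    intro p hp hp'
    exact absurd (show p.1 < (n : ℤ) from hp') (not_lt.2 hp)
  have hsm : StronglyMeasurable[mS {p | (n : ℤ) ≤ p.1}] (E.indicator (fun _ => (1 : ℝ))) :=
    (stronglyMeasurable_const (b := (1 : ℝ))).indicator (esc_meas w n)
  have h4 := condExp_indep_eq (mS_le _) (Fl.le n) hsm hind
  have h5 : ∫ u, E.indicator (fun _ => (1 : ℝ)) u ∂e1nu = (e1nu E).toReal := by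
    rw [integral_indicator hEm]
    simp [Measure.real]
  filter_upwards [h2, h3, h4] with u g2 g3 g4 hu
  rw [g3] at g2
  have hu1 : u ∈ H := hu
  rw [Set.indicator_of_mem hu1, g4, h5] at g2
  exact (hc n).trans g2

/-- Quenched transience. -/
theorem quenched (w : ℤ → ℕ → ℝ) (hw : ∀ z i, 5 < i → w z i = 1 / 2) (c : ℝ) (hc0 : 0 < c)
    (hc : ∀ x : ℤ, c ≤ (e1nu {u : Dr | Esc w x u}).toReal) :
    ∀ᵐ u ∂e1nu, Tendsto (fun n => |(e1st w u n).1|) atTop atTop := by
  set A : Set Dr := {u : Dr | ¬ Rec w 0 u} with hA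
  have hAm : MeasurableSet A := (rec_measSet w 0).compl
  have iA : Integrable (A.indicator (fun _ => (1 : ℝ))) e1nu :=
    (integrable_const (1 : ℝ)).indicator hAm
  have hsm : StronglyMeasurable[⨆ n, Fl n] (A.indicator (fun _ => (1 : ℝ))) := by
    rw [iSup_Fl]
    exact (stronglyMeasurable_const (b := (1 : ℝ))).indicator hAm
  have h1 := iA.tendsto_ae_condExp (ℱ := Fl) hsm
  have h2 : ∀ᵐ u ∂e1nu, ∀ n : ℕ, 1 ≤ n → Hit w n u →
      c ≤ (e1nu[A.indicator (fun _ => (1 : ℝ)) | Fl n]) u := by
    rw [ae_all_iff]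
    intro n
    by_cases hn : 1 ≤ n
    · filter_upwards [cond_lower w hw c hc n hn] with u hu _ using hu
    · exact Eventually.of_forall fun u h => absurd h hn
  filter_upwards [h1, h2, good_ae] with u g1 g2 g3
  refine tendsto_of_not_rec w hw u g3 ?_
  by_cases hall : ∀ n : ℕ, 1 ≤ n → Hit w n u
  · have h3 : c ≤ A.indicator (fun _ => (1 : ℝ)) u := by
      refine ge_of_tendsto g1 ?_
      filter_upwards [eventually_ge_atTop 1] with n hn
      exact g2 n hn (hall n hn)
    by_contra hr
    have : u ∉ A := fun h => h hr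
    rw [Set.indicator_of_notMem this] at h3
    linarith
  · push Not at hall
    obtain ⟨n, _, hn⟩ := hall
    exact not_rec_of_not_hit w hw u g3 n hn

end Pool.Agent.H563R3.ERW
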