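import Pool.Agent.H563R3.ERWDet

set_option autoImplicit false
open MeasureTheory ProbabilityTheory Filter Topology
open scoped ENNReal

namespace Pool.Agent.H563R3.ERW
open Pool.H878.ERW

abbrev Dr := ℤ × ℕ → ℝ

/-- The information carried by the coordinates in `S`. -/
@[instance_reducible] def mS (S : Set (ℤ × ℕ)) : MeasurableSpace Dr :=
  ⨆ p ∈ S, MeasurableSpace.comap (fun u : Dr => u p) inferInstance

theorem mS_le (S : Set (ℤ × ℕ)) : mS S ≤ MeasurableSpace.pi :=
  iSup₂_le fun p _ => (measurable_pi_apply p).comap_le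

theorem mS_mono {S T : Set (ℤ × ℕ)} (h : S ⊆ T) : mS S ≤ mS T :=
  biSup_mono h

theorem iindep_coord :
    iIndep (fun p : ℤ × ℕ => MeasurableSpace.comap (fun u : Dr => u p) inferInstance) e1nu := by
  have h := iIndepFun_infinitePi (P := fun _ : ℤ × ℕ => e1U) (X := fun _ (t : ℝ) => t)
    (fun _ => measurable_id)
  exact h

theorem indep_mS {S T : Set (ℤ × ℕ)} (h : Disjoint S T) : Indep (mS S) (mS T) e1nu :=
  indep_iSup_of_disjoint (fun p => (measurable_pi_apply p).comap_le) iindep_coord h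

open Classical in
/-- Keep the coordinates in `S`. -/
noncomputable def ret (S : Set (ℤ × ℕ)) (u : Dr) : Dr := fun p => if p ∈ S then u p else 0

theorem ret_meas (S : Set (ℤ × ℕ)) : @Measurable Dr Dr (mS S) MeasurableSpace.pi (ret S) := by
  refine @measurable_pi_iff _ _ _ (mS S) _ _ |>.2 fun p => ?_
  by_cases hp : p ∈ S
  · have e : (fun u : Dr => ret S u p) = fun u => u p := by
      funext u; simp [ret, hp]
    rw [e]
    exact (comap_measurable (fun u : Dr => u p)).mono (le_iSup₂ (f := fun q (_ : q ∈ S) =>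
      MeasurableSpace.comap (fun u : Dr => u q) inferInstance) p hp) le_rfl
  · have e : (fun u : Dr => ret S u p) = fun _ => 0 := by
      funext u; simp [ret, hp]
    rw [e]
    exact measurable_const

/-- The positions are measurable functions of the driving numbers. -/
theorem pos_meas (w : ℤ → ℕ → ℝ) (n : ℕ) : Measurable (fun u : Dr => (e1st w u n).1) := by
  apply measurable_to_countable'
  intro k
  have h : (fun u : Dr => (e1st w u n).1) ⁻¹' {k} =
      ⋃ (q : Fin (n + 1) → ℤ) (_ : q (Fin.last n) = k),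
        {u : Dr | ∀ j ≤ n, (e1st w u j).1 =
          (fun j => if h : j < n + 1 then q ⟨j, h⟩ else 0) j} := by
    ext z
    simp only [Set.mem_preimage, Set.mem_singleton_iff, Set.mem_iUnion, Set.mem_ofPred_eq,
      exists_prop]
    constructor
    · intro hz
      refine ⟨fun j => (e1st w z j).1, hz, ?_⟩
      intro j hj
      rw [dif_pos (by omega)]
    · rintro ⟨q, hq, h⟩
      rw [h n le_rfl, dif_pos (by omega), ← hq]
      rfl
  rw [h]
  refine MeasurableSet.iUnion fun q => MeasurableSet.iUnion fun _ => ?_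
  have h1 := e1E_meas (Ω := Unit) (fun _ => w) measurable_const
    (fun j => if h : j < n + 1 then q ⟨j, h⟩ else 0) n
  exact (measurable_prodMk_left (x := ())) h1

theorem hit_measSet (w : ℤ → ℕ → ℝ) (x : ℤ) : MeasurableSet {u : Dr | Hit w x u} := by
  have : {u : Dr | Hit w x u} = ⋃ n, {u : Dr | x ≤ (e1st w u n).1} := by
    ext u; simp [Hit]
  rw [this]
  exact MeasurableSet.iUnion fun n => measurableSet_le measurable_const (pos_meas w n)

theorem hit_meas (w : ℤ → ℕ → ℝ) (x : ℤ) :
    MeasurableSet[mS {p | p.1 < x}] {u : Dr | Hit w x u} := by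
  have e : {u : Dr | Hit w x u} = ret {p | p.1 < x} ⁻¹' {u : Dr | Hit w x u} := by
    ext u
    constructor
    · intro h
      exact hit_congr w x u _ (fun y i hy => by simp [ret, hy]) h
    · intro h
      exact hit_congr w x _ u (fun y i hy => by simp [ret, hy]) h
  rw [e]
  exact ret_meas _ (hit_measSet w x)

/-- Translation of the environment. -/
def shw (w : ℤ → ℕ → ℝ) (x : ℤ) : ℤ → ℕ → ℝ := fun y i => w (x + y) i
/-- Translation of the driving numbers. -/
def shu (x : ℤ) (u : Dr) : Dr := fun p => u (x + p.1, p.2)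

theorem run_shift (w : ℤ → ℕ → ℝ) (u : Dr) (x : ℤ) (n : ℕ) :
    (run w u (x, fun _ => 0) n).1 = x + (e1st (shw w x) (shu x u) n).1 ∧
      ∀ y, (run w u (x, fun _ => 0) n).2 (x + y) = (e1st (shw w x) (shu x u) n).2 y := by
  induction n with
  | zero => exact ⟨by show x = x + 0; omega, fun y => rfl⟩
  | succ n ih =>
    obtain ⟨h1, h2⟩ := ih
    rw [run_e1st] at h1
    simp only [run_e1st] at h2 ⊢
    show (stp w u (run w u (x, fun _ => 0) n)).1 =
      x + (stp (shw w x) (shu x u) (run (shw w x) (shu x u) (0, fun _ => 0) n)).1 ∧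
      ∀ y, (stp w u (run w u (x, fun _ => 0) n)).2 (x + y) =
        (stp (shw w x) (shu x u) (run (shw w x) (shu x u) (0, fun _ => 0) n)).2 y
    unfold stp
    dsimp only
    rw [h1, h2]
    constructor
    · show (if u (x + _, _) < w (x + _) _ then _ else _) =
        x + (if u (x + _, _) < w (x + _) _ then _ else _)
      split_ifs <;> ring
    · intro y
      by_cases hy : y = (run (shw w x) (shu x u) (0, fun _ => 0) n).1
      · rw [hy, Function.update_self, Function.update_self]
      · rw [Function.update_of_ne hy, Function.update_of_ne (by omega), h2]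

theorem shu_meas (x : ℤ) : Measurable (shu x) :=
  measurable_pi_iff.2 fun p => measurable_pi_apply (x + p.1, p.2)

theorem shu_map (x : ℤ) : e1nu.map (shu x) = e1nu := by
  have h := Measure.map_infinitePi_infinitePi_of_inj (P := fun _ : ℤ × ℕ => e1U)
    (f := fun p : ℤ × ℕ => (x + p.1, p.2)) (by
      intro p q hpq
      simp only [Prod.mk.injEq] at hpq
      exact Prod.ext (by omega) hpq.2)
  exact h

/-- The escape event, as a statement on the walk started at zero. -/
theorem esc_iff (w : ℤ → ℕ → ℝ) (x : ℤ) (u : Dr) :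
    Esc w x u ↔ ∀ n, 1 ≤ n → 1 ≤ (e1st (shw w x) (shu x u) n).1 := by
  unfold Esc
  refine forall_congr' fun n => forall_congr' fun _ => ?_
  rw [(run_shift w u x n).1]
  omega

theorem esc0_meas (w : ℤ → ℕ → ℝ) :
    MeasurableSet {u : Dr | ∀ n, 1 ≤ n → 1 ≤ (e1st w u n).1} := by
  have : {u : Dr | ∀ n, 1 ≤ n → 1 ≤ (e1st w u n).1} =
      ⋂ n : ℕ, ⋂ _ : 1 ≤ n, {u : Dr | 1 ≤ (e1st w u n).1} := by
    ext u; simp
  rw [this]
  exact MeasurableSet.iInter fun n => MeasurableSet.iInter fun _ =>
    measurableSet_le measurable_const (pos_meas w n)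

theorem esc_measSet (w : ℤ → ℕ → ℝ) (x : ℤ) : MeasurableSet {u : Dr | Esc w x u} := by
  have : {u : Dr | Esc w x u} =
      shu x ⁻¹' {u : Dr | ∀ n, 1 ≤ n → 1 ≤ (e1st (shw w x) u n).1} := by
    ext u; exact esc_iff w x u
  rw [this]
  exact shu_meas x (esc0_meas _)

theorem esc_meas (w : ℤ → ℕ → ℝ) (x : ℤ) :
    MeasurableSet[mS {p | x ≤ p.1}] {u : Dr | Esc w x u} := by
  have e : {u : Dr | Esc w x u} = ret {p | x ≤ p.1} ⁻¹' {u : Dr | Esc w x u} := by
    ext u
    constructor
    · intro h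
      exact esc_congr w x u _ (fun y i hy => by simp [ret, hy]) h
    · intro h
      exact esc_congr w x _ u (fun y i hy => by simp [ret, hy]) h
  rw [e]
  exact ret_meas _ (esc_measSet w x)

theorem esc_prob (w : ℤ → ℕ → ℝ) (x : ℤ) :
    e1nu {u : Dr | Esc w x u} = e1nu {u : Dr | ∀ n, 1 ≤ n → 1 ≤ (e1st (shw w x) u n).1} := by
  have : {u : Dr | Esc w x u} =
      shu x ⁻¹' {u : Dr | ∀ n, 1 ≤ n → 1 ≤ (e1st (shw w x) u n).1} := by
    ext u; exact esc_iff w x u
  rw [this]
  conv_rhs => rw [← shu_map x]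
  rw [Measure.map_apply (shu_meas x) (esc0_meas _)]

theorem rec_measSet (w : ℤ → ℕ → ℝ) (z : ℤ) : MeasurableSet {u : Dr | Rec w z u} := by
  have : {u : Dr | Rec w z u} = ⋂ N : ℕ, ⋃ n : ℕ, ⋃ _ : N ≤ n, {u : Dr | (e1st w u n).1 = z} := by
    ext u
    simp only [Rec, frequently_atTop, Set.mem_iInter, Set.mem_iUnion]
    simp
  rw [this]
  exact MeasurableSet.iInter fun N => MeasurableSet.iUnion fun n => MeasurableSet.iUnion fun _ =>
    (pos_meas w n) (measurableSet_singleton z)

theorem e1U_half : e1U {t | ¬ t < 1 / 2} = ENNReal.ofReal (1 / 2) ∧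
    e1U {t | ¬ ¬ t < 1 / 2} = ENNReal.ofReal (1 / 2) := by
  unfold e1U
  constructor
  · have hm : MeasurableSet {t : ℝ | ¬ t < 1 / 2} := (measurableSet_lt measurable_id
      measurable_const).compl
    rw [Measure.restrict_apply hm]
    have : {t : ℝ | ¬ t < 1 / 2} ∩ Set.Icc 0 1 = Set.Icc (1 / 2) 1 := by
      ext t
      simp only [Set.mem_inter_iff, Set.mem_ofPred_eq, Set.mem_Icc, not_lt]
      constructor
      · rintro ⟨a, _, b⟩; exact ⟨a, b⟩
      · rintro ⟨a, b⟩; exact ⟨a, by linarith, b⟩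
    rw [this, Real.volume_Icc]; norm_num
  · have hm : MeasurableSet {t : ℝ | ¬ ¬ t < 1 / 2} := (measurableSet_lt measurable_id
      measurable_const).compl.compl
    rw [Measure.restrict_apply hm]
    have : {t : ℝ | ¬ ¬ t < 1 / 2} ∩ Set.Icc 0 1 = Set.Ico 0 (1 / 2) := by
      ext t
      simp only [Set.mem_inter_iff, Set.mem_ofPred_eq, Set.mem_Icc, not_not, Set.mem_Ico]
      constructor
      · rintro ⟨a, b, _⟩; exact ⟨b, a⟩
      · rintro ⟨a, b⟩; exact ⟨b, a, by linarith⟩
    rw [this, Real.volume_Ico]; norm_num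

/-- A run of bad luck of infinite length has probability zero. -/
theorem no_tail (S : Set ℝ) (hS : MeasurableSet S) (h : e1U S = ENNReal.ofReal (1 / 2)) (z : ℤ)
    (I : ℕ) : e1nu {u : Dr | ∀ i, I ≤ i → u (z, i) ∈ S} = 0 := by
  have h1 : ∀ n : ℕ, e1nu {u : Dr | ∀ i, I ≤ i → u (z, i) ∈ S} ≤ ENNReal.ofReal (1 / 2) ^ n := by
    intro n
    set F : Finset (ℤ × ℕ) := (Finset.Ico I (I + n)).image (fun i => (z, i)) with hF
    have h2 : {u : Dr | ∀ i, I ≤ i → u (z, i) ∈ S} ⊆ Set.pi F (fun _ => S) := by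
      intro u hu p hp
      rw [hF, Finset.coe_image, Set.mem_image] at hp
      obtain ⟨i, hi, rfl⟩ := hp
      rw [Finset.coe_Ico, Set.mem_Ico] at hi
      exact hu i hi.1
    refine (measure_mono h2).trans ?_
    unfold e1nu
    rw [Measure.infinitePi_pi _ (fun _ _ => hS), Finset.prod_const, h]
    have : F.card = n := by
      rw [hF, Finset.card_image_of_injective _ (fun a b hab => by simpa using hab)]
      simp
    rw [this]
  have h3 : Tendsto (fun n : ℕ => ENNReal.ofReal (1 / 2) ^ n) atTop (𝓝 0) := by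
    refine ENNReal.tendsto_pow_atTop_nhds_zero_of_lt_one ?_
    rw [ENNReal.ofReal_lt_one]; norm_num
  exact le_antisymm (ge_of_tendsto' h3 h1) zero_le

theorem good_ae : ∀ᵐ u ∂e1nu, Good u := by
  unfold Good
  rw [ae_all_iff]
  intro z
  rw [ae_all_iff]
  intro I
  rw [Filter.eventually_and]
  constructor
  · rw [ae_iff]
    refine le_antisymm (le_trans (measure_mono ?_) (no_tail {t | ¬ t < 1 / 2}
      (measurableSet_lt measurable_id measurable_const).compl e1U_half.1 z I).le) zero_le
    intro u hu i hi h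
    exact hu ⟨i, hi, h⟩
  · rw [ae_iff]
    refine le_antisymm (le_trans (measure_mono ?_) (no_tail {t | ¬ ¬ t < 1 / 2}
      (measurableSet_lt measurable_id measurable_const).compl.compl e1U_half.2 z I).le) zero_le
    intro u hu i hi h
    exact hu ⟨i, hi, h⟩

end Pool.Agent.H563R3.ERW
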