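import Mathlib

set_option autoImplicit false
open MeasureTheory ProbabilityTheory Filter Topology
open scoped ENNReal

namespace Pool.Agent.H563R3.FPP

/-- The two types of the process. -/
inductive Kind
  | one
  | lam
  deriving DecidableEq

/-- An environment: which vertices carry a seed, and for every edge its passage time for `FPP_1`
(first component) and its passage time for `FPP_λ` (second component). -/
abbrev Env (V : Type) := (V → Bool) × (Sym2 V → ℝ × ℝ)

/-- The passage time of the edge between `u` and `v` for a given type. -/
def Env.time {V : Type} (ω : Env V) : Kind → V → V → ℝ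
  | .one, u, v => (ω.2 s(u, v)).1
  | .lam, u, v => (ω.2 s(u, v)).2

/-- A state: `none` at unoccupied vertices, `some (t, i)` at vertices occupied at time `t` by the
type `i`. -/
abbrev State (V : Type) := V → Option (ℝ × Kind)

/-- The vertex `v` is unoccupied, and an occupied neighbour of type `i` tries to occupy it at
time `r`. -/
def Attempt {V : Type} (G : SimpleGraph V) (ω : Env V) (st : State V) (v : V) (r : ℝ)
    (i : Kind) : Prop :=
  st v = none ∧ ∃ (u : V) (t : ℝ), G.Adj u v ∧ st u = some (t, i) ∧ r = t + ω.time i u v

/-- The earliest attempt to occupy an unoccupied vertex. -/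
def IsFirst {V : Type} (G : SimpleGraph V) (ω : Env V) (st : State V) (v : V) (r : ℝ)
    (i : Kind) : Prop :=
  Attempt G ω st v r i ∧ ∀ v' r' i', Attempt G ω st v' r' i' → r ≤ r'

open Classical in
/-- The state after the next occupation: the earliest attempt takes place; the attempted vertex
becomes occupied by `FPP_λ` if it carries a seed and by the attempting type otherwise. -/
noncomputable def next {V : Type} (G : SimpleGraph V) (ω : Env V) (st : State V) : State V :=
  if h : ∃ q : V × ℝ × Kind, IsFirst G ω st q.1 q.2.1 q.2.2 then
    Function.update st h.choose.1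
      (some (h.choose.2.1, if ω.1 h.choose.1 = true then Kind.lam else h.choose.2.2))
  else st

open Classical in
/-- First passage percolation in a hostile environment started from `o`, observed after its first
`n` occupations. At time `0` the vertex `o` is occupied by `FPP_1`. -/
noncomputable def run {V : Type} (G : SimpleGraph V) (o : V) (ω : Env V) : ℕ → State V
  | 0 => Function.update (fun _ => none) o (some (0, Kind.one))
  | n + 1 => next G ω (run G o ω n)

/-- The vertex `v` is occupied, at some time, by the type `i`. -/
def Occ {V : Type} (G : SimpleGraph V) (o : V) (ω : Env V) (i : Kind) (v : V) : Prop :=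
  ∃ (n : ℕ) (t : ℝ), run G o ω n v = some (t, i)

/-- The type `i` survives: the vertices which it occupies contain an infinite connected set. -/
def Survives {V : Type} (G : SimpleGraph V) (o : V) (ω : Env V) (i : Kind) : Prop :=
  ∃ W : Set V, W.Infinite ∧ (G.induce W).Connected ∧ ∀ v ∈ W, Occ G o ω i v

/-- A coin with success probability `μ`. -/
noncomputable def coinLaw (μ : ℝ) : Measure Bool :=
  ENNReal.ofReal μ • Measure.dirac true + ENNReal.ofReal (1 - μ) • Measure.dirac false

/-- The law of the environment: independent seeds of density `μ` and independent passage times,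
exponential of rate `1` for `FPP_1` and exponential of rate `lam` for `FPP_λ`. The seed at the
starting vertex plays no role in the process. -/
noncomputable def law (V : Type) (lam μ : ℝ) : Measure (Env V) :=
  (Measure.infinitePi (fun _ : V => coinLaw μ)).prod
    (Measure.infinitePi (fun _ : Sym2 V => (expMeasure 1).prod (expMeasure lam)))

/-- The graph has a regime of strong survival (for the process started from `o`): for some `λ > 0`
and `μ ∈ (0,1)`, with positive probability `FPP_1` survives and `FPP_λ` dies out. -/
def HasStrongSurvival {V : Type} (G : SimpleGraph V) (o : V) : Prop :=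
  ∃ lam μ : ℝ, 0 < lam ∧ 0 < μ ∧ μ < 1 ∧
    0 < law V lam μ {ω | Survives G o ω Kind.one ∧ ¬ Survives G o ω Kind.lam}

/-- Polynomial growth around `o`: `|B(o,n)| ≤ C n ^ D` for all `n ≥ 1`. -/
def PolyGrowth {V : Type} (G : SimpleGraph V) (o : V) : Prop :=
  ∃ C D : ℕ, ∀ n : ℕ, 1 ≤ n → ({w | G.dist o w ≤ n} : Set V).encard ≤ ((C * n ^ D : ℕ) : ℕ∞)

/-- The vertices of the finite set `S` which have a neighbour outside `S`. -/
def bdry {V : Type} (G : SimpleGraph V) (S : Finset V) : Set V :=
  {v | v ∈ S ∧ ∃ w, w ∉ S ∧ G.Adj v w}

/-- The `d`-dimensional isoperimetric inequality. -/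
def Isoperimetric {V : Type} (G : SimpleGraph V) (d : ℝ) : Prop :=
  ∃ c : ℝ, 0 < c ∧ ∀ S : Finset V, c * (S.card : ℝ) ^ ((d - 1) / d) ≤ ((bdry G S).ncard : ℝ)

/-- The isoperimetric dimension. -/
noncomputable def isoDim {V : Type} (G : SimpleGraph V) : ℝ≥0∞ :=
  ⨆ d : ℝ, ⨆ _ : 1 ≤ d ∧ Isoperimetric G d, ENNReal.ofReal d

end Pool.Agent.H563R3.FPP
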