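import Mathlib
import Pool.Agent.H563R3.FPPDefs

set_option autoImplicit false
open MeasureTheory ProbabilityTheory Filter Topology
open scoped ENNReal

namespace Pool.Agent.H563R3.FPP

variable {V : Type} (G : SimpleGraph V) (o : V) (ω : Env V)

theorem next_cases (st : State V) :
    (next G ω st = st ∧ ¬ ∃ q : V × ℝ × Kind, IsFirst G ω st q.1 q.2.1 q.2.2) ∨
    ∃ v r i, IsFirst G ω st v r i ∧
      (∀ w, w ≠ v → next G ω st w = st w) ∧
      next G ω st v = some (r, if ω.1 v = true then Kind.lam else i) := by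
  classical
  by_cases h : ∃ q : V × ℝ × Kind, IsFirst G ω st q.1 q.2.1 q.2.2
  · right
    refine ⟨h.choose.1, h.choose.2.1, h.choose.2.2, h.choose_spec, ?_, ?_⟩
    · intro w hw
      unfold next
      rw [dif_pos h, Function.update_of_ne hw]
    · unfold next
      rw [dif_pos h, Function.update_self]
  · left
    refine ⟨?_, h⟩
    unfold next
    rw [dif_neg h]

theorem run_succ_of_some {n : ℕ} {v : V} {q : ℝ × Kind} (h : run G o ω n v = some q) :
    run G o ω (n + 1) v = some q := by
  rcases next_cases G ω (run G o ω n) with ⟨h1, _⟩ | ⟨w, r, i, hf, h1, h2⟩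
  · show next G ω (run G o ω n) v = some q
    rw [h1]; exact h
  · show next G ω (run G o ω n) v = some q
    rw [h1 v ?_]; · exact h
    rintro rfl
    rw [hf.1.1] at h; exact absurd h (by simp)

theorem run_mono {n m : ℕ} (hnm : n ≤ m) {v : V} {q : ℝ × Kind} (h : run G o ω n v = some q) :
    run G o ω m v = some q := by
  induction m, hnm using Nat.le_induction with
  | base => exact h
  | succ m _ ih => exact run_succ_of_some G o ω ih

theorem run_zero_some {v : V} {q : ℝ × Kind} (h : run G o ω 0 v = some q) :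
    v = o ∧ q = (0, Kind.one) := by
  classical
  unfold run at h
  by_cases hv : v = o
  · subst hv
    rw [Function.update_self] at h
    exact ⟨rfl, (Option.some.inj h).symm⟩
  · rw [Function.update_of_ne hv] at h
    exact absurd h (by simp)

theorem run_zero_o : run G o ω 0 o = some (0, Kind.one) := by
  classical
  unfold run; rw [Function.update_self]

/-- An invariant of the process. -/
theorem run_induction (P : V → ℝ → Kind → Prop) (h0 : P o 0 Kind.one)
    (hstep : ∀ u v t i, P u t i → G.Adj u v →
      P v (t + ω.time i u v) (if ω.1 v = true then Kind.lam else i)) :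
    ∀ n v t i, run G o ω n v = some (t, i) → P v t i := by
  intro n
  induction n with
  | zero =>
    intro v t i h
    obtain ⟨rfl, h2⟩ := run_zero_some G o ω h
    simp only [Prod.mk.injEq] at h2
    rw [h2.1, h2.2]; exact h0
  | succ n ih =>
    intro v t i h
    rcases next_cases G ω (run G o ω n) with ⟨h1, _⟩ | ⟨w, r, j, hf, h1, h2⟩
    · have h' : next G ω (run G o ω n) v = some (t, i) := h
      rw [h1] at h'
      exact ih v t i h'
    · by_cases hvw : v = w
      · subst hvw
        have h' : next G ω (run G o ω n) v = some (t, i) := h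
        rw [h2] at h'
        have h3 := Option.some.inj h'
        simp only [Prod.mk.injEq] at h3
        obtain ⟨u, s, hadj, hu, hr⟩ := hf.1.2
        have := hstep u v s j (ih u s j hu) hadj
        rw [← h3.1, ← h3.2, hr]
        exact this
      · have h' : next G ω (run G o ω n) v = some (t, i) := h
        rw [h1 v hvw] at h'
        exact ih v t i h'

/-- Fast edges. -/
def Fast (δ : ℝ) (e : Sym2 V) : Prop := (ω.2 e).1 < δ ∨ (ω.2 e).2 < δ

/-- The graph of fast edges. -/
def fastGraph (δ : ℝ) : SimpleGraph V where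
  Adj u v := G.Adj u v ∧ Fast ω δ s(u, v)
  symm := ⟨fun u v h => ⟨h.1.symm, by rw [Sym2.eq_swap]; exact h.2⟩⟩
  loopless := ⟨fun u h => G.loopless.irrefl u h.1⟩

/-- Vertices that can be reached from `o` with at most `k` slow edges. -/
inductive Reach (δ : ℝ) : ℕ → V → Prop
  | base : Reach δ 0 o
  | fast {k : ℕ} {u v : V} : Reach δ k u → G.Adj u v → Fast ω δ s(u, v) → Reach δ k v
  | slow {k : ℕ} {u v : V} : Reach δ k u → G.Adj u v → Reach δ (k + 1) v
  | mono {k : ℕ} {u : V} : Reach δ k u → Reach δ (k + 1) u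

theorem Reach.le {δ : ℝ} {k m : ℕ} (h : k ≤ m) {v : V} (hv : Reach G o ω δ k v) :
    Reach G o ω δ m v := by
  induction m, h using Nat.le_induction with
  | base => exact hv
  | succ m _ ih => exact Reach.mono ih

theorem reach_succ {δ : ℝ} {k : ℕ} {v : V} (h : Reach G o ω δ k v) :
    (k = 0 ∧ (fastGraph G ω δ).Reachable o v) ∨
    (∃ m, k = m + 1 ∧ ∃ u w, Reach G o ω δ m u ∧ (w = u ∨ G.Adj u w) ∧
      (fastGraph G ω δ).Reachable w v) := by
  induction h with
  | base => left; exact ⟨rfl, SimpleGraph.Reachable.refl _⟩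
  | @fast k u v hu hadj hf ih =>
    have hfa : (fastGraph G ω δ).Adj u v := ⟨hadj, hf⟩
    rcases ih with ⟨h1, h2⟩ | ⟨m, h1, u', w, h2, h3, h4⟩
    · left; exact ⟨h1, h2.trans hfa.reachable⟩
    · right; exact ⟨m, h1, u', w, h2, h3, h4.trans hfa.reachable⟩
  | @slow k u v hu hadj ih =>
    right; exact ⟨k, rfl, u, v, hu, Or.inr hadj, SimpleGraph.Reachable.refl _⟩
  | @mono k u hu ih =>
    right; exact ⟨k, rfl, u, u, hu, Or.inl rfl, SimpleGraph.Reachable.refl _⟩

theorem reach_finite {δ : ℝ} (hloc : ∀ v, (G.neighborSet v).Finite)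
    (hfin : ∀ v, {w | (fastGraph G ω δ).Reachable v w}.Finite) (k : ℕ) :
    {v | Reach G o ω δ k v}.Finite := by
  induction k with
  | zero =>
    refine (hfin o).subset ?_
    intro v hv
    rcases reach_succ G o ω hv with ⟨_, h⟩ | ⟨m, h, _⟩
    · exact h
    · omega
  | succ k ih =>
    have h1 : (⋃ u ∈ {v | Reach G o ω δ k v}, ⋃ w ∈ insert u (G.neighborSet u),
        {x | (fastGraph G ω δ).Reachable w x}).Finite := by
      refine Set.Finite.biUnion ih (fun u _ => ?_)
      exact Set.Finite.biUnion ((hloc u).insert u) (fun w _ => hfin w)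
    refine h1.subset ?_
    intro v hv
    rcases reach_succ G o ω hv with ⟨h, _⟩ | ⟨m, h, u, w, h2, h3, h4⟩
    · omega
    · have hm : m = k := by omega
      subst hm
      simp only [Set.mem_iUnion]
      refine ⟨u, h2, w, ?_, h4⟩
      rcases h3 with rfl | h3
      · exact Set.mem_insert _ _
      · exact Set.mem_insert_of_mem _ h3

/-- Occupied vertices are reached by few slow edges. -/
theorem run_reach {δ : ℝ} (hδ : 0 < δ) (hpos : ∀ e, 0 ≤ (ω.2 e).1 ∧ 0 ≤ (ω.2 e).2)
    {n : ℕ} {v : V} {t : ℝ} {i : Kind} (h : run G o ω n v = some (t, i)) :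
    0 ≤ t ∧ Reach G o ω δ ⌊t / δ⌋₊ v := by
  refine run_induction G o ω (fun v t _ => 0 ≤ t ∧ Reach G o ω δ ⌊t / δ⌋₊ v) ?_ ?_ n v t i h
  · refine ⟨le_rfl, ?_⟩
    simp only [zero_div, Nat.floor_zero]
    exact Reach.base
  · rintro u v t i ⟨ht, hr⟩ hadj
    have htime : 0 ≤ ω.time i u v := by
      cases i
      · exact (hpos _).1
      · exact (hpos _).2
    refine ⟨by positivity, ?_⟩
    by_cases hf : Fast ω δ s(u, v)
    · have h1 : Reach G o ω δ ⌊t / δ⌋₊ v := Reach.fast hr hadj hf
      refine Reach.le G o ω (Nat.floor_le_floor ?_) h1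
      gcongr; linarith
    · have hslow : δ ≤ ω.time i u v := by
        unfold Fast at hf
        push Not at hf
        cases i
        · exact hf.1
        · exact hf.2
      have h1 : Reach G o ω δ (⌊t / δ⌋₊ + 1) v := Reach.slow hr hadj
      refine Reach.le G o ω ?_ h1
      have h2 : t / δ + 1 ≤ (t + ω.time i u v) / δ := by
        rw [add_div]
        have : 1 ≤ ω.time i u v / δ := by rw [le_div_iff₀ hδ]; linarith
        linarith
      calc ⌊t / δ⌋₊ + 1 = ⌊t / δ + 1⌋₊ := (Nat.floor_add_one (by positivity)).symm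
        _ ≤ _ := Nat.floor_le_floor h2

theorem occupied_finite (n : ℕ) : {v | run G o ω n v ≠ none}.Finite := by
  induction n with
  | zero =>
    refine (Set.finite_singleton o).subset ?_
    intro v hv
    obtain ⟨q, hq⟩ := Option.ne_none_iff_exists'.1 hv
    exact (run_zero_some G o ω hq).1
  | succ n ih =>
    rcases next_cases G ω (run G o ω n) with ⟨h1, _⟩ | ⟨w, r, j, hf, h1, h2⟩
    · refine ih.subset ?_
      intro v hv
      have : next G ω (run G o ω n) v ≠ none := hv
      rw [h1] at this; exact this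
    · refine (ih.insert w).subset ?_
      intro v hv
      by_cases hvw : v = w
      · exact Or.inl hvw
      · right
        have : next G ω (run G o ω n) v ≠ none := hv
        rw [h1 v hvw] at this; exact this

theorem exists_first (hloc : ∀ v, (G.neighborSet v).Finite) {n : ℕ} {v : V} {r : ℝ} {i : Kind}
    (h : Attempt G ω (run G o ω n) v r i) :
    ∃ q : V × ℝ × Kind, IsFirst G ω (run G o ω n) q.1 q.2.1 q.2.2 := by
  classical
  set A : Set (V × ℝ × Kind) := {q | Attempt G ω (run G o ω n) q.1 q.2.1 q.2.2} with hA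
  have hfin : A.Finite := by
    have h1 : (⋃ u ∈ {v | run G o ω n v ≠ none}, ⋃ v ∈ G.neighborSet u,
        (({(v, ((run G o ω n u).getD (0, Kind.one)).1 +
          ω.time ((run G o ω n u).getD (0, Kind.one)).2 u v,
          ((run G o ω n u).getD (0, Kind.one)).2)}) : Set (V × ℝ × Kind))).Finite := by
      refine Set.Finite.biUnion (occupied_finite G o ω n) (fun u _ => ?_)
      exact Set.Finite.biUnion (hloc u) (fun w _ => Set.finite_singleton _)
    refine h1.subset ?_
    rintro ⟨v, r, i⟩ ⟨_, u, t, hadj, hu, hr⟩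
    simp only [Set.mem_iUnion]
    refine ⟨u, ?_, v, hadj, ?_⟩
    · show run G o ω n u ≠ none
      rw [hu]; simp
    · simp only at hu hr
      rw [hu]
      simp [hr]
  have hne : A.Nonempty := ⟨(v, r, i), h⟩
  obtain ⟨q, hq, hmin⟩ := hfin.exists_minimalFor (fun q : V × ℝ × Kind => q.2.1) A hne
  refine ⟨q, hq, ?_⟩
  intro v' r' i' h'
  by_contra hlt
  push Not at hlt
  have := hmin (j := (v', r', i')) h' hlt.le
  simp only at this
  linarith

/-- Every vertex is occupied at some time. -/
theorem all_occupied (hconn : G.Connected) (hloc : ∀ v, (G.neighborSet v).Finite)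
    {δ : ℝ} (hδ : 0 < δ) (hpos : ∀ e, 0 ≤ (ω.2 e).1 ∧ 0 ≤ (ω.2 e).2)
    (hfin : ∀ v, {w | (fastGraph G ω δ).Reachable v w}.Finite) (v : V) :
    ∃ n q, run G o ω n v = some q := by
  -- propagate along edges
  have key : ∀ u v, G.Adj u v → (∃ n q, run G o ω n u = some q) →
      ∃ n q, run G o ω n v = some q := by
    rintro u v hadj ⟨n0, ⟨t, i⟩, hu⟩
    by_contra hv
    push Not at hv
    have hv' : ∀ n, run G o ω n v = none := by
      intro n
      by_contra h
      obtain ⟨q, hq⟩ := Option.ne_none_iff_exists'.1 h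
      exact hv n q hq
    set A : ℝ := t + ω.time i u v with hAdef
    have hatt : ∀ k, Attempt G ω (run G o ω (n0 + k)) v A i := by
      intro k
      exact ⟨hv' _, u, t, hadj, run_mono G o ω (Nat.le_add_right _ _) hu, rfl⟩
    have hnew : ∀ k, ∃ w r j, run G o ω (n0 + k) w = none ∧
        run G o ω (n0 + k + 1) w = some (r, j) ∧ r ≤ A := by
      intro k
      rcases next_cases G ω (run G o ω (n0 + k)) with ⟨_, h2⟩ | ⟨w, r, j, hf, h1, h2⟩
      · exact absurd (exists_first G o ω hloc (hatt k)) h2
      · exact ⟨w, r, _, hf.1.1, h2, hf.2 v A i (hatt k)⟩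
    choose g r j hg1 hg2 hg3 using hnew
    have hinj : Function.Injective g := by
      have hlt : ∀ a b, a < b → g a ≠ g b := by
        intro a b hab heq
        have h1 := run_mono G o ω (show n0 + a + 1 ≤ n0 + b by omega) (hg2 a)
        rw [heq, hg1 b] at h1
        exact absurd h1 (by simp)
      intro a b hab
      rcases lt_trichotomy a b with h | h | h
      · exact absurd hab (hlt a b h)
      · exact h
      · exact absurd hab.symm (hlt b a h)
    have hrange : Set.range g ⊆ {v | Reach G o ω δ ⌊A / δ⌋₊ v} := by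
      rintro _ ⟨k, rfl⟩
      have h1 := run_reach G o ω hδ hpos (hg2 k)
      refine Reach.le G o ω (Nat.floor_le_floor ?_) h1.2
      have := hg3 k
      gcongr
    exact Set.infinite_range_of_injective hinj
      ((reach_finite G o ω hloc hfin _).subset hrange)
  have walk : ∀ a b (p : G.Walk a b), (∃ n q, run G o ω n a = some q) →
      ∃ n q, run G o ω n b = some q := by
    intro a b p
    induction p with
    | nil => exact id
    | cons h p ih => exact fun hu => ih (key _ _ h hu)
  obtain ⟨p⟩ := hconn.preconnected o v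
  exact walk o v p ⟨0, _, run_zero_o G o ω⟩

end Pool.Agent.H563R3.FPP
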