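import Mathlib
import Pool.Agent.H563R3.FPPDet

set_option autoImplicit false
open MeasureTheory ProbabilityTheory Filter Topology
open scoped ENNReal

namespace Pool.Agent.H563R3.FPP

variable {V : Type}

open Classical in
/-- Lists of edges of walks of length `n` from `v`. -/
noncomputable def wl (nb : V → Finset V) : ℕ → V → Finset (List (Sym2 V))
  | 0, _ => {[]}
  | n + 1, v => (nb v).biUnion (fun w => (wl nb n w).image (fun l => s(v, w) :: l))

theorem wl_card (nb : V → Finset V) (Δ : ℕ) (h : ∀ v, (nb v).card ≤ Δ) (n : ℕ) (v : V) :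
    (wl nb n v).card ≤ Δ ^ n := by
  classical
  induction n generalizing v with
  | zero => simp [wl]
  | succ n ih =>
    unfold wl
    calc _ ≤ ∑ w ∈ nb v, ((wl nb n w).image (fun l => s(v, w) :: l)).card := Finset.card_biUnion_le
      _ ≤ ∑ w ∈ nb v, Δ ^ n := Finset.sum_le_sum (fun w _ => Finset.card_image_le.trans (ih w))
      _ = (nb v).card * Δ ^ n := by rw [Finset.sum_const, smul_eq_mul]
      _ ≤ Δ * Δ ^ n := Nat.mul_le_mul_right _ (h v)
      _ = Δ ^ (n + 1) := by ring

theorem wl_length (nb : V → Finset V) (n : ℕ) (v : V) (l : List (Sym2 V)) (hl : l ∈ wl nb n v) :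
    l.length = n := by
  classical
  induction n generalizing v l with
  | zero => simp [wl] at hl; simp [hl]
  | succ n ih =>
    unfold wl at hl
    simp only [Finset.mem_biUnion, Finset.mem_image] at hl
    obtain ⟨w, _, l', hl', rfl⟩ := hl
    simp [ih w l' hl']

theorem mem_wl (nb : V → Finset V) (H : SimpleGraph V) (hnb : ∀ u v, H.Adj u v → v ∈ nb u)
    {v w : V} (p : H.Walk v w) : p.edges ∈ wl nb p.length v := by
  classical
  induction p with
  | nil => simp [wl]
  | @cons u v w h p ih =>
    simp only [SimpleGraph.Walk.edges_cons, SimpleGraph.Walk.length_cons]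
    unfold wl
    simp only [Finset.mem_biUnion, Finset.mem_image]
    exact ⟨v, hnb _ _ h, p.edges, ih, rfl⟩

/-- The law of the passage times. -/
noncomputable def timeLaw (V : Type) (lam : ℝ) : Measure (Sym2 V → ℝ × ℝ) :=
  Measure.infinitePi (fun _ : Sym2 V => (expMeasure 1).prod (expMeasure lam))

/-- Fast passage times. -/
def fastSet (δ : ℝ) : Set (ℝ × ℝ) := {q | q.1 < δ ∨ q.2 < δ}

theorem measurableSet_fastSet (δ : ℝ) : MeasurableSet (fastSet δ) := by
  have h1 : MeasurableSet {q : ℝ × ℝ | q.1 < δ} := measurableSet_lt measurable_fst measurable_const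
  have h2 : MeasurableSet {q : ℝ × ℝ | q.2 < δ} := measurableSet_lt measurable_snd measurable_const
  exact h1.union h2

theorem exp_Iio {r : ℝ} (hr : 0 < r) (δ : ℝ) (hδ : 0 ≤ δ) :
    expMeasure r (Set.Iio δ) ≤ ENNReal.ofReal (r * δ) := by
  have := isProbabilityMeasure_expMeasure hr
  have h1 : expMeasure r (Set.Iio δ) ≤ expMeasure r (Set.Iic δ) := measure_mono Set.Iio_subset_Iic_self
  refine h1.trans ?_
  have h2 := cdf_expMeasure_eq hr δ
  rw [if_pos hδ] at h2
  rw [cdf_eq_real] at h2
  have h3 : expMeasure r (Set.Iic δ) = ENNReal.ofReal (1 - Real.exp (-(r * δ))) := by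
    rw [← h2, Measure.real, ENNReal.ofReal_toReal (measure_ne_top _ _)]
  rw [h3]
  apply ENNReal.ofReal_le_ofReal
  have := Real.add_one_le_exp (-(r * δ))
  linarith

theorem exp_neg {r : ℝ} (hr : 0 < r) : expMeasure r (Set.Iio 0) = 0 := by
  have := exp_Iio hr 0 le_rfl
  simpa using this

theorem fastSet_le {lam δ : ℝ} (hlam : 0 < lam) (hδ : 0 ≤ δ) :
    ((expMeasure 1).prod (expMeasure lam)) (fastSet δ) ≤ ENNReal.ofReal ((1 + lam) * δ) := by
  have := isProbabilityMeasure_expMeasure hlam
  have := isProbabilityMeasure_expMeasure (r := 1) one_pos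
  have h1 : fastSet δ = (Set.Iio δ ×ˢ Set.univ) ∪ (Set.univ ×ˢ Set.Iio δ) := by
    ext q; simp [fastSet]
  rw [h1]
  refine (measure_union_le _ _).trans ?_
  rw [Measure.prod_prod, Measure.prod_prod, measure_univ, measure_univ, mul_one, one_mul]
  refine (add_le_add (exp_Iio one_pos δ hδ) (exp_Iio hlam δ hδ)).trans ?_
  rw [← ENNReal.ofReal_add (by positivity) (by positivity)]
  apply ENNReal.ofReal_le_ofReal
  linarith

theorem timeLaw_list {lam δ : ℝ} (hlam : 0 < lam) (l : List (Sym2 V)) (hl : l.Nodup) :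
    timeLaw V lam {T | ∀ e ∈ l, T e ∈ fastSet δ} =
      (((expMeasure 1).prod (expMeasure lam)) (fastSet δ)) ^ l.length := by
  classical
  have := isProbabilityMeasure_expMeasure hlam
  have := isProbabilityMeasure_expMeasure (r := 1) one_pos
  have h1 : {T : Sym2 V → ℝ × ℝ | ∀ e ∈ l, T e ∈ fastSet δ} =
      Set.pi (l.toFinset : Set (Sym2 V)) (fun _ => fastSet δ) := by
    ext T; simp [Set.mem_pi]
  rw [h1]
  unfold timeLaw
  rw [Measure.infinitePi_pi _ (fun _ _ => measurableSet_fastSet δ), Finset.prod_const,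
    List.toFinset_card_of_nodup hl]

theorem fast_cluster (G : SimpleGraph V) (nb : V → Finset V) (hnb : ∀ u v, G.Adj u v → v ∈ nb u)
    (Δ : ℕ) (hΔ : ∀ v, (nb v).card ≤ Δ) (hball : ∀ v (n : ℕ), {w | G.dist v w ≤ n}.Finite)
    {lam δ : ℝ} (hlam : 0 < lam) (hδ : 0 ≤ δ) (hsmall : (Δ : ℝ) * ((1 + lam) * δ) ≤ 1 / 2) (v : V) :
    ∀ᵐ T ∂(timeLaw V lam), ∀ s : V → Bool,
      {w | (fastGraph G ((s, T) : Env V) δ).Reachable v w}.Finite := by
  classical
  have hbound : ∀ n : ℕ, timeLaw V lam
      {T | ¬ ∀ s : V → Bool, {w | (fastGraph G ((s, T) : Env V) δ).Reachable v w}.Finite} ≤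
        ENNReal.ofReal ((1 / 2) ^ n) := by
    intro n
    have hsub : {T : Sym2 V → ℝ × ℝ | ¬ ∀ s : V → Bool,
        {w | (fastGraph G ((s, T) : Env V) δ).Reachable v w}.Finite} ⊆
        ⋃ l ∈ (wl nb n v).filter (fun l => l.Nodup), {T | ∀ e ∈ l, T e ∈ fastSet δ} := by
      intro T hT
      simp only [Set.mem_ofPred_eq, not_forall] at hT
      obtain ⟨s, hs⟩ := hT
      have h1 : ∃ w, (fastGraph G ((s, T) : Env V) δ).Reachable v w ∧ ¬ G.dist v w ≤ n := by
        by_contra hcon
        push Not at hcon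
        exact hs ((hball v n).subset (fun w hw => hcon w hw))
      obtain ⟨w, hw, hd⟩ := h1
      obtain ⟨p, hp⟩ := hw.exists_isPath
      have hlen : n ≤ p.length := by
        by_contra hlt
        apply hd
        have hle : (fastGraph G ((s, T) : Env V) δ) ≤ G := fun a b hab => hab.1
        have := G.dist_le (p.mapLe hle)
        rw [SimpleGraph.Walk.length_mapLe] at this
        omega
      have hq := hp.take n
      have hql : (p.take n).length = n := by
        rw [SimpleGraph.Walk.take_length]; omega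
      have hmem := mem_wl nb (fastGraph G ((s, T) : Env V) δ) (fun a b hab => hnb a b hab.1)
        (p.take n)
      rw [hql] at hmem
      simp only [Set.mem_iUnion, Finset.mem_filter]
      refine ⟨(p.take n).edges, ⟨hmem, hq.isTrail.edges_nodup⟩, ?_⟩
      intro e he
      have he2 := (p.take n).edges_subset_edgeSet he
      induction e using Sym2.ind with
      | _ a b => exact he2.2
    refine (measure_mono hsub).trans ((measure_biUnion_finset_le _ _).trans ?_)
    have hterm : ∀ l ∈ (wl nb n v).filter (fun l => l.Nodup),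
        timeLaw V lam {T | ∀ e ∈ l, T e ∈ fastSet δ} ≤ (ENNReal.ofReal ((1 + lam) * δ)) ^ n := by
      intro l hl
      rw [Finset.mem_filter] at hl
      rw [timeLaw_list hlam l hl.2, wl_length nb n v l hl.1]
      gcongr
      exact fastSet_le hlam hδ
    refine (Finset.sum_le_sum hterm).trans ?_
    rw [Finset.sum_const, nsmul_eq_mul]
    have hc : (((wl nb n v).filter (fun l => l.Nodup)).card : ℝ≥0∞) ≤ ((Δ : ℝ≥0∞)) ^ n := by
      have := (Finset.card_filter_le (wl nb n v) (fun l => l.Nodup)).trans (wl_card nb Δ hΔ n v)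
      exact_mod_cast this
    calc _ ≤ ((Δ : ℝ≥0∞)) ^ n * (ENNReal.ofReal ((1 + lam) * δ)) ^ n := by gcongr
      _ = ENNReal.ofReal ((Δ * ((1 + lam) * δ)) ^ n) := by
          have e : (Δ : ℝ≥0∞) = ENNReal.ofReal (Δ : ℝ) := by simp
          rw [← mul_pow, e, ← ENNReal.ofReal_mul (by positivity),
            ← ENNReal.ofReal_pow (by positivity)]
      _ ≤ ENNReal.ofReal ((1 / 2) ^ n) := by
          apply ENNReal.ofReal_le_ofReal
          gcongr
  rw [ae_iff]
  have hlim : Tendsto (fun n : ℕ => ENNReal.ofReal ((1 / 2) ^ n)) atTop (𝓝 0) := by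
    have h := tendsto_pow_atTop_nhds_zero_of_lt_one (r := (1 / 2 : ℝ)) (by norm_num) (by norm_num)
    have := ENNReal.tendsto_ofReal h
    simpa using this
  exact le_antisymm (ge_of_tendsto' hlim hbound) zero_le

theorem times_nonneg {lam : ℝ} (hlam : 0 < lam) [Countable V] :
    ∀ᵐ T ∂(timeLaw V lam), ∀ e, 0 ≤ (T e).1 ∧ 0 ≤ (T e).2 := by
  have := isProbabilityMeasure_expMeasure hlam
  have := isProbabilityMeasure_expMeasure (r := 1) one_pos
  have : Countable (Sym2 V) := by
    unfold Sym2; infer_instance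
  rw [ae_all_iff]
  intro e
  have h := Measure.infinitePi_map_eval (fun _ : Sym2 V => (expMeasure 1).prod (expMeasure lam)) e
  have h2 : ∀ᵐ q ∂((expMeasure 1).prod (expMeasure lam)), 0 ≤ q.1 ∧ 0 ≤ q.2 := by
    rw [ae_iff]
    have h3 := fastSet_le (lam := lam) (δ := 0) hlam le_rfl
    rw [mul_zero, ENNReal.ofReal_zero] at h3
    refine le_antisymm (le_trans (measure_mono ?_) h3) zero_le
    intro q hq
    simp only [Set.mem_ofPred_eq, not_and_or, not_le] at hq
    exact hq
  rw [← h] at h2
  exact ae_of_ae_map (measurable_pi_apply e).aemeasurable h2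

theorem coin_prob {μ : ℝ} (h0 : 0 < μ) (h1 : μ < 1) : IsProbabilityMeasure (coinLaw μ) := by
  refine ⟨?_⟩
  unfold coinLaw
  simp only [Measure.coe_add, Measure.coe_smul, Pi.add_apply, Pi.smul_apply, measure_univ,
    smul_eq_mul, mul_one]
  rw [← ENNReal.ofReal_add h0.le (by linarith)]
  simp

theorem coin_false {μ : ℝ} : coinLaw μ {false} = ENNReal.ofReal (1 - μ) := by
  unfold coinLaw
  simp

/-- Infinitely many prescribed vertices contain a seed. -/
theorem exists_seed {μ : ℝ} (h0 : 0 < μ) (h1 : μ < 1) (g : ℕ → V) (hg : Function.Injective g) :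
    ∀ᵐ s ∂(Measure.infinitePi (fun _ : V => coinLaw μ)), ∃ k, s (g k) = true := by
  classical
  have := coin_prob h0 h1
  rw [ae_iff]
  have hbound : ∀ n : ℕ, (Measure.infinitePi (fun _ : V => coinLaw μ))
      {s | ¬ ∃ k, s (g k) = true} ≤ ENNReal.ofReal ((1 - μ) ^ n) := by
    intro n
    have hsub : {s : V → Bool | ¬ ∃ k, s (g k) = true} ⊆
        Set.pi (((Finset.range n).image g : Finset V) : Set V) (fun _ => {false}) := by
      intro s hs
      simp only [Set.mem_ofPred_eq, not_exists, Bool.not_eq_true] at hs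
      intro v hv
      simp only [Finset.coe_image, Set.mem_image] at hv
      obtain ⟨k, _, rfl⟩ := hv
      exact hs k
    refine (measure_mono hsub).trans ?_
    rw [Measure.infinitePi_pi _ (fun _ _ => MeasurableSet.of_discrete), Finset.prod_const,
      Finset.card_image_of_injective _ hg, Finset.card_range, coin_false,
      ENNReal.ofReal_pow (by linarith)]
  have hlim : Tendsto (fun n : ℕ => ENNReal.ofReal ((1 - μ) ^ n)) atTop (𝓝 0) := by
    have h := tendsto_pow_atTop_nhds_zero_of_lt_one (r := 1 - μ) (by linarith) (by linarith)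
    have := ENNReal.tendsto_ofReal h
    simpa using this
  exact le_antisymm (ge_of_tendsto' hlim hbound) zero_le

end Pool.Agent.H563R3.FPP
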