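import Mathlib
import Pool.Agent.H563R3.FPPProb

set_option autoImplicit false
open MeasureTheory ProbabilityTheory Filter Topology
open scoped ENNReal

namespace Pool.Agent.H563R3.FPP

/-- The row of planes: the vertex set is `ℤ³`, the plane `{x} × ℤ²` carries the edges of the square
lattice, and the points `(x, 0, 0)` and `(x + 1, 0, 0)` are joined; there are no other edges. -/
def rowOfPlanes : SimpleGraph (ℤ × ℤ × ℤ) where
  Adj v w :=
    (v.1 = w.1 ∧ v.2.1 = w.2.1 ∧ (v.2.2 = w.2.2 + 1 ∨ w.2.2 = v.2.2 + 1)) ∨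
    (v.1 = w.1 ∧ v.2.2 = w.2.2 ∧ (v.2.1 = w.2.1 + 1 ∨ w.2.1 = v.2.1 + 1)) ∨
    ((v.1 = w.1 + 1 ∨ w.1 = v.1 + 1) ∧ v.2 = (0, 0) ∧ w.2 = (0, 0))
  symm := ⟨by
    rintro ⟨a, b, c⟩ ⟨a', b', c'⟩ h
    simp only [Prod.mk.injEq] at h ⊢
    omega⟩
  loopless := ⟨by
    rintro ⟨a, b, c⟩ h
    simp only [Prod.mk.injEq] at h
    omega⟩

theorem adj_iff (a b c a' b' c' : ℤ) : rowOfPlanes.Adj (a, b, c) (a', b', c') ↔
    (a = a' ∧ b = b' ∧ (c = c' + 1 ∨ c' = c + 1)) ∨
    (a = a' ∧ c = c' ∧ (b = b' + 1 ∨ b' = b + 1)) ∨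
    ((a = a' + 1 ∨ a' = a + 1) ∧ (b = 0 ∧ c = 0) ∧ b' = 0 ∧ c' = 0) := by
  simp only [rowOfPlanes, Prod.mk.injEq]

/-- candidates for neighbours -/
def nbs (v : ℤ × ℤ × ℤ) : Finset (ℤ × ℤ × ℤ) :=
  {(v.1, v.2.1, v.2.2 + 1), (v.1, v.2.1, v.2.2 - 1), (v.1, v.2.1 + 1, v.2.2),
    (v.1, v.2.1 - 1, v.2.2), (v.1 + 1, v.2.1, v.2.2), (v.1 - 1, v.2.1, v.2.2)}

theorem mem_nbs (u v : ℤ × ℤ × ℤ) (h : rowOfPlanes.Adj u v) : v ∈ nbs u := by
  obtain ⟨a, b, c⟩ := u
  obtain ⟨a', b', c'⟩ := v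
  simp only [rowOfPlanes, nbs, Finset.mem_insert, Finset.mem_singleton, Prod.mk.injEq] at *
  omega

theorem card_nbs (v : ℤ × ℤ × ℤ) : (nbs v).card ≤ 6 := by
  unfold nbs; exact Finset.card_le_six

theorem loc_fin (v : ℤ × ℤ × ℤ) : (rowOfPlanes.neighborSet v).Finite :=
  (nbs v).finite_toSet.subset (fun w hw => mem_nbs v w hw)

theorem degree_le (v : ℤ × ℤ × ℤ) : (rowOfPlanes.neighborSet v).encard ≤ 6 := by
  calc (rowOfPlanes.neighborSet v).encard ≤ ((nbs v : Finset _) : Set (ℤ × ℤ × ℤ)).encard :=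
        Set.encard_le_encard (fun w hw => mem_nbs v w hw)
    _ = ((nbs v).card : ℕ∞) := Set.encard_coe_eq_coe_finsetCard _
    _ ≤ 6 := by exact_mod_cast card_nbs v

/-- The plane over `x`. -/
def plane (x : ℤ) : Set (ℤ × ℤ × ℤ) := {v | v.1 = x}

theorem plane_reach (x y z : ℤ) :
    (rowOfPlanes.induce (plane x)).Reachable ⟨(x, 0, 0), rfl⟩ ⟨(x, y, z), rfl⟩ := by
  have hz : ∀ z : ℤ, (rowOfPlanes.induce (plane x)).Reachable ⟨(x, 0, 0), rfl⟩ ⟨(x, 0, z), rfl⟩ := by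
    intro z
    induction z using Int.induction_on with
    | zero => exact SimpleGraph.Reachable.refl _
    | succ n ih =>
      refine ih.trans (SimpleGraph.Adj.reachable ?_)
      show rowOfPlanes.Adj (x, 0, (n : ℤ)) (x, 0, (n : ℤ) + 1)
      rw [adj_iff]; omega
    | pred n ih =>
      refine ih.trans (SimpleGraph.Adj.reachable ?_)
      show rowOfPlanes.Adj (x, 0, -(n : ℤ)) (x, 0, -(n : ℤ) - 1)
      rw [adj_iff]; omega
  refine (hz z).trans ?_
  induction y using Int.induction_on with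
  | zero => exact SimpleGraph.Reachable.refl _
  | succ n ih =>
    refine ih.trans (SimpleGraph.Adj.reachable ?_)
    show rowOfPlanes.Adj (x, (n : ℤ), z) (x, (n : ℤ) + 1, z)
    rw [adj_iff]; omega
  | pred n ih =>
    refine ih.trans (SimpleGraph.Adj.reachable ?_)
    show rowOfPlanes.Adj (x, -(n : ℤ), z) (x, -(n : ℤ) - 1, z)
    rw [adj_iff]; omega

theorem plane_connected (x : ℤ) : (rowOfPlanes.induce (plane x)).Connected := by
  rw [SimpleGraph.connected_iff_exists_forall_reachable]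
  refine ⟨⟨(x, 0, 0), rfl⟩, ?_⟩
  rintro ⟨⟨a, y, z⟩, h⟩
  have h' : a = x := h
  subst h'
  exact plane_reach a y z

theorem plane_infinite (x : ℤ) : (plane x).Infinite := by
  have hinj : Function.Injective (fun n : ℕ => ((x, (n : ℤ), (0 : ℤ)) : ℤ × ℤ × ℤ)) := by
    intro a b h
    simp only [Prod.mk.injEq] at h
    omega
  refine (Set.infinite_range_of_injective hinj).mono ?_
  rintro _ ⟨n, rfl⟩
  rfl

theorem row_connected : rowOfPlanes.Connected := by
  rw [SimpleGraph.connected_iff_exists_forall_reachable]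
  refine ⟨(0, 0, 0), ?_⟩
  rintro ⟨x, y, z⟩
  have hx : ∀ x : ℤ, rowOfPlanes.Reachable (0, 0, 0) (x, 0, 0) := by
    intro x
    induction x using Int.induction_on with
    | zero => exact SimpleGraph.Reachable.refl _
    | succ n ih =>
      refine ih.trans (SimpleGraph.Adj.reachable ?_)
      rw [adj_iff]; omega
    | pred n ih =>
      refine ih.trans (SimpleGraph.Adj.reachable ?_)
      rw [adj_iff]; omega
  exact (hx x).trans ((plane_reach x y z).map (SimpleGraph.Embedding.induce (plane x)).toHom)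

theorem walk_bound (u v : ℤ × ℤ × ℤ) (p : rowOfPlanes.Walk u v) :
    |v.1 - u.1| ≤ p.length ∧ |v.2.1 - u.2.1| ≤ p.length ∧ |v.2.2 - u.2.2| ≤ p.length := by
  induction p with
  | nil => simp
  | @cons u v w h p ih =>
    obtain ⟨a, b, c⟩ := u
    obtain ⟨a', b', c'⟩ := v
    obtain ⟨a'', b'', c''⟩ := w
    rw [adj_iff] at h
    rw [SimpleGraph.Walk.length_cons]
    simp only [abs_le] at *
    push_cast
    omega

theorem ball_subset (v : ℤ × ℤ × ℤ) (n : ℕ) : {w | rowOfPlanes.dist v w ≤ n} ⊆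
    ((Finset.Icc (v.1 - n) (v.1 + n) ×ˢ (Finset.Icc (v.2.1 - n) (v.2.1 + n) ×ˢ
      Finset.Icc (v.2.2 - n) (v.2.2 + n)) : Finset (ℤ × ℤ × ℤ)) : Set (ℤ × ℤ × ℤ)) := by
  intro w hw
  obtain ⟨p, hp⟩ := row_connected.exists_walk_length_eq_dist v w
  have h := walk_bound v w p
  rw [hp] at h
  have hw' : rowOfPlanes.dist v w ≤ n := hw
  simp only [Finset.coe_product, Finset.coe_Icc, Set.mem_prod, Set.mem_Icc, abs_le] at *
  omega

theorem ball_finite (v : ℤ × ℤ × ℤ) (n : ℕ) : {w | rowOfPlanes.dist v w ≤ n}.Finite :=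
  (Finset.finite_toSet _).subset (ball_subset v n)

theorem ball_encard (v : ℤ × ℤ × ℤ) (n : ℕ) (hn : 1 ≤ n) :
    {w | rowOfPlanes.dist v w ≤ n}.encard ≤ ((27 * n ^ 3 : ℕ) : ℕ∞) := by
  refine (Set.encard_le_encard (ball_subset v n)).trans ?_
  rw [Set.encard_coe_eq_coe_finsetCard]
  rw [Finset.card_product, Finset.card_product]
  simp only [Int.card_Icc]
  have h1 : ∀ a : ℤ, (a + n + 1 - (a - n)).toNat = 2 * n + 1 := by intro a; omega
  rw [h1, h1, h1]
  have h2 : (2 * n + 1) * ((2 * n + 1) * (2 * n + 1)) ≤ 27 * n ^ 3 := by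
    calc (2 * n + 1) * ((2 * n + 1) * (2 * n + 1)) ≤ (3 * n) * ((3 * n) * (3 * n)) := by
          gcongr <;> omega
      _ = 27 * n ^ 3 := by ring
  exact_mod_cast h2

theorem iso_card (S : Finset (ℤ × ℤ × ℤ)) : S.card ≤ (bdry rowOfPlanes S).ncard ^ 2 := by
  classical
  have hfin : (bdry rowOfPlanes S).Finite := S.finite_toSet.subset (fun v hv => hv.1)
  -- the highest point of `S` above `v` in the third and in the second coordinate
  have hz : ∀ v ∈ S, ∃ z : ℤ, (v.1, v.2.1, z) ∈ bdry rowOfPlanes S := by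
    intro v hv
    set Z : Finset ℤ := (S.filter (fun w => w.1 = v.1 ∧ w.2.1 = v.2.1)).image (fun w => w.2.2) with hZ
    have hne : Z.Nonempty := ⟨v.2.2, by
      rw [hZ]; exact Finset.mem_image_of_mem _ (Finset.mem_filter.2 ⟨hv, rfl, rfl⟩)⟩
    have hmax := Z.max'_mem hne
    set m := Z.max' hne with hm
    have hmS : (v.1, v.2.1, m) ∈ S := by
      rw [hZ, Finset.mem_image] at hmax
      obtain ⟨w, hw, hwm⟩ := hmax
      rw [Finset.mem_filter] at hw
      have : w = (v.1, v.2.1, m) := by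
        obtain ⟨a, b, c⟩ := w
        simp only at hw hwm
        rw [hw.2.1, hw.2.2, hwm]
      rw [← this]; exact hw.1
    refine ⟨m, hmS, (v.1, v.2.1, m + 1), ?_, ?_⟩
    · intro hcon
      have h1 : m + 1 ∈ Z := by
        rw [hZ, Finset.mem_image]
        exact ⟨_, Finset.mem_filter.2 ⟨hcon, rfl, rfl⟩, rfl⟩
      have := Z.le_max' _ h1
      omega
    · left; simp
  have hy : ∀ v ∈ S, ∃ y : ℤ, (v.1, y, v.2.2) ∈ bdry rowOfPlanes S := by
    intro v hv
    set Z : Finset ℤ := (S.filter (fun w => w.1 = v.1 ∧ w.2.2 = v.2.2)).image (fun w => w.2.1) with hZ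
    have hne : Z.Nonempty := ⟨v.2.1, by
      rw [hZ]; exact Finset.mem_image_of_mem _ (Finset.mem_filter.2 ⟨hv, rfl, rfl⟩)⟩
    have hmax := Z.max'_mem hne
    set m := Z.max' hne with hm
    have hmS : (v.1, m, v.2.2) ∈ S := by
      rw [hZ, Finset.mem_image] at hmax
      obtain ⟨w, hw, hwm⟩ := hmax
      rw [Finset.mem_filter] at hw
      have : w = (v.1, m, v.2.2) := by
        obtain ⟨a, b, c⟩ := w
        simp only at hw hwm
        rw [hw.2.1, hw.2.2, hwm]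
      rw [← this]; exact hw.1
    refine ⟨m, hmS, (v.1, m + 1, v.2.2), ?_, ?_⟩
    · intro hcon
      have h1 : m + 1 ∈ Z := by
        rw [hZ, Finset.mem_image]
        exact ⟨_, Finset.mem_filter.2 ⟨hcon, rfl, rfl⟩, rfl⟩
      have := Z.le_max' _ h1
      omega
    · right; left; simp
  -- the map `v ↦ (highest in column, highest in row)` is injective
  let f : ℤ × ℤ × ℤ → (ℤ × ℤ × ℤ) × (ℤ × ℤ × ℤ) := fun v =>
    if hv : v ∈ S then ((v.1, v.2.1, (hz v hv).choose), (v.1, (hy v hv).choose, v.2.2)) else (v, v)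
  have hf : ∀ v (hv : v ∈ S), f v =
      ((v.1, v.2.1, (hz v hv).choose), (v.1, (hy v hv).choose, v.2.2)) := by
    intro v hv; simp only [f, dif_pos hv]
  have hmaps : ∀ v ∈ S, f v ∈ hfin.toFinset ×ˢ hfin.toFinset := by
    intro v hv
    rw [hf v hv, Finset.mem_product]
    exact ⟨hfin.mem_toFinset.2 (hz v hv).choose_spec, hfin.mem_toFinset.2 (hy v hv).choose_spec⟩
  have hinj : Set.InjOn f S := by
    intro v hv w hw h
    rw [hf v hv, hf w hw] at h
    simp only [Prod.mk.injEq] at h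
    obtain ⟨a, b, c⟩ := v
    obtain ⟨a', b', c'⟩ := w
    simp only at h
    simp only [Prod.mk.injEq]
    exact ⟨h.1.1, h.1.2.1, h.2.2.2⟩
  have := Finset.card_le_card_of_injOn f hmaps hinj
  rw [Finset.card_product] at this
  rw [Set.ncard_eq_toFinset_card _ hfin, sq]
  exact this

theorem iso_two : Isoperimetric rowOfPlanes 2 := by
  refine ⟨1, one_pos, fun S => ?_⟩
  have h := iso_card S
  have h2 : (S.card : ℝ) ≤ ((bdry rowOfPlanes S).ncard : ℝ) ^ 2 := by exact_mod_cast h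
  have e : ((2 : ℝ) - 1) / 2 = 1 / 2 := by norm_num
  rw [one_mul, e, ← Real.sqrt_eq_rpow]
  exact Real.sqrt_le_iff.2 ⟨by positivity, h2⟩

theorem iso_dim : 1 < isoDim rowOfPlanes := by
  have h : ENNReal.ofReal 2 ≤ isoDim rowOfPlanes := by
    unfold isoDim
    exact le_iSup₂_of_le (f := fun (d : ℝ) (_ : 1 ≤ d ∧ Isoperimetric rowOfPlanes d) =>
      ENNReal.ofReal d) 2 ⟨by norm_num, iso_two⟩ le_rfl
  refine lt_of_lt_of_le ?_ h
  rw [← ENNReal.ofReal_one]
  exact (ENNReal.ofReal_lt_ofReal_iff (by norm_num)).2 (by norm_num)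

/-- If the point of the axis in a plane carries a seed, then the whole plane is `FPP_λ`. -/
theorem plane_lam (o : ℤ × ℤ × ℤ) (ω : Env (ℤ × ℤ × ℤ)) (x : ℤ) (hx : x ≠ o.1)
    (hs : ω.1 (x, 0, 0) = true) (n : ℕ) (v : ℤ × ℤ × ℤ) (t : ℝ) (i : Kind)
    (h : run rowOfPlanes o ω n v = some (t, i)) : v.1 = x → i = Kind.lam := by
  refine run_induction rowOfPlanes o ω (fun v _ i => v.1 = x → i = Kind.lam) ?_ ?_ n v t i h
  · intro h; exact absurd h.symm hx
  · intro u v t i hu hadj hv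
    by_cases hseed : ω.1 v = true
    · simp [hseed]
    · have hne : v ≠ (x, 0, 0) := by
        rintro rfl; exact hseed hs
      have hux : u.1 = x := by
        obtain ⟨a, b, c⟩ := u
        obtain ⟨a', b', c'⟩ := v
        simp only [rowOfPlanes, Prod.mk.injEq, ne_eq] at *
        omega
      simp only [hseed]
      simpa using hu hux

theorem lam_survives (o : ℤ × ℤ × ℤ) {lam μ : ℝ} (hlam : 0 < lam) (h0 : 0 < μ) (h1 : μ < 1) :
    ∀ᵐ ω ∂(law (ℤ × ℤ × ℤ) lam μ), (∀ v, ∃ i, Occ rowOfPlanes o ω i v) ∧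
      Survives rowOfPlanes o ω Kind.lam := by
  have := coin_prob h0 h1
  have := isProbabilityMeasure_expMeasure hlam
  have := isProbabilityMeasure_expMeasure (r := 1) one_pos
  set δ : ℝ := 1 / (12 * (1 + lam)) with hδdef
  have hδ : 0 < δ := by positivity
  have hsmall : ((6 : ℕ) : ℝ) * ((1 + lam) * δ) ≤ 1 / 2 := by
    rw [hδdef]; push_cast
    have : (1 + lam) * (1 / (12 * (1 + lam))) = 1 / 12 := by field_simp
    rw [this]; norm_num
  have hc : ∀ᵐ T ∂(timeLaw (ℤ × ℤ × ℤ) lam), ∀ v, ∀ s : (ℤ × ℤ × ℤ) → Bool,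
      {w | (fastGraph rowOfPlanes ((s, T) : Env (ℤ × ℤ × ℤ)) δ).Reachable v w}.Finite := by
    rw [ae_all_iff]
    intro v
    exact fast_cluster rowOfPlanes nbs mem_nbs 6 card_nbs ball_finite hlam hδ.le hsmall v
  have hn := times_nonneg (V := ℤ × ℤ × ℤ) hlam
  have hseed := exists_seed (V := ℤ × ℤ × ℤ) h0 h1 (fun k : ℕ => (o.1 + 1 + k, 0, 0)) (by
    intro a b h; simp only [Prod.mk.injEq] at h; omega)
  have e1 : ∀ᵐ ω ∂(law (ℤ × ℤ × ℤ) lam μ), ∃ k : ℕ, ω.1 (o.1 + 1 + k, 0, 0) = true :=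
    Measure.quasiMeasurePreserving_fst.ae hseed
  have e2 : ∀ᵐ ω ∂(law (ℤ × ℤ × ℤ) lam μ), (∀ v, ∀ s : (ℤ × ℤ × ℤ) → Bool,
      {w | (fastGraph rowOfPlanes ((s, ω.2) : Env (ℤ × ℤ × ℤ)) δ).Reachable v w}.Finite) ∧
      ∀ e, 0 ≤ (ω.2 e).1 ∧ 0 ≤ (ω.2 e).2 :=
    Measure.quasiMeasurePreserving_snd.ae (hc.and hn)
  filter_upwards [e1, e2] with ω hω1 hω2
  obtain ⟨k, hk⟩ := hω1
  have hocc := all_occupied rowOfPlanes o ω row_connected loc_fin hδ hω2.2
    (fun v => hω2.1 v ω.1)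
  refine ⟨fun v => ?_, plane (o.1 + 1 + k), plane_infinite _, plane_connected _, ?_⟩
  · obtain ⟨n, ⟨t, i⟩, hn⟩ := hocc v
    exact ⟨i, n, t, hn⟩
  intro v hv
  obtain ⟨n, ⟨t, i⟩, hn⟩ := hocc v
  have hi := plane_lam o ω (o.1 + 1 + k) (by omega) hk n v t i hn hv
  rw [hi] at hn
  exact ⟨n, t, hn⟩

theorem no_strong (o : ℤ × ℤ × ℤ) : ¬ HasStrongSurvival rowOfPlanes o := by
  rintro ⟨lam, μ, hlam, h0, h1, hpos⟩
  have h := lam_survives o hlam h0 h1
  rw [ae_iff] at h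
  have h2 : law (ℤ × ℤ × ℤ) lam μ {ω | Survives rowOfPlanes o ω Kind.one ∧
      ¬ Survives rowOfPlanes o ω Kind.lam} = 0 :=
    le_antisymm ((measure_mono (fun ω hω hcon => hω.2 hcon.2)).trans h.le) zero_le
  rw [h2] at hpos
  exact lt_irrefl _ hpos

end Pool.Agent.H563R3.FPP
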