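import Mathlib

set_option autoImplicit false
open MeasureTheory ProbabilityTheory Filter Topology
open scoped ENNReal

namespace Pool.Agent.H563R3

/-- A measurable function which depends only on the coordinates in `S` is measurable with respect
to the sigma-algebra generated by these coordinates. -/
theorem measurable_of_dependsOn {ι : Type*} {X : ι → Type*} [∀ i, MeasurableSpace (X i)]
    [∀ i, Nonempty (X i)] {β : Type*} [MeasurableSpace β] {S : Set ι} {f : (∀ i, X i) → β}
    (hf : Measurable f) (hS : ∀ ω ω', (∀ i ∈ S, ω i = ω' i) → f ω = f ω') :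
    Measurable[⨆ i ∈ S, MeasurableSpace.comap (fun ω : ∀ i, X i => ω i) inferInstance] f := by
  classical
  have x0 : ∀ i, X i := fun i => Classical.arbitrary (X i)
  set patch : (∀ i, X i) → (∀ i, X i) := fun ω i => if i ∈ S then ω i else x0 i with hp
  have hfp : f = f ∘ patch := by
    funext ω
    apply hS
    intro i hi
    simp [hp, hi]
  have hm : @Measurable _ _ (⨆ i ∈ S, MeasurableSpace.comap (fun ω : ∀ i, X i => ω i) inferInstance)
      MeasurableSpace.pi patch := by
    rw [@measurable_pi_iff _ _ _ (_) _ patch]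
    intro i
    by_cases hi : i ∈ S
    · have h1 : (fun ω => patch ω i) = (fun ω : ∀ i, X i => ω i) := by
        funext ω; simp [hp, hi]
      rw [h1]
      have h2 : MeasurableSpace.comap (fun ω : ∀ i, X i => ω i) inferInstance ≤
          ⨆ i ∈ S, MeasurableSpace.comap (fun ω : ∀ i, X i => ω i) inferInstance :=
        le_iSup₂_of_le i hi le_rfl
      exact (comap_measurable (fun ω : ∀ i, X i => ω i)).mono h2 le_rfl
    · have h1 : (fun ω => patch ω i) = (fun _ => x0 i) := by
        funext ω; simp [hp, hi]
      rw [h1]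
      exact @measurable_const _ _ _ (_) _
  rw [hfp]
  exact hf.comp hm

/-- Functions of disjoint sets of coordinates are independent. -/
theorem indep_of_dependsOn {ι : Type*} {X : ι → Type*} [∀ i, MeasurableSpace (X i)]
    [∀ i, Nonempty (X i)] (μ : ∀ i, Measure (X i)) [∀ i, IsProbabilityMeasure (μ i)]
    {β γ : Type*} [MeasurableSpace β] [MeasurableSpace γ] {S T : Set ι} (hST : Disjoint S T)
    {f : (∀ i, X i) → β} {g : (∀ i, X i) → γ} (hf : Measurable f) (hg : Measurable g)
    (hS : ∀ ω ω', (∀ i ∈ S, ω i = ω' i) → f ω = f ω')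
    (hT : ∀ ω ω', (∀ i ∈ T, ω i = ω' i) → g ω = g ω') :
    IndepFun f g (Measure.infinitePi μ) := by
  have h1 : iIndepFun (fun i (ω : ∀ i, X i) => ω i) (Measure.infinitePi μ) :=
    iIndepFun_infinitePi (X := fun i ω => ω) (fun i => measurable_id)
  have h2 : iIndep (fun i => MeasurableSpace.comap (fun ω : ∀ i, X i => ω i) inferInstance)
      (Measure.infinitePi μ) := (iIndepFun_iff_iIndep _ _ _).1 h1
  have h3 := indep_iSup_of_disjoint (fun i => (measurable_pi_apply i).comap_le) h2 hST
  rw [IndepFun_iff_Indep]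
  refine indep_of_indep_of_le_left (indep_of_indep_of_le_right h3 ?_) ?_
  · exact (measurable_of_dependsOn hg hT).comap_le
  · exact (measurable_of_dependsOn hf hS).comap_le

/-- Expectation of `g (Bin(n, 1/2))`. -/
noncomputable def binE : ℕ → (ℕ → ℝ≥0∞) → ℝ≥0∞
  | 0, g => g 0
  | n + 1, g => (binE n (fun k => g (k + 1)) + binE n g) / 2

theorem binE_pow (n : ℕ) (c z : ℝ≥0∞) :
    binE n (fun k => c * z ^ k) = c * ((1 + z) / 2) ^ n := by
  induction n generalizing c with
  | zero => simp [binE]
  | succ n ih =>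
    simp only [binE]
    have h1 : (fun k => c * z ^ (k + 1)) = (fun k => (c * z) * z ^ k) := by
      funext k; ring
    rw [h1, ih, ih, pow_succ, ENNReal.div_eq_inv_mul, ENNReal.div_eq_inv_mul]
    ring

theorem binE_add (n : ℕ) (c : ℝ≥0∞) : binE n (fun k => (k : ℝ≥0∞) + c) = (n : ℝ≥0∞) / 2 + c := by
  induction n generalizing c with
  | zero => simp [binE]
  | succ n ih =>
    simp only [binE]
    have h1 : (fun k : ℕ => ((k + 1 : ℕ) : ℝ≥0∞) + c) = (fun k : ℕ => (k : ℝ≥0∞) + (1 + c)) := by
      funext k; push_cast; ring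
    rw [h1, ih, ih]
    have h2 : (n : ℝ≥0∞) / 2 + (1 + c) + ((n : ℝ≥0∞) / 2 + c) = (n + 1) + 2 * c := by
      have h3 : (n : ℝ≥0∞) / 2 + (n : ℝ≥0∞) / 2 = n := ENNReal.add_halves _
      calc (n : ℝ≥0∞) / 2 + (1 + c) + ((n : ℝ≥0∞) / 2 + c)
          = ((n : ℝ≥0∞) / 2 + (n : ℝ≥0∞) / 2) + 1 + 2 * c := by ring
        _ = _ := by rw [h3]
    rw [h2, ENNReal.add_div]
    congr 1
    · push_cast; rfl
    · rw [mul_comm, ENNReal.mul_div_cancel_right (by simp) (by simp)]

/-- The number of successes of independent fair trials indexed by a finite set. -/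
theorem binE_field {ι Y : Type*} [MeasurableSpace Y] [Nonempty Y] (μ : ι → Measure Y)
    [∀ i, IsProbabilityMeasure (μ i)] {E : Set Y} (hE : MeasurableSet E)
    (hhalf : ∀ i, μ i E = 1 / 2) (S : Finset ι) (g : ℕ → ℝ≥0∞) [DecidablePred (· ∈ E)] :
    ∫⁻ x, g ((S.filter (fun i => x i ∈ E)).card) ∂(Measure.infinitePi μ) = binE S.card g := by
  classical
  have hmeas : ∀ S : Finset ι, Measurable (fun x : ι → Y => (S.filter (fun i => x i ∈ E)).card) := by
    intro S
    have : (fun x : ι → Y => (S.filter (fun i => x i ∈ E)).card) =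
        fun x => ∑ i ∈ S, if x i ∈ E then 1 else 0 := by
      funext x; rw [Finset.card_filter]
    rw [this]
    refine Finset.measurable_sum S (fun i _ => ?_)
    exact Measurable.ite ((measurable_pi_apply i) hE) measurable_const measurable_const
  have hcompl : ∀ i, μ i Eᶜ = 1 / 2 := by
    intro i
    rw [prob_compl_eq_one_sub hE, hhalf]
    simp
  induction S using Finset.induction_on generalizing g with
  | empty => simp [binE]
  | insert a S ha ih =>
    rw [Finset.card_insert_of_notMem ha]
    simp only [binE]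
    have hind : IndepFun (fun x : ι → Y => (S.filter (fun i => x i ∈ E)).card)
        (fun x : ι → Y => x a) (Measure.infinitePi μ) := by
      refine indep_of_dependsOn μ (S := (S : Set ι)) (T := {a}) ?_ (hmeas S)
        (measurable_pi_apply a) ?_ ?_
      · simpa using ha
      · intro ω ω' h
        have : S.filter (fun i => ω i ∈ E) = S.filter (fun i => ω' i ∈ E) := by
          apply Finset.filter_congr
          intro i hi
          rw [h i hi]
        rw [this]
      · intro ω ω' h; exact h a rfl
    have hcard : ∀ x : ι → Y, (((insert a S).filter (fun i => x i ∈ E)).card) =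
        if x a ∈ E then (S.filter (fun i => x i ∈ E)).card + 1
        else (S.filter (fun i => x i ∈ E)).card := by
      intro x
      rw [Finset.filter_insert]
      split_ifs with h
      · rw [Finset.card_insert_of_notMem]
        intro hcon
        exact ha (Finset.mem_filter.1 hcon).1
      · rfl
    have hsplit : ∀ x : ι → Y, g (((insert a S).filter (fun i => x i ∈ E)).card) =
        (fun k => g (k + 1)) ((S.filter (fun i => x i ∈ E)).card) * E.indicator 1 (x a) +
        g ((S.filter (fun i => x i ∈ E)).card) * Eᶜ.indicator 1 (x a) := by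
      intro x
      rw [hcard x]
      by_cases h : x a ∈ E
      · simp [h]
      · simp [h]
    have hg : ∀ g : ℕ → ℝ≥0∞, Measurable g := fun g => Measurable.of_discrete
    have hm1 : Measurable (fun y : Y => E.indicator (1 : Y → ℝ≥0∞) y) := measurable_one.indicator hE
    have hm2 : Measurable (fun y : Y => Eᶜ.indicator (1 : Y → ℝ≥0∞) y) :=
      measurable_one.indicator hE.compl
    have mA : Measurable (fun x : ι → Y => (fun k => g (k + 1)) ((S.filter (fun i => x i ∈ E)).card)
        * E.indicator (1 : Y → ℝ≥0∞) (x a)) :=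
      ((hg (fun k => g (k + 1))).comp (hmeas S)).mul (hm1.comp (measurable_pi_apply a))
    have e1 : ∫⁻ x, (fun k => g (k + 1)) ((S.filter (fun i => x i ∈ E)).card) *
        E.indicator 1 (x a) ∂(Measure.infinitePi μ) =
        (∫⁻ x, (fun k => g (k + 1)) ((S.filter (fun i => x i ∈ E)).card) ∂(Measure.infinitePi μ)) *
        ∫⁻ x, E.indicator 1 (x a) ∂(Measure.infinitePi μ) :=
      lintegral_mul_eq_lintegral_mul_lintegral_of_indepFun
        ((hg (fun k => g (k + 1))).comp (hmeas S)) (hm1.comp (measurable_pi_apply a))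
        (hind.comp (hg (fun k => g (k + 1))) hm1)
    have e2 : ∫⁻ x, g ((S.filter (fun i => x i ∈ E)).card) *
        Eᶜ.indicator 1 (x a) ∂(Measure.infinitePi μ) =
        (∫⁻ x, g ((S.filter (fun i => x i ∈ E)).card) ∂(Measure.infinitePi μ)) *
        ∫⁻ x, Eᶜ.indicator 1 (x a) ∂(Measure.infinitePi μ) :=
      lintegral_mul_eq_lintegral_mul_lintegral_of_indepFun
        ((hg _).comp (hmeas S)) (hm2.comp (measurable_pi_apply a)) (hind.comp (hg _) hm2)
    have e3 : ∫⁻ x, E.indicator 1 (x a) ∂(Measure.infinitePi μ) = 1 / 2 := by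
      rw [← hhalf a, ← Measure.infinitePi_map_eval μ a, ← lintegral_indicator_one hE,
        lintegral_map hm1 (measurable_pi_apply a)]
    have e4 : ∫⁻ x, Eᶜ.indicator 1 (x a) ∂(Measure.infinitePi μ) = 1 / 2 := by
      rw [← hcompl a, ← Measure.infinitePi_map_eval μ a, ← lintegral_indicator_one hE.compl,
        lintegral_map hm2 (measurable_pi_apply a)]
    calc ∫⁻ x, g (((insert a S).filter (fun i => x i ∈ E)).card) ∂(Measure.infinitePi μ)
        = ∫⁻ x, ((fun k => g (k + 1)) ((S.filter (fun i => x i ∈ E)).card) *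
            E.indicator (1 : Y → ℝ≥0∞) (x a) +
            g ((S.filter (fun i => x i ∈ E)).card) * Eᶜ.indicator (1 : Y → ℝ≥0∞) (x a))
            ∂(Measure.infinitePi μ) := lintegral_congr hsplit
      _ = _ := lintegral_add_left mA _
      _ = (binE S.card fun k => g (k + 1)) * (1 / 2) + (binE S.card g) * (1 / 2) := by
          rw [e1, e2, e3, e4, ih g]
          rw [ih (fun k => g (k + 1))]
      _ = ((binE S.card fun k => g (k + 1)) + binE S.card g) / 2 := by
          rw [one_div, div_eq_mul_inv]; ring

end Pool.Agent.H563R3
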