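import Mathlib

set_option autoImplicit false
open MeasureTheory ProbabilityTheory Filter Topology
open scoped ENNReal

namespace Pool.Agent.H563R3.Park

/-- A graph, a kernel and a group of permutations of the vertices. -/
structure Triple (V : Type) where
  /-- the graph -/
  G : SimpleGraph V
  /-- the kernel: `K u` is the law of a step from `u` -/
  K : V → PMF V
  /-- the group -/
  Γ : Subgroup (Equiv.Perm V)

/-- The vertex `u` is accessible from `v`. -/
def Accessible {V : Type} (T : Triple V) (v u : V) : Prop :=
  Relation.ReflTransGen (fun x y => T.G.Adj x y ∧ T.K x y ≠ 0) v u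

/-- The standing assumptions: infinite, connected, locally finite graph, nearest neighbour kernel,
group of kernel preserving automorphisms which is transitive, unimodular, and infinitely
accessible. -/
structure Triple.Valid {V : Type} (T : Triple V) : Prop where
  infinite : Infinite V
  connected : T.G.Connected
  locallyFinite : ∀ v, (T.G.neighborSet v).Finite
  support : ∀ u v, ¬ T.G.Adj u v → T.K u v = 0
  aut_adj : ∀ φ ∈ T.Γ, ∀ u v, T.G.Adj (φ u) (φ v) ↔ T.G.Adj u v
  aut_kernel : ∀ φ ∈ T.Γ, ∀ u v, T.K (φ u) (φ v) = T.K u v
  transitive : ∀ u v, ∃ φ ∈ T.Γ, φ u = v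
  unimodular : ∀ u v, {w | ∃ φ ∈ T.Γ, φ u = u ∧ φ v = w}.Finite ∧
    {w | ∃ φ ∈ T.Γ, φ u = u ∧ φ v = w}.ncard = {w | ∃ φ ∈ T.Γ, φ v = v ∧ φ u = w}.ncard
  infinitelyAccessible : ∃ φ ∈ T.Γ, ∃ u, {w | ∃ n : ℕ, (φ ^ n) u = w}.Infinite ∧
    Accessible T (φ u) u

/-- The randomness attached to a vertex `v`: whether it holds a car initially, and for all `t, j`
the vertex to which the `j`-th unparked car which is at `v` at time `t` moves. -/
abbrev Loc (V : Type) := Bool × (ℕ × ℕ → V)

/-- The randomness of the parking process. -/
abbrev Env (V : Type) := V → Loc V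

/-- A coin with success probability `p`. -/
noncomputable def coinLaw (p : ℝ) : Measure Bool :=
  ENNReal.ofReal p • Measure.dirac true + ENNReal.ofReal (1 - p) • Measure.dirac false

/-- The law of the randomness at density `p`: cars with probability `p`, moves from `v` with law
`K v`, everything independent. -/
noncomputable def law {V : Type} [MeasurableSpace V] (T : Triple V) (p : ℝ) : Measure (Env V) :=
  Measure.infinitePi (fun v : V =>
    (coinLaw p).prod (Measure.infinitePi (fun _ : ℕ × ℕ => (T.K v).toMeasure)))

/-- The number of unparked cars moving to `v` between times `t` and `t + 1`, if there are `η u`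
unparked cars at `u` at time `t`. -/
noncomputable def arrivals {V : Type} (G : SimpleGraph V) (ω : Env V) (t : ℕ) (η : V → ℕ) (v : V) :
    ℕ :=
  {q : V × ℕ | G.Adj q.1 v ∧ q.2 < η q.1 ∧ (ω q.1).2 (t, q.2) = v}.ncard

/-- The state of the parking process at time `t`: the numbers of unparked cars, and which vertices
are free parking spots. If cars arrive at a free spot, exactly one of them parks. -/
noncomputable def state {V : Type} (G : SimpleGraph V) (ω : Env V) : ℕ → (V → ℕ) × (V → Bool)
  | 0 => (fun v => if (ω v).1 = true then 1 else 0, fun v => !(ω v).1)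
  | t + 1 =>
    (fun v => if (state G ω t).2 v = true then arrivals G ω t (state G ω t).1 v - 1
      else arrivals G ω t (state G ω t).1 v,
     fun v => (state G ω t).2 v && decide (arrivals G ω t (state G ω t).1 v = 0))

/-- The number of visits to `v` during the times `1, ..., t`. -/
noncomputable def visits {V : Type} (G : SimpleGraph V) (ω : Env V) (t : ℕ) (v : V) : ℕ :=
  ∑ s ∈ Finset.range t, arrivals G ω s (state G ω s).1 v

/-- The expected total number of visits to `v` at density `p`. -/
noncomputable def meanVisits {V : Type} [MeasurableSpace V] (T : Triple V) (p : ℝ) (v : V) :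
    ℝ≥0∞ :=
  ∫⁻ ω, (⨆ t, (visits T.G ω t v : ℝ≥0∞)) ∂(law T p)

end Pool.Agent.H563R3.Park
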