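import Mathlib
import Pool.Agent.H563R3.ParkDefs

set_option autoImplicit false
open MeasureTheory ProbabilityTheory Filter Topology
open scoped ENNReal symmDiff

namespace Pool.Agent.H563R3.Park

/-- The lamplighter group: a finite set of lit lamps and a position. -/
@[ext] structure Lamp where
  /-- lit lamps -/
  A : Finset ℤ
  /-- position -/
  n : ℤ
  deriving DecidableEq

/-- Translate of a finite set of integers. -/
def shift (B : Finset ℤ) (m : ℤ) : Finset ℤ := B.map (Equiv.addRight m).toEmbedding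

theorem mem_shift (B : Finset ℤ) (m i : ℤ) : i ∈ shift B m ↔ i - m ∈ B := by
  unfold shift
  rw [Finset.mem_map_equiv]
  simp [Equiv.addRight, sub_eq_add_neg]

/-- Multiplication of the lamplighter group. -/
instance : Mul Lamp := ⟨fun g h => ⟨g.A ∆ shift h.A g.n, g.n + h.n⟩⟩
instance : One Lamp := ⟨⟨∅, 0⟩⟩
instance : Inv Lamp := ⟨fun g => ⟨shift g.A (-g.n), -g.n⟩⟩

theorem mul_A (g h : Lamp) : (g * h).A = g.A ∆ shift h.A g.n := rfl
theorem mul_n (g h : Lamp) : (g * h).n = g.n + h.n := rfl
theorem one_A : (1 : Lamp).A = ∅ := rfl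
theorem one_n : (1 : Lamp).n = 0 := rfl
theorem inv_A (g : Lamp) : (g⁻¹).A = shift g.A (-g.n) := rfl
theorem inv_n (g : Lamp) : (g⁻¹).n = -g.n := rfl

/-- The lamplighter group is a group. -/
instance : Group Lamp := Group.ofLeftAxioms
  (by
    intro x y z
    ext i
    · simp only [mul_A, mul_n, Finset.mem_symmDiff, mem_shift]
      have : i - (x.n + y.n) = i - x.n - y.n := by ring
      rw [this]; tauto
    · simp only [mul_n]; ring)
  (by
    intro x
    ext i
    · simp only [mul_A, one_A, one_n, Finset.mem_symmDiff, mem_shift, sub_zero]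
      simp
    · simp only [mul_n, one_n]; ring)
  (by
    intro x
    ext i
    · simp only [mul_A, inv_A, inv_n, Finset.mem_symmDiff, mem_shift]
      simp [one_A]
    · simp only [mul_n, inv_n, one_n]; ring)

/-- Step to the right without switching the lamp. -/
def s0 (g : Lamp) : Lamp := ⟨g.A, g.n + 1⟩
/-- Switch the lamp and step to the right. -/
def s1 (g : Lamp) : Lamp := ⟨g.A ∆ {g.n}, g.n + 1⟩
/-- The inverse of `s0`. -/
def p0 (g : Lamp) : Lamp := ⟨g.A, g.n - 1⟩
/-- The inverse of `s1`. -/
def p1 (g : Lamp) : Lamp := ⟨g.A ∆ {g.n - 1}, g.n - 1⟩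

theorem s0_mul (g x : Lamp) : s0 (g * x) = g * s0 x := by
  ext i
  · simp only [s0, mul_A]
  · simp only [s0, mul_n]; ring

theorem s1_mul (g x : Lamp) : s1 (g * x) = g * s1 x := by
  ext i
  · simp only [s1, mul_A, mul_n, Finset.mem_symmDiff, mem_shift, Finset.mem_singleton]
    have : i = g.n + x.n ↔ i - g.n = x.n := by constructor <;> intro h <;> linarith
    rw [this]; tauto
  · simp only [s1, mul_n]; ring

theorem s0_eq (u v : Lamp) : s0 u = v ↔ u = p0 v := by
  constructor
  · rintro rfl; ext i <;> simp [s0, p0]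
  · rintro rfl; ext i <;> simp [s0, p0]

theorem s1_eq (u v : Lamp) : s1 u = v ↔ u = p1 v := by
  constructor
  · rintro rfl; ext i <;> simp [s1, p1]
  · rintro rfl; ext i <;> simp [s1, p1]

theorem s0_ne_s1 (u : Lamp) : s0 u ≠ s1 u := by
  intro h
  have h1 := congrArg Lamp.A h
  simp only [s0, s1] at h1
  have h2 : u.n ∈ u.A ↔ u.n ∈ u.A ∆ {u.n} := by rw [← h1]
  simp only [Finset.mem_symmDiff, Finset.mem_singleton] at h2
  tauto

theorem p0_ne_p1 (u : Lamp) : p0 u ≠ p1 u := by
  intro h
  have h1 := congrArg Lamp.A h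
  simp only [p0, p1] at h1
  have h2 : u.n - 1 ∈ u.A ↔ u.n - 1 ∈ u.A ∆ {u.n - 1} := by rw [← h1]
  simp only [Finset.mem_symmDiff, Finset.mem_singleton] at h2
  tauto

/-- The Diestel-Leader graph `DL(2,2)`: the Cayley graph of the lamplighter group. -/
def lampGraph : SimpleGraph Lamp where
  Adj g h := h = s0 g ∨ h = s1 g ∨ g = s0 h ∨ g = s1 h
  symm := ⟨fun g h hh => by tauto⟩
  loopless := ⟨by
    rintro g (h | h | h | h) <;>
    · have := congrArg Lamp.n h
      simp only [s0, s1] at this
      omega⟩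

/-- The directed kernel: from `g`, step to `s0 g` or `s1 g` with probability `1/2` each. -/
noncomputable def lampKernel (g : Lamp) : PMF Lamp :=
  (PMF.uniformOfFintype Bool).map (fun b => if b = true then s1 g else s0 g)

theorem lampKernel_s0 (g : Lamp) : lampKernel g (s0 g) = 1 / 2 := by
  unfold lampKernel
  rw [PMF.map_apply, tsum_fintype]
  simp [s0_ne_s1 g]

theorem lampKernel_s1 (g : Lamp) : lampKernel g (s1 g) = 1 / 2 := by
  unfold lampKernel
  rw [PMF.map_apply, tsum_fintype]
  simp [(s0_ne_s1 g).symm]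

theorem lampKernel_other (g h : Lamp) (h0 : h ≠ s0 g) (h1 : h ≠ s1 g) : lampKernel g h = 0 := by
  unfold lampKernel
  rw [PMF.map_apply, tsum_fintype]
  simp [h0, h1]

/-- The triple. -/
noncomputable def lampTriple : Triple Lamp where
  G := lampGraph
  K := lampKernel
  Γ := (MulAction.toPermHom Lamp Lamp).range

theorem mem_gamma (φ : Equiv.Perm Lamp) : φ ∈ lampTriple.Γ ↔ ∃ g : Lamp, ∀ x, φ x = g * x := by
  show φ ∈ (MulAction.toPermHom Lamp Lamp).range ↔ _
  rw [MonoidHom.mem_range]
  constructor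
  · rintro ⟨g, rfl⟩; exact ⟨g, fun x => rfl⟩
  · rintro ⟨g, hg⟩; exact ⟨g, by ext1 x; rw [hg]; rfl⟩

theorem adj_def (g h : Lamp) : lampGraph.Adj g h ↔ h = s0 g ∨ h = s1 g ∨ g = s0 h ∨ g = s1 h :=
  Iff.rfl

theorem kernel_equivariant (g x y : Lamp) : lampKernel (g * x) (g * y) = lampKernel x y := by
  by_cases h0 : y = s0 x
  · subst h0; rw [← s0_mul, lampKernel_s0, lampKernel_s0]
  · by_cases h1 : y = s1 x
    · subst h1; rw [← s1_mul, lampKernel_s1, lampKernel_s1]
    · rw [lampKernel_other x y h0 h1, lampKernel_other]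
      · rw [s0_mul]; intro h; exact h0 (mul_left_cancel h)
      · rw [s1_mul]; intro h; exact h1 (mul_left_cancel h)

theorem reach_pos (A : Finset ℤ) (m n : ℤ) : lampGraph.Reachable ⟨A, m⟩ ⟨A, n⟩ := by
  have h1 : ∀ k : ℕ, ∀ m : ℤ, lampGraph.Reachable ⟨A, m⟩ ⟨A, m + k⟩ := by
    intro k
    induction k with
    | zero => intro m; simp
    | succ k ih =>
      intro m
      refine (ih m).trans (SimpleGraph.Adj.reachable ?_)
      rw [adj_def]; left
      ext i <;> simp [s0]
      ring
  rcases le_total m n with h | h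
  · have := h1 (n - m).toNat m
    have e : m + ((n - m).toNat : ℤ) = n := by omega
    rwa [e] at this
  · have := h1 (m - n).toNat n
    have e : n + ((m - n).toNat : ℤ) = m := by omega
    rw [e] at this
    exact this.symm

theorem lamp_connected : lampGraph.Connected := by
  rw [SimpleGraph.connected_iff_exists_forall_reachable]
  refine ⟨⟨∅, 0⟩, ?_⟩
  rintro ⟨A, n⟩
  refine SimpleGraph.Reachable.trans ?_ (reach_pos A 0 n)
  induction A using Finset.induction_on with
  | empty => exact SimpleGraph.Reachable.refl _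
  | insert x A hx ih =>
    refine ih.trans ((reach_pos A 0 x).trans ?_)
    refine SimpleGraph.Reachable.trans (SimpleGraph.Adj.reachable (v := s1 ⟨A, x⟩) ?_) ?_
    · rw [adj_def]; right; left; rfl
    · have e : s1 ⟨A, x⟩ = ⟨insert x A, x + 1⟩ := by
        ext i
        · simp only [s1, Finset.mem_symmDiff, Finset.mem_singleton, Finset.mem_insert]
          constructor
          · tauto
          · rintro (rfl | h)
            · exact Or.inr ⟨rfl, hx⟩
            · left; refine ⟨h, ?_⟩; rintro rfl; exact hx h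
        · rfl
      rw [e]
      exact reach_pos _ _ _

theorem lamp_valid : lampTriple.Valid where
  infinite := by
    have : Function.Injective (fun n : ℤ => (⟨∅, n⟩ : Lamp)) := by
      intro a b h; simpa using h
    exact Infinite.of_injective _ this
  connected := lamp_connected
  locallyFinite := by
    intro v
    refine (({s0 v, s1 v, p0 v, p1 v} : Finset Lamp).finite_toSet).subset ?_
    intro w hw
    have hw' : lampGraph.Adj v w := hw
    rw [adj_def] at hw'
    simp only [Finset.coe_insert, Finset.coe_singleton, Set.mem_insert_iff, Set.mem_singleton_iff]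
    rcases hw' with h | h | h | h
    · exact Or.inl h
    · exact Or.inr (Or.inl h)
    · exact Or.inr (Or.inr (Or.inl ((s0_eq w v).1 h.symm)))
    · exact Or.inr (Or.inr (Or.inr ((s1_eq w v).1 h.symm)))
  support := by
    intro u v h
    have h' : ¬ lampGraph.Adj u v := h
    rw [adj_def] at h'
    push Not at h'
    exact lampKernel_other u v h'.1 h'.2.1
  aut_adj := by
    intro φ hφ u v
    obtain ⟨g, hg⟩ := (mem_gamma φ).1 hφ
    show lampGraph.Adj (φ u) (φ v) ↔ lampGraph.Adj u v
    rw [adj_def, adj_def, hg, hg, s0_mul, s1_mul, s0_mul, s1_mul]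
    simp only [mul_right_inj]
  aut_kernel := by
    intro φ hφ u v
    obtain ⟨g, hg⟩ := (mem_gamma φ).1 hφ
    rw [hg, hg]
    exact kernel_equivariant g u v
  transitive := by
    intro u v
    refine ⟨MulAction.toPermHom Lamp Lamp (v * u⁻¹), ⟨_, rfl⟩, ?_⟩
    show (v * u⁻¹) * u = v
    group
  unimodular := by
    have key : ∀ u v, {w | ∃ φ ∈ lampTriple.Γ, φ u = u ∧ φ v = w} = {v} := by
      intro u v
      ext w
      constructor
      · rintro ⟨φ, hφ, h1, h2⟩
        obtain ⟨g, hg⟩ := (mem_gamma φ).1 hφ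
        rw [hg] at h1 h2
        have : g = 1 := by
          have := mul_right_cancel (b := u) (a := g) (c := 1) (by rw [h1, one_mul])
          exact this
        rw [this, one_mul] at h2
        exact h2.symm
      · rintro rfl
        exact ⟨1, Subgroup.one_mem _, rfl, rfl⟩
    intro u v
    rw [key, key]
    simp
  infinitelyAccessible := by
    refine ⟨MulAction.toPermHom Lamp Lamp ⟨∅, -1⟩, ⟨_, rfl⟩, 1, ?_, ?_⟩
    · have h : ∀ n : ℕ, ((MulAction.toPermHom Lamp Lamp ⟨∅, -1⟩) ^ n) 1 = (⟨∅, -1⟩ : Lamp) ^ n := by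
        intro n
        rw [← map_pow]
        show (⟨∅, -1⟩ : Lamp) ^ n * 1 = _
        rw [mul_one]
      have hn : ∀ n : ℕ, ((⟨∅, -1⟩ : Lamp) ^ n).n = -n := by
        intro n
        induction n with
        | zero => rw [pow_zero]; simp [one_n]
        | succ n ih => rw [pow_succ, mul_n, ih]; push_cast; ring
      have hinj : Function.Injective (fun n : ℕ => (⟨∅, -1⟩ : Lamp) ^ n) := by
        intro a b hab
        have := congrArg Lamp.n hab
        simp only [hn] at this
        omega
      refine (Set.infinite_range_of_injective hinj).mono ?_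
      rintro _ ⟨n, rfl⟩
      exact ⟨n, h n⟩
    · refine Relation.ReflTransGen.single ⟨?_, ?_⟩
      · show lampGraph.Adj ((⟨∅, -1⟩ : Lamp) * 1) 1
        rw [mul_one, adj_def]; left
        ext i <;> simp [s0, one_A, one_n]
      · show lampKernel ((⟨∅, -1⟩ : Lamp) * 1) 1 ≠ 0
        have e : (1 : Lamp) = s0 ((⟨∅, -1⟩ : Lamp) * 1) := by
          rw [mul_one]
          ext i <;> simp [s0, one_A, one_n]
        have e2 : lampKernel ((⟨∅, -1⟩ : Lamp) * 1) 1 =
            lampKernel ((⟨∅, -1⟩ : Lamp) * 1) (s0 ((⟨∅, -1⟩ : Lamp) * 1)) := by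
          rw [← e]
        rw [e2, lampKernel_s0]
        simp

end Pool.Agent.H563R3.Park
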