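import Mathlib
import Pool.Agent.H563R3.Lamp
import Pool.Agent.H563R3.Indep

set_option autoImplicit false
open MeasureTheory ProbabilityTheory Filter Topology
open scoped ENNReal symmDiff

namespace Pool.Agent.H563R3.Park

instance : MeasurableSpace Lamp := ⊤
instance : DiscreteMeasurableSpace Lamp := ⟨fun _ => trivial⟩
instance : Countable Lamp := by
  have : Function.Injective (fun x : Lamp => (x.A, x.n)) := by
    intro x y h
    simp only [Prod.mk.injEq] at h
    exact Lamp.ext h.1 h.2
  exact this.countable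
instance : Nonempty Lamp := ⟨1⟩

/-- The number of the first `k` cars at `u` at time `t` which move to `v`. -/
def fl (ω : Env Lamp) (t k : ℕ) (u v : Lamp) : ℕ :=
  ((Finset.range k).filter (fun j => (ω u).2 (t, j) = v)).card

/-- Arrivals from the two in-neighbours. -/
def arr' (ω : Env Lamp) (t : ℕ) (η : Lamp → ℕ) (v : Lamp) : ℕ :=
  fl ω t (η (p0 v)) (p0 v) v + fl ω t (η (p1 v)) (p1 v) v

/-- The idealized process. -/
def state' (ω : Env Lamp) : ℕ → (Lamp → ℕ) × (Lamp → Bool)
  | 0 => (fun v => if (ω v).1 = true then 1 else 0, fun v => !(ω v).1)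
  | t + 1 =>
    (fun v => if (state' ω t).2 v = true then arr' ω t (state' ω t).1 v - 1
      else arr' ω t (state' ω t).1 v,
     fun v => (state' ω t).2 v && decide (arr' ω t (state' ω t).1 v = 0))

/-- arrivals at `v` between the times `t` and `t + 1` -/
def ar (v : Lamp) (t : ℕ) (ω : Env Lamp) : ℕ := arr' ω t (state' ω t).1 v

/-- Idealized visits. -/
def vis (v : Lamp) (t : ℕ) (ω : Env Lamp) : ℕ := ∑ s ∈ Finset.range t, ar v s ω

/-- The good event. -/
def Good (ω : Env Lamp) : Prop := ∀ u q, (ω u).2 q = s0 u ∨ (ω u).2 q = s1 u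

theorem arrivals_eq {ω : Env Lamp} (h : Good ω) (t : ℕ) (η : Lamp → ℕ) (v : Lamp) :
    arrivals lampGraph ω t η v = arr' ω t η v := by
  classical
  have h1 : {q : Lamp × ℕ | lampGraph.Adj q.1 v ∧ q.2 < η q.1 ∧ (ω q.1).2 (t, q.2) = v} =
      (((Finset.range (η (p0 v))).filter (fun j => (ω (p0 v)).2 (t, j) = v)).image
          (fun j => (p0 v, j)) ∪
        ((Finset.range (η (p1 v))).filter (fun j => (ω (p1 v)).2 (t, j) = v)).image
          (fun j => (p1 v, j)) : Finset (Lamp × ℕ)) := by
    ext ⟨u, j⟩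
    simp only [Set.mem_ofPred_eq, Finset.coe_union, Finset.coe_image, Finset.coe_filter,
      Finset.mem_range, Set.mem_union, Set.mem_image, Prod.mk.injEq]
    constructor
    · rintro ⟨_, h2, h3⟩
      rcases h u (t, j) with h4 | h4
      · rw [h3] at h4
        have h5 : u = p0 v := (s0_eq u v).1 h4.symm
        subst h5
        left; exact ⟨j, ⟨h2, h3⟩, rfl, rfl⟩
      · rw [h3] at h4
        have h5 : u = p1 v := (s1_eq u v).1 h4.symm
        subst h5
        right; exact ⟨j, ⟨h2, h3⟩, rfl, rfl⟩
    · rintro (⟨j', ⟨h2, h3⟩, rfl, rfl⟩ | ⟨j', ⟨h2, h3⟩, rfl, rfl⟩)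
      · refine ⟨?_, h2, h3⟩
        rw [adj_def]; left; exact ((s0_eq (p0 v) v).2 rfl).symm
      · refine ⟨?_, h2, h3⟩
        rw [adj_def]; right; left; exact ((s1_eq (p1 v) v).2 rfl).symm
  unfold arrivals
  rw [h1, Set.ncard_coe_finset, Finset.card_union_of_disjoint]
  · rw [Finset.card_image_of_injective _ (fun a b hab => (Prod.mk.inj hab).2),
      Finset.card_image_of_injective _ (fun a b hab => (Prod.mk.inj hab).2)]
    rfl
  · rw [Finset.disjoint_left]
    intro q hq1 hq2
    simp only [Finset.mem_image] at hq1 hq2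
    obtain ⟨a, _, ha⟩ := hq1
    obtain ⟨b, _, hb⟩ := hq2
    rw [← ha] at hb
    exact p0_ne_p1 v (Prod.mk.inj hb).1.symm

theorem state_eq {ω : Env Lamp} (h : Good ω) (t : ℕ) : state lampGraph ω t = state' ω t := by
  induction t with
  | zero => rfl
  | succ t ih =>
    unfold state state'
    rw [ih]
    have h1 : ∀ v, arrivals lampGraph ω t (state' ω t).1 v = arr' ω t (state' ω t).1 v :=
      fun v => arrivals_eq h t _ v
    simp only [h1]

theorem visits_eq {ω : Env Lamp} (h : Good ω) (t : ℕ) (v : Lamp) :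
    visits lampGraph ω t v = vis v t ω := by
  unfold visits vis ar
  refine Finset.sum_congr rfl (fun s _ => ?_)
  rw [state_eq h, arrivals_eq h]

/-! ### Dependence -/

/-- strict backward cone -/
def Back (v : Lamp) : Set Lamp := {w | w.n < v.n ∧ ∀ i, v.n ≤ i → (i ∈ w.A ↔ i ∈ v.A)}
/-- closed backward cone -/
def Cone (v : Lamp) : Set Lamp := {w | w.n ≤ v.n ∧ ∀ i, v.n ≤ i → (i ∈ w.A ↔ i ∈ v.A)}

theorem Back_sub_Cone (v : Lamp) : Back v ⊆ Cone v := fun _ h => ⟨h.1.le, h.2⟩

theorem self_mem_Cone (v : Lamp) : v ∈ Cone v := ⟨le_rfl, fun _ _ => Iff.rfl⟩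

theorem self_notMem_Back (v : Lamp) : v ∉ Back v := fun h => lt_irrefl _ h.1

theorem Cone_p0 (v : Lamp) : Cone (p0 v) ⊆ Back v := by
  rintro w ⟨h1, h2⟩
  simp only [p0] at h1 h2
  exact ⟨by omega, fun i hi => h2 i (by omega)⟩

theorem Cone_p1 (v : Lamp) : Cone (p1 v) ⊆ Back v := by
  rintro w ⟨h1, h2⟩
  simp only [p1] at h1 h2
  refine ⟨by omega, fun i hi => ?_⟩
  rw [h2 i (by omega)]
  simp only [Finset.mem_symmDiff, Finset.mem_singleton]
  have : i ≠ v.n - 1 := by omega
  tauto

theorem Cone_disjoint (v : Lamp) : Disjoint (Cone (p0 v)) (Cone (p1 v)) := by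
  rw [Set.disjoint_left]
  rintro w ⟨_, h2⟩ ⟨_, h4⟩
  simp only [p0, p1] at h2 h4
  have a := h2 (v.n - 1) le_rfl
  have b := h4 (v.n - 1) le_rfl
  rw [a] at b
  simp only [Finset.mem_symmDiff, Finset.mem_singleton] at b
  tauto

theorem dep (t : ℕ) : ∀ v (ω ω' : Env Lamp), (ω v).1 = (ω' v).1 → (∀ w ∈ Back v, ω w = ω' w) →
    (state' ω t).1 v = (state' ω' t).1 v ∧ (state' ω t).2 v = (state' ω' t).2 v := by
  induction t with
  | zero =>
    intro v ω ω' h _
    simp only [state', h]
    exact ⟨trivial, trivial⟩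
  | succ t ih =>
    intro v ω ω' h hB
    have e0 : ω (p0 v) = ω' (p0 v) := hB _ (Cone_p0 v (self_mem_Cone _))
    have e1 : ω (p1 v) = ω' (p1 v) := hB _ (Cone_p1 v (self_mem_Cone _))
    have i0 := ih (p0 v) ω ω' (by rw [e0]) (fun w hw => hB w (Cone_p0 v (Back_sub_Cone _ hw)))
    have i1 := ih (p1 v) ω ω' (by rw [e1]) (fun w hw => hB w (Cone_p1 v (Back_sub_Cone _ hw)))
    have ha : arr' ω t (state' ω t).1 v = arr' ω' t (state' ω' t).1 v := by
      unfold arr' fl
      rw [i0.1, i1.1, e0, e1]
    have hv := ih v ω ω' h hB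
    simp only [state', ha, hv.2]
    exact ⟨trivial, trivial⟩

theorem ar_dep (v : Lamp) (t : ℕ) (ω ω' : Env Lamp) (hB : ∀ w ∈ Back v, ω w = ω' w) :
    ar v t ω = ar v t ω' := by
  have e0 : ω (p0 v) = ω' (p0 v) := hB _ (Cone_p0 v (self_mem_Cone _))
  have e1 : ω (p1 v) = ω' (p1 v) := hB _ (Cone_p1 v (self_mem_Cone _))
  have i0 := dep t (p0 v) ω ω' (by rw [e0]) (fun w hw => hB w (Cone_p0 v (Back_sub_Cone _ hw)))
  have i1 := dep t (p1 v) ω ω' (by rw [e1]) (fun w hw => hB w (Cone_p1 v (Back_sub_Cone _ hw)))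
  unfold ar arr' fl
  rw [i0.1, i1.1, e0, e1]

/-- The total flow from `u` to `v` before time `t`. -/
def N (u v : Lamp) (t : ℕ) (ω : Env Lamp) : ℕ :=
  ∑ s ∈ Finset.range t, fl ω s ((state' ω s).1 u) u v

theorem vis_eq (v : Lamp) (t : ℕ) (ω : Env Lamp) :
    vis v t ω = N (p0 v) v t ω + N (p1 v) v t ω := by
  unfold vis N ar arr'
  rw [← Finset.sum_add_distrib]

theorem N_dep (u v : Lamp) (t : ℕ) (ω ω' : Env Lamp) (hB : ∀ w ∈ Cone u, ω w = ω' w) :
    N u v t ω = N u v t ω' := by
  unfold N fl
  refine Finset.sum_congr rfl (fun s _ => ?_)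
  have e := hB u (self_mem_Cone u)
  have i := dep s u ω ω' (by rw [e]) (fun w hw => hB w (Back_sub_Cone _ hw))
  rw [i.1, e]

/-! ### Measurability -/

theorem measurable_fl (t : ℕ) (u v : Lamp) :
    Measurable (fun q : ℕ × Env Lamp => fl q.2 t q.1 u v) := by
  apply measurable_from_prod_countable_right
  intro k
  have : (fun ω : Env Lamp => fl ω t k u v) =
      fun ω => ∑ j ∈ Finset.range k, if (ω u).2 (t, j) = v then 1 else 0 := by
    funext ω; unfold fl; rw [Finset.card_filter]
  show Measurable (fun ω : Env Lamp => fl ω t k u v)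
  rw [this]
  refine Finset.measurable_sum _ (fun j _ => ?_)
  have h1 : Measurable (fun ω : Env Lamp => (ω u).2 (t, j)) := by fun_prop
  exact Measurable.ite (h1 (MeasurableSet.singleton v)) measurable_const measurable_const

theorem measurable_state (t : ℕ) : ∀ v, Measurable (fun ω : Env Lamp => (state' ω t).1 v) ∧
    Measurable (fun ω : Env Lamp => (state' ω t).2 v) := by
  induction t with
  | zero =>
    intro v
    have h1 : Measurable (fun ω : Env Lamp => (ω v).1) := by fun_prop
    constructor
    · have : Measurable (fun b : Bool => if b = true then 1 else 0 : Bool → ℕ) :=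
        Measurable.of_discrete
      exact this.comp h1
    · have : Measurable (fun b : Bool => !b) := Measurable.of_discrete
      exact this.comp h1
  | succ t ih =>
    intro v
    have ha : Measurable (fun ω : Env Lamp => arr' ω t (state' ω t).1 v) := by
      unfold arr'
      exact ((measurable_fl t (p0 v) v).comp ((ih (p0 v)).1.prodMk measurable_id)).add
        ((measurable_fl t (p1 v) v).comp ((ih (p1 v)).1.prodMk measurable_id))
    have hp := ((ih v).2).prodMk ha
    constructor
    · have : Measurable (fun q : Bool × ℕ => if q.1 = true then q.2 - 1 else q.2) :=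
        Measurable.of_discrete
      exact this.comp hp
    · have : Measurable (fun q : Bool × ℕ => q.1 && decide (q.2 = 0)) :=
        Measurable.of_discrete
      exact this.comp hp

theorem measurable_ar (v : Lamp) (t : ℕ) : Measurable (ar v t) := by
  unfold ar arr'
  exact ((measurable_fl t (p0 v) v).comp ((measurable_state t (p0 v)).1.prodMk measurable_id)).add
    ((measurable_fl t (p1 v) v).comp ((measurable_state t (p1 v)).1.prodMk measurable_id))

theorem measurable_vis (v : Lamp) (t : ℕ) : Measurable (vis v t) :=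
  Finset.measurable_sum _ (fun s _ => measurable_ar v s)

theorem measurable_N (u v : Lamp) (t : ℕ) : Measurable (N u v t) :=
  Finset.measurable_sum _ (fun s _ =>
    (measurable_fl s u v).comp ((measurable_state s u).1.prodMk measurable_id))

/-! ### The local dynamics -/

/-- The state at a vertex, from the arrivals and the initial status. -/
def loc (h : ℕ → ℕ) (c : Bool) : ℕ → ℕ × Bool
  | 0 => (if c = true then 1 else 0, !c)
  | s + 1 => (if (loc h c s).2 = true then h s - 1 else h s,
      (loc h c s).2 && decide (h s = 0))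

theorem loc_eq (ω : Env Lamp) (u : Lamp) (s : ℕ) :
    ((state' ω s).1 u, (state' ω s).2 u) = loc (fun r => ar u r ω) (ω u).1 s := by
  induction s with
  | zero => rfl
  | succ s ih =>
    have h1 : (state' ω s).2 u = (loc (fun r => ar u r ω) (ω u).1 s).2 := by rw [← ih]
    simp only [loc, state', h1]
    rfl

/-- Total departures. -/
theorem loc_sum (h : ℕ → ℕ) (t : ℕ) :
    (∑ s ∈ Finset.range (t + 1), (loc h true s).1 = ∑ s ∈ Finset.range t, h s + 1) ∧
    (∑ s ∈ Finset.range (t + 1), (loc h false s).1 = ∑ s ∈ Finset.range t, h s - 1) ∧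
    (loc h true t).2 = false ∧
    ((loc h false t).2 = true ↔ ∑ s ∈ Finset.range t, h s = 0) := by
  induction t with
  | zero => simp [loc]
  | succ t ih =>
    obtain ⟨h1, h2, h3, h4⟩ := ih
    refine ⟨?_, ?_, ?_, ?_⟩
    · rw [Finset.sum_range_succ, h1]
      have : (loc h true (t + 1)).1 = h t := by simp [loc, h3]
      rw [this, Finset.sum_range_succ]; ring
    · rw [Finset.sum_range_succ, h2, Finset.sum_range_succ _ t]
      by_cases hz : ∑ s ∈ Finset.range t, h s = 0
      · have : (loc h false (t + 1)).1 = h t - 1 := by simp [loc, h4.2 hz]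
        rw [this, hz]; omega
      · have hf : (loc h false t).2 = false := by
          rw [← Bool.not_eq_true]; exact fun hh => hz (h4.1 hh)
        have : (loc h false (t + 1)).1 = h t := by simp [loc, hf]
        rw [this]; omega
    · simp [loc, h3]
    · rw [Finset.sum_range_succ]
      by_cases hz : ∑ s ∈ Finset.range t, h s = 0
      · have : (loc h false (t + 1)).2 = decide (h t = 0) := by simp [loc, h4.2 hz]
        rw [this, hz]; simp
      · have hf : (loc h false t).2 = false := by
          rw [← Bool.not_eq_true]; exact fun hh => hz (h4.1 hh)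
        have : (loc h false (t + 1)).2 = false := by simp [loc, hf]
        rw [this]
        constructor
        · intro hh; exact absurd hh (by simp)
        · intro hh; exact absurd (by omega) hz

end Pool.Agent.H563R3.Park
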