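import Mathlib
import Pool.Agent.H563R3.LampPark

set_option autoImplicit false
open MeasureTheory ProbabilityTheory Filter Topology
open scoped ENNReal symmDiff

namespace Pool.Agent.H563R3.Park

theorem coin_prob {p : ℝ} (h0 : 0 ≤ p) (h1 : p ≤ 1) : IsProbabilityMeasure (coinLaw p) := by
  refine ⟨?_⟩
  unfold coinLaw
  simp only [Measure.coe_add, Measure.coe_smul, Pi.add_apply, Pi.smul_apply, measure_univ,
    smul_eq_mul, mul_one]
  rw [← ENNReal.ofReal_add h0 (by linarith)]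
  simp

theorem lintegral_coin (p : ℝ) (f : Bool → ℝ≥0∞) :
    ∫⁻ c, f c ∂(coinLaw p) = ENNReal.ofReal p * f true + ENNReal.ofReal (1 - p) * f false := by
  unfold coinLaw
  rw [lintegral_add_measure, lintegral_smul_measure, lintegral_smul_measure, lintegral_dirac,
    lintegral_dirac]
  rfl

/-- The field of moves at `v`. -/
noncomputable def kf (v : Lamp) : Measure (ℕ × ℕ → Lamp) :=
  Measure.infinitePi (fun _ : ℕ × ℕ => (lampKernel v).toMeasure)

instance (v : Lamp) : IsProbabilityMeasure (kf v) := by unfold kf; infer_instance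

theorem law_eq (p : ℝ) : law lampTriple p =
    Measure.infinitePi (fun v : Lamp => (coinLaw p).prod (kf v)) := rfl

theorem step_half {u v : Lamp} (h : v = s0 u ∨ v = s1 u) :
    (lampKernel u).toMeasure {v} = 1 / 2 := by
  rw [PMF.toMeasure_apply_singleton _ _ (MeasurableSet.singleton v)]
  rcases h with rfl | rfl
  · exact lampKernel_s0 u
  · exact lampKernel_s1 u

/-- number of moves to `v` -/
def cnt (v : Lamp) (η : ℕ → ℕ) (t : ℕ) (x : ℕ × ℕ → Lamp) : ℕ :=
  ∑ s ∈ Finset.range t, ((Finset.range (η s)).filter (fun j => x (s, j) = v)).card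

theorem cnt_law {u v : Lamp} (h : v = s0 u ∨ v = s1 u) (η : ℕ → ℕ) (t : ℕ) (g : ℕ → ℝ≥0∞) :
    ∫⁻ x, g (cnt v η t x) ∂(kf u) = binE (∑ s ∈ Finset.range t, η s) g := by
  classical
  set S : Finset (ℕ × ℕ) := (Finset.range t).biUnion
    (fun s => (Finset.range (η s)).image (fun j => (s, j))) with hS
  have hdisj : ∀ T : (s : ℕ) → Finset ℕ, ((Finset.range t : Finset ℕ) : Set ℕ).PairwiseDisjoint
      (fun s => (T s).image (fun j => (s, j))) := by
    intro T a _ b _ hab
    rw [Function.onFun, Finset.disjoint_left]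
    intro q h1 h2
    simp only [Finset.mem_image] at h1 h2
    obtain ⟨c, _, rfl⟩ := h1
    obtain ⟨d, _, hd⟩ := h2
    exact hab (Prod.mk.inj hd).1.symm
  have hinj : ∀ s : ℕ, Function.Injective (fun j : ℕ => (s, j)) :=
    fun s a b hab => (Prod.mk.inj hab).2
  have hcard : S.card = ∑ s ∈ Finset.range t, η s := by
    rw [hS, Finset.card_biUnion (hdisj _)]
    refine Finset.sum_congr rfl (fun s _ => ?_)
    rw [Finset.card_image_of_injective _ (hinj s), Finset.card_range]
  have hcnt : ∀ x : ℕ × ℕ → Lamp, cnt v η t x = (S.filter (fun i => x i ∈ ({v} : Set Lamp))).card := by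
    intro x
    have e : S.filter (fun i => x i ∈ ({v} : Set Lamp)) = (Finset.range t).biUnion
        (fun s => ((Finset.range (η s)).filter (fun j => x (s, j) = v)).image (fun j => (s, j))) := by
      ext ⟨a, b⟩
      simp only [hS, Finset.mem_filter, Finset.mem_biUnion, Finset.mem_image, Finset.mem_range,
        Set.mem_singleton_iff, Prod.mk.injEq]
      constructor
      · rintro ⟨⟨s, hs, j, hj, rfl, rfl⟩, hx⟩
        exact ⟨s, hs, j, ⟨hj, hx⟩, rfl, rfl⟩
      · rintro ⟨s, hs, j, ⟨hj, hx⟩, rfl, rfl⟩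
        exact ⟨⟨s, hs, j, hj, rfl, rfl⟩, hx⟩
    rw [e, Finset.card_biUnion (hdisj _)]
    unfold cnt
    refine Finset.sum_congr rfl (fun s _ => ?_)
    rw [Finset.card_image_of_injective _ (hinj s)]
  simp_rw [hcnt]
  unfold kf
  rw [binE_field (fun _ : ℕ × ℕ => (lampKernel u).toMeasure) (MeasurableSet.singleton v)
    (fun _ => step_half h) S g, hcard]

/-- The flow as a function of the arrivals and of the local randomness. -/
def Nl (v : Lamp) (t : ℕ) (q : (ℕ → ℕ) × Loc Lamp) : ℕ :=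
  cnt v (fun s => (loc q.1 q.2.1 s).1) t q.2.2

theorem N_eq (u v : Lamp) (t : ℕ) (ω : Env Lamp) :
    N u v t ω = Nl v t (fun r => ar u r ω, ω u) := by
  unfold N Nl cnt fl
  refine Finset.sum_congr rfl (fun s _ => ?_)
  have h := loc_eq ω u s
  have h1 : (state' ω s).1 u = (loc (fun r => ar u r ω) (ω u).1 s).1 := by rw [← h]
  rw [h1]

theorem measurable_loc (s : ℕ) : Measurable (fun q : (ℕ → ℕ) × Bool => loc q.1 q.2 s) := by
  induction s with
  | zero =>
    have : Measurable (fun c : Bool => ((if c = true then 1 else 0, !c) : ℕ × Bool)) :=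
      Measurable.of_discrete
    exact this.comp measurable_snd
  | succ s ih =>
    have h1 : Measurable (fun q : (ℕ → ℕ) × Bool => (loc q.1 q.2 s, q.1 s)) :=
      ih.prodMk (by fun_prop)
    have h2 : Measurable (fun r : (ℕ × Bool) × ℕ =>
      ((if r.1.2 = true then r.2 - 1 else r.2, r.1.2 && decide (r.2 = 0)) : ℕ × Bool)) :=
      Measurable.of_discrete
    exact h2.comp h1

theorem measurable_Nl (v : Lamp) (t : ℕ) : Measurable (Nl v t) := by
  unfold Nl cnt
  refine Finset.measurable_sum _ (fun s _ => ?_)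
  have h1 : Measurable (fun r : ℕ × (ℕ × ℕ → Lamp) =>
      ((Finset.range r.1).filter (fun j => r.2 (s, j) = v)).card) := by
    apply measurable_from_prod_countable_right
    intro k
    have : (fun x : ℕ × ℕ → Lamp => ((Finset.range k).filter (fun j => x (s, j) = v)).card) =
        fun x => ∑ j ∈ Finset.range k, if x (s, j) = v then 1 else 0 := by
      funext x; rw [Finset.card_filter]
    show Measurable (fun x : ℕ × ℕ → Lamp =>
      ((Finset.range k).filter (fun j => x (s, j) = v)).card)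
    rw [this]
    refine Finset.measurable_sum _ (fun j _ => ?_)
    have h1 : Measurable (fun x : ℕ × ℕ → Lamp => x (s, j)) := by fun_prop
    exact Measurable.ite (h1 (MeasurableSet.singleton v)) measurable_const measurable_const
  have h2 : Measurable (fun q : (ℕ → ℕ) × Loc Lamp => ((loc q.1 q.2.1 s).1, q.2.2)) := by
    have h3 : Measurable (fun q : (ℕ → ℕ) × Loc Lamp => (q.1, q.2.1)) := by fun_prop
    exact ((measurable_loc s).comp h3).fst.prodMk (by fun_prop)
  exact h1.comp h2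

theorem local_law (p : ℝ) (h0 : 0 ≤ p) (h1 : p ≤ 1) {u v : Lamp} (h : v = s0 u ∨ v = s1 u)
    (t : ℕ) (g : ℕ → ℝ≥0∞) (hh : ℕ → ℕ) :
    ∫⁻ r, g (Nl v (t + 1) (hh, r)) ∂((coinLaw p).prod (kf u)) =
      ENNReal.ofReal p * binE (∑ s ∈ Finset.range t, hh s + 1) g +
      ENNReal.ofReal (1 - p) * binE (∑ s ∈ Finset.range t, hh s - 1) g := by
  have := coin_prob h0 h1
  have hm : Measurable (fun r : Loc Lamp => g (Nl v (t + 1) (hh, r))) :=
    (Measurable.of_discrete (f := g)).comp ((measurable_Nl v (t + 1)).comp (by fun_prop))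
  rw [lintegral_prod _ hm.aemeasurable, lintegral_coin]
  have e := loc_sum hh t
  have a1 : ∫⁻ x, g (Nl v (t + 1) (hh, (true, x))) ∂(kf u) =
      binE (∑ s ∈ Finset.range t, hh s + 1) g := by
    rw [← e.1]
    exact cnt_law h (fun s => (loc hh true s).1) (t + 1) g
  have a2 : ∫⁻ x, g (Nl v (t + 1) (hh, (false, x))) ∂(kf u) =
      binE (∑ s ∈ Finset.range t, hh s - 1) g := by
    rw [← e.2.1]
    exact cnt_law h (fun s => (loc hh false s).1) (t + 1) g
  rw [a1, a2]

instance : Nonempty (Loc Lamp) := ⟨(true, fun _ => 1)⟩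

/-- The expected value of a function of the flow. -/
theorem flow_law (p : ℝ) (h0 : 0 ≤ p) (h1 : p ≤ 1) {u v : Lamp} (h : v = s0 u ∨ v = s1 u)
    (t : ℕ) (g : ℕ → ℝ≥0∞) :
    ∫⁻ ω, g (N u v (t + 1) ω) ∂(law lampTriple p) =
      ∫⁻ ω, (ENNReal.ofReal p * binE (vis u t ω + 1) g +
        ENNReal.ofReal (1 - p) * binE (vis u t ω - 1) g) ∂(law lampTriple p) := by
  have := coin_prob h0 h1
  have hH : Measurable (fun (ω : Env Lamp) (r : ℕ) => ar u r ω) := by
    rw [measurable_pi_iff]; exact fun r => measurable_ar u r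
  have hR : Measurable (fun ω : Env Lamp => ω u) := measurable_pi_apply u
  have hind : IndepFun (fun (ω : Env Lamp) (r : ℕ) => ar u r ω) (fun ω : Env Lamp => ω u)
      (law lampTriple p) := by
    rw [law_eq]
    refine indep_of_dependsOn (fun v : Lamp => (coinLaw p).prod (kf v)) (S := Back u) (T := {u})
      ?_ hH hR ?_ ?_
    · simp only [Set.disjoint_singleton_right]; exact self_notMem_Back u
    · intro ω ω' hB; funext r; exact ar_dep u r ω ω' hB
    · intro ω ω' hB; exact hB u rfl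
  have hprob : IsProbabilityMeasure (law lampTriple p) := by rw [law_eq]; infer_instance
  have hmap := (indepFun_iff_map_prod_eq_prod_map_map hH.aemeasurable hR.aemeasurable).1 hind
  have hRlaw : (law lampTriple p).map (fun ω : Env Lamp => ω u) = (coinLaw p).prod (kf u) := by
    rw [law_eq]
    exact Measure.infinitePi_map_eval (fun v : Lamp => (coinLaw p).prod (kf v)) u
  rw [hRlaw] at hmap
  have hg : Measurable g := Measurable.of_discrete
  have hgN : Measurable (fun q : (ℕ → ℕ) × Loc Lamp => g (Nl v (t + 1) q)) :=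
    hg.comp (measurable_Nl v (t + 1))
  calc ∫⁻ ω, g (N u v (t + 1) ω) ∂(law lampTriple p)
      = ∫⁻ ω, g (Nl v (t + 1) (fun r => ar u r ω, ω u)) ∂(law lampTriple p) := by
        simp only [N_eq]
    _ = ∫⁻ q, g (Nl v (t + 1) q) ∂((law lampTriple p).map
          (fun ω : Env Lamp => ((fun r => ar u r ω : ℕ → ℕ), ω u))) := by
        rw [lintegral_map hgN (hH.prodMk hR)]
    _ = ∫⁻ hh, ∫⁻ r, g (Nl v (t + 1) (hh, r)) ∂((coinLaw p).prod (kf u))
          ∂((law lampTriple p).map (fun (ω : Env Lamp) (r : ℕ) => ar u r ω)) := by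
        rw [hmap, lintegral_prod _ hgN.aemeasurable]
    _ = ∫⁻ hh, (ENNReal.ofReal p * binE (∑ s ∈ Finset.range t, hh s + 1) g +
          ENNReal.ofReal (1 - p) * binE (∑ s ∈ Finset.range t, hh s - 1) g)
          ∂((law lampTriple p).map (fun (ω : Env Lamp) (r : ℕ) => ar u r ω)) :=
        lintegral_congr (fun hh => local_law p h0 h1 h t g hh)
    _ = _ := by
        rw [lintegral_map _ hH]
        · rfl
        · have h2 : Measurable (fun n : ℕ => ENNReal.ofReal p * binE (n + 1) g +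
            ENNReal.ofReal (1 - p) * binE (n - 1) g) := Measurable.of_discrete
          have h3 : Measurable (fun hh : ℕ → ℕ => ∑ s ∈ Finset.range t, hh s) :=
            Finset.measurable_sum _ (fun s _ => measurable_pi_apply s)
          exact h2.comp h3

theorem map_eq_of_lintegral {Ω : Type*} [MeasurableSpace Ω] (P : Measure Ω) {X Y : Ω → ℕ}
    (hX : Measurable X) (hY : Measurable Y)
    (h : ∀ g : ℕ → ℝ≥0∞, ∫⁻ ω, g (X ω) ∂P = ∫⁻ ω, g (Y ω) ∂P) : P.map X = P.map Y := by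
  apply Measure.ext_of_lintegral
  intro g hg
  rw [lintegral_map hg hX, lintegral_map hg hY]
  exact h g

theorem N_indep (p : ℝ) (h0 : 0 ≤ p) (h1 : p ≤ 1) (v : Lamp) (t : ℕ) :
    IndepFun (N (p0 v) v t) (N (p1 v) v t) (law lampTriple p) := by
  have := coin_prob h0 h1
  rw [law_eq]
  exact indep_of_dependsOn (fun v : Lamp => (coinLaw p).prod (kf v)) (Cone_disjoint v)
    (measurable_N _ _ _) (measurable_N _ _ _) (fun ω ω' h => N_dep _ _ _ ω ω' h)
    (fun ω ω' h => N_dep _ _ _ ω ω' h)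

theorem s0_p0 (v : Lamp) : v = s0 (p0 v) := ((s0_eq (p0 v) v).2 rfl).symm
theorem s1_p1 (v : Lamp) : v = s1 (p1 v) := ((s1_eq (p1 v) v).2 rfl).symm

/-- The law of the number of visits does not depend on the vertex. -/
theorem vis_law (p : ℝ) (h0 : 0 ≤ p) (h1 : p ≤ 1) (t : ℕ) : ∀ v v' : Lamp,
    (law lampTriple p).map (vis v t) = (law lampTriple p).map (vis v' t) := by
  have := coin_prob h0 h1
  have hprob : IsProbabilityMeasure (law lampTriple p) := by rw [law_eq]; infer_instance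
  induction t with
  | zero =>
    intro v v'
    have : vis v 0 = vis v' 0 := by funext ω; simp [vis]
    rw [this]
  | succ t ih =>
    intro v v'
    have hN : ∀ u w u' w', (w = s0 u ∨ w = s1 u) → (w' = s0 u' ∨ w' = s1 u') →
        (law lampTriple p).map (N u w (t + 1)) = (law lampTriple p).map (N u' w' (t + 1)) := by
      intro u w u' w' hw hw'
      refine map_eq_of_lintegral _ (measurable_N _ _ _) (measurable_N _ _ _) (fun g => ?_)
      rw [flow_law p h0 h1 hw, flow_law p h0 h1 hw']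
      have h2 : Measurable (fun n : ℕ => ENNReal.ofReal p * binE (n + 1) g +
            ENNReal.ofReal (1 - p) * binE (n - 1) g) := Measurable.of_discrete
      have e1 := lintegral_map (μ := law lampTriple p) h2 (measurable_vis u t)
      have e2 := lintegral_map (μ := law lampTriple p) h2 (measurable_vis u' t)
      rw [← e1, ← e2, ih u u']
    have hsum : ∀ v, (law lampTriple p).map (vis v (t + 1)) =
        (((law lampTriple p).map (N (p0 v) v (t + 1))).prod
          ((law lampTriple p).map (N (p1 v) v (t + 1)))).map (fun q => q.1 + q.2) := by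
      intro v
      rw [← (indepFun_iff_map_prod_eq_prod_map_map (measurable_N _ _ _).aemeasurable
        (measurable_N _ _ _).aemeasurable).1 (N_indep p h0 h1 v (t + 1)),
        Measure.map_map (by fun_prop) ((measurable_N _ _ _).prodMk (measurable_N _ _ _))]
      congr 1
      funext ω
      exact vis_eq v (t + 1) ω
    rw [hsum v, hsum v', hN (p0 v) v (p0 v') v' (Or.inl (s0_p0 v)) (Or.inl (s0_p0 v')),
      hN (p1 v) v (p1 v') v' (Or.inr (s1_p1 v)) (Or.inr (s1_p1 v'))]

/-- The law of the number of visits before time `t`. -/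
noncomputable def lam (p : ℝ) (t : ℕ) : Measure ℕ := (law lampTriple p).map (vis 1 t)

theorem lintegral_vis (p : ℝ) (h0 : 0 ≤ p) (h1 : p ≤ 1) (t : ℕ) (v : Lamp) (g : ℕ → ℝ≥0∞) :
    ∫⁻ ω, g (vis v t ω) ∂(law lampTriple p) = ∫⁻ n, g n ∂(lam p t) := by
  unfold lam
  rw [← vis_law p h0 h1 t v 1, lintegral_map Measurable.of_discrete (measurable_vis v t)]

theorem lam_pow (p : ℝ) (h0 : 0 ≤ p) (h1 : p ≤ 1) (t : ℕ) (z : ℝ≥0∞) :
    ∫⁻ n, z ^ n ∂(lam p (t + 1)) =
      (∫⁻ n, (ENNReal.ofReal p * ((1 + z) / 2) ^ (n + 1) +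
        ENNReal.ofReal (1 - p) * ((1 + z) / 2) ^ (n - 1)) ∂(lam p t)) ^ 2 := by
  have hb : ∀ n, binE n (fun k => z ^ k) = ((1 + z) / 2) ^ n := by
    intro n
    have := binE_pow n 1 z
    simpa using this
  have hflow : ∀ u v, (v = s0 u ∨ v = s1 u) → ∫⁻ ω, z ^ (N u v (t + 1) ω) ∂(law lampTriple p) =
      ∫⁻ n, (ENNReal.ofReal p * ((1 + z) / 2) ^ (n + 1) +
        ENNReal.ofReal (1 - p) * ((1 + z) / 2) ^ (n - 1)) ∂(lam p t) := by
    intro u v h
    rw [flow_law p h0 h1 h t (fun k => z ^ k)]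
    simp only [hb]
    exact lintegral_vis p h0 h1 t u (fun n => ENNReal.ofReal p * ((1 + z) / 2) ^ (n + 1) +
        ENNReal.ofReal (1 - p) * ((1 + z) / 2) ^ (n - 1))
  have hz : Measurable (fun k : ℕ => z ^ k) := Measurable.of_discrete
  have hind := (N_indep p h0 h1 1 (t + 1)).comp hz hz
  have this := lintegral_mul_eq_lintegral_mul_lintegral_of_indepFun
    (hz.comp (measurable_N (p0 1) 1 (t + 1))) (hz.comp (measurable_N (p1 1) 1 (t + 1))) hind
  have e0 : ∫⁻ ω, ((fun k : ℕ => z ^ k) ∘ N (p0 1) 1 (t + 1)) ω ∂(law lampTriple p) =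
      ∫⁻ n, (ENNReal.ofReal p * ((1 + z) / 2) ^ (n + 1) +
        ENNReal.ofReal (1 - p) * ((1 + z) / 2) ^ (n - 1)) ∂(lam p t) :=
    hflow (p0 1) 1 (Or.inl (s0_p0 1))
  have e1 : ∫⁻ ω, ((fun k : ℕ => z ^ k) ∘ N (p1 1) 1 (t + 1)) ω ∂(law lampTriple p) =
      ∫⁻ n, (ENNReal.ofReal p * ((1 + z) / 2) ^ (n + 1) +
        ENNReal.ofReal (1 - p) * ((1 + z) / 2) ^ (n - 1)) ∂(lam p t) :=
    hflow (p1 1) 1 (Or.inr (s1_p1 1))
  have e2 : ∫⁻ ω, z ^ (vis 1 (t + 1) ω) ∂(law lampTriple p) =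
      ∫⁻ ω, (((fun k : ℕ => z ^ k) ∘ N (p0 1) 1 (t + 1)) *
        ((fun k : ℕ => z ^ k) ∘ N (p1 1) 1 (t + 1))) ω ∂(law lampTriple p) := by
    refine lintegral_congr (fun ω => ?_)
    rw [vis_eq, pow_add]
    rfl
  rw [← lintegral_vis p h0 h1 (t + 1) 1 (fun n => z ^ n), sq, e2, this, e0, e1]

theorem lam_mean (p : ℝ) (h0 : 0 ≤ p) (h1 : p ≤ 1) (t : ℕ) :
    ∫⁻ n, (n : ℝ≥0∞) ∂(lam p (t + 1)) =
      ∫⁻ n, (ENNReal.ofReal p * ((n + 1 : ℕ) : ℝ≥0∞) +
        ENNReal.ofReal (1 - p) * ((n - 1 : ℕ) : ℝ≥0∞)) ∂(lam p t) := by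
  have hb : ∀ n, binE n (fun k => (k : ℝ≥0∞)) = (n : ℝ≥0∞) / 2 := by
    intro n
    have := binE_add n 0
    simpa using this
  have hflow : ∀ u v, (v = s0 u ∨ v = s1 u) →
      ∫⁻ ω, ((N u v (t + 1) ω : ℕ) : ℝ≥0∞) ∂(law lampTriple p) =
      (∫⁻ n, (ENNReal.ofReal p * ((n + 1 : ℕ) : ℝ≥0∞) +
        ENNReal.ofReal (1 - p) * ((n - 1 : ℕ) : ℝ≥0∞)) ∂(lam p t)) / 2 := by
    intro u v h
    rw [flow_law p h0 h1 h t (fun k => (k : ℝ≥0∞))]
    simp only [hb]
    rw [lintegral_vis p h0 h1 t u (fun n => ENNReal.ofReal p * (((n + 1 : ℕ) : ℝ≥0∞) / 2) +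
        ENNReal.ofReal (1 - p) * (((n - 1 : ℕ) : ℝ≥0∞) / 2))]
    rw [div_eq_mul_inv, ← lintegral_mul_const _ Measurable.of_discrete]
    refine lintegral_congr (fun n => ?_)
    rw [div_eq_mul_inv, div_eq_mul_inv]; ring
  rw [← lintegral_vis p h0 h1 (t + 1) 1 (fun n => (n : ℝ≥0∞))]
  have e2 : ∫⁻ ω, ((vis 1 (t + 1) ω : ℕ) : ℝ≥0∞) ∂(law lampTriple p) =
      ∫⁻ ω, (((N (p0 1) 1 (t + 1) ω : ℕ) : ℝ≥0∞) + ((N (p1 1) 1 (t + 1) ω : ℕ) : ℝ≥0∞))
        ∂(law lampTriple p) := by
    refine lintegral_congr (fun ω => ?_)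
    rw [vis_eq, Nat.cast_add]
  have hm : Measurable (fun ω : Env Lamp => ((N (p0 1) 1 (t + 1) ω : ℕ) : ℝ≥0∞)) :=
    (Measurable.of_discrete (f := fun n : ℕ => (n : ℝ≥0∞))).comp (measurable_N (p0 1) 1 (t + 1))
  rw [e2, lintegral_add_left hm]
  rw [hflow (p0 1) 1 (Or.inl (s0_p0 1)), hflow (p1 1) 1 (Or.inr (s1_p1 1)), ENNReal.add_halves]

end Pool.Agent.H563R3.Park
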