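import Mathlib

set_option autoImplicit false
open MeasureTheory ProbabilityTheory Filter Topology
open scoped ENNReal

namespace Pool.Agent.H563R3.LampReal

/-- The recursion satisfied by the laws of the numbers of visits. -/
structure Rec (p : ℝ) (μ : ℕ → Measure ℕ) : Prop where
  prob : ∀ t, IsProbabilityMeasure (μ t)
  zero : ∫⁻ n, (n : ℝ≥0∞) ∂(μ 0) = 0
  pow : ∀ (t : ℕ) (z : ℝ≥0∞), ∫⁻ n, z ^ n ∂(μ (t + 1)) =
      (∫⁻ n, (ENNReal.ofReal p * ((1 + z) / 2) ^ (n + 1) +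
        ENNReal.ofReal (1 - p) * ((1 + z) / 2) ^ (n - 1)) ∂(μ t)) ^ 2
  mean : ∀ t, ∫⁻ n, (n : ℝ≥0∞) ∂(μ (t + 1)) =
      ∫⁻ n, (ENNReal.ofReal p * ((n + 1 : ℕ) : ℝ≥0∞) +
        ENNReal.ofReal (1 - p) * ((n - 1 : ℕ) : ℝ≥0∞)) ∂(μ t)
  mono : ∀ t, ∫⁻ n, (n : ℝ≥0∞) ∂(μ t) ≤ ∫⁻ n, (n : ℝ≥0∞) ∂(μ (t + 1))

variable {p : ℝ} {μ : ℕ → Measure ℕ}

theorem Rec.finite (R : Rec p μ) (t : ℕ) : ∫⁻ n, (n : ℝ≥0∞) ∂(μ t) ≠ ∞ := by
  have := R.prob
  induction t with
  | zero => rw [R.zero]; simp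
  | succ t ih =>
    rw [R.mean]
    have h1 : ∫⁻ n : ℕ, (ENNReal.ofReal p * ((n + 1 : ℕ) : ℝ≥0∞) +
        ENNReal.ofReal (1 - p) * ((n - 1 : ℕ) : ℝ≥0∞)) ∂(μ t) ≤
        ∫⁻ n : ℕ, (ENNReal.ofReal p * ((n : ℝ≥0∞) + 1) +
        ENNReal.ofReal (1 - p) * (n : ℝ≥0∞)) ∂(μ t) := by
      refine lintegral_mono (fun n => ?_)
      have : ((n - 1 : ℕ) : ℝ≥0∞) ≤ (n : ℝ≥0∞) := by exact_mod_cast Nat.sub_le n 1
      simp only [Nat.cast_add, Nat.cast_one]
      gcongr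
    refine ne_top_of_le_ne_top ?_ h1
    rw [lintegral_add_left Measurable.of_discrete, lintegral_const_mul _ Measurable.of_discrete,
      lintegral_const_mul _ Measurable.of_discrete, lintegral_add_left Measurable.of_discrete]
    simp only [lintegral_const, measure_univ, mul_one]
    exact ENNReal.add_ne_top.2 ⟨ENNReal.mul_ne_top ENNReal.ofReal_ne_top
      (ENNReal.add_ne_top.2 ⟨ih, ENNReal.one_ne_top⟩), ENNReal.mul_ne_top ENNReal.ofReal_ne_top ih⟩

theorem Rec.integrable (R : Rec p μ) (t : ℕ) : Integrable (fun n : ℕ => (n : ℝ)) (μ t) := by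
  refine ⟨Measurable.of_discrete.aestronglyMeasurable, ?_⟩
  rw [hasFiniteIntegral_iff_enorm]
  have h := R.finite t
  have e : ∀ n : ℕ, ‖(n : ℝ)‖ₑ = (n : ℝ≥0∞) := by
    intro n
    rw [← ofReal_norm, Real.norm_of_nonneg (Nat.cast_nonneg n), ENNReal.ofReal_natCast]
  simp only [e]
  exact lt_top_iff_ne_top.2 h

/-- The mean. -/
noncomputable def mn (μ : ℕ → Measure ℕ) (t : ℕ) : ℝ := ∫ n, (n : ℝ) ∂(μ t)
/-- The generating function. -/
noncomputable def F (μ : ℕ → Measure ℕ) (t : ℕ) (y : ℝ) : ℝ := ∫ n, y ^ n ∂(μ t)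
/-- The probability of zero. -/
noncomputable def a (μ : ℕ → Measure ℕ) (t : ℕ) : ℝ := ∫ n, (if n = 0 then (1 : ℝ) else 0) ∂(μ t)

theorem Rec.mn_eq (R : Rec p μ) (t : ℕ) : ∫⁻ n, (n : ℝ≥0∞) ∂(μ t) = ENNReal.ofReal (mn μ t) := by
  unfold mn
  rw [ofReal_integral_eq_lintegral_ofReal (R.integrable t)
    (Eventually.of_forall (fun n => Nat.cast_nonneg n))]
  simp only [ENNReal.ofReal_natCast]

theorem integrable_of_bdd {ν : Measure ℕ} [IsFiniteMeasure ν] (f : ℕ → ℝ) (C : ℝ)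
    (h : ∀ n, ‖f n‖ ≤ C) : Integrable f ν :=
  Integrable.of_bound Measurable.of_discrete.aestronglyMeasurable C (Eventually.of_forall h)

theorem integrable_pow {ν : Measure ℕ} [IsFiniteMeasure ν] {y : ℝ} (h0 : 0 ≤ y) (h1 : y ≤ 1) :
    Integrable (fun n : ℕ => y ^ n) ν :=
  integrable_of_bdd _ 1 (fun n => by
    rw [Real.norm_of_nonneg (pow_nonneg h0 n)]; exact pow_le_one₀ h0 h1)

theorem integrable_pow' {ν : Measure ℕ} [IsFiniteMeasure ν] {y : ℝ} (h0 : 0 ≤ y) (h1 : y ≤ 1) :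
    Integrable (fun n : ℕ => y ^ (n - 1)) ν :=
  integrable_of_bdd _ 1 (fun n => by
    rw [Real.norm_of_nonneg (pow_nonneg h0 _)]; exact pow_le_one₀ h0 h1)

theorem integrable_ind {ν : Measure ℕ} [IsFiniteMeasure ν] :
    Integrable (fun n : ℕ => if n = 0 then (1 : ℝ) else 0) ν :=
  integrable_of_bdd _ 1 (fun n => by split_ifs <;> simp)

theorem Rec.int_aux (R : Rec p μ) (t : ℕ) :
    ∫ n : ℕ, ((n : ℝ) + (1 - p) * (if n = 0 then (1 : ℝ) else 0) - (1 - 2 * p)) ∂(μ t) =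
      mn μ t + (1 - p) * a μ t - (1 - 2 * p) := by
  have := R.prob
  have hi := R.integrable t
  have i2 : Integrable (fun n : ℕ => (1 - p) * (if n = 0 then (1 : ℝ) else 0)) (μ t) :=
    integrable_ind.const_mul (1 - p)
  have i3 : Integrable (fun n : ℕ => (n : ℝ) + (1 - p) * (if n = 0 then (1 : ℝ) else 0)) (μ t) :=
    hi.add i2
  rw [integral_sub i3 (integrable_const _), integral_add hi i2, integral_const_mul]
  simp [mn, a]

/-- Recursion for the mean. -/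
theorem Rec.mn_succ (R : Rec p μ) (h0 : 0 ≤ p) (h1 : p ≤ 1) (t : ℕ) :
    mn μ (t + 1) = mn μ t + (1 - p) * a μ t - (1 - 2 * p) := by
  have := R.prob
  have hi := R.integrable t
  have e1 : ENNReal.ofReal (mn μ (t + 1)) =
      ENNReal.ofReal (mn μ t + (1 - p) * a μ t - (1 - 2 * p)) := by
    rw [← R.mn_eq, R.mean]
    have e2 : ∀ n : ℕ, ENNReal.ofReal p * ((n + 1 : ℕ) : ℝ≥0∞) +
        ENNReal.ofReal (1 - p) * ((n - 1 : ℕ) : ℝ≥0∞) =
        ENNReal.ofReal ((n : ℝ) + (1 - p) * (if n = 0 then (1 : ℝ) else 0) - (1 - 2 * p)) := by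
      intro n
      rw [← ENNReal.ofReal_natCast, ← ENNReal.ofReal_natCast, ← ENNReal.ofReal_mul h0,
        ← ENNReal.ofReal_mul (by linarith), ← ENNReal.ofReal_add (by positivity)
          (mul_nonneg (by linarith) (Nat.cast_nonneg _))]
      congr 1
      rcases n with _ | n
      · simp; ring
      · simp; ring
    simp only [e2]
    have hint : Integrable (fun n : ℕ => (n : ℝ) + (1 - p) * (if n = 0 then (1 : ℝ) else 0) -
        (1 - 2 * p)) (μ t) :=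
      (hi.add (integrable_ind.const_mul (1 - p))).sub (integrable_const _)
    rw [← ofReal_integral_eq_lintegral_ofReal hint]
    · congr 1
      exact R.int_aux t
    · refine Eventually.of_forall (fun n => ?_)
      show (0 : ℝ) ≤ _
      rcases n with _ | n
      · simp; linarith
      · simp; nlinarith [Nat.cast_nonneg (α := ℝ) n]
  have hn : ∀ t, 0 ≤ mn μ t := fun t => integral_nonneg (fun n => Nat.cast_nonneg n)
  have hR : 0 ≤ mn μ t + (1 - p) * a μ t - (1 - 2 * p) := by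
    rw [← R.int_aux t]
    refine integral_nonneg (fun n => ?_)
    show (0 : ℝ) ≤ _
    rcases n with _ | n
    · simp; linarith
    · simp; nlinarith [Nat.cast_nonneg (α := ℝ) n]
  exact (ENNReal.ofReal_eq_ofReal_iff (hn _) hR).1 e1

theorem Rec.mn_mono (R : Rec p μ) (t : ℕ) : mn μ t ≤ mn μ (t + 1) := by
  have h := R.mono t
  rw [R.mn_eq, R.mn_eq] at h
  exact (ENNReal.ofReal_le_ofReal_iff (integral_nonneg (fun n => Nat.cast_nonneg n))).1 h

theorem Rec.a_ge (R : Rec p μ) (h0 : 0 ≤ p) (h1 : p < 1 / 2) (t : ℕ) :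
    (1 - 2 * p) ≤ (1 - p) * a μ t := by
  have h2 := R.mn_succ h0 (by linarith) t
  have h3 := R.mn_mono t
  linarith

/-- Recursion for the generating function. -/
theorem Rec.F_succ (R : Rec p μ) (h0 : 0 ≤ p) (h1 : p ≤ 1) (t : ℕ) {z : ℝ} (hz0 : 0 ≤ z)
    (hz1 : z ≤ 1) :
    F μ (t + 1) z = (p * ((1 + z) / 2) * F μ t ((1 + z) / 2) +
      (1 - p) * ∫ n, ((1 + z) / 2) ^ (n - 1) ∂(μ t)) ^ 2 := by
  have := R.prob
  set w := (1 + z) / 2 with hw
  have hw0 : 0 ≤ w := by rw [hw]; linarith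
  have hw1 : w ≤ 1 := by rw [hw]; linarith
  have hFnn : ∀ t {y : ℝ}, 0 ≤ y → 0 ≤ F μ t y := fun t y hy =>
    integral_nonneg (fun n => pow_nonneg hy n)
  have e1 : ENNReal.ofReal (F μ (t + 1) z) = ENNReal.ofReal ((p * w * F μ t w +
      (1 - p) * ∫ n, w ^ (n - 1) ∂(μ t)) ^ 2) := by
    have e2 : ENNReal.ofReal (F μ (t + 1) z) = ∫⁻ n, (ENNReal.ofReal z) ^ n ∂(μ (t + 1)) := by
      unfold F
      rw [ofReal_integral_eq_lintegral_ofReal (integrable_pow hz0 hz1)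
        (Eventually.of_forall (fun n => pow_nonneg hz0 n))]
      refine lintegral_congr (fun n => ?_)
      rw [ENNReal.ofReal_pow hz0]
    rw [e2, R.pow, ENNReal.ofReal_pow (add_nonneg (mul_nonneg (mul_nonneg h0 hw0) (hFnn t hw0))
      (mul_nonneg (by linarith) (integral_nonneg (fun n => pow_nonneg hw0 _))))]
    congr 1
    have e3 : (1 + ENNReal.ofReal z) / 2 = ENNReal.ofReal w := by
      rw [hw, ENNReal.ofReal_div_of_pos (by norm_num), ENNReal.ofReal_add (by norm_num) hz0]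
      simp
    rw [e3]
    have e4 : ∀ n : ℕ, ENNReal.ofReal p * ENNReal.ofReal w ^ (n + 1) +
        ENNReal.ofReal (1 - p) * ENNReal.ofReal w ^ (n - 1) =
        ENNReal.ofReal (p * w * w ^ n + (1 - p) * w ^ (n - 1)) := by
      intro n
      rw [← ENNReal.ofReal_pow hw0, ← ENNReal.ofReal_pow hw0, ← ENNReal.ofReal_mul h0,
        ← ENNReal.ofReal_mul (by linarith), ← ENNReal.ofReal_add
        (mul_nonneg h0 (pow_nonneg hw0 _)) (mul_nonneg (by linarith) (pow_nonneg hw0 _))]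
      congr 1
      ring
    simp only [e4]
    have i1 : Integrable (fun n : ℕ => p * w * w ^ n) (μ t) := (integrable_pow hw0 hw1).const_mul _
    have i2 : Integrable (fun n : ℕ => (1 - p) * w ^ (n - 1)) (μ t) :=
      (integrable_pow' hw0 hw1).const_mul _
    have i3 : Integrable (fun n : ℕ => p * w * w ^ n + (1 - p) * w ^ (n - 1)) (μ t) := i1.add i2
    rw [← ofReal_integral_eq_lintegral_ofReal i3]
    · rw [integral_add i1 i2, integral_const_mul, integral_const_mul]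
      rfl
    · refine Eventually.of_forall (fun n => ?_)
      exact add_nonneg (mul_nonneg (mul_nonneg h0 hw0) (pow_nonneg hw0 _))
        (mul_nonneg (by linarith) (pow_nonneg hw0 _))
  exact (ENNReal.ofReal_eq_ofReal_iff (hFnn _ hz0) (sq_nonneg _)).1 e1

theorem G_eq (t : ℕ) (hp : ∀ t, IsProbabilityMeasure (μ t)) {w : ℝ} (hw0 : 0 ≤ w) (hw1 : w ≤ 1) :
    w * ∫ n, w ^ (n - 1) ∂(μ t) = F μ t w - (1 - w) * a μ t := by
  unfold F a
  rw [← integral_const_mul, ← integral_const_mul, ← integral_sub (integrable_pow hw0 hw1)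
    (integrable_ind.const_mul _)]
  refine integral_congr_ae (Eventually.of_forall (fun n => ?_))
  show w * w ^ (n - 1) = w ^ n - (1 - w) * (if n = 0 then (1 : ℝ) else 0)
  rcases n with _ | n
  · simp
  · simp [pow_succ]; ring

theorem F_nonneg (t : ℕ) {y : ℝ} (hy : 0 ≤ y) : 0 ≤ F μ t y :=
  integral_nonneg (fun n => pow_nonneg hy n)

theorem F_le_one (t : ℕ) (hp : ∀ t, IsProbabilityMeasure (μ t)) {y : ℝ} (hy : 0 ≤ y)
    (hy1 : y ≤ 1) : F μ t y ≤ 1 := by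
  unfold F
  calc ∫ n, y ^ n ∂(μ t) ≤ ∫ n : ℕ, (1 : ℝ) ∂(μ t) :=
        integral_mono (integrable_pow hy hy1) (integrable_const _) (fun n => pow_le_one₀ hy hy1)
    _ = 1 := by simp

theorem F_zero (t : ℕ) : F μ t 0 = a μ t := by
  unfold F a
  refine integral_congr_ae (Eventually.of_forall (fun n => ?_))
  show (0 : ℝ) ^ n = if n = 0 then (1 : ℝ) else 0
  rcases n with _ | n
  · simp
  · simp

/-- The one step inequality. -/
theorem Rec.step (R : Rec p μ) (h0 : 0 ≤ p) (h1 : p < 1 / 2) (t k : ℕ) :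
    F μ (t + 1) (1 - (1 / 2) ^ k) ≤
      F μ t (1 - (1 / 2) ^ (k + 1)) ^ 2 * Real.exp (p * (1 / 4) ^ k) := by
  have hprob := R.prob
  set x : ℝ := (1 / 2) ^ k with hx
  have hx0 : 0 < x := by rw [hx]; positivity
  have hx1 : x ≤ 1 := by rw [hx]; exact pow_le_one₀ (by norm_num) (by norm_num)
  have hx4 : (1 / 4 : ℝ) ^ k = x ^ 2 := by
    rw [hx, ← pow_mul, mul_comm, pow_mul]; norm_num
  have hxs : (1 / 2 : ℝ) ^ (k + 1) = x / 2 := by rw [pow_succ, ← hx]; ring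
  rw [hx4, hxs]
  have hF := R.F_succ h0 (by linarith) t (z := 1 - x) (by linarith) (by linarith)
  have hw : (1 + (1 - x)) / 2 = 1 - x / 2 := by ring
  rw [hw] at hF
  set w := 1 - x / 2 with hwd
  have hw2 : 1 / 2 ≤ w := by rw [hwd]; linarith
  have hw1 : w ≤ 1 := by rw [hwd]; linarith
  have hw0 : 0 < w := by linarith
  rw [hF]
  set f := F μ t w with hf
  set g := ∫ n, w ^ (n - 1) ∂(μ t) with hg
  have hG : w * g = f - (1 - w) * a μ t := G_eq t hprob hw0.le hw1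
  have hf0 : 0 ≤ f := F_nonneg t hw0.le
  have hf1 : f ≤ 1 := F_le_one t hprob hw0.le hw1
  have ha := R.a_ge h0 h1 t
  have hg0 : 0 ≤ g := integral_nonneg (fun n => pow_nonneg hw0.le _)
  -- ψ ≤ f (1 + p x² / 2)
  have key : p * w * f + (1 - p) * g ≤ f * (1 + p * (x ^ 2 / 2)) := by
    have k1 : w * (p * w * f + (1 - p) * g) ≤ w * (f * (1 + p * (x ^ 2 / 2))) := by
      have k2 : w * (p * w * f + (1 - p) * g) = p * w ^ 2 * f + (1 - p) * f -
          (1 - w) * ((1 - p) * a μ t) := by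
        calc w * (p * w * f + (1 - p) * g) = p * w ^ 2 * f + (1 - p) * (w * g) := by ring
          _ = _ := by rw [hG]; ring
      have k3 : (1 - w) * ((1 - 2 * p) * f) ≤ (1 - w) * ((1 - p) * a μ t) := by
        apply mul_le_mul_of_nonneg_left _ (by linarith)
        nlinarith
      have k4 : p * w ^ 2 * f + (1 - p) * f - (1 - w) * ((1 - 2 * p) * f) =
          w * f + p * f * (1 - w) ^ 2 := by ring
      have k5 : p * f * (1 - w) ^ 2 ≤ w * (f * (p * (x ^ 2 / 2))) := by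
        have : (1 - w) ^ 2 = x ^ 2 / 4 := by rw [hwd]; ring
        rw [this]
        have hpf : 0 ≤ p * f * x ^ 2 := by positivity
        nlinarith
      nlinarith
    exact le_of_mul_le_mul_left k1 hw0
  have hψ0 : 0 ≤ p * w * f + (1 - p) * g :=
    add_nonneg (mul_nonneg (mul_nonneg h0 hw0.le) hf0) (mul_nonneg (by linarith) hg0)
  calc (p * w * f + (1 - p) * g) ^ 2 ≤ (f * (1 + p * (x ^ 2 / 2))) ^ 2 :=
        pow_le_pow_left₀ hψ0 key 2
    _ = f ^ 2 * (1 + p * (x ^ 2 / 2)) ^ 2 := by ring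
    _ ≤ f ^ 2 * Real.exp (p * x ^ 2) := by
        apply mul_le_mul_of_nonneg_left _ (sq_nonneg _)
        have h3 : 1 + p * (x ^ 2 / 2) ≤ Real.exp (p * (x ^ 2 / 2)) := by
          have := Real.add_one_le_exp (p * (x ^ 2 / 2)); linarith
        calc (1 + p * (x ^ 2 / 2)) ^ 2 ≤ (Real.exp (p * (x ^ 2 / 2))) ^ 2 :=
              pow_le_pow_left₀ (by positivity) h3 2
          _ = Real.exp (p * x ^ 2) := by
              rw [← Real.exp_nat_mul]; congr 1; push_cast; ring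

theorem Rec.iter (R : Rec p μ) (h0 : 0 ≤ p) (h1 : p < 1 / 2) (t : ℕ) : ∀ j k : ℕ,
    F μ (t + j) (1 - (1 / 2) ^ k) ≤
      F μ t (1 - (1 / 2) ^ (k + j)) ^ (2 ^ j) * Real.exp (2 * p * (1 / 4) ^ k) := by
  intro j
  have hy : ∀ k : ℕ, (0 : ℝ) ≤ 1 - (1 / 2) ^ k := by
    intro k
    have : (1 / 2 : ℝ) ^ k ≤ 1 := pow_le_one₀ (by norm_num) (by norm_num)
    linarith
  induction j with
  | zero =>
    intro k
    simp only [add_zero, pow_zero, pow_one]
    have h2 : 1 ≤ Real.exp (2 * p * (1 / 4) ^ k) := Real.one_le_exp (by positivity)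
    have h3 := F_nonneg (μ := μ) t (hy k)
    nlinarith
  | succ j ih =>
    intro k
    have h2 := R.step h0 h1 (t + j) k
    have h3 := ih (k + 1)
    have h4 := F_nonneg (μ := μ) (t + j) (hy (k + 1))
    calc F μ (t + (j + 1)) (1 - (1 / 2) ^ k)
        ≤ F μ (t + j) (1 - (1 / 2) ^ (k + 1)) ^ 2 * Real.exp (p * (1 / 4) ^ k) := h2
      _ ≤ (F μ t (1 - (1 / 2) ^ (k + 1 + j)) ^ (2 ^ j) *
            Real.exp (2 * p * (1 / 4) ^ (k + 1))) ^ 2 * Real.exp (p * (1 / 4) ^ k) := by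
          gcongr
      _ = F μ t (1 - (1 / 2) ^ (k + (j + 1))) ^ (2 ^ (j + 1)) *
            Real.exp (2 * p * (1 / 4) ^ k) := by
          rw [mul_pow, ← pow_mul, ← pow_succ, ← Real.exp_nat_mul, mul_assoc, ← Real.exp_add,
            show k + 1 + j = k + (j + 1) by ring]
          congr 2
          rw [pow_succ]; push_cast; ring

/-- The bound for the discretized mean. -/
theorem Rec.bound (R : Rec p μ) (h0 : 0 ≤ p) (h1 : p < 1 / 2) (t j : ℕ) :
    2 ^ j * (1 - F μ t (1 - (1 / 2) ^ j)) ≤ 2 * p + Real.log ((1 - p) / (1 - 2 * p)) := by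
  have hprob := R.prob
  have hy : (0 : ℝ) ≤ 1 - (1 / 2) ^ j := by
    have : (1 / 2 : ℝ) ^ j ≤ 1 := pow_le_one₀ (by norm_num) (by norm_num)
    linarith
  have h2 := R.iter h0 h1 t j 0
  have h3 : a μ (t + j) ≤ F μ t (1 - (1 / 2) ^ j) ^ (2 ^ j) * Real.exp (2 * p) := by
    rw [← F_zero]
    simpa using h2
  have h4 : F μ t (1 - (1 / 2) ^ j) ^ (2 ^ j) ≤
      Real.exp (-(2 ^ j * (1 - F μ t (1 - (1 / 2) ^ j)))) := by
    have h5 : F μ t (1 - (1 / 2) ^ j) ≤ Real.exp (-(1 - F μ t (1 - (1 / 2) ^ j))) := by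
      have := Real.add_one_le_exp (-(1 - F μ t (1 - (1 / 2) ^ j)))
      linarith
    calc F μ t (1 - (1 / 2) ^ j) ^ (2 ^ j) ≤ (Real.exp (-(1 - F μ t (1 - (1 / 2) ^ j)))) ^ (2 ^ j) :=
          pow_le_pow_left₀ (F_nonneg t hy) h5 _
      _ = _ := by rw [← Real.exp_nat_mul]; congr 1; push_cast; ring
  have h6 := R.a_ge h0 h1 (t + j)
  have hq : 0 < 1 - p := by linarith
  have hr : 0 < 1 - 2 * p := by linarith
  have h7 : (1 - 2 * p) / (1 - p) ≤ Real.exp (-(2 ^ j * (1 - F μ t (1 - (1 / 2) ^ j))) + 2 * p) := by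
    rw [Real.exp_add, div_le_iff₀ hq]
    calc 1 - 2 * p ≤ (1 - p) * a μ (t + j) := h6
      _ = a μ (t + j) * (1 - p) := by ring
      _ ≤ _ := by
        apply mul_le_mul_of_nonneg_right _ hq.le
        refine h3.trans ?_
        exact mul_le_mul_of_nonneg_right h4 (Real.exp_pos _).le
  have h8 := (Real.log_le_iff_le_exp (by positivity)).2 h7
  have h9 : Real.log ((1 - p) / (1 - 2 * p)) = - Real.log ((1 - 2 * p) / (1 - p)) := by
    rw [← Real.log_inv, inv_div]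
  rw [h9]
  linarith

theorem tendsto_disc (n : ℕ) :
    Tendsto (fun j : ℕ => ENNReal.ofReal (2 ^ j * (1 - (1 - (1 / 2) ^ j) ^ n))) atTop
      (𝓝 (n : ℝ≥0∞)) := by
  rw [← ENNReal.ofReal_natCast]
  apply ENNReal.tendsto_ofReal
  have e : ∀ j : ℕ, (2 : ℝ) ^ j * (1 - (1 - (1 / 2) ^ j) ^ n) =
      ∑ i ∈ Finset.range n, (1 - (1 / 2 : ℝ) ^ j) ^ i := by
    intro j
    have h := geom_sum_mul_neg (1 - (1 / 2 : ℝ) ^ j) n
    rw [← h]
    have h2 : (2 : ℝ) ^ j * (1 / 2) ^ j = 1 := by rw [← mul_pow]; norm_num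
    calc (2 : ℝ) ^ j * ((∑ i ∈ Finset.range n, (1 - (1 / 2 : ℝ) ^ j) ^ i) *
          (1 - (1 - (1 / 2) ^ j))) = (2 ^ j * (1 / 2) ^ j) *
          ∑ i ∈ Finset.range n, (1 - (1 / 2 : ℝ) ^ j) ^ i := by ring
      _ = _ := by rw [h2, one_mul]
  simp only [e]
  have h3 : Tendsto (fun j : ℕ => (1 - (1 / 2 : ℝ) ^ j)) atTop (𝓝 1) := by
    have := (tendsto_pow_atTop_nhds_zero_of_lt_one (r := (1 / 2 : ℝ)) (by norm_num)
      (by norm_num)).const_sub 1
    simpa using this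
  have h4 : Tendsto (fun j : ℕ => ∑ i ∈ Finset.range n, (1 - (1 / 2 : ℝ) ^ j) ^ i) atTop
      (𝓝 (∑ i ∈ Finset.range n, (1 : ℝ) ^ i)) :=
    tendsto_finsetSum _ (fun i _ => h3.pow i)
  simpa using h4

/-- Upper bound. -/
theorem Rec.upper (R : Rec p μ) (h0 : 0 ≤ p) (h1 : p < 1 / 2) (t : ℕ) :
    ∫⁻ n, (n : ℝ≥0∞) ∂(μ t) ≤ ENNReal.ofReal (2 * p + Real.log ((1 - p) / (1 - 2 * p))) := by
  have hprob := R.prob
  have hy : ∀ k : ℕ, (0 : ℝ) ≤ 1 - (1 / 2) ^ k := by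
    intro k
    have : (1 / 2 : ℝ) ^ k ≤ 1 := pow_le_one₀ (by norm_num) (by norm_num)
    linarith
  have hy1 : ∀ k : ℕ, 1 - (1 / 2 : ℝ) ^ k ≤ 1 := by
    intro k
    have : (0 : ℝ) ≤ (1 / 2 : ℝ) ^ k := by positivity
    linarith
  have h2 : ∀ j : ℕ, ∫⁻ n, ENNReal.ofReal (2 ^ j * (1 - (1 - (1 / 2) ^ j) ^ n)) ∂(μ t) ≤
      ENNReal.ofReal (2 * p + Real.log ((1 - p) / (1 - 2 * p))) := by
    intro j
    have hint : Integrable (fun n : ℕ => (2 : ℝ) ^ j * (1 - (1 - (1 / 2) ^ j) ^ n)) (μ t) :=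
      ((integrable_const _).sub (integrable_pow (hy j) (hy1 j))).const_mul _
    rw [← ofReal_integral_eq_lintegral_ofReal hint]
    · apply ENNReal.ofReal_le_ofReal
      refine le_trans (le_of_eq ?_) (R.bound h0 h1 t j)
      rw [integral_const_mul, integral_sub (integrable_const _) (integrable_pow (hy j) (hy1 j))]
      simp [F]
    · refine Eventually.of_forall (fun n => ?_)
      have : (1 - (1 / 2 : ℝ) ^ j) ^ n ≤ 1 := pow_le_one₀ (hy j) (hy1 j)
      show (0 : ℝ) ≤ _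
      apply mul_nonneg (by positivity)
      linarith
  calc ∫⁻ n, (n : ℝ≥0∞) ∂(μ t)
      = ∫⁻ n, liminf (fun j : ℕ => ENNReal.ofReal (2 ^ j * (1 - (1 - (1 / 2) ^ j) ^ n))) atTop
          ∂(μ t) := lintegral_congr (fun n => (tendsto_disc n).liminf_eq.symm)
    _ ≤ liminf (fun j : ℕ => ∫⁻ n, ENNReal.ofReal (2 ^ j * (1 - (1 - (1 / 2) ^ j) ^ n)) ∂(μ t))
          atTop := lintegral_liminf_le (fun j => Measurable.of_discrete)
    _ ≤ _ := by
        refine le_trans (liminf_le_liminf (Eventually.of_forall h2)) ?_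
        simp

/-- Lower bound for the probability of zero. -/
theorem Rec.a_lower (R : Rec p μ) (h0 : 0 ≤ p) (h1 : p < 1 / 2) (t : ℕ) :
    Real.exp (-(Real.log 4 * mn μ (t + 1))) ≤ a μ (t + 1) := by
  have hprob := R.prob
  have hi := R.integrable t
  rw [← F_zero, R.F_succ h0 (by linarith) t le_rfl (by norm_num)]
  have hw : (1 + (0 : ℝ)) / 2 = 1 / 2 := by norm_num
  rw [hw]
  set m := mn μ (t + 1) with hm
  -- tangent line
  have htan : ∀ x : ℝ, Real.exp (-(Real.log 2 * m)) * (1 - Real.log 2 * (x - m)) ≤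
      Real.exp (-(Real.log 2 * x)) := by
    intro x
    have h2 : 1 - Real.log 2 * (x - m) ≤ Real.exp (-(Real.log 2 * (x - m))) := by
      have := Real.add_one_le_exp (-(Real.log 2 * (x - m))); linarith
    calc Real.exp (-(Real.log 2 * m)) * (1 - Real.log 2 * (x - m))
        ≤ Real.exp (-(Real.log 2 * m)) * Real.exp (-(Real.log 2 * (x - m))) :=
          mul_le_mul_of_nonneg_left h2 (Real.exp_pos _).le
      _ = Real.exp (-(Real.log 2 * x)) := by rw [← Real.exp_add]; congr 1; ring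
  have hpow : ∀ n : ℕ, Real.exp (-(Real.log 2 * (n : ℝ))) = (1 / 2 : ℝ) ^ n := by
    intro n
    rw [show -(Real.log 2 * (n : ℝ)) = (n : ℝ) * (-(Real.log 2)) by ring, Real.exp_nat_mul,
      Real.exp_neg, Real.exp_log (by norm_num)]
    norm_num
  -- lower bound of the integrand
  set c := Real.exp (-(Real.log 2 * m)) with hc
  have hlow : ∀ n : ℕ, c * (1 + Real.log 2 * m) - c * Real.log 2 *
      ((n : ℝ) + (1 - p) * (if n = 0 then (1 : ℝ) else 0) - (1 - 2 * p)) ≤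
      p * (1 / 2) * (1 / 2 : ℝ) ^ n + (1 - p) * (1 / 2 : ℝ) ^ (n - 1) := by
    intro n
    have e1 := htan ((n + 1 : ℕ) : ℝ)
    have e2 := htan ((n - 1 : ℕ) : ℝ)
    rw [hpow] at e1 e2
    have e3 : p * (1 / 2) * (1 / 2 : ℝ) ^ n = p * (1 / 2 : ℝ) ^ (n + 1) := by rw [pow_succ]; ring
    rw [e3]
    have e4 := mul_le_mul_of_nonneg_left e1 h0
    have e5 := mul_le_mul_of_nonneg_left e2 (show 0 ≤ 1 - p by linarith)
    refine le_trans (le_of_eq ?_) (add_le_add e4 e5)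
    rcases n with _ | n
    · simp; ring
    · simp; ring
  have i1 : Integrable (fun n : ℕ => p * (1 / 2) * (1 / 2 : ℝ) ^ n) (μ t) :=
    (integrable_pow (by norm_num) (by norm_num)).const_mul _
  have i2 : Integrable (fun n : ℕ => (1 - p) * (1 / 2 : ℝ) ^ (n - 1)) (μ t) :=
    (integrable_pow' (by norm_num) (by norm_num)).const_mul _
  have i3 : Integrable (fun n : ℕ => p * (1 / 2) * (1 / 2 : ℝ) ^ n +
      (1 - p) * (1 / 2 : ℝ) ^ (n - 1)) (μ t) := i1.add i2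
  have j2 : Integrable (fun n : ℕ => (1 - p) * (if n = 0 then (1 : ℝ) else 0)) (μ t) :=
    integrable_ind.const_mul (1 - p)
  have j3 : Integrable (fun n : ℕ => (n : ℝ) + (1 - p) * (if n = 0 then (1 : ℝ) else 0) -
      (1 - 2 * p)) (μ t) := (hi.add j2).sub (integrable_const _)
  have j4 : Integrable (fun n : ℕ => c * Real.log 2 *
      ((n : ℝ) + (1 - p) * (if n = 0 then (1 : ℝ) else 0) - (1 - 2 * p))) (μ t) := j3.const_mul _
  have j5 : Integrable (fun n : ℕ => c * (1 + Real.log 2 * m) - c * Real.log 2 *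
      ((n : ℝ) + (1 - p) * (if n = 0 then (1 : ℝ) else 0) - (1 - 2 * p))) (μ t) :=
    (integrable_const _).sub j4
  have hI := integral_mono j5 i3 hlow
  have k1 : ∫ n : ℕ, c * Real.log 2 *
      ((n : ℝ) + (1 - p) * (if n = 0 then (1 : ℝ) else 0) - (1 - 2 * p)) ∂(μ t) =
      c * Real.log 2 * m := by
    rw [integral_const_mul, R.int_aux t, ← R.mn_succ h0 (by linarith) t]
  have k2 : ∫ n : ℕ, c * (1 + Real.log 2 * m) ∂(μ t) = c * (1 + Real.log 2 * m) := by simp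
  have k3 : ∫ n : ℕ, (p * (1 / 2) * (1 / 2 : ℝ) ^ n + (1 - p) * (1 / 2 : ℝ) ^ (n - 1)) ∂(μ t) =
      p * (1 / 2) * F μ t (1 / 2) + (1 - p) * ∫ n, (1 / 2 : ℝ) ^ (n - 1) ∂(μ t) := by
    rw [integral_add i1 i2, integral_const_mul, integral_const_mul]; rfl
  rw [integral_sub (integrable_const _) j4, k1, k2, k3] at hI
  have hI2 : c ≤ p * (1 / 2) * F μ t (1 / 2) + (1 - p) * ∫ n, (1 / 2 : ℝ) ^ (n - 1) ∂(μ t) := by
    refine le_trans (le_of_eq ?_) hI
    ring
  have h4 : Real.log 4 = 2 * Real.log 2 := by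
    rw [show (4 : ℝ) = 2 ^ 2 by norm_num, Real.log_pow]; norm_num
  calc Real.exp (-(Real.log 4 * m)) = c ^ 2 := by
        rw [hc, ← Real.exp_nat_mul, h4]; congr 1; push_cast; ring
    _ ≤ _ := pow_le_pow_left₀ (Real.exp_pos _).le hI2 2

theorem mn_nonneg (t : ℕ) : 0 ≤ mn μ t := integral_nonneg (fun n => Nat.cast_nonneg n)

theorem Rec.mn_le (R : Rec p μ) (h0 : 0 ≤ p) (h1 : p < 1 / 2) (t : ℕ) :
    mn μ t ≤ 2 * p + Real.log ((1 - p) / (1 - 2 * p)) := by
  have h := R.upper h0 h1 t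
  rw [R.mn_eq] at h
  have h2 : 0 ≤ 2 * p + Real.log ((1 - p) / (1 - 2 * p)) := by
    have h3 : 0 ≤ Real.log ((1 - p) / (1 - 2 * p)) := by
      apply Real.log_nonneg
      rw [le_div_iff₀ (by linarith)]; linarith
    linarith
  exact (ENNReal.ofReal_le_ofReal_iff h2).1 h

/-- Lower bound. -/
theorem Rec.lower (R : Rec p μ) (h0 : 0 ≤ p) (h1 : p < 1 / 2) :
    ENNReal.ofReal (Real.log ((1 - p) / (1 - 2 * p)) / Real.log 4) ≤
      ⨆ t, ∫⁻ n, (n : ℝ≥0∞) ∂(μ t) := by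
  have hq : 0 < 1 - p := by linarith
  have hr : 0 < 1 - 2 * p := by linarith
  set B := 2 * p + Real.log ((1 - p) / (1 - 2 * p)) with hB
  have hmono : Monotone (mn μ) := monotone_nat_of_le_succ R.mn_mono
  have hbdd : BddAbove (Set.range (mn μ)) := ⟨B, by rintro _ ⟨t, rfl⟩; exact R.mn_le h0 h1 t⟩
  have hlim := tendsto_atTop_ciSup hmono hbdd
  set M := ⨆ t, mn μ t with hM
  have hlim1 : Tendsto (fun t => mn μ (t + 1)) atTop (𝓝 M) := (tendsto_add_atTop_iff_nat 1).2 hlim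
  have ha : Tendsto (fun t => a μ t) atTop (𝓝 ((1 - 2 * p) / (1 - p))) := by
    have e : ∀ t, a μ t = (mn μ (t + 1) - mn μ t + (1 - 2 * p)) / (1 - p) := by
      intro t
      have := R.mn_succ h0 (by linarith) t
      rw [eq_div_iff hq.ne']; linarith
    have h2 : Tendsto (fun t => (mn μ (t + 1) - mn μ t + (1 - 2 * p)) / (1 - p)) atTop
        (𝓝 ((M - M + (1 - 2 * p)) / (1 - p))) :=
      ((hlim1.sub hlim).add_const _).div_const _
    rw [sub_self, zero_add] at h2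
    exact h2.congr (fun t => (e t).symm)
  have h3 : ∀ t, Real.exp (-(Real.log 4 * M)) ≤ a μ (t + 1) := by
    intro t
    refine le_trans ?_ (R.a_lower h0 h1 t)
    apply Real.exp_le_exp.2
    have h4 : mn μ (t + 1) ≤ M := le_ciSup hbdd (t + 1)
    have h5 : 0 ≤ Real.log 4 := Real.log_nonneg (by norm_num)
    have := mul_le_mul_of_nonneg_left h4 h5
    linarith
  have h6 : Real.exp (-(Real.log 4 * M)) ≤ (1 - 2 * p) / (1 - p) :=
    ge_of_tendsto' ((tendsto_add_atTop_iff_nat 1).2 ha) h3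
  have h7 := (Real.le_log_iff_exp_le (by positivity)).2 h6
  have h9 : Real.log ((1 - p) / (1 - 2 * p)) = - Real.log ((1 - 2 * p) / (1 - p)) := by
    rw [← Real.log_inv, inv_div]
  have h10 : Real.log ((1 - p) / (1 - 2 * p)) / Real.log 4 ≤ M := by
    have h5 : 0 < Real.log 4 := Real.log_pos (by norm_num)
    rw [div_le_iff₀ h5, h9]; linarith
  calc ENNReal.ofReal (Real.log ((1 - p) / (1 - 2 * p)) / Real.log 4)
      ≤ ENNReal.ofReal M := ENNReal.ofReal_le_ofReal h10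
    _ ≤ ⨆ t, ∫⁻ n, (n : ℝ≥0∞) ∂(μ t) := by
        have h11 : Tendsto (fun t => ENNReal.ofReal (mn μ t)) atTop (𝓝 (ENNReal.ofReal M)) :=
          ENNReal.tendsto_ofReal hlim
        refine le_of_tendsto' h11 (fun t => ?_)
        rw [← R.mn_eq]
        exact le_iSup (fun t => ∫⁻ n, (n : ℝ≥0∞) ∂(μ t)) t

end Pool.Agent.H563R3.LampReal
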