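import Mathlib
import Pool.Agent.H563R3.LampLaw
import Pool.Agent.H563R3.LampReal

set_option autoImplicit false
open MeasureTheory ProbabilityTheory Filter Topology
open scoped ENNReal symmDiff

namespace Pool.Agent.H563R3.Park

theorem law_prob (p : ℝ) (h0 : 0 ≤ p) (h1 : p ≤ 1) : IsProbabilityMeasure (law lampTriple p) := by
  have := coin_prob h0 h1
  rw [law_eq]; infer_instance

theorem vis_mono (v : Lamp) (ω : Env Lamp) : Monotone (fun t => vis v t ω) := by
  apply monotone_nat_of_le_succ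
  intro t
  unfold vis
  rw [Finset.sum_range_succ]
  exact Nat.le_add_right _ _

theorem lam_rec (p : ℝ) (h0 : 0 ≤ p) (h1 : p ≤ 1) : LampReal.Rec p (lam p) where
  prob := by
    intro t
    have := law_prob p h0 h1
    exact Measure.isProbabilityMeasure_map (measurable_vis 1 t).aemeasurable
  zero := by
    rw [← lintegral_vis p h0 h1 0 1 (fun n => (n : ℝ≥0∞))]
    simp [vis]
  pow := fun t z => lam_pow p h0 h1 t z
  mean := fun t => lam_mean p h0 h1 t
  mono := by
    intro t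
    rw [← lintegral_vis p h0 h1 t 1 (fun n => (n : ℝ≥0∞)),
      ← lintegral_vis p h0 h1 (t + 1) 1 (fun n => (n : ℝ≥0∞))]
    refine lintegral_mono (fun ω => ?_)
    have h : vis 1 t ω ≤ vis 1 (t + 1) ω := vis_mono 1 ω (Nat.le_succ t)
    exact Nat.cast_le.2 h

theorem good_ae (p : ℝ) (h0 : 0 ≤ p) (h1 : p ≤ 1) : ∀ᵐ ω ∂(law lampTriple p), Good ω := by
  have := coin_prob h0 h1
  unfold Good
  rw [ae_all_iff]
  intro u
  rw [ae_all_iff]
  intro q
  have hm1 : (law lampTriple p).map (fun ω : Env Lamp => ω u) = (coinLaw p).prod (kf u) := by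
    rw [law_eq]
    exact Measure.infinitePi_map_eval (fun v : Lamp => (coinLaw p).prod (kf v)) u
  have hm2 : ((law lampTriple p).map (fun ω : Env Lamp => ω u)).map Prod.snd = kf u := by
    rw [hm1]
    exact Measure.snd_prod
  have hm3 : (kf u).map (fun x : ℕ × ℕ → Lamp => x q) = (lampKernel u).toMeasure :=
    Measure.infinitePi_map_eval (fun _ : ℕ × ℕ => (lampKernel u).toMeasure) q
  have hmeas : Measurable (fun ω : Env Lamp => (ω u).2 q) := by fun_prop
  have hm4 : (law lampTriple p).map (fun ω : Env Lamp => (ω u).2 q) = (lampKernel u).toMeasure := by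
    rw [← hm3, ← hm2, Measure.map_map measurable_snd (measurable_pi_apply u),
      Measure.map_map (measurable_pi_apply q) (by fun_prop)]
    rfl
  have hset : MeasurableSet {w : Lamp | w = s0 u ∨ w = s1 u} := MeasurableSet.of_discrete
  have h5 : ∀ᵐ w ∂(lampKernel u).toMeasure, w = s0 u ∨ w = s1 u := by
    rw [ae_iff]
    rw [PMF.toMeasure_apply_eq_zero_iff _ MeasurableSet.of_discrete]
    rw [Set.disjoint_left]
    intro w hw1 hw2
    simp only [Set.mem_ofPred_eq, not_or] at hw2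
    rw [PMF.mem_support_iff] at hw1
    exact hw1 (lampKernel_other u w hw2.1 hw2.2)
  rw [← hm4] at h5
  exact ae_of_ae_map hmeas.aemeasurable h5

theorem meanVisits_eq (p : ℝ) (h0 : 0 ≤ p) (h1 : p ≤ 1) (v : Lamp) :
    meanVisits lampTriple p v = ⨆ t, ∫⁻ n, (n : ℝ≥0∞) ∂(lam p t) := by
  unfold meanVisits
  have e : ∫⁻ ω, (⨆ t, (visits lampTriple.G ω t v : ℝ≥0∞)) ∂(law lampTriple p) =
      ∫⁻ ω, (⨆ t, (vis v t ω : ℝ≥0∞)) ∂(law lampTriple p) := by
    refine lintegral_congr_ae ?_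
    filter_upwards [good_ae p h0 h1] with ω hω
    congr 1
    funext t
    have := visits_eq hω t v
    show ((visits lampGraph ω t v : ℕ) : ℝ≥0∞) = _
    rw [this]
  rw [e, lintegral_iSup]
  · congr 1
    funext t
    exact lintegral_vis p h0 h1 t v (fun n => (n : ℝ≥0∞))
  · intro t
    exact (Measurable.of_discrete (f := fun n : ℕ => (n : ℝ≥0∞))).comp (measurable_vis v t)
  · intro s t hst ω
    show ((vis v s ω : ℕ) : ℝ≥0∞) ≤ ((vis v t ω : ℕ) : ℝ≥0∞)
    have h : vis v s ω ≤ vis v t ω := vis_mono v ω hst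
    exact_mod_cast h

theorem mean_upper (p : ℝ) (h0 : 0 ≤ p) (h1 : p < 1 / 2) (v : Lamp) :
    meanVisits lampTriple p v ≤ ENNReal.ofReal (2 * p + Real.log ((1 - p) / (1 - 2 * p))) := by
  rw [meanVisits_eq p h0 (by linarith)]
  exact iSup_le (fun t => (lam_rec p h0 (by linarith)).upper h0 h1 t)

theorem mean_lower (p : ℝ) (h0 : 0 ≤ p) (h1 : p < 1 / 2) (v : Lamp) :
    ENNReal.ofReal (Real.log ((1 - p) / (1 - 2 * p)) / Real.log 4) ≤ meanVisits lampTriple p v := by
  rw [meanVisits_eq p h0 (by linarith)]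
  exact (lam_rec p h0 (by linarith)).lower h0 h1

theorem mean_tendsto (γ : ℝ) (hγ : 0 < γ) (v : Lamp) :
    Tendsto (fun p : ℝ => meanVisits lampTriple p v * ENNReal.ofReal ((1 / 2 - p) ^ γ))
      (𝓝[<] (1 / 2)) (𝓝 0) := by
  have h1 : Tendsto (fun p : ℝ => 1 / 2 - p) (𝓝[<] (1 / 2)) (𝓝[>] 0) := by
    apply tendsto_nhdsWithin_of_tendsto_nhds_of_eventually_within
    · have : Tendsto (fun p : ℝ => 1 / 2 - p) (𝓝 (1 / 2)) (𝓝 (1 / 2 - 1 / 2)) :=
        tendsto_const_nhds.sub tendsto_id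
      rw [sub_self] at this
      exact this.mono_left nhdsWithin_le_nhds
    · filter_upwards [self_mem_nhdsWithin] with p hp
      have : p < 1 / 2 := hp
      show 0 < 1 / 2 - p
      linarith
  have h2 : Tendsto (fun x : ℝ => x ^ γ - Real.log x * x ^ γ) (𝓝[>] 0) (𝓝 (0 - 0)) := by
    refine Tendsto.sub ?_ (tendsto_log_mul_rpow_nhdsGT_zero hγ)
    have : Tendsto (fun x : ℝ => x ^ γ) (𝓝 0) (𝓝 ((0 : ℝ) ^ γ)) :=
      (Real.continuousAt_rpow_const 0 γ (Or.inr hγ.le)).tendsto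
    rw [Real.zero_rpow hγ.ne'] at this
    exact this.mono_left nhdsWithin_le_nhds
  rw [sub_zero] at h2
  have h3 : Tendsto (fun p : ℝ => ENNReal.ofReal ((1 / 2 - p) ^ γ -
      Real.log (1 / 2 - p) * (1 / 2 - p) ^ γ)) (𝓝[<] (1 / 2)) (𝓝 0) := by
    have := ENNReal.tendsto_ofReal (h2.comp h1)
    simpa using this
  refine tendsto_of_tendsto_of_tendsto_of_le_of_le' tendsto_const_nhds h3
    (Eventually.of_forall (fun _ => zero_le)) ?_
  have h4 : ∀ᶠ p : ℝ in 𝓝[<] (1 / 2), 0 ≤ p :=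
    (eventually_ge_nhds (show (0 : ℝ) < 1 / 2 by norm_num)).filter_mono nhdsWithin_le_nhds
  filter_upwards [self_mem_nhdsWithin, h4] with p hp hp0
  have hp1 : p < 1 / 2 := hp
  have hx : 0 < 1 / 2 - p := by linarith
  have hlog : Real.log ((1 - p) / (1 - 2 * p)) ≤ - Real.log (1 / 2 - p) := by
    rw [← Real.log_inv]
    apply Real.log_le_log
    · apply div_pos <;> linarith
    · rw [div_le_iff₀ (by linarith), show (1 - 2 * p) = 2 * (1 / 2 - p) by ring]
      have : (1 / 2 - p)⁻¹ * (2 * (1 / 2 - p)) = 2 := by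
        rw [mul_comm, mul_assoc, mul_inv_cancel₀ hx.ne', mul_one]
      rw [this]; linarith
  calc meanVisits lampTriple p v * ENNReal.ofReal ((1 / 2 - p) ^ γ)
      ≤ ENNReal.ofReal (2 * p + Real.log ((1 - p) / (1 - 2 * p))) *
          ENNReal.ofReal ((1 / 2 - p) ^ γ) := by
        gcongr
        exact mean_upper p hp0 hp1 v
    _ ≤ ENNReal.ofReal (1 - Real.log (1 / 2 - p)) * ENNReal.ofReal ((1 / 2 - p) ^ γ) := by
        gcongr
        linarith
    _ = ENNReal.ofReal ((1 / 2 - p) ^ γ - Real.log (1 / 2 - p) * (1 / 2 - p) ^ γ) := by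
        rw [← ENNReal.ofReal_mul]
        · congr 1; ring
        · have : Real.log (1 / 2 - p) ≤ 0 := Real.log_nonpos hx.le (by linarith)
          linarith

end Pool.Agent.H563R3.Park
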