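import Mathlib

set_option autoImplicit false
open MeasureTheory ProbabilityTheory Filter Topology
open scoped ENNReal

namespace Pool.Agent.H563R3

/-- Sites of the one dimensional lattice. -/
abbrev Site := Fin 1 → ℤ
/-- Configurations: `0` blank, `1` runner moving right, `2` killer about to stay,
`3` killer about to move left. -/
abbrev Conf := Site → Fin 4
/-- Coin fields. -/
abbrev Coins := Site → Bool

/-- The site with coordinate `z`. -/
def pt (z : ℤ) : Site := fun _ => z

/-- A killer is present at the next time at a cell whose present state is `c`, the right neighbour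
being in state `r`. -/
def arr (c r : Fin 4) : Prop := c = 1 ∨ c = 2 ∨ r = 3

instance (c r : Fin 4) : Decidable (arr c r) := by unfold arr; infer_instance

/-- The updated state of a cell, from its left neighbour, itself, its right neighbour and a coin. -/
def G (l c r : Fin 4) (b : Bool) : Fin 4 :=
  if arr c r then (if b then 3 else 2) else if l = 1 ∧ c = 0 then 1 else 0

/-- Being a killer. -/
def isK (a : Fin 4) : Prop := a = 2 ∨ a = 3

instance (a : Fin 4) : Decidable (isK a) := by unfold isK; infer_instance

theorem isK_G (l c r : Fin 4) (b : Bool) : isK (G l c r b) ↔ arr c r := by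
  unfold G isK
  by_cases h : arr c r
  · simp only [h, if_true]; cases b <;> simp
  · simp only [h, if_false]; split_ifs <;> simp

theorem G_eq_one (l c r : Fin 4) (b : Bool) : G l c r b = 1 ↔ (l = 1 ∧ c = 0 ∧ r ≠ 3) := by
  revert l c r b; unfold G arr; decide

theorem G_eq_zero {l c r : Fin 4} {b : Bool} (h : G l c r b = 0) : (c = 0 ∨ c = 3) ∧ r ≠ 3 := by
  revert l c r b; unfold G arr; decide

theorem G_eq_two (l c r : Fin 4) (b : Bool) : G l c r b = 2 ↔ (arr c r ∧ b = false) := by
  revert l c r b; unfold G arr; decide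

theorem G_eq_three (l c r : Fin 4) (b : Bool) : G l c r b = 3 ↔ (arr c r ∧ b = true) := by
  revert l c r b; unfold G arr; decide

/-- Global update map. -/
def F (p : Conf × Coins) : Conf := fun k =>
  G (p.1 (k + pt (-1))) (p.1 (k + pt 0)) (p.1 (k + pt 1)) (p.2 k)

theorem measurable_G : Measurable (fun q : Fin 4 × Fin 4 × Fin 4 × Bool => G q.1 q.2.1 q.2.2.1 q.2.2.2) :=
  Measurable.of_discrete

theorem measurable_F : Measurable F := by
  rw [measurable_pi_iff]
  intro k
  have h : Measurable (fun p : Conf × Coins =>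
      ((p.1 (k + pt (-1)), p.1 (k + pt 0), p.1 (k + pt 1), p.2 k) : Fin 4 × Fin 4 × Fin 4 × Bool)) := by
    fun_prop
  exact measurable_G.comp h

/-- A fair coin. -/
noncomputable def coin : Measure Bool := (PMF.uniformOfFintype Bool).toMeasure

instance : IsProbabilityMeasure coin := by unfold coin; infer_instance

theorem coin_singleton (b : Bool) : coin {b} = 1 / 2 := by
  unfold coin
  rw [PMF.toMeasure_apply_singleton _ _ (MeasurableSet.singleton b), PMF.uniformOfFintype_apply]
  simp

/-- The field of coins. -/
noncomputable def nu : Measure Coins := Measure.infinitePi (fun _ : Site => coin)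

instance : IsProbabilityMeasure nu := by unfold nu; infer_instance

/-- The neighbourhood. -/
def nb : Finset Site := {pt (-1), pt 0, pt 1}

theorem mem_nb1 : pt (-1) ∈ nb := by simp [nb]
theorem mem_nb2 : pt 0 ∈ nb := by simp [nb]
theorem mem_nb3 : pt 1 ∈ nb := by simp [nb]

/-- The local rule. -/
noncomputable def rule (v : ↥nb → Fin 4) : ProbabilityMeasure (Fin 4) :=
  ⟨coin.map (fun b => G (v ⟨pt (-1), mem_nb1⟩) (v ⟨pt 0, mem_nb2⟩) (v ⟨pt 1, mem_nb3⟩) b),
    Measure.isProbabilityMeasure_map (Measurable.of_discrete).aemeasurable⟩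

/-- The transition kernel. -/
noncomputable def kap : Kernel Conf Conf := (Kernel.id ×ₖ Kernel.const Conf nu).map F

instance : IsMarkovKernel kap := by
  unfold kap; exact Kernel.IsMarkovKernel.map _ measurable_F

theorem kap_eq (x : Conf) : kap x = nu.map (fun ω => F (x, ω)) := by
  unfold kap
  rw [Kernel.map_apply _ measurable_F, Kernel.prod_apply, Kernel.id_apply, Kernel.const_apply,
    Measure.dirac_prod, Measure.map_map measurable_F (by fun_prop)]
  rfl

theorem kap_eq_infinitePi (x : Conf) :
    kap x = Measure.infinitePi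
      (fun k : Site => ((rule (fun v : ↥nb => x (k + (v : Site)))) : Measure (Fin 4))) := by
  rw [kap_eq]
  exact Measure.infinitePi_map_pi (μ := fun _ : Site => coin)
    (f := fun k b => G (x (k + pt (-1))) (x (k + pt 0)) (x (k + pt 1)) b)
    (fun _ => Measurable.of_discrete)

theorem measurable_Fx (x : Conf) : Measurable (fun ω => F (x, ω)) :=
  measurable_F.comp (by fun_prop)

theorem kap_apply (x : Conf) {E : Set Conf} (hE : MeasurableSet E) :
    kap x E = nu {ω | F (x, ω) ∈ E} := by
  rw [kap_eq, Measure.map_apply (measurable_Fx x) hE]; rfl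

theorem kap_of_forall {x : Conf} {E : Set Conf} (hE : MeasurableSet E)
    (h : ∀ ω, F (x, ω) ∈ E) : kap x E = 1 := by
  rw [kap_apply x hE]
  have : {ω | F (x, ω) ∈ E} = Set.univ := Set.eq_univ_of_forall h
  rw [this]; exact measure_univ

theorem kap_of_forall_not {x : Conf} {E : Set Conf} (hE : MeasurableSet E)
    (h : ∀ ω, F (x, ω) ∉ E) : kap x E = 0 := by
  rw [kap_apply x hE]
  have : {ω | F (x, ω) ∈ E} = ∅ := Set.eq_empty_of_forall_notMem h
  rw [this]; exact measure_empty

/-- One step of the automaton on measures. -/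
noncomputable def step (μ : Measure Conf) : Measure Conf := μ.bind (⇑kap)

theorem step_apply (μ : Measure Conf) {E : Set Conf} (hE : MeasurableSet E) :
    step μ E = ∫⁻ x, kap x E ∂μ := Measure.bind_apply hE kap.measurable.aemeasurable

instance (μ : Measure Conf) [IsProbabilityMeasure μ] : IsProbabilityMeasure (step μ) := by
  refine ⟨?_⟩
  rw [step_apply μ MeasurableSet.univ]; simp

theorem step_le (μ : Measure Conf) {E E' : Set Conf} (hE : MeasurableSet E)
    (hE' : MeasurableSet E') (h : ∀ x ω, F (x, ω) ∈ E → x ∈ E') : step μ E ≤ μ E' := by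
  rw [step_apply μ hE, ← lintegral_indicator_one hE']
  apply lintegral_mono
  intro x
  by_cases hx : x ∈ E'
  · simp only [Set.indicator_of_mem hx, Pi.one_apply]; exact prob_le_one
  · simp only [Set.indicator_of_notMem hx]
    rw [kap_of_forall_not hE (fun ω hω => hx (h x ω hω))]

theorem le_step (μ : Measure Conf) {E E' : Set Conf} (hE : MeasurableSet E)
    (hE' : MeasurableSet E') (h : ∀ x ∈ E', ∀ ω, F (x, ω) ∈ E) : μ E' ≤ step μ E := by
  rw [step_apply μ hE, ← lintegral_indicator_one hE']
  apply lintegral_mono
  intro x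
  by_cases hx : x ∈ E'
  · simp only [Set.indicator_of_mem hx, Pi.one_apply]
    rw [kap_of_forall hE (h x hx)]
  · simp only [Set.indicator_of_notMem hx]; exact zero_le

theorem measurableSet_coord (j : Site) (P : Fin 4 → Prop) : MeasurableSet {x : Conf | P (x j)} :=
  (measurable_pi_apply (X := fun _ : Site => Fin 4) j) (MeasurableSet.of_discrete (s := {a | P a}))

theorem F_pt (x : Conf) (ω : Coins) (j : ℤ) :
    F (x, ω) (pt j) = G (x (pt (j - 1))) (x (pt j)) (x (pt (j + 1))) (ω (pt j)) := by
  have h1 : pt j + pt (-1) = pt (j - 1) := by funext i; simp [pt]; ring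
  have h2 : pt j + pt 0 = pt j := by funext i; simp [pt]
  have h3 : pt j + pt 1 = pt (j + 1) := by funext i; simp [pt]
  simp only [F, h1, h2, h3]

/-! ### Runners -/

/-- `j` can be hit by a runner at time `t`: the runner starts at `j - t` and everything strictly
between is blank. -/
def D (t : ℕ) (j : ℤ) : Set Conf :=
  {x | x (pt (j - t)) = 1 ∧ ∀ i : ℕ, i < t → x (pt (j - i)) = 0}

theorem measurableSet_D (t : ℕ) (j : ℤ) : MeasurableSet (D t j) := by
  have : D t j = {x : Conf | x (pt (j - t)) = 1} ∩ ⋂ i : ℕ, ⋂ _ : i < t, {x : Conf | x (pt (j - i)) = 0} := by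
    ext x; simp [D]
  rw [this]
  refine (measurableSet_coord _ (fun a => a = 1)).inter ?_
  refine MeasurableSet.iInter fun i => ?_
  refine MeasurableSet.iInter fun _ => ?_
  exact measurableSet_coord _ (fun a => a = 0)

theorem D_step (t : ℕ) (j : ℤ) (x : Conf) (ω : Coins) (h : F (x, ω) ∈ D t j) : x ∈ D (t + 1) j := by
  obtain ⟨h1, h2⟩ := h
  rw [F_pt, G_eq_one] at h1
  obtain ⟨a1, a2, a3⟩ := h1
  have h3 : ∀ i : ℕ, i < t → (x (pt (j - i)) = 0 ∨ x (pt (j - i)) = 3) ∧ x (pt (j - i + 1)) ≠ 3 := by
    intro i hi
    have h4 := h2 i hi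
    rw [F_pt] at h4
    exact G_eq_zero h4
  refine ⟨?_, ?_⟩
  · have : j - ((t + 1 : ℕ) : ℤ) = j - t - 1 := by push_cast; ring
    rw [this]; exact a1
  · intro i hi
    rcases Nat.lt_succ_iff_lt_or_eq.1 hi with hi | rfl
    · rcases (h3 i hi).1 with h5 | h5
      · exact h5
      · exfalso
        -- the site to the left of `j - i` is `j - (i+1)`
        by_cases hit : i + 1 < t
        · have h6 := (h3 (i + 1) hit).2
          apply h6
          have : j - ((i + 1 : ℕ) : ℤ) + 1 = j - i := by push_cast; ring
          rw [this]; exact h5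
        · have hit' : t = i + 1 := by omega
          apply a3
          have : j - (t : ℤ) + 1 = j - i := by rw [hit']; push_cast; ring
          rw [this]; exact h5
    · exact a2

theorem D_zero (j : ℤ) : D 0 j = {x | x (pt j) = 1} := by
  ext x; simp [D]

theorem D_disjoint (j : ℤ) : Pairwise (Function.onFun Disjoint (fun t => D t j)) := by
  have key : ∀ s t : ℕ, s < t → Disjoint (D s j) (D t j) := by
    intro s t hst
    rw [Set.disjoint_left]
    intro x h1 h2
    have := h2.2 s hst
    rw [h1.1] at this
    exact absurd this (by decide)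
  intro s t hst
  rcases lt_or_gt_of_ne hst with h | h
  · exact key s t h
  · exact (key t s h).symm

/-- Iterates of the automaton. -/
noncomputable def it (μ : Measure Conf) (n : ℕ) : Measure Conf := step^[n] μ

theorem it_succ (μ : Measure Conf) (n : ℕ) : it μ (n + 1) = step (it μ n) := by
  unfold it; rw [Function.iterate_succ_apply']

theorem it_succ' (μ : Measure Conf) (n : ℕ) : it μ (n + 1) = it (step μ) n := by
  unfold it; rw [Function.iterate_succ_apply]

instance it_prob (μ : Measure Conf) [IsProbabilityMeasure μ] (n : ℕ) : IsProbabilityMeasure (it μ n) := by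
  induction n with
  | zero => simpa [it] using (inferInstance : IsProbabilityMeasure μ)
  | succ n ih => rw [it_succ]; infer_instance

theorem it_D_le (μ : Measure Conf) (n t : ℕ) (j : ℤ) : it μ n (D t j) ≤ μ (D (t + n) j) := by
  induction n generalizing t with
  | zero => simp [it]
  | succ n ih =>
    rw [it_succ]
    calc step (it μ n) (D t j) ≤ it μ n (D (t + 1) j) :=
          step_le _ (measurableSet_D _ _) (measurableSet_D _ _) (fun x ω h => D_step t j x ω h)
      _ ≤ μ (D (t + 1 + n) j) := ih (t + 1)
      _ = μ (D (t + (n + 1)) j) := by rw [add_assoc, add_comm 1 n]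

theorem tendsto_D (μ : Measure Conf) [IsProbabilityMeasure μ] (j : ℤ) :
    Tendsto (fun t => μ (D t j)) atTop (𝓝 0) := by
  have h1 : ∑' t, μ (D t j) ≠ ∞ := by
    rw [← measure_iUnion (D_disjoint j) (fun t => measurableSet_D t j)]
    exact measure_ne_top _ _
  exact ENNReal.tendsto_atTop_zero_of_tsum_ne_top h1

theorem tendsto_R (μ : Measure Conf) [IsProbabilityMeasure μ] (j : ℤ) :
    Tendsto (fun t => it μ t {x | x (pt j) = 1}) atTop (𝓝 0) := by
  refine tendsto_of_tendsto_of_tendsto_of_le_of_le tendsto_const_nhds (tendsto_D μ j)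
    (fun t => zero_le) (fun t => ?_)
  have := it_D_le μ t 0 j
  rw [D_zero, zero_add] at this
  exact this

end Pool.Agent.H563R3
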