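import Mathlib

set_option autoImplicit false
open Filter Topology

namespace Pool.Agent.H563R3

/-- Survival probability, up to time `t`, of the lazy symmetric walk on the nonnegative integers
started at `w` and killed at `0`. -/
noncomputable def surv : ℕ → ℕ → ℝ
  | 0, 0 => 0
  | 0, (_ + 1) => 1
  | (_ + 1), 0 => 0
  | (t + 1), (w + 1) => (surv t w + 2 * surv t (w + 1) + surv t (w + 2)) / 4

theorem surv_zero (t : ℕ) : surv t 0 = 0 := by cases t <;> simp [surv]

theorem surv_nonneg (t w : ℕ) : 0 ≤ surv t w := by
  induction t generalizing w with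
  | zero => cases w <;> simp [surv]
  | succ t ih =>
    cases w with
    | zero => simp [surv]
    | succ w => simp only [surv]; have := ih w; have := ih (w+1); have := ih (w+2); positivity

theorem surv_le_one (t w : ℕ) : surv t w ≤ 1 := by
  induction t generalizing w with
  | zero => cases w <;> simp [surv]
  | succ t ih =>
    cases w with
    | zero => simp [surv]
    | succ w => simp only [surv]; have := ih w; have := ih (w+1); have := ih (w+2); linarith

theorem surv_anti_step (t w : ℕ) : surv (t + 1) w ≤ surv t w := by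
  induction t generalizing w with
  | zero =>
    cases w with
    | zero => simp [surv]
    | succ w =>
      have h := surv_le_one 1 (w+1)
      simpa [surv] using h
  | succ t ih =>
    cases w with
    | zero => simp [surv]
    | succ w =>
      have h1 := ih w
      have h2 := ih (w+1)
      have h3 := ih (w+2)
      have e1 : surv (t + 1 + 1) (w + 1) =
        (surv (t+1) w + 2 * surv (t+1) (w + 1) + surv (t+1) (w + 2)) / 4 := by simp only [surv]
      have e2 : surv (t + 1) (w + 1) =
        (surv t w + 2 * surv t (w + 1) + surv t (w + 2)) / 4 := by simp only [surv]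
      rw [e1, e2]; linarith

theorem surv_antitone (w : ℕ) : Antitone (fun t => surv t w) :=
  antitone_nat_of_succ_le (fun t => surv_anti_step t w)

theorem surv_tendsto (w : ℕ) : Tendsto (fun t => surv t w) atTop (𝓝 0) := by
  have hbdd : ∀ w, BddBelow (Set.range (fun t => surv t w)) :=
    fun w => ⟨0, by rintro _ ⟨t, rfl⟩; exact surv_nonneg t w⟩
  set L : ℕ → ℝ := fun w => ⨅ t, surv t w with hL
  have hlim : ∀ w, Tendsto (fun t => surv t w) atTop (𝓝 (L w)) :=
    fun w => tendsto_atTop_ciInf (surv_antitone w) (hbdd w)
  have hL0 : L 0 = 0 := by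
    have h1 := hlim 0
    have h2 : Tendsto (fun t => surv t 0) atTop (𝓝 0) := by
      simp only [surv_zero]; exact tendsto_const_nhds
    exact tendsto_nhds_unique h1 h2
  have hrec : ∀ w, L (w+1) = (L w + 2 * L (w+1) + L (w+2)) / 4 := by
    intro w
    have h1 : Tendsto (fun t => surv (t+1) (w+1)) atTop (𝓝 (L (w+1))) :=
      (tendsto_add_atTop_iff_nat (f := fun t => surv t (w+1)) 1).2 (hlim (w+1))
    have h2 : Tendsto (fun t => (surv t w + 2 * surv t (w + 1) + surv t (w + 2)) / 4) atTop
        (𝓝 ((L w + 2 * L (w+1) + L (w+2)) / 4)) :=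
      (((hlim w).add ((hlim (w+1)).const_mul 2)).add (hlim (w+2))).div_const 4
    refine tendsto_nhds_unique h1 (h2.congr (fun t => ?_))
    simp only [surv]
  have hlin : ∀ w : ℕ, L w = w * L 1 ∧ L (w+1) = (w+1) * L 1 := by
    intro w
    induction w with
    | zero => simp [hL0]
    | succ w ih =>
      obtain ⟨h1, h2⟩ := ih
      have h3 := hrec w
      refine ⟨by push_cast; exact h2, ?_⟩
      push_cast
      linarith
  have hle : ∀ w, L w ≤ 1 := fun w => le_trans (ciInf_le (hbdd w) 0) (surv_le_one 0 w)
  have hge : ∀ w, 0 ≤ L w := fun w => le_ciInf (fun t => surv_nonneg t w)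
  have hL1 : L 1 = 0 := by
    by_contra hne
    have hpos : 0 < L 1 := lt_of_le_of_ne (hge 1) (Ne.symm hne)
    obtain ⟨n, hn⟩ := exists_nat_gt (1 / L 1)
    have h1 := (hlin n).1
    have h2 := hle n
    rw [h1] at h2
    rw [div_lt_iff₀ hpos] at hn
    linarith
  have : L w = 0 := by rw [(hlin w).1, hL1, mul_zero]
  rw [← this]; exact hlim w

end Pool.Agent.H563R3
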