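import Mathlib
import Pool.Agent.H563R3.PCA
import Pool.Agent.H563R3.Walk

set_option autoImplicit false
open MeasureTheory ProbabilityTheory Filter Topology
open scoped ENNReal

namespace Pool.Agent.H563R3

/-- A killer in the interval `[l, l + w)`. -/
def Kin (l : ℤ) (w : ℕ) : Set Conf := {x | ∃ i : ℕ, i < w ∧ isK (x (pt (l + i)))}

/-- A killer will be in `[l, l + w)` at the next time. -/
def Ain (l : ℤ) (w : ℕ) : Set Conf :=
  {x | ∃ i : ℕ, i < w ∧ arr (x (pt (l + i))) (x (pt (l + i + 1)))}

/-- A killer enters `[l, l + w)` or stays there. -/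
def Bin (l : ℤ) (w : ℕ) : Set Conf :=
  {x | ∃ i : ℕ, i < w ∧ (x (pt (l + i)) = 2 ∨ x (pt (l + i + 1)) = 3)}

/-- A runner in `[l, l + w)`. -/
def Rin (l : ℤ) (w : ℕ) : Set Conf := {x | ∃ i : ℕ, i < w ∧ x (pt (l + i)) = 1}

theorem measurableSet_two (a b : Site) (P : Fin 4 → Fin 4 → Prop) :
    MeasurableSet {x : Conf | P (x a) (x b)} := by
  have h : Measurable (fun x : Conf => (x a, x b)) := by fun_prop
  exact h (MeasurableSet.of_discrete (s := {q : Fin 4 × Fin 4 | P q.1 q.2}))

theorem measurableSet_Kin (l : ℤ) (w : ℕ) : MeasurableSet (Kin l w) := by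
  have : Kin l w = ⋃ i : ℕ, ⋃ _ : i < w, {x : Conf | isK (x (pt (l + i)))} := by
    ext x; simp [Kin]
  rw [this]
  refine MeasurableSet.iUnion fun i => ?_
  refine MeasurableSet.iUnion fun _ => ?_
  exact measurableSet_coord _ isK

theorem measurableSet_Ain (l : ℤ) (w : ℕ) : MeasurableSet (Ain l w) := by
  have : Ain l w = ⋃ i : ℕ, ⋃ _ : i < w,
      {x : Conf | arr (x (pt (l + i))) (x (pt (l + i + 1)))} := by
    ext x; simp [Ain]
  rw [this]
  refine MeasurableSet.iUnion fun i => ?_
  refine MeasurableSet.iUnion fun _ => ?_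
  exact measurableSet_two _ _ arr

theorem measurableSet_Bin (l : ℤ) (w : ℕ) : MeasurableSet (Bin l w) := by
  have : Bin l w = ⋃ i : ℕ, ⋃ _ : i < w,
      {x : Conf | x (pt (l + i)) = 2 ∨ x (pt (l + i + 1)) = 3} := by
    ext x; simp [Bin]
  rw [this]
  refine MeasurableSet.iUnion fun i => ?_
  refine MeasurableSet.iUnion fun _ => ?_
  exact measurableSet_two _ _ (fun a b => a = 2 ∨ b = 3)

theorem measurableSet_Rin (l : ℤ) (w : ℕ) : MeasurableSet (Rin l w) := by
  have : Rin l w = ⋃ i : ℕ, ⋃ _ : i < w, {x : Conf | x (pt (l + i)) = 1} := by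
    ext x; simp [Rin]
  rw [this]
  refine MeasurableSet.iUnion fun i => ?_
  refine MeasurableSet.iUnion fun _ => ?_
  exact measurableSet_coord _ (fun a => a = 1)

theorem F_mem_Kin (x : Conf) (ω : Coins) (l : ℤ) (w : ℕ) : F (x, ω) ∈ Kin l w ↔ x ∈ Ain l w := by
  simp only [Kin, Ain, Set.mem_ofPred_eq, F_pt, isK_G]

theorem kap_Kin (x : Conf) (l : ℤ) (w : ℕ) : kap x (Kin l w) = (Ain l w).indicator 1 x := by
  by_cases hx : x ∈ Ain l w
  · rw [Set.indicator_of_mem hx, kap_of_forall (measurableSet_Kin l w)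
      (fun ω => (F_mem_Kin x ω l w).2 hx)]; rfl
  · rw [Set.indicator_of_notMem hx, kap_of_forall_not (measurableSet_Kin l w)
      (fun ω h => hx ((F_mem_Kin x ω l w).1 h))]

theorem step_Kin (μ : Measure Conf) (l : ℤ) (w : ℕ) : step μ (Kin l w) = μ (Ain l w) := by
  rw [step_apply μ (measurableSet_Kin l w)]
  simp only [kap_Kin]
  exact lintegral_indicator_one (measurableSet_Ain l w)

theorem Ain_subset (l : ℤ) (w : ℕ) : Ain l w ⊆ Rin l w ∪ Bin l w := by
  rintro x ⟨i, hi, h⟩
  rcases h with h | h | h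
  · exact Or.inl ⟨i, hi, h⟩
  · exact Or.inr ⟨i, hi, Or.inl h⟩
  · exact Or.inr ⟨i, hi, Or.inr h⟩

theorem nu_one (a : Site) (b : Bool) : nu {ω | ω a = b} = 1 / 2 := by
  have h := Measure.infinitePi_map_eval (fun _ : Site => coin) a
  have h2 : nu {ω | ω a = b} = (nu.map (fun ω => ω a)) {b} := by
    rw [Measure.map_apply (by fun_prop) (MeasurableSet.singleton b)]; rfl
  rw [h2]
  unfold nu
  rw [h, coin_singleton]

theorem nu_two {a b : Site} (hab : a ≠ b) (s t : Bool) :
    nu {ω | ω a = s ∧ ω b = t} = 1 / 4 := by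
  have h1 : {ω : Coins | ω a = s ∧ ω b = t} =
      Set.pi (({a, b} : Finset Site) : Set Site) (fun k => if k = a then {s} else {t}) := by
    ext ω
    simp only [Set.mem_ofPred_eq, Set.mem_pi, Finset.coe_insert, Finset.coe_singleton,
      Set.mem_insert_iff, Set.mem_singleton_iff, forall_eq_or_imp, forall_eq, if_true]
    rw [if_neg (Ne.symm hab)]
    simp
  unfold nu
  rw [h1, Measure.infinitePi_pi _ (fun i _ => MeasurableSet.of_discrete)]
  rw [Finset.prod_pair hab, if_pos rfl, if_neg (Ne.symm hab), coin_singleton, coin_singleton]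
  simp only [one_div]
  rw [← ENNReal.mul_inv (by simp) (by simp)]
  norm_num

theorem four_half : (4 : ℝ≥0∞) * (1 / 2) = 2 := by
  have h : (4 : ℝ≥0∞) = 2 * 2 := by norm_num
  rw [h, one_div, mul_assoc, ENNReal.mul_inv_cancel (by simp) (by simp), mul_one]

theorem four_quarter : (4 : ℝ≥0∞) * (1 / 4) = 1 := by
  rw [one_div]
  exact ENNReal.mul_inv_cancel (by simp) (by simp)

/-- indicator as a number -/
noncomputable def ind (E : Set Conf) (x : Conf) : ℝ≥0∞ := E.indicator 1 x

theorem ind_of_mem {E : Set Conf} {x : Conf} (h : x ∈ E) : ind E x = 1 := by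
  unfold ind; rw [Set.indicator_of_mem h]; rfl

theorem F_mem_Bin (x : Conf) (ω : Coins) (l : ℤ) (w : ℕ) (h : F (x, ω) ∈ Bin l (w + 1)) :
    x ∈ Ain (l + 1) w ∨ (arr (x (pt l)) (x (pt (l + 1))) ∧ ω (pt l) = false) ∨
      (arr (x (pt (l + 1 + w))) (x (pt (l + 1 + w + 1))) ∧ ω (pt (l + 1 + w)) = true) := by
  obtain ⟨i, hi, h⟩ := h
  rw [F_pt, F_pt, G_eq_two, G_eq_three] at h
  rcases h with h | h
  · rcases Nat.eq_zero_or_pos i with rfl | hpos
    · right; left
      simpa using h
    · left
      refine ⟨i - 1, by omega, ?_⟩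
      have e : l + 1 + ((i - 1 : ℕ) : ℤ) = l + i := by omega
      rw [e]; exact h.1
  · by_cases hiw : i = w
    · right; right
      subst hiw
      have e : l + (i : ℤ) + 1 = l + 1 + i := by ring
      rw [e] at h
      exact h
    · left
      refine ⟨i, by omega, ?_⟩
      have e : l + 1 + (i : ℤ) = l + i + 1 := by ring
      rw [e]; exact h.1

theorem kap_Bin (x : Conf) (l : ℤ) (w : ℕ) :
    4 * kap x (Bin l (w + 1)) ≤ ind (Ain l (w + 1)) x + ind (Ain l (w + 2)) x
      + ind (Ain (l + 1) w) x + ind (Ain (l + 1) (w + 1)) x := by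
  have hB := measurableSet_Bin l (w + 1)
  by_cases h0 : x ∈ Ain (l + 1) w
  · have m1 : x ∈ Ain l (w + 1) := by
      obtain ⟨i, hi, h⟩ := h0
      refine ⟨i + 1, by omega, ?_⟩
      have e : l + ((i + 1 : ℕ) : ℤ) = l + 1 + i := by push_cast; ring
      rw [e]; exact h
    have m2 : x ∈ Ain l (w + 2) := by
      obtain ⟨i, hi, h⟩ := m1
      exact ⟨i, by omega, h⟩
    have m4 : x ∈ Ain (l + 1) (w + 1) := by
      obtain ⟨i, hi, h⟩ := h0
      exact ⟨i, by omega, h⟩
    rw [ind_of_mem h0, ind_of_mem m1, ind_of_mem m2, ind_of_mem m4]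
    calc 4 * kap x (Bin l (w + 1)) ≤ 4 * 1 := by gcongr; exact prob_le_one
      _ = 1 + 1 + 1 + 1 := by norm_num
  · by_cases hp : arr (x (pt l)) (x (pt (l + 1)))
    · have m1 : x ∈ Ain l (w + 1) := ⟨0, by omega, by simpa using hp⟩
      have m2 : x ∈ Ain l (w + 2) := ⟨0, by omega, by simpa using hp⟩
      by_cases hq : arr (x (pt (l + 1 + w))) (x (pt (l + 1 + w + 1)))
      · have m4 : x ∈ Ain (l + 1) (w + 1) := ⟨w, by omega, hq⟩
        rw [ind_of_mem m1, ind_of_mem m2, ind_of_mem m4, kap_apply x hB]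
        have hne : pt l ≠ pt (l + 1 + w) := by
          intro h
          have := congrFun h 0
          simp only [pt] at this
          omega
        have hsub : {ω | F (x, ω) ∈ Bin l (w + 1)} ⊆
            {ω | ω (pt l) = false} ∪ {ω | ω (pt l) = true ∧ ω (pt (l + 1 + w)) = true} := by
          intro ω hω
          rcases F_mem_Bin x ω l w hω with h | h | h
          · exact absurd h h0
          · exact Or.inl h.2
          · cases hl : ω (pt l) with
            | false => exact Or.inl hl
            | true => exact Or.inr ⟨hl, h.2⟩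
        calc 4 * nu {ω | F (x, ω) ∈ Bin l (w + 1)}
            ≤ 4 * (1 / 2 + 1 / 4) := by
              gcongr
              refine (measure_mono hsub).trans ((measure_union_le _ _).trans ?_)
              rw [nu_one, nu_two hne]
          _ = 1 + 1 + 1 := by rw [mul_add, four_half, four_quarter]; norm_num
          _ ≤ 1 + 1 + ind (Ain (l + 1) w) x + 1 := by
              exact add_le_add le_self_add le_rfl
      · rw [ind_of_mem m1, ind_of_mem m2, kap_apply x hB]
        have hsub : {ω | F (x, ω) ∈ Bin l (w + 1)} ⊆ {ω | ω (pt l) = false} := by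
          intro ω hω
          rcases F_mem_Bin x ω l w hω with h | h | h
          · exact absurd h h0
          · exact h.2
          · exact absurd h.1 hq
        calc 4 * nu {ω | F (x, ω) ∈ Bin l (w + 1)}
            ≤ 4 * (1 / 2) := by
              gcongr
              refine (measure_mono hsub).trans ?_
              rw [nu_one]
          _ = 1 + 1 := by rw [four_half]; norm_num
          _ ≤ 1 + 1 + ind (Ain (l + 1) w) x := le_self_add
          _ ≤ _ := le_self_add
    · by_cases hq : arr (x (pt (l + 1 + w))) (x (pt (l + 1 + w + 1)))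
      · have m4 : x ∈ Ain (l + 1) (w + 1) := ⟨w, by omega, hq⟩
        have m2 : x ∈ Ain l (w + 2) := by
          refine ⟨w + 1, by omega, ?_⟩
          have e : l + ((w + 1 : ℕ) : ℤ) = l + 1 + w := by push_cast; ring
          rw [e]; exact hq
        rw [ind_of_mem m2, ind_of_mem m4, kap_apply x hB]
        have hsub : {ω | F (x, ω) ∈ Bin l (w + 1)} ⊆ {ω | ω (pt (l + 1 + w)) = true} := by
          intro ω hω
          rcases F_mem_Bin x ω l w hω with h | h | h
          · exact absurd h h0
          · exact absurd h.1 hp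
          · exact h.2
        calc 4 * nu {ω | F (x, ω) ∈ Bin l (w + 1)}
            ≤ 4 * (1 / 2) := by
              gcongr
              refine (measure_mono hsub).trans ?_
              rw [nu_one]
          _ = 1 + 1 := by rw [four_half]; norm_num
          _ ≤ ind (Ain l (w + 1)) x + 1 + ind (Ain (l + 1) w) x + 1 := by
              gcongr
              calc (1 : ℝ≥0∞) ≤ ind (Ain l (w + 1)) x + 1 := le_add_self
                _ ≤ _ := le_self_add
      · have : kap x (Bin l (w + 1)) = 0 := by
          apply kap_of_forall_not hB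
          intro ω hω
          rcases F_mem_Bin x ω l w hω with h | h | h
          · exact absurd h h0
          · exact absurd h.1 hp
          · exact absurd h.1 hq
        rw [this, mul_zero]
        exact zero_le

theorem step_Bin (μ : Measure Conf) (l : ℤ) (w : ℕ) :
    4 * step μ (Bin l (w + 1)) ≤ step μ (Kin l (w + 1)) + step μ (Kin l (w + 2))
      + step μ (Kin (l + 1) w) + step μ (Kin (l + 1) (w + 1)) := by
  simp only [step_Kin]
  rw [step_apply μ (measurableSet_Bin l (w + 1)),
    ← lintegral_const_mul' _ _ (by simp)]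
  have hm : ∀ E : Set Conf, MeasurableSet E → μ E = ∫⁻ x, ind E x ∂μ := by
    intro E hE
    exact (lintegral_indicator_one hE).symm
  have hmeas : ∀ E : Set Conf, MeasurableSet E → Measurable (ind E) := by
    intro E hE
    exact measurable_one.indicator hE
  rw [hm _ (measurableSet_Ain l (w + 1)), hm _ (measurableSet_Ain l (w + 2)),
    hm _ (measurableSet_Ain (l + 1) w), hm _ (measurableSet_Ain (l + 1) (w + 1)),
    ← lintegral_add_right _ (hmeas _ (measurableSet_Ain l (w + 2))),
    ← lintegral_add_right _ (hmeas _ (measurableSet_Ain (l + 1) w)),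
    ← lintegral_add_right _ (hmeas _ (measurableSet_Ain (l + 1) (w + 1)))]
  exact lintegral_mono (fun x => kap_Bin x l w)

/-- The key recursion. -/
theorem key (μ : Measure Conf) (l : ℤ) (w : ℕ) :
    4 * step (step μ) (Kin l (w + 1)) ≤ 4 * step μ (Rin l (w + 1)) +
      (step μ (Kin l (w + 1)) + step μ (Kin l (w + 2))
      + step μ (Kin (l + 1) w) + step μ (Kin (l + 1) (w + 1))) := by
  rw [step_Kin (step μ)]
  calc 4 * step μ (Ain l (w + 1)) ≤ 4 * (step μ (Rin l (w + 1)) + step μ (Bin l (w + 1))) := by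
        gcongr
        exact (measure_mono (Ain_subset l (w + 1))).trans (measure_union_le _ _)
    _ = 4 * step μ (Rin l (w + 1)) + 4 * step μ (Bin l (w + 1)) := mul_add _ _ _
    _ ≤ _ := by gcongr; exact step_Bin μ l w

theorem key_real (μ : Measure Conf) [IsProbabilityMeasure μ] (t : ℕ) (l : ℤ) (w : ℕ) :
    (it μ (t + 2)).real (Kin l (w + 1)) ≤ (it μ (t + 1)).real (Rin l (w + 1)) +
      ((it μ (t + 1)).real (Kin l (w + 1)) + (it μ (t + 1)).real (Kin l (w + 2))
      + (it μ (t + 1)).real (Kin (l + 1) w) + (it μ (t + 1)).real (Kin (l + 1) (w + 1))) / 4 := by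
  have h := key (it μ t) l w
  rw [← it_succ, ← it_succ] at h
  have h2 := ENNReal.toReal_mono (by
    simp only [ne_eq, ENNReal.add_eq_top, measure_ne_top, or_self, or_false]
    exact ENNReal.mul_ne_top (by simp) (measure_ne_top _ _)) h
  rw [ENNReal.toReal_mul, ENNReal.toReal_add (ENNReal.mul_ne_top (by simp) (measure_ne_top _ _))
    (by simp [ENNReal.add_eq_top, measure_ne_top]),
    ENNReal.toReal_add (by simp [ENNReal.add_eq_top, measure_ne_top]) (measure_ne_top _ _),
    ENNReal.toReal_add (by simp [ENNReal.add_eq_top, measure_ne_top]) (measure_ne_top _ _),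
    ENNReal.toReal_add (measure_ne_top _ _) (measure_ne_top _ _), ENNReal.toReal_mul] at h2
  have e4 : (4 : ℝ≥0∞).toReal = 4 := by norm_num
  rw [e4] at h2
  simp only [Measure.real]
  linarith

theorem tendsto_Rin (μ : Measure Conf) [IsProbabilityMeasure μ] (l : ℤ) (w : ℕ) :
    Tendsto (fun t => (it μ t).real (Rin l w)) atTop (𝓝 0) := by
  have h1 : Tendsto (fun t => ∑ i ∈ Finset.range w, (it μ t).real {x | x (pt (l + i)) = 1}) atTop
      (𝓝 (∑ i ∈ Finset.range w, (0 : ℝ))) := by
    apply tendsto_finsetSum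
    intro i _
    have := tendsto_R μ (l + i)
    have h2 := (ENNReal.tendsto_toReal (a := 0) (by simp)).comp this
    exact h2
  rw [Finset.sum_const_zero] at h1
  refine tendsto_of_tendsto_of_tendsto_of_le_of_le tendsto_const_nhds h1
    (fun t => measureReal_nonneg) (fun t => ?_)
  have h3 : Rin l w = ⋃ i ∈ Finset.range w, {x : Conf | x (pt (l + i)) = 1} := by
    ext x; simp [Rin]
  simp only
  rw [h3]
  exact measureReal_biUnion_finset_le _ _

theorem limsup_bound (μ : Measure Conf) [IsProbabilityMeasure μ] (τ : ℕ) :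
    ∀ (l : ℤ) (w : ℕ) (ε : ℝ), 0 < ε →
      ∀ᶠ t in atTop, (it μ t).real (Kin l w) ≤ surv τ w + ε := by
  induction τ with
  | zero =>
    intro l w ε hε
    refine Eventually.of_forall (fun t => ?_)
    cases w with
    | zero =>
      have : Kin l 0 = ∅ := by ext x; simp [Kin]
      rw [this]; simp [surv]; exact hε.le
    | succ w =>
      have : (it μ t).real (Kin l (w + 1)) ≤ 1 := measureReal_le_one
      simp only [surv]; linarith
  | succ τ ih =>
    intro l w ε hε
    cases w with
    | zero =>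
      refine Eventually.of_forall (fun t => ?_)
      have : Kin l 0 = ∅ := by ext x; simp [Kin]
      rw [this]; simp [surv]; exact hε.le
    | succ w =>
      have hε2 : 0 < ε / 2 := by linarith
      have hr := (tendsto_Rin μ l (w + 1)).eventually (gt_mem_nhds hε2)
      have h1 := ih l (w + 1) (ε / 2) hε2
      have h2 := ih l (w + 2) (ε / 2) hε2
      have h3 := ih (l + 1) w (ε / 2) hε2
      have h4 := ih (l + 1) (w + 1) (ε / 2) hε2
      have hall := hr.and (h1.and (h2.and (h3.and h4)))
      obtain ⟨T, hT⟩ := eventually_atTop.1 hall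
      refine eventually_atTop.2 ⟨T + 2, fun t ht => ?_⟩
      obtain ⟨s, rfl⟩ : ∃ s, t = s + 2 := ⟨t - 2, by omega⟩
      obtain ⟨a0, a1, a2, a3, a4⟩ := hT (s + 1) (by omega)
      have hk := key_real μ s l w
      have e : surv (τ + 1) (w + 1) = (surv τ w + 2 * surv τ (w + 1) + surv τ (w + 2)) / 4 := by
        simp only [surv]
      rw [e]
      linarith

theorem tendsto_K (μ : Measure Conf) [IsProbabilityMeasure μ] (j : ℤ) :
    Tendsto (fun t => (it μ t).real {x | isK (x (pt j))}) atTop (𝓝 0) := by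
  have hset : {x : Conf | isK (x (pt j))} = Kin j 1 := by
    ext x; simp [Kin]
  rw [hset]
  rw [Metric.tendsto_atTop]
  intro ε hε
  have h1 := (surv_tendsto 1).eventually (gt_mem_nhds (half_pos hε))
  obtain ⟨τ, hτ⟩ := h1.exists
  obtain ⟨T, hT⟩ := eventually_atTop.1 (limsup_bound μ τ j 1 (ε / 2) (half_pos hε))
  refine ⟨T, fun t ht => ?_⟩
  have h2 := hT t ht
  rw [Real.dist_eq, sub_zero, abs_of_nonneg measureReal_nonneg]
  linarith

theorem tendsto_nonblank (μ : Measure Conf) [IsProbabilityMeasure μ] (j : ℤ) :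
    Tendsto (fun t => (it μ t).real {x | x (pt j) ≠ 0}) atTop (𝓝 0) := by
  have hR : Tendsto (fun t => (it μ t).real {x : Conf | x (pt j) = 1}) atTop (𝓝 0) := by
    have h2 := (ENNReal.tendsto_toReal (a := 0) (by simp)).comp (tendsto_R μ j)
    exact h2
  have h := hR.add (tendsto_K μ j)
  rw [add_zero] at h
  refine tendsto_of_tendsto_of_tendsto_of_le_of_le tendsto_const_nhds h
    (fun t => measureReal_nonneg) (fun t => ?_)
  have hsub : {x : Conf | x (pt j) ≠ 0} ⊆ {x | x (pt j) = 1} ∪ {x | isK (x (pt j))} := by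
    intro x hx
    simp only [Set.mem_union, Set.mem_ofPred_eq, isK] at *
    revert hx
    generalize x (pt j) = a
    revert a; decide
  exact (measureReal_mono hsub).trans (measureReal_union_le _ _)

end Pool.Agent.H563R3
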