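import Mathlib
import Pool.Agent.H563R3.PCA2

set_option autoImplicit false
open MeasureTheory ProbabilityTheory Filter Topology
open scoped ENNReal

namespace Pool.Agent.H563R3

/-- The blank configuration. -/
def blank : Conf := fun _ => 0

theorem pt_zero_eq (k : Site) : pt (k 0) = k := by
  funext i; simp only [pt]; rw [Subsingleton.elim i 0]

theorem ergodic (μ : Measure Conf) [IsProbabilityMeasure μ] (S : Finset Site) (a : Conf) :
    Tendsto (fun n : ℕ => (it μ n) {x | ∀ k ∈ S, x k = a k}) atTop
      (𝓝 ((Measure.dirac blank) {x | ∀ k ∈ S, x k = a k})) := by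
  have hmeas : MeasurableSet {x : Conf | ∀ k ∈ S, x k = a k} := by
    have : {x : Conf | ∀ k ∈ S, x k = a k} = ⋂ k ∈ S, {x : Conf | x k = a k} := by
      ext x; simp
    rw [this]
    exact Finset.measurableSet_biInter S (fun k _ => measurableSet_coord k (fun b => b = a k))
  have hnb : ∀ k : Site, Tendsto (fun n => (it μ n) {x : Conf | x k ≠ 0}) atTop (𝓝 0) := by
    intro k
    have h := tendsto_nonblank μ (k 0)
    rw [pt_zero_eq] at h
    rw [← ENNReal.toReal_zero] at h
    exact (ENNReal.tendsto_toReal_iff (fun n => measure_ne_top _ _) (by simp)).1 h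
  by_cases hall : ∀ k ∈ S, a k = 0
  · have h1 : (Measure.dirac blank) {x : Conf | ∀ k ∈ S, x k = a k} = 1 := by
      rw [Measure.dirac_apply' _ hmeas, Set.indicator_of_mem]
      · rfl
      · intro k hk; rw [hall k hk]; rfl
    rw [h1]
    have hsum : Tendsto (fun n => ∑ k ∈ S, (it μ n) {x : Conf | x k ≠ 0}) atTop (𝓝 0) := by
      have := tendsto_finsetSum S (fun k _ => hnb k)
      simpa using this
    have h2 : Tendsto (fun n => (1 : ℝ≥0∞) - ∑ k ∈ S, (it μ n) {x : Conf | x k ≠ 0}) atTop
        (𝓝 (1 - 0)) := ENNReal.Tendsto.sub tendsto_const_nhds hsum (Or.inl (by simp))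
    rw [tsub_zero] at h2
    refine tendsto_of_tendsto_of_tendsto_of_le_of_le h2 tendsto_const_nhds (fun n => ?_)
      (fun n => prob_le_one)
    simp only
    rw [tsub_le_iff_right]
    calc (1 : ℝ≥0∞) = it μ n Set.univ := measure_univ.symm
      _ ≤ it μ n ({x | ∀ k ∈ S, x k = a k} ∪ ⋃ k ∈ S, {x : Conf | x k ≠ 0}) := by
          apply measure_mono
          intro x _
          by_cases hx : ∀ k ∈ S, x k = a k
          · exact Or.inl hx
          · right
            push Not at hx
            obtain ⟨k, hk, hne⟩ := hx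
            simp only [Set.mem_iUnion]
            exact ⟨k, hk, by rw [← hall k hk]; exact hne⟩
      _ ≤ _ := (measure_union_le _ _).trans (by gcongr; exact measure_biUnion_finset_le _ _)
  · push Not at hall
    obtain ⟨k, hk, hne⟩ := hall
    have h1 : (Measure.dirac blank) {x : Conf | ∀ k ∈ S, x k = a k} = 0 := by
      rw [Measure.dirac_apply' _ hmeas, Set.indicator_of_notMem]
      intro h
      exact hne (h k hk).symm
    rw [h1]
    refine tendsto_of_tendsto_of_tendsto_of_le_of_le tendsto_const_nhds (hnb k)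
      (fun n => zero_le) (fun n => measure_mono ?_)
    intro x hx
    show x k ≠ 0
    rw [hx k hk]; exact hne

/-! ### Non uniformity -/

/-- A runner at `j` and blanks to the right of it. -/
def Free (j : ℤ) : Set Conf := {x | x (pt j) = 1 ∧ ∀ m : ℕ, x (pt (j + 1 + m)) = 0}

theorem measurableSet_Free (j : ℤ) : MeasurableSet (Free j) := by
  have : Free j = {x : Conf | x (pt j) = 1} ∩ ⋂ m : ℕ, {x : Conf | x (pt (j + 1 + m)) = 0} := by
    ext x; simp [Free]
  rw [this]
  refine (measurableSet_coord _ (fun a => a = 1)).inter ?_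
  exact MeasurableSet.iInter fun m => measurableSet_coord _ (fun a => a = 0)

theorem Free_step (j : ℤ) (x : Conf) (hx : x ∈ Free j) (ω : Coins) : F (x, ω) ∈ Free (j + 1) := by
  obtain ⟨h1, h2⟩ := hx
  have g0 : x (pt (j + 1)) = 0 := by simpa using h2 0
  have g : ∀ m : ℕ, x (pt (j + 1 + 1 + m)) = 0 := by
    intro m
    have := h2 (m + 1)
    have e : j + 1 + ((m + 1 : ℕ) : ℤ) = j + 1 + 1 + m := by push_cast; ring
    rwa [e] at this
  refine ⟨?_, ?_⟩
  · rw [F_pt, G_eq_one]
    refine ⟨?_, g0, ?_⟩
    · have e : j + 1 - 1 = j := by ring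
      rw [e]; exact h1
    · have := g 0
      simp only [Nat.cast_zero, add_zero] at this
      rw [this]; decide
  · intro m
    rw [F_pt]
    have a1 : x (pt (j + 1 + 1 + m)) = 0 := g m
    have a2 : x (pt (j + 1 + 1 + m + 1)) = 0 := by
      have := g (m + 1)
      have e : j + 1 + 1 + ((m + 1 : ℕ) : ℤ) = j + 1 + 1 + m + 1 := by push_cast; ring
      rwa [e] at this
    have a0 : x (pt (j + 1 + 1 + m - 1)) = 0 := by
      have := h2 m
      have e : j + 1 + 1 + (m : ℤ) - 1 = j + 1 + m := by ring
      rw [e]; exact this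
    rw [a0, a1, a2]
    cases ω (pt (j + 1 + 1 + m)) <;> decide

theorem Free_it (μ : Measure Conf) (j : ℤ) (n : ℕ) : μ (Free j) ≤ it μ n (Free (j + n)) := by
  induction n generalizing μ j with
  | zero => simp [it]
  | succ n ih =>
    rw [it_succ']
    calc μ (Free j) ≤ step μ (Free (j + 1)) :=
          le_step μ (measurableSet_Free _) (measurableSet_Free _) (fun x hx ω => Free_step j x hx ω)
      _ ≤ it (step μ) n (Free (j + 1 + n)) := ih (step μ) (j + 1)
      _ = it (step μ) n (Free (j + (n + 1 : ℕ))) := by
          congr 2; push_cast; ring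

/-- A single runner at `j`. -/
def single (j : ℤ) : Conf := fun k => if k = pt j then 1 else 0

theorem single_mem (j : ℤ) : single j ∈ Free j := by
  refine ⟨by simp [single], ?_⟩
  intro m
  have : pt (j + 1 + m) ≠ pt j := by
    intro h
    have := congrFun h 0
    simp only [pt] at this
    omega
  simp [single, this]

theorem hit (n : ℕ) : it (Measure.dirac (single (-n))) n {x : Conf | x (pt 0) = 1} = 1 := by
  apply le_antisymm prob_le_one
  have h := Free_it (Measure.dirac (single (-n))) (-n) n
  rw [Measure.dirac_apply' _ (measurableSet_Free _), Set.indicator_of_mem (single_mem _)] at h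
  refine le_trans h (measure_mono ?_)
  intro x hx
  have := hx.1
  simpa using this

theorem nohit (n : ℕ) : it (Measure.dirac blank) n {x : Conf | x (pt 0) = 1} = 0 := by
  apply le_antisymm _ zero_le
  have h := it_D_le (Measure.dirac blank) n 0 0
  rw [D_zero] at h
  refine h.trans ?_
  rw [Measure.dirac_apply' _ (measurableSet_D _ _), Set.indicator_of_notMem]
  intro hx
  have := hx.1
  simp [blank] at this

end Pool.Agent.H563R3
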